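import Pool.Agent.H554.Stmts

/-!
# The semifilter trichotomy (sections 1.1 - 1.3)
-/

set_option autoImplicit false

namespace Pool.Agent.H554

namespace Tri

/-! ### Small facts -/

theorem unb_iff {C : Set ℕ} : Unb C ↔ C.Infinite := by
  constructor
  · intro h
    refine Set.infinite_of_forall_exists_gt fun a => ?_
    obtain ⟨n, hn, hC⟩ := h (a + 1)
    exact ⟨n, hC, hn⟩
  · intro h N
    obtain ⟨b, hb, hN⟩ := h.exists_gt N
    exact ⟨b, hN.le, hb⟩

theorem blk_unique {h : ℕ → ℕ} (hh : StrictMono h) {n n' m : ℕ} (h1 : h n ≤ m) (h2 : m < h (n + 1))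
    (h3 : h n' ≤ m) (h4 : m < h (n' + 1)) : n = n' := by
  rcases lt_trichotomy n n' with h5 | h5 | h5
  · have := hh.monotone (show n + 1 ≤ n' from h5)
    omega
  · exact h5
  · have := hh.monotone (show n' + 1 ≤ n from h5)
    omega

theorem exists_blk {h : ℕ → ℕ} (hh : StrictMono h) {m : ℕ} (hm : h 0 ≤ m) :
    ∃ n, h n ≤ m ∧ m < h (n + 1) := by
  classical
  have hex : ∃ k, m < h k := ⟨m + 1, lt_of_lt_of_le (Nat.lt_succ_self m) (hh.le_apply)⟩
  have h1 := Nat.find_spec hex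
  have h2 : Nat.find hex ≠ 0 := by
    intro h0
    rw [h0] at h1
    omega
  obtain ⟨n, hn⟩ := Nat.exists_eq_succ_of_ne_zero h2
  refine ⟨n, ?_, ?_⟩
  · have h3 := Nat.find_min hex (show n < Nat.find hex by omega)
    omega
  · rw [hn] at h1
    exact h1

theorem blk_mem {h : ℕ → ℕ} (hh : StrictMono h) {A : Set ℕ} {n m : ℕ} (h1 : h n ≤ m)
    (h2 : m < h (n + 1)) : m ∈ blk h A ↔ n ∈ A := by
  constructor
  · rintro ⟨n', hn', h3, h4⟩
    rwa [blk_unique hh h1 h2 h3 h4]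
  · intro hn
    exact ⟨n, hn, h1, h2⟩

theorem blk_finite (h : ℕ → ℕ) {A : Set ℕ} (hA : A.Finite) : (blk h A).Finite := by
  refine (hA.biUnion (fun n _ => Set.finite_Ico (h n) (h (n + 1)))).subset ?_
  rintro m ⟨n, hn, h1, h2⟩
  exact Set.mem_biUnion hn ⟨h1, h2⟩

theorem blk_infinite {h : ℕ → ℕ} (hh : StrictMono h) {A : Set ℕ} (hA : A.Infinite) :
    (blk h A).Infinite := by
  refine (hA.image hh.injective.injOn).mono ?_
  rintro m ⟨n, hn, rfl⟩
  exact ⟨n, hn, le_rfl, hh (Nat.lt_succ_self n)⟩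

theorem blk_cofinite {h : ℕ → ℕ} (hh : StrictMono h) {A : Set ℕ} (hA : Aᶜ.Finite) :
    ((blk h A)ᶜ).Finite := by
  refine ((Set.finite_lt_nat (h 0)).union (blk_finite h hA)).subset ?_
  intro m hm
  by_cases h0 : m < h 0
  · exact Or.inl h0
  · obtain ⟨n, h1, h2⟩ := exists_blk hh (not_lt.1 h0)
    exact Or.inr ⟨n, fun hn => hm ⟨n, hn, h1, h2⟩, h1, h2⟩

/-- the blocks met by a set -/
def quo (h : ℕ → ℕ) (E : Set ℕ) : Set ℕ := {n | ∃ m ∈ E, h n ≤ m ∧ m < h (n + 1)}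

theorem quo_sub {h : ℕ → ℕ} (hh : StrictMono h) {E Z : Set ℕ} (hE : E ⊆ blk h Z) :
    quo h E ⊆ Z := by
  rintro n ⟨m, hm, h1, h2⟩
  exact (blk_mem hh h1 h2).1 (hE hm)

/-- type A -/
def TypA (S : Set (Set ℕ)) : Prop := ∃ h : ℕ → ℕ, StrictMono h ∧
  ∀ C ∈ S, ∃ N, ∀ n, N ≤ n → ∃ m ∈ C, h n ≤ m ∧ m < h (n + 1)

/-! ### 1.1 -/

theorem notDom_dense (f : ℕ → ℕ) :
    GwDense {C : Set ℕ | ∀ N, ∃ n, N ≤ n ∧ ∀ k, n ≤ k → k ≤ f n → k ∉ C} := by
  constructor
  · rintro C C' hC - ⟨M, hM⟩ N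
    obtain ⟨n, hn, hk⟩ := hC (max N M)
    refine ⟨n, le_trans (le_max_left _ _) hn, fun k h1 h2 h3 => hk k h1 h2 (hM k ?_ h3)⟩
    exact le_trans (le_trans (le_max_right _ _) hn) h1
  · intro H hH
    choose nx hnx using hH
    let s : ℕ → ℕ := fun k => Nat.rec (nx 0) (fun _ x => nx (f (nx (x + 1)) + nx (x + 1) + 1)) k
    have hs0 : s 0 = nx 0 := rfl
    have hss : ∀ k, s (k + 1) = nx (f (nx (s k + 1)) + nx (s k + 1) + 1) := fun k => rfl
    have hsH : ∀ k, s k ∈ H := by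
      intro k
      cases k with
      | zero => exact (hnx 0).2
      | succ k => rw [hss]; exact (hnx _).2
    have h1 : ∀ k, s k < nx (s k + 1) := fun k => (hnx (s k + 1)).1
    have h2 : ∀ k, f (nx (s k + 1)) + nx (s k + 1) + 1 ≤ s (k + 1) := by
      intro k
      rw [hss]
      exact (hnx _).1
    have hmono : StrictMono s := strictMono_nat_of_lt_succ fun k => by
      have := h1 k
      have := h2 k
      omega
    refine ⟨{m | ∃ k, s k ≤ m ∧ m < nx (s k + 1)}, ?_, ?_⟩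
    · intro N
      refine ⟨nx (s N + 1), ?_, ?_⟩
      · have h3 := hmono.le_apply (x := N)
        have := h1 N
        omega
      · rintro k hk1 hk2 ⟨j, hj1, hj2⟩
        rcases lt_or_ge j (N + 1) with hj | hj
        · have h3 : nx (s j + 1) ≤ nx (s N + 1) := by
            rcases Nat.lt_succ_iff_lt_or_eq.1 hj with h4 | h4
            · have h5 := h2 j
              have h6 := hmono.monotone (show j + 1 ≤ N from h4)
              have h7 := h1 N
              omega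
            · rw [h4]
          omega
        · have h3 := hmono.monotone hj
          have h4 := h2 N
          omega
    · intro N
      refine ⟨s N, nx (s N + 1), hmono.le_apply, h1 N, hsH N, (hnx _).2, fun k hk1 hk2 => ?_⟩
      exact ⟨N, hk1, hk2⟩

/-! ### Lemma Q -/

/-- the families of Lemma Q -/
def GQ (E : Set ℕ) (S : Set (Set ℕ)) : Set (Set ℕ) :=
  {C | ∃ D ∈ S, ∀ c ∈ C, ∀ c' ∈ C, c < c' → (∃ m ∈ D, c ≤ m ∧ m < c') → ∃ m ∈ E, c ≤ m ∧ m < c'}

theorem gq_dense {E : Set ℕ} {S : Set (Set ℕ)} (hS : IsSemifilter S) (hA : ¬ TypA S)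
    (hE : E.Infinite) : GwDense (GQ E S) := by
  constructor
  · rintro C C' ⟨D, hD, hDC⟩ hC' ⟨N, hN⟩
    obtain ⟨M, hM, hMC⟩ := hC' N
    have hDinf := hS.2.1 D hD
    have hfin : (D \ {m | m ∈ D ∧ M ≤ m}).Finite := by
      refine (Set.finite_lt_nat M).subset ?_
      rintro m ⟨h1, h2⟩
      by_contra h3
      exact h2 ⟨h1, not_lt.1 h3⟩
    have hinf : {m | m ∈ D ∧ M ≤ m}.Infinite := by
      intro h1
      apply hDinf
      refine (hfin.union h1).subset ?_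
      intro m hm
      by_cases h2 : m ∈ {m | m ∈ D ∧ M ≤ m}
      · exact Or.inr h2
      · exact Or.inl ⟨hm, h2⟩
    refine ⟨{m | m ∈ D ∧ M ≤ m}, hS.2.2 D hD _ hinf hfin, ?_⟩
    rintro c hc c' hc' hcc ⟨m, ⟨hmD, hMm⟩, h1, h2⟩
    by_cases h3 : N ≤ c
    · exact hDC c (hN c h3 hc) c' (hN c' (h3.trans hcc.le) hc') hcc ⟨m, hmD, h1, h2⟩
    · have h4 : M < c' := lt_of_le_of_lt hMm h2
      obtain ⟨m', hm', h5, h6⟩ := hDC M (hN M hM hMC) c' (hN c' (hM.trans h4.le) hc') h4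
        ⟨m, hmD, hMm, h2⟩
      exact ⟨m', hm', by omega, h6⟩
  · intro H hH
    choose nx hnx using hH
    choose ne hne using unb_iff.2 hE
    let a : ℕ → ℕ := fun x => nx (ne x + 1)
    let s : ℕ → ℕ := fun k => Nat.rec 0 (fun _ x => nx (a x + 1)) k
    have hss : ∀ k, s (k + 1) = nx (a (s k) + 1) := fun k => rfl
    have h1 : ∀ k, s k ≤ ne (s k) := fun k => (hne _).1
    have h2 : ∀ k, ne (s k) < a (s k) := fun k => (hnx _).1
    have h3 : ∀ k, a (s k) < s (k + 1) := fun k => by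
      rw [hss]
      exact (hnx _).1
    have hmono : StrictMono s := strictMono_nat_of_lt_succ fun k => by
      have := h1 k
      have := h2 k
      have := h3 k
      omega
    have h4 : ∃ D ∈ S, ∀ N, ∃ n, N ≤ n ∧ ∀ m ∈ D, ¬ (s n ≤ m ∧ m < s (n + 1)) := by
      by_contra hcon
      push Not at hcon
      apply hA
      refine ⟨s, hmono, fun C hC => ?_⟩
      obtain ⟨N, hN⟩ := hcon C hC
      exact ⟨N, fun n hn => by
        obtain ⟨m, hm, h5, h6⟩ := hN n hn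
        exact ⟨m, hm, h5, h6⟩⟩
    obtain ⟨D, hD, hDN⟩ := h4
    refine ⟨{m | ∃ k, (∀ m ∈ D, ¬ (s k ≤ m ∧ m < s (k + 1))) ∧ a (s k) ≤ m ∧ m < s (k + 1)},
      ⟨D, hD, ?_⟩, ?_⟩
    · rintro c ⟨k, hk, hk1, hk2⟩ c' ⟨l, hl, hl1, hl2⟩ hcc ⟨m, hm, hm1, hm2⟩
      have hkl : k ≤ l := by
        by_contra h5
        have h6 := hmono.monotone (show l + 1 ≤ k from not_le.1 h5)
        have := h1 k
        have := h2 k
        omega
      rcases Nat.eq_or_lt_of_le hkl with h5 | h5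
      · subst h5
        exfalso
        refine hk m hm ⟨?_, ?_⟩
        · have := h1 k
          have := h2 k
          omega
        · omega
      · refine ⟨ne (s l), (hne _).2, ?_, ?_⟩
        · have h6 := hmono.monotone (show k + 1 ≤ l from h5)
          have := h1 l
          omega
        · have := h2 l
          omega
    · intro N
      obtain ⟨n, hn, hnD⟩ := hDN N
      refine ⟨a (s n), s (n + 1), ?_, h3 n, (hnx _).2, ?_, fun k hk1 hk2 => ⟨n, hnD, hk1, hk2⟩⟩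
      · have h5 := hmono.le_apply (x := n)
        have := h1 n
        have := h2 n
        omega
      · rw [hss]
        exact (hnx _).2

/-- `Phi3` for index sets which are images of `R` -/
theorem phi3_image {R K : Type} (h3 : Phi3 R) (s : R → K) (hs : Function.Surjective s)
    (G : K → Set (Set ℕ)) (hG : ∀ k, GwDense (G k)) : ∃ C : Set ℕ, Unb C ∧ ∀ k, C ∈ G k := by
  obtain ⟨C, hC, hCG⟩ := h3 (fun r => G (s r)) (fun r => hG (s r))
  refine ⟨C, hC, fun k => ?_⟩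
  obtain ⟨r, rfl⟩ := hs k
  exact hCG r

theorem lemmaQ {R : Type} (h3 : Phi3 R) (hp : ∃ s : R → R × R, Function.Surjective s)
    (hn : ∃ s : R → ℕ, Function.Surjective s) {S1 S2 : Set (Set ℕ)} (hS1 : IsSemifilter S1)
    (hS2 : IsSemifilter S2) (hA1 : ¬ TypA S1) (hA2 : ¬ TypA S2) (E : R → Set ℕ)
    (hE : ∀ i, (E i).Infinite) : ∃ h : ℕ → ℕ, StrictMono h ∧
      ∀ i, blk h (quo h (E i)) ∈ S1 ∧ blk h (quo h (E i)) ∈ S2 := by
  classical
  obtain ⟨s, hs⟩ := hp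
  obtain ⟨t, ht⟩ := hn
  obtain ⟨C, hC, hCG⟩ := phi3_image h3 (K := ℕ × R) (fun r => (t (s r).1, (s r).2)) (by
    rintro ⟨n, q⟩
    obtain ⟨p, hp⟩ := ht n
    obtain ⟨r, hr⟩ := hs (p, q)
    exact ⟨r, by simp [hr, hp]⟩)
    (fun k => if k.1 = 0 then GQ (E k.2) S1 else GQ (E k.2) S2) (by
      intro k
      by_cases hk : k.1 = 0
      · simp only [hk, if_true]
        exact gq_dense hS1 hA1 (hE _)
      · simp only [hk, if_false]
        exact gq_dense hS2 hA2 (hE _))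
  have hCinf := unb_iff.1 hC
  let h : ℕ → ℕ := Nat.nth (· ∈ C)
  have hh : StrictMono h := Nat.nth_strictMono hCinf
  have hhC : ∀ n, h n ∈ C := fun n => Nat.nth_mem_of_infinite hCinf n
  have key : ∀ (S : Set (Set ℕ)) (i : R), IsSemifilter S → C ∈ GQ (E i) S →
      blk h (quo h (E i)) ∈ S := by
    rintro S i hS ⟨D, hD, hDC⟩
    have hfin : (D \ blk h (quo h (E i))).Finite := by
      refine (Set.finite_lt_nat (h 0)).subset ?_
      rintro m ⟨hm1, hm2⟩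
      by_contra h0
      obtain ⟨n, h1, h2⟩ := exists_blk hh (not_lt.1 h0)
      exact hm2 ⟨n, hDC (h n) (hhC n) (h (n + 1)) (hhC (n + 1)) (hh (Nat.lt_succ_self n))
        ⟨m, hm1, h1, h2⟩, h1, h2⟩
    refine hS.2.2 D hD _ ?_ hfin
    intro hfin'
    apply hS.2.1 D hD
    refine (hfin.union hfin').subset ?_
    intro m hm
    by_cases h2 : m ∈ blk h (quo h (E i))
    · exact Or.inr h2
    · exact Or.inl ⟨hm, h2⟩
  refine ⟨h, hh, fun i => ⟨key S1 i hS1 ?_, key S2 i hS2 ?_⟩⟩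
  · have := hCG (0, i)
    simpa using this
  · have := hCG (1, i)
    simpa using this

/-! ### Quotients of ultrafilters -/

theorem ultra_quo (V : Ultrafilter ℕ) (hV : ∀ A ∈ V, A.Infinite) {h : ℕ → ℕ} (hh : StrictMono h) :
    ∃ V' : Ultrafilter ℕ, (∀ Z, Z ∈ V' ↔ blk h Z ∈ V) ∧ ∀ A ∈ V', A.Infinite := by
  have hex : ∀ m, ∃ n, h 0 ≤ m → (h n ≤ m ∧ m < h (n + 1)) := by
    intro m
    by_cases hm : h 0 ≤ m
    · obtain ⟨n, hn⟩ := exists_blk hh hm
      exact ⟨n, fun _ => hn⟩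
    · exact ⟨0, fun h1 => absurd h1 hm⟩
  choose φ hφ using hex
  have hK : {m | h 0 ≤ m} ∈ V := by
    rcases Ultrafilter.mem_or_compl_mem V {m | h 0 ≤ m} with h1 | h1
    · exact h1
    · exfalso
      apply hV _ h1
      refine (Set.finite_lt_nat (h 0)).subset ?_
      intro m hm
      by_contra h2
      have h3 : h 0 ≤ m := not_lt.1 h2
      exact hm h3
  have hiff : ∀ Z, Z ∈ V.map φ ↔ blk h Z ∈ V := by
    intro Z
    rw [Ultrafilter.mem_map]
    constructor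
    · intro h1
      refine Filter.mem_of_superset (Filter.inter_mem h1 hK) ?_
      rintro m ⟨hm1, hm2⟩
      exact ⟨φ m, hm1, hφ m hm2⟩
    · intro h1
      refine Filter.mem_of_superset h1 ?_
      rintro m ⟨n, hn, h2, h3⟩
      have h4 := hφ m ((hh.monotone (Nat.zero_le n)).trans h2)
      show φ m ∈ Z
      rwa [← blk_unique hh h2 h3 h4.1 h4.2]
  refine ⟨V.map φ, hiff, fun A hA hfin => ?_⟩
  exact hV _ ((hiff A).1 hA) (blk_finite h hfin)

theorem ultra_semi (V : Ultrafilter ℕ) (hV : ∀ A ∈ V, A.Infinite) :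
    IsSemifilter {A | A ∈ V} := by
  refine ⟨⟨Set.univ, Filter.univ_mem⟩, hV, ?_⟩
  intro A hA B hB hfin
  have h1 : (A \ B)ᶜ ∈ V := by
    rcases Ultrafilter.mem_or_compl_mem V (A \ B) with h1 | h1
    · exact absurd hfin (hV _ h1)
    · exact h1
  refine Filter.mem_of_superset (Filter.inter_mem hA h1) ?_
  rintro m ⟨h2, h3⟩
  by_contra h4
  exact h3 ⟨h2, h4⟩

theorem ultra_notA (V : Ultrafilter ℕ) (hV : ∀ A ∈ V, A.Infinite) : ¬ TypA {A | A ∈ V} := by
  rintro ⟨h, hh, hA⟩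
  obtain ⟨V', hV', -⟩ := ultra_quo V hV hh
  have key : ∀ Z : Set ℕ, Z ∈ V' → Zᶜ.Infinite → False := by
    intro Z hZ hZc
    obtain ⟨N, hN⟩ := hA _ ((hV' Z).1 hZ)
    obtain ⟨n, hn, hNn⟩ := hZc.exists_gt N
    obtain ⟨m, hm, h1, h2⟩ := hN n hNn.le
    exact hn ((blk_mem hh h1 h2).1 hm)
  have hev : {n : ℕ | Even n}.Infinite :=
    Set.infinite_of_forall_exists_gt fun a => ⟨2 * (a + 1), even_two_mul _, by omega⟩
  have hod : ({n : ℕ | Even n}ᶜ : Set ℕ).Infinite :=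
    Set.infinite_of_forall_exists_gt fun a => ⟨2 * (a + 1) + 1, by
      simp only [Set.mem_compl_iff, Set.mem_ofPred_eq, Nat.not_even_iff_odd]
      exact odd_two_mul_add_one _, by omega⟩
  rcases Ultrafilter.mem_or_compl_mem V' {n : ℕ | Even n} with h1 | h1
  · exact key _ h1 hod
  · exact key _ h1 (by rw [compl_compl]; exact hev)

/-! ### 1.3 -/

/-- the dual of a semifilter -/
def dual (S : Set (Set ℕ)) : Set (Set ℕ) := {C | ∀ D ∈ S, (C ∩ D).Infinite}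

theorem dual_semi {S : Set (Set ℕ)} (hS : IsSemifilter S) : IsSemifilter (dual S) := by
  refine ⟨⟨Set.univ, fun D hD => by rw [Set.univ_inter]; exact hS.2.1 D hD⟩, ?_, ?_⟩
  · intro A hA
    obtain ⟨D, hD⟩ := hS.1
    exact (hA D hD).mono Set.inter_subset_left
  · intro A hA B _ hfin D hD hfin'
    apply hA D hD
    refine (hfin.union hfin').subset ?_
    rintro m ⟨h1, h2⟩
    by_cases h3 : m ∈ B
    · exact Or.inr ⟨h3, h2⟩
    · exact Or.inl ⟨h1, h3⟩

theorem case_A {S : Set (Set ℕ)} (hS : IsSemifilter S) {h : ℕ → ℕ} (hh : StrictMono h)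
    (hA : ∀ C ∈ S, ∃ N, ∀ n, N ≤ n → ∃ m ∈ C, h n ≤ m ∧ m < h (n + 1)) :
    {A | blk h A ∈ S} = {A | Aᶜ.Finite} := by
  ext A
  simp only [Set.mem_ofPred_eq]
  constructor
  · intro h1
    obtain ⟨N, hN⟩ := hA _ h1
    refine (Set.finite_lt_nat N).subset ?_
    intro n hn
    by_contra h2
    obtain ⟨m, hm, h3, h4⟩ := hN n (not_lt.1 h2)
    exact hn ((blk_mem hh h3 h4).1 hm)
  · intro h1
    have h2 := blk_cofinite hh h1
    obtain ⟨C, hC⟩ := hS.1
    refine hS.2.2 C hC _ ?_ (h2.subset fun m hm => hm.2)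
    intro h3
    have := h2.union h3
    rw [Set.compl_union_self] at this
    exact Set.infinite_univ this

theorem case_B {S : Set (Set ℕ)} (hS : IsSemifilter S) {h : ℕ → ℕ} (hh : StrictMono h)
    (hA : ∀ C ∈ dual S, ∃ N, ∀ n, N ≤ n → ∃ m ∈ C, h n ≤ m ∧ m < h (n + 1)) :
    {A | blk h A ∈ S} = {A | A.Infinite} := by
  ext A
  simp only [Set.mem_ofPred_eq]
  constructor
  · intro h1 h2
    exact hS.2.1 _ h1 (blk_finite h h2)
  · intro h1
    by_contra h2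
    have h3 : (blk h A)ᶜ ∈ dual S := by
      intro E hE hfin
      apply h2
      refine hS.2.2 E hE _ (blk_infinite hh h1) (hfin.subset ?_)
      rintro m ⟨h4, h5⟩
      exact ⟨h5, h4⟩
    obtain ⟨N, hN⟩ := hA _ h3
    obtain ⟨n, hn, hNn⟩ := h1.exists_gt N
    obtain ⟨m, hm, h4, h5⟩ := hN n hNn.le
    exact hm ⟨n, hn, h4, h5⟩

end Tri

open Tri

/-- 1.1 -/
theorem notDom : SNotDom := by
  intro R h3 f
  obtain ⟨C, hC, hCG⟩ := h3 _ (fun i => notDom_dense (f i))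
  choose g hg using hC
  refine ⟨g, fun i N => ?_⟩
  obtain ⟨n, hn, hk⟩ := hCG i N
  refine ⟨n, hn, ?_⟩
  by_contra h1
  exact hk (g n) (hg n).1 (not_le.1 h1).le (hg n).2

/-- 1.3 -/
theorem trichotomy : STri := by
  intro R J _ par B hPhi S hS
  obtain ⟨hG, -, h2, h3, -⟩ := hPhi
  by_cases hA : TypA S
  · obtain ⟨h, hh, hA⟩ := hA
    exact ⟨h, hh, Or.inl (case_A hS hh hA)⟩
  by_cases hB : TypA (dual S)
  · obtain ⟨h, hh, hB⟩ := hB
    exact ⟨h, hh, Or.inr (Or.inr (case_B hS hh hB))⟩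
  have hU : ∀ A ∈ (Filter.hyperfilter ℕ), A.Infinite := by
    intro A hA hfin
    exact Filter.notMem_hyperfilter_of_finite hfin hA
  obtain ⟨h0, hh0, hQ0⟩ := lemmaQ h3 hG.pair hG.nat (ultra_semi _ hU) (ultra_semi _ hU)
    (ultra_notA _ hU) (ultra_notA _ hU) B hG.inf
  obtain ⟨V, hV, hVinf⟩ := ultra_quo _ hU hh0
  -- the sets `V i`
  have hVi : ∀ i, quo h0 (B i) ∈ V := fun i => (hV _).2 (hQ0 i).1
  have hgen : ∀ Z ∈ V, ∃ i, quo h0 (B i) ⊆ Z := by
    intro Z hZ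
    obtain ⟨i, v, hiv⟩ := h2 (blk h0 Z)
    refine ⟨i, ?_⟩
    cases v with
    | true =>
      rintro n ⟨m, hm, h4, h5⟩
      exact (blk_mem hh0 h4 h5).1 ((hiv m hm).2 rfl)
    | false =>
      exfalso
      have h6 : quo h0 (B i) ∩ Z ∈ V := Filter.inter_mem (hVi i) hZ
      obtain ⟨n, ⟨m, hm, h4, h5⟩, hn⟩ := (hVinf _ h6).nonempty
      exact absurd ((hiv m hm).1 ((blk_mem hh0 h4 h5).2 hn)) (by simp)
  obtain ⟨h, hh, hQ⟩ := lemmaQ h3 hG.pair hG.nat hS (dual_semi hS) hA hB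
    (fun i => quo h0 (B i)) (fun i => hVinf _ (hVi i))
  obtain ⟨V', hV', -⟩ := ultra_quo V hVinf hh
  have hgen' : ∀ Z ∈ V', ∃ i, quo h (quo h0 (B i)) ⊆ Z := by
    intro Z hZ
    obtain ⟨i, hi⟩ := hgen _ ((hV' Z).1 hZ)
    exact ⟨i, quo_sub hh hi⟩
  refine ⟨h, hh, Or.inr (Or.inl ⟨V', ?_⟩)⟩
  ext A
  simp only [Set.mem_ofPred_eq]
  constructor
  · intro h1
    by_contra h4
    have h5 : Aᶜ ∈ V' := (Ultrafilter.mem_or_compl_mem V' A).resolve_left h4
    obtain ⟨i, hi⟩ := hgen' _ h5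
    obtain ⟨m, ⟨n, hn, h6, h7⟩, hm⟩ := ((hQ i).2 _ h1).nonempty
    exact hi hn ((blk_mem hh h6 h7).1 hm)
  · intro h1
    obtain ⟨i, hi⟩ := hgen' _ h1
    have h4 : blk h (quo h (quo h0 (B i))) ⊆ blk h A := by
      rintro m ⟨n, hn, h6, h7⟩
      exact ⟨n, hi hn, h6, h7⟩
    refine hS.2.2 _ (hQ i).1 _ ((hS.2.1 _ (hQ i).1).mono h4) ?_
    rw [Set.sdiff_eq_empty.2 h4]
    exact Set.finite_empty

end Pool.Agent.H554
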