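import Pool.Agent.H554.Game
import Pool.Agent.H554.Tri

/-!
The hypothesis `Phi` gives `𝔯 < 𝔡 ≤ add(Menger)`.
-/

namespace Pool.Agent.H554.Am

open Set Filter Cardinal Topology Pool.Agent.Helper914M Pool.Agent.H554 Pool.Agent.H554.Gm

/-! ### Unions of few Menger sets -/

/-- The state of the game after the moves of `σ`. -/
def st (s : ℕ → ℕ) (σ : List ℕ) : ℕ := σ.foldl (fun a m => s (max m (s a))) (s 0)

theorem st_concat (s : ℕ → ℕ) (σ : List ℕ) (m : ℕ) :
    st s (σ ++ [m]) = s (max m (s (st s σ))) := by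
  simp [st, List.foldl_append]

/-- Intersecting with the earlier open sets. -/
def dn {α : Type} (U : ℕ → ℕ → Set α) (n m : ℕ) : Set α := ⋂ k ∈ Finset.range (n + 1), U k m

theorem dn_open {α : Type} [TopologicalSpace α] {U : ℕ → ℕ → Set α}
    (hU : ∀ n m, IsOpen (U n m)) (n m : ℕ) : IsOpen (dn U n m) :=
  isOpen_biInter_finset fun k _ => hU k m

theorem dn_mono {α : Type} {U : ℕ → ℕ → Set α} (hm : ∀ n, Monotone (U n)) (n : ℕ) :
    Monotone (dn U n) := fun _ _ hab => iInter₂_mono fun k _ => hm k hab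

theorem dn_sub {α : Type} (U : ℕ → ℕ → Set α) (n m : ℕ) : dn U n m ⊆ U n m :=
  biInter_subset_of_mem (Finset.self_mem_range_succ n)

theorem dn_cov {α : Type} {U : ℕ → ℕ → Set α} (hm : ∀ n, Monotone (U n)) {x : α}
    (hc : ∀ n, ∃ m, x ∈ U n m) (n : ℕ) : ∃ m, x ∈ dn U n m := by
  choose c hcx using hc
  refine ⟨(Finset.range (n + 1)).sup c, mem_iInter₂.2 fun k hk => ?_⟩
  exact hm k (Finset.le_sup (f := c) hk) (hcx k)

/-- The family of the sets whose gaps catch each point infinitely often. -/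
def Gfam {α : Type} (U : ℕ → ℕ → Set α) (X : Set α) : Set (Set ℕ) :=
  {C | ∀ x ∈ X, ∀ N, ∃ n m, N ≤ n ∧ x ∈ dn U n m ∧ ∀ k, n ≤ k → k ≤ m → k ∉ C}

theorem gfam_dense {α : Type} [TopologicalSpace α] {X : Set α} (hX : Mg X) (U : ℕ → ℕ → Set α)
    (hU : ∀ n m, IsOpen (U n m)) (hm : ∀ n, Monotone (U n)) (hc : ∀ n, ∀ x ∈ X, ∃ m, x ∈ U n m) :
    GwDense (Gfam U X) := by
  constructor
  · rintro C C' hC - ⟨M, hM⟩ x hx N
    obtain ⟨n, m, hn, h1, h2⟩ := hC x hx (max N M)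
    refine ⟨n, m, le_trans (le_max_left _ _) hn, h1, fun k h3 h4 h5 => h2 k h3 h4 (hM k ?_ h5)⟩
    exact le_trans (le_trans (le_max_right _ _) hn) h3
  · intro H hH
    have h1 : ∀ n, ∃ m, n < m ∧ m ∈ H := fun n => by
      obtain ⟨m, hm, hmH⟩ := hH (n + 1)
      exact ⟨m, hm, hmH⟩
    choose s hs hsH using h1
    let V : List ℕ → ℕ → Set (α × ℕ) := fun σ m =>
      ⋃ N, (dn U (max (s (st s σ)) N) m) ×ˢ {N}
    have hV : ∀ σ m, IsOpen (V σ m) := fun σ m =>
      isOpen_iUnion fun N => (dn_open hU _ _).prod (isOpen_discrete _)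
    have hVm : ∀ σ, Monotone (V σ) := fun σ a b hab =>
      iUnion_mono fun N => prod_mono (dn_mono hm _ hab) Subset.rfl
    have hmem : ∀ σ m x N, (x, N) ∈ V σ m ↔ x ∈ dn U (max (s (st s σ)) N) m := by
      intro σ m x N
      constructor
      · intro h
        obtain ⟨N', h1, h2⟩ := mem_iUnion.1 h
        have : N = N' := h2
        rw [this]
        exact h1
      · intro h
        exact mem_iUnion.2 ⟨N, h, rfl⟩
    have hXN : Mg (X ×ˢ (Set.univ : Set ℕ)) :=
      hX.prod_sigmaCompact (isSigmaCompact_univ)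
    obtain ⟨z, hz⟩ := exists_play hXN V hV hVm (by
      rintro σ ⟨x, N⟩ ⟨hx, -⟩
      obtain ⟨m, hm'⟩ := dn_cov hm (fun n => hc n x hx) (max (s (st s σ)) N)
      exact ⟨m, (hmem σ m x N).2 hm'⟩)
    let a : ℕ → ℕ := fun j => st s (play z j)
    have ha : ∀ j, a (j + 1) = s (max (z j) (s (a j))) := fun j => by
      show st s (play z (j + 1)) = _
      rw [play_succ, st_concat]
    have hsa : ∀ j, s (a j) < a (j + 1) := fun j => by
      rw [ha]
      exact (le_max_right _ _).trans_lt (hs _)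
    have hza : ∀ j, z j < a (j + 1) := fun j => by
      rw [ha]
      exact (le_max_left _ _).trans_lt (hs _)
    have hmono : StrictMono a := strictMono_nat_of_lt_succ fun j => (hs _).trans (hsa j)
    have haH : ∀ j, a j ∈ H := by
      intro j
      cases j with
      | zero => exact hsH 0
      | succ j => rw [ha]; exact hsH _
    have hsle : ∀ i j, i < j → s (a i) < a j := fun i j hij =>
      (hsa i).trans_le (hmono.monotone hij)
    refine ⟨{k | ∃ j, a j ≤ k ∧ k < s (a j)}, ?_, ?_⟩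
    · intro x hx N
      obtain ⟨j, hj⟩ := hz (x, N) ⟨hx, trivial⟩
      rw [hmem] at hj
      refine ⟨_, _, le_max_right _ _, hj, ?_⟩
      rintro k h1 h2 ⟨i, h3, h4⟩
      have h5 : s (a j) ≤ k := le_trans (le_max_left _ _) h1
      have h6 : k < a (j + 1) := h2.trans_lt (hza j)
      rcases lt_trichotomy i j with h | h | h
      · have := hsle i j h
        have := hs (a j)
        omega
      · rw [h] at h4
        omega
      · have : a (j + 1) ≤ a i := hmono.monotone h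
        omega
    · intro N
      exact ⟨a N, s (a N), hmono.id_le N, hs _, haH N, hsH _, fun k h1 h2 => ⟨N, h1, h2⟩⟩

theorem mg_iUnion {R : Type} (h3 : Phi3 R) {α : Type} [TopologicalSpace α] {X : R → Set α}
    (hX : ∀ i, Mg (X i)) : Mg (⋃ i, X i) := by
  intro U hU hm hc
  obtain ⟨C, hC, hCG⟩ := h3 (fun i => Gfam U (X i)) (fun i => gfam_dense (hX i) U hU hm
    fun n x hx => hc n x (mem_iUnion.2 ⟨i, hx⟩))
  choose g hg hgC using hC
  refine ⟨g, fun x hx => ?_⟩
  obtain ⟨i, hi⟩ := mem_iUnion.1 hx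
  obtain ⟨n, m, _, h1, h2⟩ := hCG i x hi 0
  refine ⟨n, hm n ?_ (dn_sub U n m h1)⟩
  by_contra hcon
  exact h2 (g n) (hg n) (not_le.1 hcon).le (hgC n)

/-! ### The cardinals -/

section

variable {R J : Type} [LinearOrder J] {par : J → Bool} {B : R → Set ℕ}

theorem aleph0_le (h : Phi R J par B) : ℵ₀ ≤ #R := by
  obtain ⟨s, hs⟩ := h.1.nat
  exact (mk_nat ▸ mk_le_of_surjective hs)

theorem rN_le (h : Phi R J par B) : rN ≤ #R := by
  have h1 : rN ≤ #(range B) := by
    refine csInf_le' ⟨range B, rfl, ?_, ?_⟩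
    · rintro _ ⟨i, rfl⟩
      exact h.1.inf i
    · rintro ⟨A, _, hA⟩
      obtain ⟨i, v, hi⟩ := h.2.2.1 A
      obtain ⟨h1, h2⟩ := hA (B i) ⟨i, rfl⟩
      cases v with
      | true =>
        obtain ⟨n, hn, hnA⟩ := h2.nonempty
        exact hnA ((hi n hn).2 rfl)
      | false =>
        obtain ⟨n, hn, hnA⟩ := h1.nonempty
        exact absurd ((hi n hn).1 hnA) (by decide)
  exact h1.trans mk_range_le

theorem lt_dN (h : Phi R J par B) : #R < dN := by
  by_contra hcon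
  rw [not_lt] at hcon
  obtain ⟨D, hD, hdom⟩ := dN_mem
  rw [← hD] at hcon
  obtain ⟨f0, hf0, _⟩ := hdom 0
  have hne : Nonempty D := ⟨⟨f0, hf0⟩⟩
  obtain ⟨e⟩ := (Cardinal.le_def D R).1 hcon
  have hs : Function.Surjective (Function.invFun e) := Function.invFun_surjective e.injective
  obtain ⟨g, hg⟩ := notDom R h.2.2.2.1 fun i => (Function.invFun e i : D).1
  obtain ⟨f, hf, hgf⟩ := hdom (fun n => g n + 1)
  obtain ⟨i, hi⟩ := hs ⟨f, hf⟩
  obtain ⟨N, hN⟩ := eventually_atTop.1 hgf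
  obtain ⟨n, hn, h1⟩ := hg i N
  have h2 := hN n hn
  rw [hi] at h1
  simp only at h1 h2
  omega

/-- Some set `A β` avoids the intervals `[n, f n)` for all `n` in some `B i`. -/
theorem exists_avoid (h : Phi R J par B) {x A : J → Set ℕ} (hA : Phi4 R J par x A) (f : ℕ → ℕ) :
    ∃ β i, ∀ n ∈ B i, ∀ k ∈ A β, n ≤ k → f n ≤ k := by
  by_contra hcon
  push Not at hcon
  -- the second case of the reaping family
  have h1 : ∀ β, ∃ i, ∀ n ∈ B i, ∃ k ∈ A β, n ≤ k ∧ k < f n := by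
    intro β
    obtain ⟨i, v, hi⟩ := h.2.2.1 {n | ∃ k ∈ A β, n ≤ k ∧ k < f n}
    cases v with
    | true => exact ⟨i, fun n hn => (hi n hn).2 rfl⟩
    | false =>
      obtain ⟨n, hn, k, hk, h1, h2⟩ := hcon β i
      exact absurd ((hi n hn).1 ⟨k, hk, h1, h2⟩) (by decide)
  have h2 : ∃ i, ∀ γ, ∃ β, γ ≤ β ∧ ∀ n ∈ B i, ∃ k ∈ A β, n ≤ k ∧ k < f n := by
    by_contra hcon2
    push Not at hcon2
    obtain ⟨α, hα⟩ := h.2.1 (fun i γ => ∀ β, γ ≤ β → ∃ n ∈ B i, ∀ k ∈ A β, n ≤ k → f n ≤ k) hcon2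
    obtain ⟨i, hi⟩ := h1 α
    obtain ⟨γ, hγ, h3⟩ := hα i
    obtain ⟨n, hn, h4⟩ := h3 α hγ.le
    obtain ⟨k, hk, h5, h6⟩ := hi n hn
    have := h4 k hk h5
    omega
  obtain ⟨i, hi⟩ := h2
  -- a sparse subset of `B i`
  have h3 : ∀ N, ∃ n, N ≤ n ∧ n ∈ B i := fun N => by
    obtain ⟨n, hn, hNn⟩ := (h.1.inf i).exists_gt N
    exact ⟨n, hNn.le, hn⟩
  choose c hc hcB using h3
  let t : ℕ → ℕ := fun j => Nat.rec (c 0) (fun _ a => c (max (a + 1) (f a))) j
  have ht : ∀ j, t (j + 1) = c (max (t j + 1) (f (t j))) := fun j => rfl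
  have htB : ∀ j, t j ∈ B i := by
    intro j
    cases j with
    | zero => exact hcB _
    | succ j => rw [ht]; exact hcB _
  have ht1 : ∀ j, t j < t (j + 1) := fun j => by
    rw [ht]
    exact lt_of_lt_of_le (Nat.lt_succ_self _) ((le_max_left _ _).trans (hc _))
  have ht2 : ∀ j, f (t j) ≤ t (j + 1) := fun j => by
    rw [ht]
    exact (le_max_right _ _).trans (hc _)
  have hmono : StrictMono t := strictMono_nat_of_lt_succ ht1
  obtain ⟨α, hα⟩ := hA.2.2.2.1 (range t) (fun N => ⟨t N, hmono.id_le N, N, rfl⟩)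
  obtain ⟨β, hβ, h4⟩ := hi α
  obtain ⟨a, a', _, h5, ⟨j, rfl⟩, ⟨l, rfl⟩, h6⟩ := hα β hβ 0
  have hjl : j < l := hmono.lt_iff_lt.1 h5
  obtain ⟨k, hk, h7, h8⟩ := h4 (t j) (htB j)
  exact h6 k h7 (h8.trans_le ((ht2 j).trans (hmono.monotone hjl))) hk

theorem dN_le_prod (h : Phi R J par B) : dN ≤ #(J × R) := by
  obtain ⟨x, A, hA⟩ := h.2.2.2.2
  have h1 : ∀ β, ∃ c : ℕ → ℕ, ∀ n, n ≤ c n ∧ c n ∈ A β := fun β => by
    choose c hc using hA.1 β
    exact ⟨c, hc⟩
  have h2 : ∀ i, ∃ c : ℕ → ℕ, ∀ n, n ≤ c n ∧ c n ∈ B i := fun i => by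
    have : ∀ N, ∃ n, N ≤ n ∧ n ∈ B i := fun N => by
      obtain ⟨n, hn, hNn⟩ := (h.1.inf i).exists_gt N
      exact ⟨n, hNn.le, hn⟩
    choose c hc using this
    exact ⟨c, hc⟩
  choose c hc using h1
  choose d hd using h2
  have h3 : dN ≤ #(range fun p : J × R => fun n => c p.1 (d p.2 n)) := by
    refine csInf_le' ⟨_, rfl, fun g => ?_⟩
    let f : ℕ → ℕ := fun n => (Finset.range (n + 1)).sup g
    have hf : Monotone f := fun a b hab => Finset.sup_mono (Finset.range_mono (by omega))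
    have hgf : ∀ n, g n ≤ f n := fun n => Finset.le_sup (f := g) (Finset.self_mem_range_succ n)
    obtain ⟨β, i, hi⟩ := exists_avoid h hA f
    refine ⟨_, ⟨(β, i), rfl⟩, Eventually.of_forall fun n => ?_⟩
    have h4 := hd i n
    have h5 := hc β (d i n)
    exact (hgf n).trans ((hf h4.1).trans (hi _ h4.2 _ h5.2 h5.1))
  exact h3.trans mk_range_le

theorem mk_Iio_le (h : Phi R J par B) (α : J) : #(Iio α) ≤ #R := by
  obtain ⟨s, hs⟩ := h.1.cover α
  have h1 : Iio α ⊆ range s := fun γ hγ => by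
    obtain ⟨i, hi⟩ := hs γ hγ
    exact ⟨i, hi⟩
  exact (mk_le_mk_of_subset h1).trans mk_range_le

theorem mk_J_le (h : Phi R J par B) : #J ≤ Order.succ #R := by
  by_contra hcon
  rw [not_le] at hcon
  obtain ⟨T, hT⟩ := le_mk_iff_exists_set.1 hcon.le
  have h1 : ∀ α : J, ∃ γ ∈ T, α < γ := by
    intro α
    by_contra hcon2
    push Not at hcon2
    obtain ⟨β, hβ, _⟩ := h.1.unb α true
    have h2 : T ⊆ Iio β := fun γ hγ => (hcon2 γ hγ).trans_lt hβ
    have h3 := (mk_le_mk_of_subset h2).trans (mk_Iio_le h β)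
    rw [hT] at h3
    exact (Order.lt_succ #R).not_ge h3
  have h2 : (Set.univ : Set J) ⊆ ⋃ γ : T, Iio (γ : J) := fun α _ => by
    obtain ⟨γ, hγ, hαγ⟩ := h1 α
    exact mem_iUnion.2 ⟨⟨γ, hγ⟩, hαγ⟩
  have h3 : #J ≤ #T * #R := by
    have h4 : #J ≤ #(⋃ γ : T, Iio (γ : J)) := by
      rw [← mk_univ (α := J)]
      exact mk_le_mk_of_subset h2
    refine h4.trans ((mk_iUnion_le_sum_mk).trans ?_)
    refine (sum_le_sum _ (fun _ => #R) fun γ => mk_Iio_le h _).trans ?_
    rw [sum_const']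
  rw [hT] at h3
  have h5 : Order.succ #R * #R ≤ Order.succ #R :=
    (mul_le_mul_right (Order.le_succ #R) _).trans
      (mul_eq_self ((aleph0_le h).trans (Order.le_succ _))).le
  exact (h3.trans h5).not_gt hcon

theorem dN_le_succ (h : Phi R J par B) : dN ≤ Order.succ #R := by
  refine (dN_le_prod h).trans ?_
  rw [mk_prod, lift_id, lift_id]
  exact (mul_le_mul' (mk_J_le h) (Order.le_succ #R)).trans
    (mul_eq_self ((aleph0_le h).trans (Order.le_succ _))).le

theorem le_of_lt_dN (h : Phi R J par B) {κ : Cardinal.{0}} (hκ : κ < dN) : κ ≤ #R :=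
  Order.lt_succ_iff.1 (hκ.trans_le (dN_le_succ h))

theorem smallProd (h : Phi R J par B) : SmallProd := by
  intro X hX Z hZ
  rcases Z.eq_empty_or_nonempty with rfl | hne
  · rw [prod_empty]
    exact fun U _ _ _ => ⟨fun _ => 0, fun x hx => absurd hx (notMem_empty x)⟩
  · have hne' : Nonempty Z := hne.to_subtype
    obtain ⟨e⟩ := (Cardinal.le_def Z R).1 (le_of_lt_dN h hZ)
    have hs : Function.Surjective (Function.invFun e) := Function.invFun_surjective e.injective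
    have h1 : X ×ˢ Z = ⋃ i : R, X ×ˢ {(Function.invFun e i : Z).1} := by
      ext ⟨x, y⟩
      constructor
      · rintro ⟨hx, hy⟩
        obtain ⟨i, hi⟩ := hs ⟨y, hy⟩
        exact mem_iUnion.2 ⟨i, hx, by rw [hi]; rfl⟩
      · intro hxy
        obtain ⟨i, hx, hy⟩ := mem_iUnion.1 hxy
        have : y = (Function.invFun e i : Z).1 := hy
        exact ⟨hx, this ▸ (Function.invFun e i : Z).2⟩
    rw [h1]
    exact mg_iUnion h.2.2.2.1 fun i => hX.prod_compact isCompact_singleton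

theorem cardinals (h : Phi R J par B) : rN < dN ∧ dN ≤ addM := by
  have hr : rN < dN := (rN_le h).trans_lt (lt_dN h)
  obtain ⟨A, hA⟩ := allF_of_smallProd (smallProd h) hr
  exact ⟨hr, hA.add⟩

end

/-! ### The transfer to sets of reals -/

theorem Mg.menger {α : Type} [TopologicalSpace α] [SecondCountableTopology α] {X : Set α}
    (h : Mg X) : Menger X := by
  intro U hU
  have h1 : ∀ n, ∃ T ⊆ U n, T.Countable ∧ ⋃₀ T = ⋃₀ U n := by
    intro n
    obtain ⟨T, hT, hTU, hTe⟩ := TopologicalSpace.isOpen_sUnion_countable (U n) (hU n).1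
    exact ⟨T, hTU, hT, hTe⟩
  choose T hTU hTc hTe using h1
  rcases X.eq_empty_or_nonempty with rfl | ⟨x₀, hx₀⟩
  · exact ⟨fun _ => ∅, fun n => ⟨empty_subset _, finite_empty⟩, empty_subset _⟩
  · have h2 : ∀ n, ∃ t : ℕ → Set α, T n = range t := by
      intro n
      apply (hTc n).exists_eq_range
      have : x₀ ∈ ⋃₀ T n := by rw [hTe n]; exact (hU n).2 hx₀
      obtain ⟨u, hu, _⟩ := this
      exact ⟨u, hu⟩
    choose t ht using h2
    obtain ⟨g, hg⟩ := h (fun n m => ⋃ k ∈ Finset.range m, t n k)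
      (fun n m => isOpen_biUnion fun k _ => (hU n).1 _ (hTU n (by rw [ht n]; exact ⟨k, rfl⟩)))
      (fun n a b hab => biUnion_subset_biUnion_left (by
        intro k hk
        have hk' : k ∈ Finset.range a := hk
        show k ∈ Finset.range b
        rw [Finset.mem_range] at *
        omega))
      (by
        intro n x hx
        have : x ∈ ⋃₀ T n := by rw [hTe n]; exact (hU n).2 hx
        rw [ht n] at this
        obtain ⟨_, ⟨k, rfl⟩, hxk⟩ := this
        exact ⟨k + 1, mem_iUnion₂.2 ⟨k, Finset.mem_range.2 (by omega), hxk⟩⟩)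
    refine ⟨fun n => (t n) '' (Iio (g n)), fun n => ⟨?_, (finite_Iio _).image _⟩, fun x hx => ?_⟩
    · rintro _ ⟨k, _, rfl⟩
      exact hTU n (by rw [ht n]; exact ⟨k, rfl⟩)
    · obtain ⟨n, hn⟩ := hg x hx
      obtain ⟨k, hk, hxk⟩ := mem_iUnion₂.1 hn
      exact mem_iUnion.2 ⟨n, t n k, ⟨k, Finset.mem_range.1 hk, rfl⟩, hxk⟩

theorem mg_of_menger {α : Type} [TopologicalSpace α] {X : Set α} (h : Menger X) : Mg X := by
  intro U hU hm hc
  obtain ⟨F, hF, hX⟩ := h (fun n => range (U n)) (fun n => ⟨by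
    rintro _ ⟨m, rfl⟩
    exact hU n m, fun x hx => by
    obtain ⟨m, hm'⟩ := hc n x hx
    exact ⟨_, ⟨m, rfl⟩, hm'⟩⟩)
  have h1 : ∀ n, ∃ m, ∀ u ∈ F n, u ⊆ U n m := by
    intro n
    have h2 : ∀ u : F n, ∃ m, (u : Set α) = U n m := fun u => by
      obtain ⟨m, hm'⟩ := (hF n).1 u.2
      exact ⟨m, hm'.symm⟩
    choose m hm' using h2
    have : Finite (F n) := (hF n).2.to_subtype
    have := Fintype.ofFinite (F n)
    refine ⟨Finset.univ.sup m, fun u hu => ?_⟩
    have h3 := hm' ⟨u, hu⟩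
    simp only at h3
    rw [h3]
    exact hm n (Finset.le_sup (f := m) (Finset.mem_univ _))
  choose g hg using h1
  refine ⟨g, fun x hx => ?_⟩
  obtain ⟨n, u, hu, hxu⟩ := mem_iUnion.1 (hX hx)
  exact ⟨n, hg n u hu hxu⟩

theorem transfer (h : ∃ X Y : Set (ℕ → Bool), Menger X ∧ Menger Y ∧ ¬ Menger (X ×ˢ Y)) :
    ∃ X Y : Set ℝ, MengerSp X ∧ MengerSp Y ∧ ¬ MengerSp (X × Y) := by
  obtain ⟨X, Y, hX, hY, hXY⟩ := h
  refine ⟨emb '' X, emb '' Y, (mengerSp_iff _).2 ((mg_of_menger hX).image emb_closed.continuous),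
    (mengerSp_iff _).2 ((mg_of_menger hY).image emb_closed.continuous), fun hcon => hXY ?_⟩
  rw [mengerSp_prod_iff] at hcon
  refine Mg.menger (Mg.of_inducing (f := Prod.map emb emb)
    (emb_closed.isInducing.prodMap emb_closed.isInducing) ?_)
  rw [prodMap_image_prod]
  exact hcon

end Pool.Agent.H554.Am
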