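import Pool.Agent.H554.Defs

/-!
# First facts on morphisms: identity, composition, the preorder
-/

namespace Pool.Agent.H554

open Pool.Agent.Helper669.Forcing Set

section generic

variable {I : Type} {α : I → Type} [∀ i, TopologicalSpace (α i)] {dep : I → Set I}
  {A B : Set I} {f g : W α → W α}

theorem IsMor.tri' (hf : IsMor dep A f) (i : I) (z z' : W α)
    (h : ∀ i', (i' ∈ dep i ∨ i' = i) → z i' = z' i') : f z i = f z' i := by
  by_cases hi : i ∈ A
  · exact hf.tri i hi z z' fun i' _ h' => h i' h'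
  · rw [hf.off z i hi, hf.off z' i hi, h i (Or.inr rfl)]

theorem IsMor.tri_dep (htr : ∀ i, ∀ i' ∈ dep i, ∀ i'' ∈ dep i', i'' ∈ dep i)
    (hf : IsMor dep A f) (i : I) (z z' : W α) (h : ∀ i' ∈ dep i, z i' = z' i') :
    ∀ i' ∈ dep i, f z i' = f z' i' := by
  intro i' hi'
  apply hf.tri'
  rintro i'' (h'' | rfl)
  · exact h _ (htr i i' hi' i'' h'')
  · exact h _ hi'

theorem IsMor.id : IsMor dep ∅ (id : W α → W α) where
  off _ _ _ := rfl
  tri i hi := absurd hi (by simp)
  cont := continuous_id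
  emb i z u := ⟨u, _root_.id, Function.injective_id, fun _ _ _ h => h⟩

theorem IsMor.comp (htr : ∀ i, ∀ i' ∈ dep i, ∀ i'' ∈ dep i', i'' ∈ dep i)
    (hf : IsMor dep A f) (hg : IsMor dep B g) : IsMor dep (A ∪ B) (f ∘ g) where
  off z i hi := by
    rw [mem_union, not_or] at hi
    rw [Function.comp, hf.off _ i hi.1, hg.off _ i hi.2]
  tri i hi z z' h := by
    have key : ∀ i', (i' ∈ A ∨ i' ∈ B) → (i' ∈ dep i ∨ i' = i) → g z i' = g z' i' := by
      intro i' hi' h'
      by_cases hB : i' ∈ B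
      · apply hg.tri i' hB
        intro i'' hi'' h''
        apply h i'' (Or.inr hi'')
        rcases h'' with h'' | rfl
        · rcases h' with h' | rfl
          · exact Or.inl (htr _ _ h' _ h'')
          · exact Or.inl h''
        · exact h'
      · rw [hg.off _ _ hB, hg.off _ _ hB]
        exact h i' hi' h'
    by_cases hA : i ∈ A
    · exact hf.tri i hA _ _ fun i' hi' h' => key i' (Or.inl hi') h'
    · simp only [Function.comp, hf.off _ i hA]
      exact key i hi (Or.inr rfl)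
  cont := hf.cont.comp hg.cont
  emb i z u := by
    obtain ⟨t, φ, hφ, h⟩ := hg.emb i z u
    obtain ⟨t', φ', hφ', h'⟩ := hf.emb i (g z) t
    refine ⟨t', φ' ∘ φ, hφ'.comp hφ, fun a z' hz' he => ?_⟩
    exact h' (φ a) (g z') (hg.tri_dep htr i z' z hz') (h a z' hz' he)

theorem IsMor.mono (hf : IsMor dep A f) (hAB : A ⊆ B) : IsMor dep B f where
  off z i hi := hf.off z i fun h => hi (hAB h)
  tri i hi z z' h := by
    by_cases hA : i ∈ A
    · exact hf.tri i hA z z' fun i' hi' => h i' (hAB hi')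
    · rw [hf.off _ _ hA, hf.off _ _ hA]
      exact h i hi (Or.inr rfl)
  cont := hf.cont
  emb := hf.emb

theorem IsMorC.id : IsMorC dep (id : W α → W α) := ⟨∅, countable_empty, IsMor.id⟩

theorem IsMorC.comp (htr : ∀ i, ∀ i' ∈ dep i, ∀ i'' ∈ dep i', i'' ∈ dep i)
    (hf : IsMorC dep f) (hg : IsMorC dep g) : IsMorC dep (f ∘ g) := by
  obtain ⟨A, hA, hf⟩ := hf
  obtain ⟨B, hB, hg⟩ := hg
  exact ⟨A ∪ B, hA.union hB, hf.comp htr hg⟩

end generic

section poset

variable {J : Type} [LinearOrder J]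

theorem dep_lt : ∀ i : Ix J, ∀ i' ∈ dep J i, i' < i := fun _ _ h => h.1

theorem dep_trans : ∀ i : Ix J, ∀ i' ∈ dep J i, ∀ i'' ∈ dep J i', i'' ∈ dep J i :=
  fun _ _ h _ h' => ⟨h'.1.trans h.1, fun hi => h'.2 (h.2 hi)⟩

/-- composition of conditions -/
def Mo.comp (p r : Mo J) : Mo J := ⟨p.1 ∘ r.1, IsMorC.comp dep_trans p.2 r.2⟩

/-- the weakest condition -/
def Mo.one : Mo J := ⟨id, IsMorC.id⟩

instance : Preorder (Mo J) where
  le_refl p := ⟨Mo.one, rfl⟩
  le_trans p q r := by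
    rintro ⟨s, hs⟩ ⟨t, ht⟩
    exact ⟨t.comp s, by rw [hs, ht]; rfl⟩

theorem Mo.comp_le (p r : Mo J) : p.comp r ≤ p := ⟨r, rfl⟩

instance : Nonempty (Mo J) := ⟨Mo.one⟩

end poset

end Pool.Agent.H554
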