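import Pool.Agent.H554.Base

/-!
# Generic facts on strings, cells, morphisms
-/

namespace Pool.Agent.H554

open Pool.Agent.Helper669.Forcing Set

/-! ### strings -/

section strings

variable {β : Type} {s t : List β} {z : ℕ → β}

theorem ext_nil : Ext ([] : List β) z := fun k h => by simp at h

theorem ext_append : Ext (s ++ t) z ↔ Ext s z ∧ Ext t (strip s.length z) := by
  constructor
  · intro h
    refine ⟨fun k hk => ?_, fun k hk => ?_⟩
    · have := h k (by simp; omega)
      rw [this, List.getElem_append_left hk]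
    · have := h (s.length + k) (by simp; omega)
      simp only [strip]
      rw [this, List.getElem_append_right (by omega)]
      congr 1
      omega
  · rintro ⟨h1, h2⟩ k hk
    by_cases h : k < s.length
    · rw [List.getElem_append_left h]
      exact h1 k h
    · rw [List.getElem_append_right (by omega)]
      have := h2 (k - s.length) (by simp at hk; omega)
      rw [← this]
      simp only [strip]
      congr 1
      omega

theorem ext_app : Ext s (app s z) := fun k hk => by simp [app, hk]

theorem app_strip (h : Ext s z) : app s (strip s.length z) = z := by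
  funext n
  simp only [app, strip]
  split_ifs with hn
  · exact (h n hn).symm
  · congr 1
    omega

theorem strip_app : strip s.length (app s z) = z := by
  funext n
  simp [app, strip]

theorem app_nil : app ([] : List β) z = z := by
  funext n
  simp [app]

theorem strip_zero : strip 0 z = z := by
  funext n
  simp [strip]

theorem app_append : app (s ++ t) z = app s (app t z) := by
  funext n
  simp only [app, List.length_append]
  by_cases h : n < s.length
  · rw [dif_pos (by omega), dif_pos h, List.getElem_append_left h]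
  · rw [dif_neg h]
    by_cases h' : n < s.length + t.length
    · rw [dif_pos h', dif_pos (by omega), List.getElem_append_right (by omega)]
    · rw [dif_neg h', dif_neg (by omega)]
      congr 1
      omega

theorem Ext.mono (h : Ext t z) (hs : s <+: t) : Ext s z := by
  obtain ⟨u, rfl⟩ := hs
  exact (ext_append.1 h).1

theorem ext_concat {a : β} : Ext (s ++ [a]) z ↔ Ext s z ∧ z s.length = a := by
  rw [ext_append]
  constructor
  · rintro ⟨h1, h2⟩
    refine ⟨h1, ?_⟩
    have := h2 0 (by simp)
    simpa [strip] using this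
  · rintro ⟨h1, h2⟩
    refine ⟨h1, fun k hk => ?_⟩
    simp at hk
    subst hk
    simpa [strip] using h2

theorem length_pre (l : ℕ) : (pre z l).length = l := by simp [pre]

theorem getElem_pre (l k : ℕ) (h : k < (pre z l).length) : (pre z l)[k] = z k := by
  simp [pre]

theorem ext_pre (l : ℕ) : Ext (pre z l) z := fun k hk => by
  simp [pre]

theorem Ext.eq_pre (h : Ext s z) : s = pre z s.length := by
  apply List.ext_getElem (by simp [length_pre])
  intro k h1 h2
  rw [getElem_pre]
  exact (h k h1).symm

theorem pre_succ (l : ℕ) : pre z (l + 1) = pre z l ++ [z l] := by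
  simp [pre, List.range_succ]

theorem pre_prefix {l m : ℕ} (h : l ≤ m) : pre z l <+: pre z m := by
  obtain ⟨d, rfl⟩ := Nat.exists_eq_add_of_le h
  clear h
  induction d with
  | zero => exact List.prefix_refl _
  | succ d ih =>
    refine ih.trans ?_
    rw [← add_assoc, pre_succ]
    exact List.prefix_append _ _

theorem Ext.compat (h : Ext s z) (h' : Ext t z) : Compat s t := by
  rw [h.eq_pre, h'.eq_pre]
  rcases le_total s.length t.length with hl | hl
  · exact Or.inl (pre_prefix hl)
  · exact Or.inr (pre_prefix hl)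

theorem Ext.le_iff (h : Ext s z) (h' : Ext t z) : s <+: t ↔ s.length ≤ t.length := by
  constructor
  · exact fun h => h.length_le
  · intro hl
    rw [h.eq_pre, h'.eq_pre]
    exact pre_prefix hl

theorem ext_app_iff : Ext (s ++ t) (app s z) ↔ Ext t z := by
  rw [ext_append, strip_app]
  exact ⟨fun h => h.2, fun h => ⟨ext_app, h⟩⟩

theorem exists_ext [Nonempty β] (s : List β) : ∃ z : ℕ → β, Ext s z :=
  ⟨app s fun _ => Classical.arbitrary β, ext_app⟩

theorem pre_eq_iff {y : ℕ → β} {l : ℕ} : pre z l = pre y l ↔ ∀ k < l, z k = y k := by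
  simp [pre]

theorem ext_pre_iff {y : ℕ → β} {l : ℕ} : Ext (pre z l) y ↔ pre y l = pre z l := by
  rw [pre_eq_iff]
  constructor
  · intro h k hk
    rw [h k (by rw [length_pre]; exact hk), getElem_pre]
  · intro h k hk
    rw [getElem_pre]
    exact h k (by rw [length_pre] at hk; exact hk)

theorem eq_of_pre {y : ℕ → β} (h : ∀ l, pre z l = pre y l) : z = y := by
  funext n
  exact pre_eq_iff.1 (h (n + 1)) n (by omega)

variable [TopologicalSpace β] [DiscreteTopology β]

theorem isClopen_ext (s : List β) : IsClopen {z : ℕ → β | Ext s z} := by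
  have : {z : ℕ → β | Ext s z} = ⋂ k ∈ Finset.range s.length, {z : ℕ → β | ∀ h : k < s.length, z k = s[k]} := by
    ext z
    simp only [mem_ofPred_eq, Finset.mem_range, mem_iInter, Ext]
    exact ⟨fun h k _ hk => h k hk, fun h k hk => h k hk hk⟩
  rw [this]
  apply isClopen_biInter_finset
  intro k hk
  rw [Finset.mem_range] at hk
  have : {z : ℕ → β | ∀ h : k < s.length, z k = s[k]} = (fun z : ℕ → β => z k) ⁻¹' {s[k]} := by
    ext z
    simp [hk]
  rw [this]
  exact (isClopen_discrete _).preimage (continuous_apply k)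

omit [DiscreteTopology β] in
theorem continuous_app (s : List β) : Continuous (app s) := by
  refine continuous_pi fun n => ?_
  by_cases h : n < s.length
  · simp only [app, dif_pos h]
    exact continuous_const
  · simp only [app, dif_neg h]
    exact continuous_apply _

omit [DiscreteTopology β] in
theorem continuous_strip (l : ℕ) : Continuous (strip (β := β) l) :=
  continuous_pi fun n => continuous_apply (l + n)

omit [DiscreteTopology β] in
theorem exists_pre {U : Set (ℕ → β)} (hU : IsOpen U) (hz : z ∈ U) :
    ∃ l, ∀ y, Ext (pre z l) y → y ∈ U := by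
  rw [isOpen_pi_iff] at hU
  obtain ⟨F, u, hu, hF⟩ := hU z hz
  refine ⟨F.sup id + 1, fun y hy => hF fun k hk => ?_⟩
  rw [ext_pre_iff, pre_eq_iff] at hy
  have hk' : k < F.sup id + 1 := Nat.lt_succ_of_le (Finset.le_sup (f := id) hk)
  rw [hy k hk']
  exact (hu k hk).2

end strings

/-! ### cells -/

section cells

variable {I : Type} {α : I → Type} [∀ i, TopologicalSpace (α i)] [∀ i, DiscreteTopology (α i)]

omit [∀ i, TopologicalSpace (α i)] [∀ i, DiscreteTopology (α i)] in
theorem mem_one (z : W α) : (1 : Cell α).Mem z := fun _ => ext_nil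

omit [∀ i, TopologicalSpace (α i)] [∀ i, DiscreteTopology (α i)] in
theorem mem_iota (c : Cell α) (z : W α) : c.Mem (iota c z) := fun _ => ext_app

omit [∀ i, TopologicalSpace (α i)] [∀ i, DiscreteTopology (α i)] in
theorem mem_mul_iota (c d : Cell α) (z : W α) : (c * d).Mem (iota c z) ↔ d.Mem z :=
  forall_congr' fun _ => ext_app_iff

omit [∀ i, TopologicalSpace (α i)] [∀ i, DiscreteTopology (α i)] in
theorem iota_stripc {c : Cell α} {z : W α} (h : c.Mem z) : iota c (stripc c z) = z :=
  funext fun i => app_strip (h i)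

omit [∀ i, TopologicalSpace (α i)] [∀ i, DiscreteTopology (α i)] in
theorem stripc_iota (c : Cell α) (z : W α) : stripc c (iota c z) = z :=
  funext fun _ => strip_app

omit [∀ i, TopologicalSpace (α i)] [∀ i, DiscreteTopology (α i)] in
theorem iota_mul (c d : Cell α) : iota (c * d) = iota c ∘ iota d :=
  funext fun _ => funext fun _ => app_append

omit [∀ i, TopologicalSpace (α i)] [∀ i, DiscreteTopology (α i)] in
theorem iota_one : iota (1 : Cell α) = id :=
  funext fun _ => funext fun _ => app_nil

theorem isClopen_cell (c : Cell α) : IsClopen {z | c.Mem z} := by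
  have : {z : W α | c.Mem z} = ⋂ i ∈ c.fin.toFinset, {z : W α | Ext (c.val i) (z i)} := by
    ext z
    simp only [mem_ofPred_eq, mem_iInter, Cell.Mem, Finite.mem_toFinset]
    refine ⟨fun h i _ => h i, fun h i => ?_⟩
    by_cases hi : c.val i = []
    · rw [hi]
      exact ext_nil
    · exact h i hi
  rw [this]
  apply isClopen_biInter_finset
  intro i _
  exact (isClopen_ext (c.val i)).preimage (continuous_apply i)

omit [∀ i, TopologicalSpace (α i)] [∀ i, DiscreteTopology (α i)] in
/-- small cells: any finite piece of a point -/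
theorem exists_cell_pre (z : W α) (F : Set I) (hF : F.Finite) (l : ℕ) :
    ∃ c : Cell α, c.Mem z ∧ (∀ i ∈ F, c.val i = pre (z i) l) ∧ ∀ i ∉ F, c.val i = [] := by
  classical
  refine ⟨⟨fun i => if i ∈ F then pre (z i) l else [], hF.subset fun i hi => ?_⟩, fun i => ?_,
    fun i hi => ?_, fun i hi => ?_⟩
  · by_contra h
    exact hi (if_neg h)
  · by_cases hi : i ∈ F
    · simp only [if_pos hi]
      exact ext_pre l
    · simp only [if_neg hi]
      exact ext_nil
  · simp only [if_pos hi]
  · simp only [if_neg hi]

omit [∀ i, DiscreteTopology (α i)] in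
/-- cells form a base of the topology -/
theorem exists_cell {U : Set (W α)} (hU : IsOpen U) {z : W α} (hz : z ∈ U) :
    ∃ c : Cell α, c.Mem z ∧ ∀ z', c.Mem z' → z' ∈ U := by
  rw [isOpen_pi_iff] at hU
  obtain ⟨F, u, hu, hF⟩ := hU z hz
  have : ∀ i, ∃ l, i ∈ F → ∀ y, Ext (pre (z i) l) y → y ∈ u i := by
    intro i
    by_cases hi : i ∈ F
    · obtain ⟨l, hl⟩ := exists_pre (hu i hi).1 (hu i hi).2
      exact ⟨l, fun _ => hl⟩
    · exact ⟨0, fun h => absurd h hi⟩
  choose l hl using this
  obtain ⟨c, hc, hcF, -⟩ := exists_cell_pre z (F : Set I) F.finite_toSet (F.sup l)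
  refine ⟨c, hc, fun z' hz' => hF fun i hi => hl i hi _ ?_⟩
  have h1 := hz' i
  rw [hcF i hi] at h1
  exact h1.mono (pre_prefix (Finset.le_sup hi))

omit [∀ i, TopologicalSpace (α i)] [∀ i, DiscreteTopology (α i)] in
/-- common refinement of two cells around a point -/
theorem exists_cell_le (c d : Cell α) (z : W α) (hc : c.Mem z) (hd : d.Mem z) :
    ∃ e : Cell α, e.Mem z ∧ (∃ c', e = c * c') ∧ (∃ d', e = d * d') ∧
      e.supp = c.supp ∪ d.supp := by
  have hpre : ∀ i n, pre (z i) n = [] ↔ n = 0 := by
    intro i n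
    rw [← List.length_eq_zero_iff, length_pre]
  have hsupp : ∀ i, pre (z i) (max (c.val i).length (d.val i).length) ≠ [] ↔
      c.val i ≠ [] ∨ d.val i ≠ [] := by
    intro i
    rw [Ne, hpre]
    simp only [ne_eq, ← List.length_eq_zero_iff]
    omega
  have hfin : {i | pre (z i) (max (c.val i).length (d.val i).length) ≠ []}.Finite := by
    apply (c.fin.union d.fin).subset
    intro i hi
    exact (hsupp i).1 hi
  refine ⟨⟨fun i => pre (z i) (max (c.val i).length (d.val i).length), hfin⟩, fun i => ext_pre _,
    ⟨⟨fun i => (pre (z i) (max (c.val i).length (d.val i).length)).drop (c.val i).length,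
      hfin.subset fun i hi h => hi (by rw [h]; simp)⟩, ?_⟩,
    ⟨⟨fun i => (pre (z i) (max (c.val i).length (d.val i).length)).drop (d.val i).length,
      hfin.subset fun i hi h => hi (by rw [h]; simp)⟩, ?_⟩, ?_⟩
  · ext i : 2
    rw [Cell.mul_val]
    have h1 : c.val i <+: pre (z i) (max (c.val i).length (d.val i).length) := by
      have := pre_prefix (z := z i) (le_max_left (c.val i).length (d.val i).length)
      rwa [← (hc i).eq_pre] at this
    exact (List.prefix_append_drop h1)
  · ext i : 2
    rw [Cell.mul_val]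
    have h1 : d.val i <+: pre (z i) (max (c.val i).length (d.val i).length) := by
      have := pre_prefix (z := z i) (le_max_right (c.val i).length (d.val i).length)
      rwa [← (hd i).eq_pre] at this
    exact (List.prefix_append_drop h1)
  · ext i
    exact hsupp i

omit [∀ i, TopologicalSpace (α i)] [∀ i, DiscreteTopology (α i)] in
/-- restriction of a cell to a set of coordinates -/
theorem exists_cell_restrict (c : Cell α) (A : Set I) :
    ∃ d : Cell α, d.supp = c.supp ∩ A ∧ (∀ i ∈ A, d.val i = c.val i) := by
  classical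
  refine ⟨⟨fun i => if i ∈ A then c.val i else [], c.fin.subset fun i hi h => hi ?_⟩, ?_,
    fun i hi => ?_⟩
  · simp [h]
  · ext i
    simp only [Cell.supp, mem_ofPred_eq, mem_inter_iff]
    by_cases hi : i ∈ A
    · simp [hi]
    · simp [hi]
  · simp only [if_pos hi]

omit [∀ i, TopologicalSpace (α i)] [∀ i, DiscreteTopology (α i)] in
theorem Cell.ext_of_not_mem {c : Cell α} {i : I} (h : i ∉ c.supp) (z : ℕ → α i) :
    Ext (c.val i) z := by
  have : c.val i = [] := by
    by_contra h'
    exact h h'
  rw [this]
  exact ext_nil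

omit [∀ i, DiscreteTopology (α i)] in
/-- an open set depending only on the coordinates in `A` is a union of cells supported in `A` -/
theorem exists_cell_dep {U : Set (W α)} (hU : IsOpen U) (A : Set I)
    (hA : ∀ z z' : W α, (∀ i ∈ A, z i = z' i) → (z ∈ U ↔ z' ∈ U)) {z : W α} (hz : z ∈ U) :
    ∃ c : Cell α, c.supp ⊆ A ∧ c.Mem z ∧ ∀ z', c.Mem z' → z' ∈ U := by
  classical
  obtain ⟨c, hc, hcU⟩ := exists_cell hU hz
  obtain ⟨d, hd, hdA⟩ := exists_cell_restrict c A
  refine ⟨d, hd ▸ inter_subset_right, fun i => ?_, fun z' hz' => ?_⟩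
  · by_cases hi : i ∈ A
    · rw [hdA i hi]
      exact hc i
    · exact Cell.ext_of_not_mem (fun h => hi (hd ▸ h : i ∈ c.supp ∩ A).2) _
  · have := hcU (fun i => if i ∈ A then z' i else z i) fun i => by
      by_cases hi : i ∈ A
      · simp only [if_pos hi]
        rw [← hdA i hi]
        exact hz' i
      · simp only [if_neg hi]
        exact hc i
    refine (hA _ _ fun i hi => ?_).1 this
    simp only [if_pos hi]

omit [∀ i, TopologicalSpace (α i)] [∀ i, DiscreteTopology (α i)] in
theorem countable_cells [∀ i, Countable (α i)] (A : Set I) (hA : A.Countable) :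
    {c : Cell α | c.supp ⊆ A}.Countable := by
  have : Countable A := hA
  have hsub : {c : Cell α | c.supp ⊆ A} ⊆
      ⋃ F : Finset A, {c : Cell α | c.supp ⊆ ((F.map (Function.Embedding.subtype _) : Finset I) : Set I)} := by
    intro c hc
    rw [mem_iUnion]
    classical
    refine ⟨c.fin.toFinset.subtype (· ∈ A), fun i hi => ?_⟩
    have hiA : i ∈ A := hc hi
    simp only [Finset.coe_map, Function.Embedding.subtype_apply, mem_image, Finset.mem_coe,
      Finset.mem_subtype, Finite.mem_toFinset]
    exact ⟨⟨i, hiA⟩, hi, rfl⟩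
  refine Countable.mono hsub (countable_iUnion fun F => ?_)
  refine MapsTo.countable_of_injOn (f := fun c : Cell α => fun i : F => c.val i.1.1)
    (t := univ) (fun _ _ => mem_univ _) ?_ (to_countable _)
  intro c hc d hd h
  ext i : 2
  by_cases hi : i ∈ ((F.map (Function.Embedding.subtype _) : Finset I) : Set I)
  · simp only [Finset.coe_map, Function.Embedding.subtype_apply, mem_image, Finset.mem_coe] at hi
    obtain ⟨j, hj, rfl⟩ := hi
    exact congrFun h ⟨j, hj⟩
  · have h1 : c.val i = [] := by
      by_contra h'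
      exact hi (hc h')
    have h2 : d.val i = [] := by
      by_contra h'
      exact hi (hd h')
    rw [h1, h2]

end cells

/-! ### morphisms -/

section morphisms

variable {I : Type} {α : I → Type} [∀ i, TopologicalSpace (α i)] [∀ i, DiscreteTopology (α i)]
  {dep : I → Set I} {A : Set I} {f r : W α → W α}

omit [∀ i, DiscreteTopology (α i)] in
theorem continuous_iota (c : Cell α) : Continuous (iota c) :=
  continuous_pi fun i => (continuous_app _).comp (continuous_apply i)

omit [∀ i, DiscreteTopology (α i)] in
theorem continuous_stripc (c : Cell α) : Continuous (stripc c) :=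
  continuous_pi fun i => (continuous_strip _).comp (continuous_apply i)

omit [∀ i, TopologicalSpace (α i)] [∀ i, DiscreteTopology (α i)] in
theorem Cell.val_eq_nil {c : Cell α} {i : I} (h : i ∉ c.supp) : c.val i = [] := by
  by_contra h'
  exact h h'

omit [∀ i, DiscreteTopology (α i)] in
theorem isMor_iota (c : Cell α) : IsMor dep c.supp (iota c) where
  off z i hi := by
    simp only [iota, Cell.val_eq_nil hi]
    exact app_nil
  tri i hi z z' h := by
    simp only [iota]
    rw [h i hi (Or.inr rfl)]
  cont := continuous_iota c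
  emb i z u := by
    refine ⟨c.val i ++ u, id, Function.injective_id, fun a z' _ he => ?_⟩
    rw [List.append_assoc]
    exact ext_app_iff.2 he

omit [∀ i, DiscreteTopology (α i)] in
theorem isMorC_iota (c : Cell α) : IsMorC dep (iota c) :=
  ⟨c.supp, c.fin.countable, isMor_iota c⟩

omit [∀ i, TopologicalSpace (α i)] [∀ i, DiscreteTopology (α i)] in
theorem glue_pos {c : Cell α} {r : W α → W α} {z : W α} {i : I}
    (h : ∀ i', (i' ∈ dep i ∨ i' = i) → Ext (c.val i') (z i')) :
    glue dep c r z i = app (c.val i) (r (stripc c z) i) := if_pos h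

omit [∀ i, TopologicalSpace (α i)] [∀ i, DiscreteTopology (α i)] in
theorem glue_neg {c : Cell α} {r : W α → W α} {z : W α} {i : I}
    (h : ¬ ∀ i', (i' ∈ dep i ∨ i' = i) → Ext (c.val i') (z i')) :
    glue dep c r z i = z i := if_neg h

omit [∀ i, TopologicalSpace (α i)] [∀ i, DiscreteTopology (α i)] in
theorem mem_restrict {c d : Cell α} {S : Set I} (hd : d.supp = c.supp ∩ S)
    (hdS : ∀ i ∈ S, d.val i = c.val i) (z : W α) :
    d.Mem z ↔ ∀ i ∈ S, Ext (c.val i) (z i) := by
  constructor
  · intro h i hi
    rw [← hdS i hi]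
    exact h i
  · intro h i
    by_cases hi : i ∈ S
    · rw [hdS i hi]
      exact h i hi
    · exact Cell.ext_of_not_mem (fun h => hi (hd ▸ h : i ∈ c.supp ∩ S).2) _

theorem isClopen_restrict (c : Cell α) (S : Set I) :
    IsClopen {z : W α | ∀ i ∈ S, Ext (c.val i) (z i)} := by
  obtain ⟨d, hd, hdS⟩ := exists_cell_restrict c S
  have : {z : W α | ∀ i ∈ S, Ext (c.val i) (z i)} = {z | d.Mem z} := by
    ext z
    exact (mem_restrict hd hdS z).symm
  rw [this]
  exact isClopen_cell d

set_option linter.unusedVariables false in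
/-- gluing; the coordinates below a coordinate in `dep i` are in `dep i` -/
theorem isMor_glue (htr : ∀ i, ∀ i' ∈ dep i, ∀ i'' ∈ dep i', i'' ∈ dep i)
    (hirr : ∀ i, i ∉ dep i) (c : Cell α) (hr : IsMor dep A r) :
    IsMor dep (c.supp ∪ A) (glue dep c r) where
  off z i hi := by
    rw [mem_union, not_or] at hi
    by_cases h : ∀ i', (i' ∈ dep i ∨ i' = i) → Ext (c.val i') (z i')
    · rw [glue_pos h, hr.off _ i hi.2, stripc, Cell.val_eq_nil hi.1, app_nil]
      exact strip_zero
    · exact glue_neg h
  tri i hi z z' h := by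
    have hc : (∀ i', (i' ∈ dep i ∨ i' = i) → Ext (c.val i') (z i')) ↔
        ∀ i', (i' ∈ dep i ∨ i' = i) → Ext (c.val i') (z' i') := by
      constructor
      · intro h1 i' hi'
        by_cases hs : i' ∈ c.supp
        · rw [← h i' (Or.inl hs) hi']
          exact h1 i' hi'
        · exact Cell.ext_of_not_mem hs _
      · intro h1 i' hi'
        by_cases hs : i' ∈ c.supp
        · rw [h i' (Or.inl hs) hi']
          exact h1 i' hi'
        · exact Cell.ext_of_not_mem hs _
    have hzi : z i = z' i := h i hi (Or.inr rfl)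
    by_cases h1 : ∀ i', (i' ∈ dep i ∨ i' = i) → Ext (c.val i') (z i')
    · rw [glue_pos h1, glue_pos (hc.1 h1)]
      congr 1
      by_cases hA : i ∈ A
      · apply hr.tri i hA
        intro i' hi' h'
        simp only [stripc]
        rw [h i' (Or.inr hi') h']
      · rw [hr.off _ i hA, hr.off _ i hA]
        simp only [stripc]
        rw [hzi]
    · rw [glue_neg h1, glue_neg (fun h2 => h1 (hc.2 h2)), hzi]
  cont := by
    classical
    refine continuous_pi fun i => ?_
    have hcl := isClopen_restrict c {i' | i' ∈ dep i ∨ i' = i}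
    have : (fun z => glue dep c r z i) = fun z => if z ∈ {z : W α | ∀ i' ∈ {i' | i' ∈ dep i ∨ i' = i},
        Ext (c.val i') (z i')} then app (c.val i) (r (stripc c z) i) else z i := by
      funext z
      by_cases h : ∀ i', (i' ∈ dep i ∨ i' = i) → Ext (c.val i') (z i')
      · rw [glue_pos h]
        exact (if_pos (show z ∈ {z : W α | ∀ i' ∈ {i' | i' ∈ dep i ∨ i' = i},
          Ext (c.val i') (z i')} from h)).symm
      · rw [glue_neg h]
        exact (if_neg (show ¬ z ∈ {z : W α | ∀ i' ∈ {i' | i' ∈ dep i ∨ i' = i},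
          Ext (c.val i') (z i')} from h)).symm
    rw [this]
    refine Continuous.if ?_ ?_ (continuous_apply i)
    · intro z hz
      have h1 : frontier {z : W α | z ∈ {z : W α | ∀ i' ∈ {i' | i' ∈ dep i ∨ i' = i},
        Ext (c.val i') (z i')}} = ∅ := hcl.frontier_eq
      rw [h1] at hz
      exact absurd hz (notMem_empty z)
    · exact (continuous_app _).comp ((continuous_apply i).comp (hr.cont.comp (continuous_stripc c)))
  emb i z u := by
    by_cases h0 : ∀ i' ∈ dep i, Ext (c.val i') (z i')
    · by_cases hs : c.val i <+: u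
      · obtain ⟨u', rfl⟩ := hs
        obtain ⟨t, φ, hφ, ht⟩ := hr.emb i (stripc c z) u'
        refine ⟨c.val i ++ t, φ, hφ, fun a z' hz' he => ?_⟩
        have he' : Ext (c.val i) (z' i) := by
          rw [List.append_assoc, ext_append] at he
          exact he.1
        rw [glue_pos, List.append_assoc, ext_app_iff]
        · apply ht a
          · intro i' hi'
            simp only [stripc]
            rw [hz' i' hi']
          · rw [List.append_assoc, ext_append] at he
            exact he.2
        · rintro i' (hi' | rfl)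
          · rw [hz' i' hi']
            exact h0 i' hi'
          · exact he'
      · refine ⟨u, id, Function.injective_id, fun a z' hz' he => ?_⟩
        by_cases h1 : ∀ i', (i' ∈ dep i ∨ i' = i) → Ext (c.val i') (z' i')
        · rw [glue_pos h1]
          have h2 := h1 i (Or.inr rfl)
          refine ext_app.mono ?_
          change u ++ [a] <+: c.val i
          rw [he.le_iff h2]
          by_contra h3
          simp only [List.length_append, List.length_singleton, not_le] at h3
          apply hs
          rw [h2.le_iff (he.mono (List.prefix_append _ _))]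
          omega
        · rw [glue_neg h1]
          exact he
    · refine ⟨u, id, Function.injective_id, fun a z' hz' he => ?_⟩
      rw [glue_neg]
      · exact he
      · intro h1
        apply h0
        intro i' hi'
        rw [← hz' i' hi']
        exact h1 i' (Or.inl hi')

omit [∀ i, TopologicalSpace (α i)] [∀ i, DiscreteTopology (α i)] in
theorem glue_iota (c : Cell α) (r : W α → W α) : glue dep c r ∘ iota c = iota c ∘ r := by
  funext z i
  rw [Function.comp, glue_pos (fun i' _ => mem_iota c z i'), stripc_iota]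
  rfl

omit [∀ i, TopologicalSpace (α i)] [∀ i, DiscreteTopology (α i)] in
theorem resp_glue {c c' : Cell α} (h : Star dep c c') (r : W α → W α) :
    Resp dep (glue dep c' r) c := by
  intro i z hz v hv hvz
  by_cases h1 : ∀ i', (i' ∈ dep i ∨ i' = i) → Ext (c'.val i') (z i')
  · rw [glue_pos h1]
    refine ext_app.mono ?_
    have hi := h1 i (Or.inr rfl)
    rw [hvz.le_iff hi]
    have key : Compat (c.val i) (c'.val i) → (c.val i).length ≤ (c'.val i).length := by
      intro hcomp
      apply h i
      rintro i' (hi' | rfl)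
      · exact (hz i' hi').compat (h1 i' (Or.inl hi'))
      · exact hcomp
    rcases hv with rfl | ⟨u, a, rfl, hu, hne⟩
    · exact key (hvz.compat hi)
    · by_contra h2
      simp only [List.length_append, List.length_singleton, not_le] at h2
      have h3 : c'.val i <+: u := by
        rw [hi.le_iff (hvz.mono (List.prefix_append _ _))]
        omega
      have h4 := key (Or.inr (h3.trans hu))
      have h5 : u.length < (c.val i).length := by
        rcases lt_or_eq_of_le hu.length_le with h | h
        · exact h
        · exact absurd (hu.eq_of_length h) hne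
      omega
  · rw [glue_neg h1]
    exact hvz

omit [∀ i, TopologicalSpace (α i)] [∀ i, DiscreteTopology (α i)] in
theorem resp_id (c : Cell α) : Resp dep (id : W α → W α) c := fun _ _ _ _ _ h => h

omit [∀ i, TopologicalSpace (α i)] [∀ i, DiscreteTopology (α i)] in
theorem Resp.comp (htr : ∀ i, ∀ i' ∈ dep i, ∀ i'' ∈ dep i', i'' ∈ dep i) {c : Cell α}
    (hf : Resp dep f c) (hr : Resp dep r c) : Resp dep (f ∘ r) c := by
  intro i z hz v hv hvz
  refine hf i (r z) (fun i' hi' => ?_) v hv (hr i z hz v hv hvz)
  exact hr i' z (fun i'' hi'' => hz i'' (htr i i' hi' i'' hi'')) _ (Or.inl rfl) (hz i' hi')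

omit [∀ i, TopologicalSpace (α i)] [∀ i, DiscreteTopology (α i)] in
set_option linter.unusedVariables false in
/-- by well-founded induction along `dep` -/
theorem Resp.mem [LinearOrder I] [WellFoundedLT I] (hlt : ∀ i, ∀ i' ∈ dep i, i' < i)
    (htr : ∀ i, ∀ i' ∈ dep i, ∀ i'' ∈ dep i', i'' ∈ dep i) {c : Cell α}
    (hf : Resp dep f c) {z : W α} (hz : c.Mem z) : c.Mem (f z) :=
  fun i => hf i z (fun i' _ => hz i') _ (Or.inl rfl) (hz i)

/-! Stems -/

omit [∀ i, TopologicalSpace (α i)] [∀ i, DiscreteTopology (α i)] in
/-- The node `t` and the letters `φ` are as in `IsMor.emb`. -/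
def StemAt (dep : I → Set I) (f : W α → W α) (i : I) (z : W α) (u t : List (α i))
    (φ : α i → α i) : Prop :=
  Function.Injective φ ∧ ∀ (a : α i) (z' : W α), (∀ i' ∈ dep i, z' i' = z i') →
      Ext (u ++ [a]) (z' i) → Ext (t ++ [φ a]) (f z' i)

open Classical in
/-- A point which is `z` except at `i` where it extends `u`. -/
noncomputable def upd (z : W α) (i : I) (u : List (α i)) : W α :=
  Function.update z i (app u (z i))

omit [∀ i, TopologicalSpace (α i)] [∀ i, DiscreteTopology (α i)] in
theorem upd_dep {i : I} (hi : i ∉ dep i) (z : W α) (u : List (α i)) :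
    ∀ i' ∈ dep i, upd z i u i' = z i' := by
  classical
  intro i' hi'
  rw [upd, Function.update_of_ne]
  rintro rfl
  exact hi hi'

omit [∀ i, TopologicalSpace (α i)] [∀ i, DiscreteTopology (α i)] in
theorem ext_upd (z : W α) (i : I) (u : List (α i)) : Ext u (upd z i u i) := by
  classical
  rw [upd, Function.update_self]
  exact ext_app

omit [∀ i, DiscreteTopology (α i)] in
theorem continuous_upd (i : I) (u : List (α i)) : Continuous fun z : W α => upd z i u := by
  classical
  unfold upd
  exact continuous_id.update i ((continuous_app u).comp (continuous_apply i))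

omit [∀ i, TopologicalSpace (α i)] [∀ i, DiscreteTopology (α i)] in
/-- two extensions by different letters determine the node -/
theorem stem_le {β : Type} {s t : List β} {a b c d : β} {y y' : ℕ → β} (hab : a ≠ b)
    (h1 : Ext (s ++ [a]) y) (h2 : Ext (s ++ [b]) y') (h3 : Ext (t ++ [c]) y)
    (h4 : Ext (t ++ [d]) y') : t.length ≤ s.length := by
  by_contra h
  rw [not_le] at h
  rw [ext_concat] at h1 h2
  have h5 := (ext_concat.1 h3).1
  have h6 := (ext_concat.1 h4).1
  apply hab
  rw [← h1.2, ← h2.2, h5 _ h, h6 _ h]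

omit [∀ i, TopologicalSpace (α i)] [∀ i, DiscreteTopology (α i)] in
theorem stem_eq {β : Type} {s t : List β} {a b c d : β} {y y' : ℕ → β} (hab : a ≠ b)
    (hcd : c ≠ d) (h1 : Ext (s ++ [a]) y) (h2 : Ext (s ++ [b]) y') (h3 : Ext (t ++ [c]) y)
    (h4 : Ext (t ++ [d]) y') : s = t := by
  have h5 := stem_le hab h1 h2 h3 h4
  have h6 := stem_le hcd h3 h4 h1 h2
  have h7 := (ext_concat.1 h1).1
  have h8 := (ext_concat.1 h3).1
  rw [h7.eq_pre, h8.eq_pre, le_antisymm h6 h5]

omit [∀ i, TopologicalSpace (α i)] [∀ i, DiscreteTopology (α i)] in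
theorem StemAt.unique [∀ i, Nontrivial (α i)] {i : I} (hi : i ∉ dep i) {z : W α}
    {u t t' : List (α i)} {φ φ' : α i → α i} (h : StemAt dep f i z u t φ)
    (h' : StemAt dep f i z u t' φ') : t = t' ∧ φ = φ' := by
  have key : ∀ a, Ext (t ++ [φ a]) (f (upd z i (u ++ [a])) i) ∧
      Ext (t' ++ [φ' a]) (f (upd z i (u ++ [a])) i) := fun a =>
    ⟨h.2 a _ (upd_dep hi z _) (ext_upd z i _), h'.2 a _ (upd_dep hi z _) (ext_upd z i _)⟩
  obtain ⟨a, b, hab⟩ := exists_pair_ne (α i)
  have ht : t = t' := stem_eq (h.1.ne hab) (h'.1.ne hab) (key a).1 (key b).1 (key a).2 (key b).2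
  refine ⟨ht, funext fun a => ?_⟩
  subst ht
  rw [← (ext_concat.1 (key a).1).2, ← (ext_concat.1 (key a).2).2]

set_option linter.unusedVariables false in
/-- canonical stems: for a morphism `f` and a coordinate `i` there are functions `t`, `φ` of the
lower part of the point and the node `u` as in `IsMor.emb`, with further properties -/
theorem IsMor.stem [∀ i, Nontrivial (α i)] (hf : IsMor dep A f) (i : I) (hi : i ∉ dep i)
    (hfi : ∀ i', i' ∈ dep i → i ∉ dep i') :
    ∃ (t : W α → List (α i) → List (α i)) (φ : W α → List (α i) → α i → α i),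
    (∀ z u, Function.Injective (φ z u)) ∧
    (∀ z u a (z' : W α), (∀ i' ∈ dep i, z' i' = z i') → Ext (u ++ [a]) (z' i) →
      Ext (t z u ++ [φ z u a]) (f z' i)) ∧
    (∀ z u (z' : W α), (∀ i' ∈ dep i, z' i' = z i') → Ext u (z' i) → Ext (t z u) (f z' i)) ∧
    (∀ z u a, t z u ++ [φ z u a] <+: t z (u ++ [a])) ∧
    (∀ z u, u.length ≤ (t z u).length) ∧
    (∀ z z' u, (∀ i' ∈ A, i' ∈ dep i → z i' = z' i') → t z u = t z' u ∧ φ z u = φ z' u) ∧
    (∀ u s, IsClopen {z | t z u = s}) ∧ (∀ u a b, IsClopen {z | φ z u a = b}) := by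
  classical
  choose t φ hφ ht using fun z u => hf.emb i z u
  have hst : ∀ z u, StemAt dep f i z u (t z u) (φ z u) := fun z u => ⟨hφ z u, ht z u⟩
  have key : ∀ z u a, Ext (t z u ++ [φ z u a]) (f (upd z i (u ++ [a])) i) := fun z u a =>
    ht z u a _ (upd_dep hi z _) (ext_upd z i _)
  have h3 : ∀ z u (z' : W α), (∀ i' ∈ dep i, z' i' = z i') → Ext u (z' i) →
      Ext (t z u) (f z' i) := by
    intro z u z' hz' hu
    have := ht z u (z' i u.length) z' hz' (ext_concat.2 ⟨hu, rfl⟩)
    exact this.mono (List.prefix_append _ _)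
  have h4 : ∀ z u a, t z u ++ [φ z u a] <+: t z (u ++ [a]) := by
    intro z u a
    obtain ⟨b, b', hb⟩ := exists_pair_ne (α i)
    have e1 : ∀ b, Ext (t z (u ++ [a]) ++ [φ z (u ++ [a]) b]) (f (upd z i (u ++ [a] ++ [b])) i) :=
      fun b => key z (u ++ [a]) b
    have e2 : ∀ b, Ext (t z u ++ [φ z u a]) (f (upd z i (u ++ [a] ++ [b])) i) := fun b =>
      ht z u a _ (upd_dep hi z _) ((ext_upd z i _).mono (List.prefix_append _ _))
    rw [(e2 b).le_iff ((e1 b).mono (List.prefix_append _ _))]
    by_contra h
    rw [not_le] at h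
    have := (e2 b).eq_pre
    have h5 := (ext_concat.1 (e1 b)).2
    have h6 := (ext_concat.1 (e1 b')).2
    apply hφ z (u ++ [a]) |>.ne hb
    rw [← h5, ← h6, (e2 b) _ h, (e2 b') _ h]
  have h5 : ∀ z u, u.length ≤ (t z u).length := by
    intro z u
    induction u using List.reverseRecOn with
    | nil => exact Nat.zero_le _
    | append_singleton u a ih =>
      have := (h4 z u a).length_le
      simp only [List.length_append, List.length_singleton] at this ⊢
      omega
  have h6 : ∀ z z' u, (∀ i' ∈ A, i' ∈ dep i → z i' = z' i') → t z u = t z' u ∧ φ z u = φ z' u := by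
    intro z z' u h
    refine StemAt.unique (f := f) hi (hst z u) ⟨hφ z' u, fun a w hw he => ?_⟩
    have e1 := ht z' u a (fun i' => if i' ∈ dep i then z' i' else w i')
      (fun i' hi' => if_pos hi') (by simpa only [if_neg hi] using he)
    have e2 : f (fun i' => if i' ∈ dep i then z' i' else w i') i = f w i := by
      by_cases hA : i ∈ A
      · apply hf.tri i hA
        rintro i' hi' (h' | rfl)
        · rw [if_pos h', hw i' h', h i' hi' h']
        · rw [if_neg hi]
      · rw [hf.off _ i hA, hf.off _ i hA, if_neg hi]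
    rwa [e2] at e1
  have hopen : ∀ u a (s : List (α i)), IsOpen {z | Ext s (f (upd z i (u ++ [a])) i)} := by
    intro u a s
    have hc : Continuous fun z : W α => f (upd z i (u ++ [a])) i :=
      (continuous_apply i).comp (hf.cont.comp (continuous_upd i _))
    exact ((isClopen_ext s).preimage hc).isOpen
  have ho1 : ∀ u s, IsOpen {z | t z u = s} := by
    intro u s
    rw [isOpen_iff_mem_nhds]
    intro z hz
    obtain ⟨a, b, hab⟩ := exists_pair_ne (α i)
    have hz' : t z u = s := hz
    have m1 := (hopen u a (s ++ [φ z u a])).mem_nhds (by rw [← hz']; exact key z u a)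
    have m2 := (hopen u b (s ++ [φ z u b])).mem_nhds (by rw [← hz']; exact key z u b)
    filter_upwards [m1, m2] with w w1 w2
    exact stem_eq ((hφ w u).ne hab) ((hφ z u).ne hab) (key w u a) (key w u b) w1 w2
  have ho2 : ∀ u a b, IsOpen {z | φ z u a = b} := by
    intro u a b
    rw [isOpen_iff_mem_nhds]
    intro z hz
    have hz' : φ z u a = b := hz
    have m1 := (hopen u a (t z u ++ [b])).mem_nhds (by rw [← hz']; exact key z u a)
    have m2 := (ho1 u (t z u)).mem_nhds rfl
    filter_upwards [m1, m2] with w w1 w2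
    have e1 := (ext_concat.1 (key w u a)).2
    have e2 := (ext_concat.1 w1).2
    have w2' : t w u = t z u := w2
    rw [w2'] at e1
    show φ w u a = b
    rw [← e1, ← e2]
  refine ⟨t, φ, hφ, ht, h3, h4, h5, h6, fun u s => ⟨?_, ho1 u s⟩, fun u a b => ⟨?_, ho2 u a b⟩⟩
  · rw [← isOpen_compl_iff]
    have : {z | t z u = s}ᶜ = ⋃ s' ∈ {s' : List (α i) | s' ≠ s}, {z | t z u = s'} := by
      ext z
      simp
    rw [this]
    exact isOpen_biUnion fun s' _ => ho1 u s'
  · rw [← isOpen_compl_iff]
    have : {z | φ z u a = b}ᶜ = ⋃ s' ∈ {s' : α i | s' ≠ b}, {z | φ z u a = s'} := by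
      ext z
      simp
    rw [this]
    exact isOpen_biUnion fun s' _ => ho2 u a s'

omit [∀ i, DiscreteTopology (α i)] in
theorem IsMor.injective [LinearOrder I] [WellFoundedLT I] (hlt : ∀ i, ∀ i' ∈ dep i, i' < i)
    (hf : IsMor dep A f) : Function.Injective f := by
  intro z z' h
  funext i
  induction i using WellFoundedLT.induction with
  | ind i ih =>
    by_contra hne
    have hex : ∃ k, z i k ≠ z' i k := by
      by_contra h'
      push Not at h'
      exact hne (funext h')
    classical
    have hk := Nat.find_spec hex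
    have hmin : ∀ l < Nat.find hex, z i l = z' i l := fun l hl => by
      by_contra h'
      exact Nat.find_min hex hl h'
    set k := Nat.find hex with hkdef
    obtain ⟨t, φ, hφ, ht⟩ := hf.emb i z (pre (z i) k)
    have e1 := ht (z i k) z (fun _ _ => rfl) (by rw [← pre_succ]; exact ext_pre _)
    have e2 := ht (z' i k) z' (fun i' hi' => (ih i' (hlt i i' hi')).symm) (by
      rw [pre_eq_iff.2 hmin, ← pre_succ]
      exact ext_pre _)
    rw [h] at e1
    apply hk
    apply hφ
    rw [← (ext_concat.1 e1).2, ← (ext_concat.1 e2).2]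

omit [∀ i, DiscreteTopology (α i)] in
/-- a morphism with range in a cell factors through the cell -/
theorem IsMor.factor [∀ i, Nontrivial (α i)] (hf : IsMor dep A f) (c : Cell α)
    (h : ∀ z, c.Mem (f z)) : ∃ g, IsMor dep (A ∪ c.supp) g ∧ f = iota c ∘ g := by
  classical
  refine ⟨stripc c ∘ f, ⟨?_, ?_, ?_, ?_⟩, ?_⟩
  · intro z i hi
    rw [mem_union, not_or] at hi
    simp only [Function.comp, stripc]
    rw [hf.off z i hi.1, Cell.val_eq_nil hi.2]
    exact strip_zero
  · intro i hi z z' hz
    simp only [Function.comp, stripc]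
    by_cases hA : i ∈ A
    · rw [hf.tri i hA z z' fun i' hi' => hz i' (Or.inl hi')]
    · rw [hf.off z i hA, hf.off z' i hA, hz i hi (Or.inr rfl)]
  · exact (continuous_stripc c).comp hf.cont
  · intro i z u
    obtain ⟨t, φ, hφ, ht⟩ := hf.emb i z u
    by_cases hi : i ∈ dep i
    · have hcon : ∀ z' : W α, (∀ i' ∈ dep i, z' i' = z i') → f z' i = f z i := by
        intro z' hz'
        apply hf.tri' i
        rintro i' (h' | rfl)
        · exact hz' i' h'
        · exact hz' _ hi
      refine ⟨[], Equiv.swap (z i u.length) ((stripc c ∘ f) z i 0), (Equiv.injective _), ?_⟩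
      intro a z' hz' he
      rw [hz' i hi, ext_concat] at he
      rw [ext_concat]
      refine ⟨ext_nil, ?_⟩
      rw [← he.2, Equiv.swap_apply_left]
      simp only [Function.comp, stripc, List.length_nil]
      rw [hcon z' hz']
    · obtain ⟨a, b, hab⟩ := exists_pair_ne (α i)
      have key : ∀ a, Ext (t ++ [φ a]) (f (upd z i (u ++ [a])) i) := fun a =>
        ht a _ (upd_dep hi z _) (ext_upd z i _)
      have hle : (c.val i).length ≤ t.length := by
        by_contra hlt
        rw [not_le] at hlt
        apply hφ.ne hab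
        rw [← (ext_concat.1 (key a)).2, ← (ext_concat.1 (key b)).2, h _ i _ hlt, h _ i _ hlt]
      have hpre : c.val i <+: t := by
        rw [(h (upd z i (u ++ [a])) i).le_iff ((key a).mono (List.prefix_append _ _))]
        exact hle
      obtain ⟨t', rfl⟩ := hpre
      refine ⟨t', φ, hφ, fun a z' hz' he => ?_⟩
      have := ht a z' hz' he
      rw [List.append_assoc, ext_append] at this
      exact this.2
  · funext z
    exact (iota_stripc (h z)).symm

/-- 3.1 -/
theorem IsMor.local_factor [∀ i, Nontrivial (α i)]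
    (htr : ∀ i, ∀ i' ∈ dep i, ∀ i'' ∈ dep i', i'' ∈ dep i)
    (hf : IsMorC dep f) (c : Cell α) (z : W α) (h : c.Mem (f z)) :
    ∃ c' : Cell α, c'.Mem z ∧ ∃ g, IsMorC dep g ∧ f ∘ iota c' = iota c ∘ g := by
  obtain ⟨A, hA, hf'⟩ := hf
  obtain ⟨c', hc', hc⟩ := exists_cell (((isClopen_cell c).preimage hf'.cont).isOpen) (z := z) h
  refine ⟨c', hc', ?_⟩
  obtain ⟨g, hg, hfg⟩ := (hf'.comp htr (isMor_iota c')).factor c fun z => hc _ (mem_iota c' z)
  exact ⟨g, ⟨_, (hA.union c'.fin.countable).union c.fin.countable, hg⟩, hfg⟩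

end morphisms

end Pool.Agent.H554
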