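import Pool.Agent.H554.Stmts

/-!
# Section 5: clocks (TM-Clock, helper322)
-/

set_option linter.unusedSectionVars false

namespace Pool.Agent.H554

open Set

namespace ClockA

/-! ### Codes of nodes -/

theorem enc_lt (u : List ℕ) (a : ℕ) : Encodable.encode u < Encodable.encode (u ++ [a]) := by
  induction u with
  | nil => simp
  | cons b u ih =>
    rw [List.cons_append, Encodable.encode_list_cons, Encodable.encode_list_cons]
    exact Nat.succ_lt_succ (Nat.pair_lt_pair_right _ ih)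

theorem pre_succ (z : ℕ → ℕ) (l : ℕ) : pre z (l + 1) = pre z l ++ [z l] := by
  simp [pre, List.range_succ]

theorem pre_length {β : Type} (z : ℕ → β) (l : ℕ) : (pre z l).length = l := by
  simp [pre]

theorem pre_eq_iff {β : Type} (z z' : ℕ → β) (l : ℕ) :
    pre z l = pre z' l ↔ ∀ k < l, z k = z' k := by
  unfold pre
  rw [List.map_inj_left]
  simp

theorem pre_le {β : Type} {z z' : ℕ → β} {l l' : ℕ} (h : pre z l = pre z' l) (hl : l' ≤ l) :
    pre z l' = pre z' l' := by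
  rw [pre_eq_iff] at *
  exact fun k hk => h k (by omega)

section

variable {A : Type} [LinearOrder A] [OrderBot A] [Encodable A]

/-- the code of a node -/
def cc (ξ : A) (u : List ℕ) : ℕ := Nat.pair (Encodable.encode ξ) (Encodable.encode u) + 1

/-- the index of a coordinate -/
def idx (ξ : A) : ℕ := if ξ = ⊥ then 0 else cc ξ [] - 1

theorem cc_inj {ξ η : A} {u v : List ℕ} (h : cc ξ u = cc η v) : ξ = η ∧ u = v := by
  unfold cc at h
  have h1 : Nat.pair (Encodable.encode ξ) (Encodable.encode u) =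
      Nat.pair (Encodable.encode η) (Encodable.encode v) := by omega
  rw [Nat.pair_eq_pair] at h1
  exact ⟨Encodable.encode_injective h1.1, Encodable.encode_injective h1.2⟩

theorem cc_pos (ξ : A) (u : List ℕ) : 1 ≤ cc ξ u := by
  unfold cc
  omega

theorem idx_bot : idx (⊥ : A) = 0 := by
  unfold idx
  rw [if_pos rfl]

theorem cc_nil {ξ : A} (h : ξ ≠ ⊥) : cc ξ [] = idx ξ + 1 := by
  unfold idx
  rw [if_neg h]
  have := cc_pos ξ []
  omega

theorem cc_nil_ge (ξ : A) : idx ξ + 1 ≤ cc ξ [] := by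
  by_cases h : ξ = ⊥
  · subst h
    rw [idx_bot]
    exact cc_pos _ _
  · rw [cc_nil h]

theorem cc_lt_succ (ξ : A) (z : ℕ → ℕ) (l : ℕ) : cc ξ (pre z l) < cc ξ (pre z (l + 1)) := by
  rw [pre_succ]
  unfold cc
  have := Nat.pair_lt_pair_right (Encodable.encode ξ) (enc_lt (pre z l) (z l))
  omega

theorem cc_mono (ξ : A) (z : ℕ → ℕ) : StrictMono (fun l => cc ξ (pre z l)) :=
  strictMono_nat_of_lt_succ (cc_lt_succ ξ z)

theorem cc_ge (ξ : A) (z : ℕ → ℕ) (l : ℕ) : idx ξ + 1 + l ≤ cc ξ (pre z l) := by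
  induction l with
  | zero => exact cc_nil_ge ξ
  | succ l ih =>
    have := cc_lt_succ ξ z l
    omega

theorem fin_idx (m : ℕ) : {ξ : A | idx ξ < m}.Finite := by
  refine ((Set.finite_singleton (⊥ : A)).union
    ((Set.finite_lt_nat m).preimage (Encodable.encode_injective (α := A)).injOn)).subset ?_
  intro ξ hξ
  by_cases h : ξ = ⊥
  · exact Or.inl h
  · right
    have h1 : idx ξ < m := hξ
    unfold idx at h1
    rw [if_neg h] at h1
    have h2 : cc ξ [] - 1 = Nat.pair (Encodable.encode ξ) (Encodable.encode ([] : List ℕ)) := by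
      unfold cc
      omega
    rw [h2] at h1
    exact (Nat.left_le_pair _ _).trans_lt h1

/-- the finite set of the coordinates in `I` of index less than `m` -/
noncomputable def bel (I : Set A) (m : ℕ) : Finset A :=
  (show {ξ : A | ξ ∈ I ∧ idx ξ < m}.Finite from (fin_idx m).subset fun _ h => h.2).toFinset

theorem mem_bel {I : Set A} {m : ℕ} {ξ : A} : ξ ∈ bel I m ↔ ξ ∈ I ∧ idx ξ < m := by
  unfold bel
  rw [Set.Finite.mem_toFinset]
  rfl

/-- the largest coordinate in `I` of index less than `m` -/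
noncomputable def low (I : Set A) (m : ℕ) : A := (bel I m).sup id

theorem le_low {I : Set A} {m : ℕ} {ξ : A} (h : ξ ∈ I) (hm : idx ξ < m) : ξ ≤ low I m :=
  Finset.le_sup (f := id) (mem_bel.2 ⟨h, hm⟩)

theorem low_mem {I : Set A} {m : ℕ} (hI : ⊥ ∈ I) (hm : 1 ≤ m) : low I m ∈ I ∧ idx (low I m) < m := by
  have hne : (bel I m).Nonempty := ⟨⊥, mem_bel.2 ⟨hI, by rw [idx_bot]; omega⟩⟩
  obtain ⟨x, hx, h⟩ := Finset.exists_mem_eq_sup (bel I m) hne id
  have h1 : low I m = x := h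
  rw [h1]
  exact mem_bel.1 hx

theorem low_sub {I J : Set A} {m : ℕ} (hJ : J ⊆ I) (hb : ⊥ ∈ J) (hm : 1 ≤ m) (h : low I m ∈ J) :
    low J m = low I m := by
  have h1 := low_mem (hJ hb) hm
  have h2 := low_mem hb hm
  exact le_antisymm (le_low (hJ h2.1) h2.2) (le_low h h1.2)

theorem idx_ge_of_low_lt {I : Set A} {m : ℕ} {ξ : A} (h : ξ ∈ I) (hl : low I m < ξ) :
    m ≤ idx ξ := by
  by_contra h1
  push Not at h1
  exact absurd (le_low h h1) (not_le.2 hl)

variable [WellFoundedLT A]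

/-- the time when the coordinate `ξ` processes its node of length `l` -/
noncomputable def Nn (ξ : A) : ℕ → (A → ℕ → ℕ) → ℕ :=
  WellFoundedLT.fix (motive := fun _ : A => ℕ → (A → ℕ → ℕ) → ℕ)
    (fun ξ ih l y => if ξ = ⊥ then l else
      if h : low (Iio ξ) (cc ξ (pre (y ξ) l)) < ξ then
        ih _ h (cc ξ (pre (y ξ) l) - 1 - idx (low (Iio ξ) (cc ξ (pre (y ξ) l)))) y else 0) ξ

/-- the time when the part of `y` on `I` reaches the stage `m` -/
noncomputable def Tt (I : Set A) (m : ℕ) (y : A → ℕ → ℕ) : ℕ :=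
  Nn (low I m) (m - 1 - idx (low I m)) y

theorem Nn_bot (l : ℕ) (y : A → ℕ → ℕ) : Nn (⊥ : A) l y = l := by
  unfold Nn
  rw [WellFoundedLT.fix_eq, if_pos rfl]

theorem Nn_eq {ξ : A} (h : ξ ≠ ⊥) (l : ℕ) (y : A → ℕ → ℕ) :
    Nn ξ l y = Tt (Iio ξ) (cc ξ (pre (y ξ) l)) y := by
  have h1 : low (Iio ξ) (cc ξ (pre (y ξ) l)) < ξ :=
    (low_mem (I := Iio ξ) (bot_lt_iff_ne_bot.2 h) (cc_pos _ _)).1
  conv_lhs => unfold Nn
  rw [WellFoundedLT.fix_eq, if_neg h, dif_pos h1]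
  rfl

theorem Tt_sub {I J : Set A} {m : ℕ} (hJ : J ⊆ I) (hb : ⊥ ∈ J) (hm : 1 ≤ m) (h : low I m ∈ J)
    (y : A → ℕ → ℕ) : Tt J m y = Tt I m y := by
  unfold Tt
  rw [low_sub hJ hb hm h]

/-! ### Monotonicity -/

/-- `Tt I` is strictly increasing -/
def SI (I : Set A) (y : A → ℕ → ℕ) : Prop := ∀ m m', 1 ≤ m → m < m' → Tt I m y < Tt I m' y

theorem Nn_lt_of {ξ : A} {y : A → ℕ → ℕ} (h : ξ ≠ ⊥ → SI (Iio ξ) y) {l l' : ℕ} (hl : l < l') :
    Nn ξ l y < Nn ξ l' y := by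
  by_cases hξ : ξ = ⊥
  · subst hξ
    rw [Nn_bot, Nn_bot]
    exact hl
  · rw [Nn_eq hξ, Nn_eq hξ]
    exact h hξ _ _ (cc_pos _ _) (cc_mono ξ (y ξ) hl)

theorem SI_step {I : Set A} (hI : IsLowerSet I) (hb : ⊥ ∈ I) (y : A → ℕ → ℕ)
    (h : ∀ γ ∈ I, γ ≠ ⊥ → SI (Iio γ) y) : SI I y := by
  intro m m' hm hmm
  have h1 := low_mem hb hm
  have h2 := low_mem (m := m') hb (by omega)
  have h3 : low I m ≤ low I m' := le_low h1.1 (h1.2.trans hmm)
  rcases h3.eq_or_lt with h4 | h4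
  · unfold Tt
    rw [← h4]
    exact Nn_lt_of (fun hγ => h _ h1.1 hγ) (by omega)
  · have h5 : low I m' ≠ ⊥ := (bot_le.trans_lt h4).ne'
    have h6 : Iio (low I m') ⊆ I := fun a ha => hI (le_of_lt ha) h2.1
    have h7 : Tt (Iio (low I m')) m y = Tt I m y :=
      Tt_sub h6 (bot_le.trans_lt h4) hm h4 y
    rw [← h7]
    have h8 : Tt I m' y = Nn (low I m') (m' - 1 - idx (low I m')) y := rfl
    rw [h8, Nn_eq h5]
    apply h _ h2.1 h5 _ _ hm
    have := cc_ge (low I m') (y (low I m')) (m' - 1 - idx (low I m'))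
    omega

theorem SI_Iio (y : A → ℕ → ℕ) (ξ : A) : ξ ≠ ⊥ → SI (Iio ξ) y := by
  induction ξ using WellFoundedLT.induction with
  | ind ξ ih =>
    intro hξ
    exact SI_step (isLowerSet_Iio ξ) (bot_lt_iff_ne_bot.2 hξ) y fun γ hγ hγ0 => ih γ hγ hγ0

theorem SI_all {I : Set A} (hI : IsLowerSet I) (hb : ⊥ ∈ I) (y : A → ℕ → ℕ) : SI I y :=
  SI_step hI hb y fun γ _ hγ => SI_Iio y γ hγ

theorem Tt_inj {I : Set A} (hI : IsLowerSet I) (hb : ⊥ ∈ I) {y : A → ℕ → ℕ} {m m' : ℕ}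
    (hm : 1 ≤ m) (hm' : 1 ≤ m') (h : Tt I m y = Tt I m' y) : m = m' := by
  rcases lt_trichotomy m m' with h1 | h1 | h1
  · exact absurd h (SI_all hI hb y m m' hm h1).ne
  · exact h1
  · exact absurd h.symm (SI_all hI hb y m' m hm' h1).ne

theorem Tt_lt_iff {I : Set A} (hI : IsLowerSet I) (hb : ⊥ ∈ I) {y : A → ℕ → ℕ} {m m' : ℕ}
    (hm : 1 ≤ m) (hm' : 1 ≤ m') : Tt I m y < Tt I m' y ↔ m < m' := by
  constructor
  · intro h
    by_contra h1
    push Not at h1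
    rcases h1.eq_or_lt with h2 | h2
    · rw [h2] at h
      exact lt_irrefl _ h
    · exact absurd (SI_all hI hb y m' m hm' h2) (by omega)
  · exact fun h => SI_all hI hb y m m' hm h

theorem Tt_ge {I : Set A} (hI : IsLowerSet I) (hb : ⊥ ∈ I) (y : A → ℕ → ℕ) (m : ℕ) :
    m ≤ Tt I (m + 1) y := by
  induction m with
  | zero => omega
  | succ m ih =>
    have := SI_all hI hb y (m + 1) (m + 1 + 1) (by omega) (by omega)
    omega

theorem Nn_strictMono (ξ : A) (y : A → ℕ → ℕ) : StrictMono (fun l => Nn ξ l y) :=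
  fun _ _ h => Nn_lt_of (SI_Iio y ξ) h

theorem Nn_ge (ξ : A) (l : ℕ) (y : A → ℕ → ℕ) : idx ξ + l ≤ Nn ξ l y := by
  by_cases hξ : ξ = ⊥
  · subst hξ
    rw [idx_bot, Nn_bot]
    omega
  · rw [Nn_eq hξ]
    have h1 := cc_ge ξ (y ξ) l
    have h2 := Tt_ge (isLowerSet_Iio ξ) (bot_lt_iff_ne_bot.2 hξ) y (cc ξ (pre (y ξ) l) - 1)
    rw [Nat.sub_add_cancel (cc_pos _ _)] at h2
    omega

/-! ### Allowed coordinates -/

/-- the coordinate `ξ` allows time `n` -/
def Alw (n : ℕ) (ξ : A) (y : A → ℕ → ℕ) : Prop :=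
  ξ = ⊥ ∨ (∃ m, 1 ≤ m ∧ m ≤ idx ξ ∧ n = Tt (Iio ξ) m y) ∨ ∃ l, n = Nn ξ l y

theorem alw_of_Tt {n : ℕ} {y : A → ℕ → ℕ} (I : Set A) (hI : IsLowerSet I) (hb : ⊥ ∈ I) (m : ℕ)
    (hm : 1 ≤ m) (hn : n = Tt I m y) (hyp : ∀ γ ∈ I, γ ≠ ⊥ → ∀ m, 1 ≤ m → n = Tt (Iio γ) m y →
      ∀ η ∈ Iio γ, Alw n η y) : ∀ η ∈ I, Alw n η y := by
  intro η hη
  have h1 := low_mem hb hm
  rcases lt_trichotomy η (low I m) with h | h | h
  · have h2 : low I m ≠ ⊥ := (bot_le.trans_lt h).ne'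
    refine hyp _ h1.1 h2 _ (cc_pos (low I m) (pre (y (low I m)) (m - 1 - idx (low I m)))) ?_ η h
    rw [hn, ← Nn_eq h2]
    rfl
  · rw [h]
    exact Or.inr (Or.inr ⟨_, hn⟩)
  · refine Or.inr (Or.inl ⟨m, hm, idx_ge_of_low_lt hη h, ?_⟩)
    rw [hn]
    exact (Tt_sub (fun a ha => hI (le_of_lt ha) hη) (bot_le.trans_lt h) hm h y).symm

theorem alw_Iio {n : ℕ} {y : A → ℕ → ℕ} (ξ : A) : ξ ≠ ⊥ → ∀ m, 1 ≤ m → n = Tt (Iio ξ) m y →
    ∀ η ∈ Iio ξ, Alw n η y := by
  induction ξ using WellFoundedLT.induction with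
  | ind ξ ih =>
    intro hξ m hm hn
    exact alw_of_Tt (Iio ξ) (isLowerSet_Iio ξ) (bot_lt_iff_ne_bot.2 hξ) m hm hn
      fun γ hγ hγ0 => ih γ hγ hγ0

theorem alw_iff {n : ℕ} {y : A → ℕ → ℕ} {I : Set A} (hI : IsLowerSet I) (hb : ⊥ ∈ I) :
    (∀ η ∈ I, Alw n η y) ↔ ∃ m, 1 ≤ m ∧ n = Tt I m y := by
  constructor
  · intro h
    -- the largest processed coordinate
    have hfin : {γ : A | γ ∈ I ∧ ∃ l, n = Nn γ l y}.Finite := by
      refine (fin_idx (n + 1)).subset ?_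
      rintro γ ⟨_, l, hl⟩
      have := Nn_ge γ l y
      show idx γ < n + 1
      omega
    have hne : hfin.toFinset.Nonempty := by
      refine ⟨⊥, ?_⟩
      rw [Set.Finite.mem_toFinset]
      exact ⟨hb, n, by rw [Nn_bot]⟩
    obtain ⟨γ, hγ, hmax⟩ := Finset.exists_max_image hfin.toFinset id hne
    rw [Set.Finite.mem_toFinset] at hγ
    obtain ⟨hγI, l, hl⟩ := hγ
    have hnone : ∀ η ∈ I, γ < η → idx γ + 1 + l ≤ idx η := by
      by_contra hcon
      push Not at hcon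
      obtain ⟨η0, hη0, hγη0, hidx0⟩ := hcon
      obtain ⟨η, ⟨hηI, hγη, hidx⟩, hmin⟩ := WellFounded.has_min (wellFounded_lt (α := A))
        {η : A | η ∈ I ∧ γ < η ∧ idx η < idx γ + 1 + l} ⟨η0, hη0, hγη0, hidx0⟩
      have hη0' : η ≠ ⊥ := (bot_le.trans_lt hγη).ne'
      have hlow : low (Iio η) (idx γ + 1 + l) = γ := by
        have h1 := low_mem (I := Iio η) (m := idx γ + 1 + l) (bot_lt_iff_ne_bot.2 hη0') (by omega)
        have h2 : γ ≤ low (Iio η) (idx γ + 1 + l) := le_low (I := Iio η) hγη (by omega)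
        rcases h2.eq_or_lt with h3 | h3
        · exact h3.symm
        · exact absurd h1.1 (hmin _ ⟨hI (le_of_lt h1.1) hηI, h3, h1.2⟩)
      have hT : n = Tt (Iio η) (idx γ + 1 + l) y := by
        unfold Tt
        rw [hlow, hl]
        congr 1
        omega
      rcases h η hηI with h1 | ⟨m', hm', hm'2, hn'⟩ | ⟨l', hl'⟩
      · exact hη0' h1
      · have := Tt_inj (isLowerSet_Iio η) (bot_lt_iff_ne_bot.2 hη0') hm' (by omega)
          (hn'.symm.trans hT)
        omega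
      · have := hmax η (by rw [Set.Finite.mem_toFinset]; exact ⟨hηI, l', hl'⟩)
        exact absurd hγη (not_lt.2 this)
    refine ⟨idx γ + 1 + l, by omega, ?_⟩
    have hlow : low I (idx γ + 1 + l) = γ := by
      have h1 := low_mem (m := idx γ + 1 + l) hb (by omega)
      have h2 : γ ≤ low I (idx γ + 1 + l) := le_low hγI (by omega)
      rcases h2.eq_or_lt with h3 | h3
      · exact h3.symm
      · have := hnone _ h1.1 h3
        omega
    unfold Tt
    rw [hlow, hl]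
    congr 1
    omega
  · rintro ⟨m, hm, hn⟩
    exact alw_of_Tt I hI hb m hm hn fun γ _ hγ0 => alw_Iio γ hγ0

/-! ### Locality -/

theorem Nn_loc (ξ : A) : ∀ (l : ℕ) (y y' : A → ℕ → ℕ), (∀ η, η < ξ → y η = y' η) →
    pre (y ξ) l = pre (y' ξ) l → Nn ξ l y = Nn ξ l y' := by
  induction ξ using WellFoundedLT.induction with
  | ind ξ ih =>
    intro l y y' h1 h2
    by_cases hξ : ξ = ⊥
    · subst hξ
      rw [Nn_bot, Nn_bot]
    · rw [Nn_eq hξ, Nn_eq hξ, h2]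
      have h3 := low_mem (I := Iio ξ) (m := cc ξ (pre (y' ξ) l)) (bot_lt_iff_ne_bot.2 hξ)
        (cc_pos _ _)
      unfold Tt
      apply ih _ h3.1
      · exact fun η hη => h1 η (lt_trans hη h3.1)
      · rw [h1 _ h3.1]

theorem Tt_loc {I : Set A} (hI : IsLowerSet I) (hb : ⊥ ∈ I) {m : ℕ} (hm : 1 ≤ m)
    {y y' : A → ℕ → ℕ} (h : ∀ η ∈ I, y η = y' η) : Tt I m y = Tt I m y' := by
  have h1 := low_mem hb hm
  unfold Tt
  apply Nn_loc
  · exact fun η hη => h η (hI (le_of_lt hη) h1.1)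
  · rw [h _ h1.1]

theorem alw_loc {n : ℕ} {ξ : A} {y y' : A → ℕ → ℕ} (h : ∀ η, η ≤ ξ → y η = y' η)
    (ha : Alw n ξ y) : Alw n ξ y' := by
  rcases ha with h1 | ⟨m, hm, hm2, hn⟩ | ⟨l, hl⟩
  · exact Or.inl h1
  · by_cases hξ : ξ = ⊥
    · exact Or.inl hξ
    · refine Or.inr (Or.inl ⟨m, hm, hm2, ?_⟩)
      rw [hn]
      exact Tt_loc (isLowerSet_Iio ξ) (bot_lt_iff_ne_bot.2 hξ) hm fun η hη => h η (le_of_lt hη)
  · refine Or.inr (Or.inr ⟨l, ?_⟩)
    rw [hl]
    exact Nn_loc ξ l y y' (fun η hη => h η hη.le) (by rw [h ξ le_rfl])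

/-! ### Continuity -/

theorem Nn_cont (ξ : A) : ∀ l : ℕ, Continuous (Nn ξ l) := by
  induction ξ using WellFoundedLT.induction with
  | ind ξ ih =>
    intro l
    by_cases hξ : ξ = ⊥
    · subst hξ
      have : Nn (⊥ : A) l = fun _ => l := by
        funext y
        exact Nn_bot l y
      rw [this]
      exact continuous_const
    · rw [continuous_iff_continuousAt]
      intro y0
      have h3 := low_mem (I := Iio ξ) (m := cc ξ (pre (y0 ξ) l)) (bot_lt_iff_ne_bot.2 hξ)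
        (cc_pos _ _)
      have h4 := ih _ h3.1 (cc ξ (pre (y0 ξ) l) - 1 - idx (low (Iio ξ) (cc ξ (pre (y0 ξ) l))))
      refine h4.continuousAt.congr ?_
      have hopen : IsOpen {y : A → ℕ → ℕ | pre (y ξ) l = pre (y0 ξ) l} := by
        have : {y : A → ℕ → ℕ | pre (y ξ) l = pre (y0 ξ) l} =
            ⋂ k ∈ Finset.range l, {y : A → ℕ → ℕ | y ξ k = y0 ξ k} := by
          ext y
          simp only [mem_ofPred_eq, mem_iInter, Finset.mem_range]
          exact pre_eq_iff _ _ _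
        rw [this]
        refine isOpen_biInter_finset fun k _ => ?_
        have hc : Continuous (fun y : A → ℕ → ℕ => y ξ k) := by fun_prop
        exact (isOpen_discrete {y0 ξ k}).preimage hc
      filter_upwards [hopen.mem_nhds rfl] with y hy
      rw [Nn_eq hξ]
      have hy' : pre (y ξ) l = pre (y0 ξ) l := hy
      rw [hy']
      rfl

theorem Tt_cont (I : Set A) (m : ℕ) : Continuous (Tt I m) := Nn_cont _ _

/-! ### The time of the first obstruction -/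

open Classical in
/-- the least coordinate that does not allow `n` -/
noncomputable def ta (n : ℕ) (y : A → ℕ → ℕ) : WithTop A :=
  if h : ∃ ξ : A, ¬ Alw n ξ y then
    ((WellFounded.min (wellFounded_lt (α := A)) {ξ : A | ¬ Alw n ξ y} h : A) : WithTop A) else ⊤

theorem lt_ta {n : ℕ} {y : A → ℕ → ℕ} {ξ : A} :
    (ξ : WithTop A) < ta n y ↔ ∀ η ∈ Iic ξ, Alw n η y := by
  unfold ta
  split_ifs with h
  · rw [WithTop.coe_lt_coe]
    constructor
    · intro h1 η hη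
      by_contra h2
      have := WellFounded.not_lt_min (wellFounded_lt (α := A)) {ξ : A | ¬ Alw n ξ y} (x := η) h2
      exact this (lt_of_le_of_lt hη h1)
    · intro h1
      by_contra h2
      push Not at h2
      have h3 := WellFounded.min_mem (wellFounded_lt (α := A)) {ξ : A | ¬ Alw n ξ y} h
      exact h3 (h1 _ h2)
  · push Not at h
    exact ⟨fun _ η _ => h η, fun _ => WithTop.coe_lt_top _⟩

theorem lt_ta_iff {n : ℕ} {y : A → ℕ → ℕ} {ξ : A} :
    (ξ : WithTop A) < ta n y ↔ ∃ m, 1 ≤ m ∧ n = Tt (Iic ξ) m y := by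
  rw [lt_ta, alw_iff (isLowerSet_Iic ξ) (mem_Iic.2 bot_le)]

theorem ta_eq {n : ℕ} {y : A → ℕ → ℕ} {ξ : A} (h : ta n y = ξ) :
    (∀ η ∈ Iio ξ, Alw n η y) ∧ ¬ Alw n ξ y := by
  have h1 : ∀ η ∈ Iio ξ, Alw n η y := by
    intro η hη
    have : (η : WithTop A) < ta n y := by rw [h]; exact WithTop.coe_lt_coe.2 hη
    exact lt_ta.1 this η (mem_Iic.2 le_rfl)
  refine ⟨h1, fun h2 => ?_⟩
  have : (ξ : WithTop A) < ta n y := by
    rw [lt_ta]
    intro η hη
    rcases (mem_Iic.1 hη).lt_or_eq with h3 | h3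
    · exact h1 η h3
    · rw [h3]; exact h2
  rw [h] at this
  exact lt_irrefl _ this

theorem ta_top {n : ℕ} {y : A → ℕ → ℕ} : ta n y = ⊤ ↔ ∃ m, 1 ≤ m ∧ n = Tt univ m y := by
  rw [← alw_iff isLowerSet_univ (mem_univ _)]
  constructor
  · intro h η _
    have : (η : WithTop A) < ta n y := by rw [h]; exact WithTop.coe_lt_top _
    exact lt_ta.1 this η (mem_Iic.2 le_rfl)
  · intro h
    unfold ta
    rw [dif_neg]
    push Not
    exact fun ξ => h ξ (mem_univ _)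

/-! ### Processing -/

theorem alw_Nn_Iio {ξ : A} {l : ℕ} {y : A → ℕ → ℕ} : ∀ η ∈ Iic ξ, Alw (Nn ξ l y) η y := by
  intro η hη
  rcases (mem_Iic.1 hη).lt_or_eq with h | h
  · have hξ : ξ ≠ ⊥ := (bot_le.trans_lt h).ne'
    exact alw_Iio ξ hξ _ (cc_pos _ _) (Nn_eq hξ l y) η h
  · rw [h]
    exact Or.inr (Or.inr ⟨l, rfl⟩)

/-- a processed coordinate gives the stage -/
theorem stage_of_proc {ξ : A} (hξ : ξ ≠ ⊥) {l m n : ℕ} {y : A → ℕ → ℕ} (hm : 1 ≤ m)
    (h1 : n = Tt (Iio ξ) m y) : n = Nn ξ l y ↔ m = cc ξ (pre (y ξ) l) := by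
  constructor
  · intro h2
    rw [Nn_eq hξ] at h2
    exact Tt_inj (isLowerSet_Iio ξ) (bot_lt_iff_ne_bot.2 hξ) hm (cc_pos _ _) (h1.symm.trans h2)
  · intro h2
    rw [h1, Nn_eq hξ, h2]

/-! ### Coherence -/

/-- if `y` and `y'` agree at the coordinate `⊥` up to `n` and all the coordinates in `Iio ξ` allow `n`
for both of them, then they have the same stage below `ξ`, given the same for the nodes below -/
theorem coh_stage {I : Set A} (hI : IsLowerSet I) (hb : ⊥ ∈ I) {n m m' : ℕ} {y y' : A → ℕ → ℕ}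
    (hm : 1 ≤ m) (hm' : 1 ≤ m') (h : n = Tt I m y) (h' : n = Tt I m' y')
    (hQ : ∀ η ∈ I, ∀ l, n = Nn η l y ↔ n = Nn η l y') : m = m' := by
  -- the processed coordinates above `low I m`
  have key : ∀ (I : Set A), IsLowerSet I → ⊥ ∈ I → ∀ (m : ℕ) (y : A → ℕ → ℕ), 1 ≤ m →
      n = Tt I m y → ∀ δ ∈ I, ∀ l, n = Nn δ l y → δ ≤ low I m := by
    intro I hI hb m y hm h δ hδ l hl
    by_contra hcon
    push Not at hcon
    have hδ0 : δ ≠ ⊥ := (bot_le.trans_lt hcon).ne'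
    have h2 : Tt (Iio δ) m y = Tt I m y :=
      Tt_sub (fun a ha => hI (le_of_lt ha) hδ) (bot_le.trans_lt hcon) hm hcon y
    have h3 := (stage_of_proc hδ0 (l := l) hm (h.trans h2.symm)).1 hl
    have h4 := cc_ge δ (y δ) l
    have h5 := idx_ge_of_low_lt hδ hcon
    omega
  have h1 := low_mem hb hm
  have h2 := low_mem hb hm'
  have e1 : n = Nn (low I m) (m - 1 - idx (low I m)) y := h
  have e2 : n = Nn (low I m') (m' - 1 - idx (low I m')) y' := h'
  have hlow : low I m = low I m' := by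
    apply le_antisymm
    · exact key I hI hb m' y' hm' h' _ h1.1 _ ((hQ _ h1.1 _).1 e1)
    · exact key I hI hb m y hm h _ h2.1 _ ((hQ _ h2.1 _).2 e2)
  have e3 : n = Nn (low I m) (m' - 1 - idx (low I m)) y := by
    rw [hlow]
    exact (hQ _ h2.1 _).2 e2
  have e4 := (Nn_strictMono (low I m) y).injective (e1.symm.trans e3)
  rw [← hlow] at h2
  omega

theorem coh_proc {I : Set A} (hI : IsLowerSet I) {n : ℕ} {y y' : A → ℕ → ℕ}
    (h0 : pre (y ⊥) n = pre (y' ⊥) n) (h : ∀ η ∈ I, Alw n η y) (h' : ∀ η ∈ I, Alw n η y') (η : A) :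
    η ∈ I → ∀ l, (n = Nn η l y ↔ n = Nn η l y') ∧ (n = Nn η l y → pre (y η) l = pre (y' η) l) := by
  induction η using WellFoundedLT.induction with
  | ind η ih =>
    intro hη l
    by_cases hη0 : η = ⊥
    · subst hη0
      rw [Nn_bot, Nn_bot]
      exact ⟨Iff.rfl, fun h => by rw [← h]; exact h0⟩
    · have hbη : ⊥ ∈ Iio η := bot_lt_iff_ne_bot.2 hη0
      have hsub : Iio η ⊆ I := fun a ha => hI (le_of_lt ha) hη
      obtain ⟨m, hm, hT⟩ := (alw_iff (isLowerSet_Iio η) hbη).1 fun a ha => h a (hsub ha)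
      obtain ⟨m', hm', hT'⟩ := (alw_iff (isLowerSet_Iio η) hbη).1 fun a ha => h' a (hsub ha)
      have hmm : m = m' := coh_stage (isLowerSet_Iio η) hbη hm hm' hT hT'
        fun a ha l => (ih a ha (hsub ha) l).1
      subst hmm
      -- one direction, symmetric
      have dir : ∀ z z' : A → ℕ → ℕ, n = Tt (Iio η) m z → n = Tt (Iio η) m z' → Alw n η z' →
          n = Nn η l z → n = Nn η l z' ∧ pre (z η) l = pre (z' η) l := by
        intro z z' k1 k2 k3 k4
        have k5 := (stage_of_proc hη0 hm k1).1 k4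
        rcases k3 with k6 | ⟨m2, hm2, hm3, k6⟩ | ⟨l2, k6⟩
        · exact absurd k6 hη0
        · have k7 := Tt_inj (isLowerSet_Iio η) hbη hm2 hm (k6.symm.trans k2)
          have k8 := cc_ge η (z η) l
          omega
        · have k7 := (stage_of_proc hη0 hm k2).1 k6
          have k8 := (cc_inj (k5.symm.trans k7)).2
          have k9 := congrArg List.length k8
          rw [pre_length, pre_length] at k9
          subst k9
          exact ⟨k6, k8⟩
      exact ⟨⟨fun k => (dir y y' hT hT' (h' η hη) k).1, fun k => (dir y' y hT' hT (h η hη) k).1⟩,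
        fun k => (dir y y' hT hT' (h' η hη) k).2⟩

theorem coh_Tt_aux {n : ℕ} {y y' : A → ℕ → ℕ} (I : Set A) (hI : IsLowerSet I) (hb : ⊥ ∈ I) (m : ℕ)
    (hm : 1 ≤ m) (hT : n = Tt I m y) (hT' : n = Tt I m y')
    (hQ : ∀ η ∈ I, ∀ l, n = Nn η l y → pre (y η) l = pre (y' η) l)
    (hyp : ∀ γ ∈ I, γ ≠ ⊥ → ∀ M, 1 ≤ M → n = Tt (Iio γ) M y → n = Tt (Iio γ) M y' →
      ∀ m', 1 ≤ m' → m' ≤ M → Tt (Iio γ) m' y = Tt (Iio γ) m' y') :
    ∀ m', 1 ≤ m' → m' ≤ m → Tt I m' y = Tt I m' y' := by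
  intro m' hm' hmm
  have h1 := low_mem hb hm
  have h2 := low_mem hb hm'
  have e1 : n = Nn (low I m) (m - 1 - idx (low I m)) y := hT
  have e1' : n = Nn (low I m) (m - 1 - idx (low I m)) y' := hT'
  have hpre := hQ _ h1.1 _ e1
  have hle : low I m' ≤ low I m := le_low h2.1 (by omega)
  rcases hle.eq_or_lt with h3 | h3
  · unfold Tt
    rw [h3]
    by_cases h0 : low I m = ⊥
    · rw [h0, Nn_bot, Nn_bot]
    · rw [Nn_eq h0, Nn_eq h0]
      have hpre' : pre (y (low I m)) (m' - 1 - idx (low I m)) =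
          pre (y' (low I m)) (m' - 1 - idx (low I m)) := pre_le hpre (by omega)
      rw [← hpre']
      refine hyp _ h1.1 h0 (cc (low I m) (pre (y (low I m)) (m - 1 - idx (low I m)))) (cc_pos _ _)
        ?_ ?_ _ (cc_pos _ _) ((cc_mono (low I m) (y (low I m))).monotone (by omega))
      · rw [← Nn_eq h0]; exact e1
      · rw [hpre, ← Nn_eq h0]; exact e1'
  · have h0 : low I m ≠ ⊥ := (bot_le.trans_lt h3).ne'
    have hsub : Iio (low I m) ⊆ I := fun a ha => hI (le_of_lt ha) h1.1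
    rw [← Tt_sub hsub (bot_le.trans_lt h3) hm' h3 y, ← Tt_sub hsub (bot_le.trans_lt h3) hm' h3 y']
    refine hyp _ h1.1 h0 (cc (low I m) (pre (y (low I m)) (m - 1 - idx (low I m)))) (cc_pos _ _)
        ?_ ?_ _ hm' ?_
    · rw [← Nn_eq h0]; exact e1
    · rw [hpre, ← Nn_eq h0]; exact e1'
    · have := cc_ge (low I m) (y (low I m)) (m - 1 - idx (low I m))
      omega

theorem coh_Tt_Iio {n : ℕ} {y y' : A → ℕ → ℕ} (ξ : A) : ξ ≠ ⊥ →
    (∀ η ∈ Iio ξ, ∀ l, n = Nn η l y → pre (y η) l = pre (y' η) l) →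
    ∀ M, 1 ≤ M → n = Tt (Iio ξ) M y → n = Tt (Iio ξ) M y' →
      ∀ m', 1 ≤ m' → m' ≤ M → Tt (Iio ξ) m' y = Tt (Iio ξ) m' y' := by
  induction ξ using WellFoundedLT.induction with
  | ind ξ ih =>
    intro hξ hQ M hM hT hT'
    refine coh_Tt_aux (Iio ξ) (isLowerSet_Iio ξ) (bot_lt_iff_ne_bot.2 hξ) M hM hT hT' hQ ?_
    intro γ hγ hγ0
    exact ih γ hγ hγ0 fun η hη => hQ η (lt_trans hη hγ)

theorem coh_Tt {n : ℕ} {y y' : A → ℕ → ℕ} {I : Set A} (hI : IsLowerSet I) (hb : ⊥ ∈ I)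
    (h0 : pre (y ⊥) n = pre (y' ⊥) n) (h : ∀ η ∈ I, Alw n η y) (h' : ∀ η ∈ I, Alw n η y') :
    ∃ m, 1 ≤ m ∧ n = Tt I m y ∧ n = Tt I m y' ∧
      ∀ m', 1 ≤ m' → m' ≤ m → Tt I m' y = Tt I m' y' := by
  obtain ⟨m, hm, hT⟩ := (alw_iff hI hb).1 h
  obtain ⟨m', hm', hT'⟩ := (alw_iff hI hb).1 h'
  have hQ := coh_proc hI h0 h h'
  have hmm : m = m' := coh_stage hI hb hm hm' hT hT' fun a ha l => (hQ a ha l).1
  subst hmm
  refine ⟨m, hm, hT, hT', ?_⟩
  refine coh_Tt_aux I hI hb m hm hT hT' (fun η hη l => (hQ η hη l).2) ?_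
  intro γ hγ hγ0
  exact coh_Tt_Iio γ hγ0 fun η hη l => (hQ η (hI (le_of_lt hη) hγ) l).2

/-! ### The clock -/

/-- the required coordinates -/
noncomputable def rq (w : List ℕ) : Finset A := bel univ (w.length + 1)

theorem mem_rq {w : List ℕ} {ξ : A} : ξ ∈ rq w ↔ idx ξ ≤ w.length := by
  unfold rq
  rw [mem_bel]
  simp only [mem_univ, true_and]
  omega

theorem clock : Clock A ⊥ ta Nn rq where
  tri n ξ y y' h := by
    rw [lt_ta, lt_ta]
    constructor
    · intro h1 η hη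
      exact alw_loc (fun ζ hζ => h ζ (hζ.trans hη)) (h1 η hη)
    · intro h1 η hη
      exact alw_loc (fun ζ hζ => (h ζ (hζ.trans hη)).symm) (h1 η hη)
  clopen n ξ := by
    have : {y : A → ℕ → ℕ | (ξ : WithTop A) < ta n y} =
        ⋃ m ∈ Finset.Icc 1 (n + 1), {y : A → ℕ → ℕ | Tt (Iic ξ) m y = n} := by
      ext y
      simp only [mem_ofPred_eq, mem_iUnion, Finset.mem_Icc, exists_prop]
      rw [lt_ta_iff]
      constructor
      · rintro ⟨m, hm, hn⟩
        refine ⟨m, ⟨hm, ?_⟩, hn.symm⟩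
        have := Tt_ge (isLowerSet_Iic ξ) (mem_Iic.2 bot_le) y (m - 1)
        rw [Nat.sub_add_cancel hm, ← hn] at this
        omega
      · rintro ⟨m, ⟨hm, _⟩, hn⟩
        exact ⟨m, hm, hn.symm⟩
    rw [this]
    refine isClopen_biUnion_finset fun m _ => ?_
    exact (isClopen_discrete {n}).preimage (Tt_cont (Iic ξ) m)
  zero n y := by
    rw [lt_ta]
    intro η hη
    exact Or.inl (le_bot_iff.1 hη)
  opened n y ξ h := by
    obtain ⟨h1, h2⟩ := ta_eq h
    have hξ : ξ ≠ ⊥ := fun h0 => h2 (Or.inl h0)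
    have hb : ⊥ ∈ Iio ξ := bot_lt_iff_ne_bot.2 hξ
    obtain ⟨m, hm, hT⟩ := (alw_iff (isLowerSet_Iio ξ) hb).1 h1
    have hm1 : idx ξ < m := by
      by_contra hcon
      push Not at hcon
      exact h2 (Or.inr (Or.inl ⟨m, hm, hcon, hT⟩))
    have hm2 : m ≠ idx ξ + 1 := by
      intro hcon
      apply h2
      refine Or.inr (Or.inr ⟨0, (stage_of_proc hξ hm hT).2 ?_⟩)
      rw [hcon, ← cc_nil hξ]
      rfl
    refine ⟨Nn ξ 0 y, ?_, ?_, ?_⟩
    · rw [Nn_eq hξ, hT]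
      apply SI_all (isLowerSet_Iio ξ) hb y _ _ (cc_pos _ _)
      have : cc ξ (pre (y ξ) 0) = idx ξ + 1 := cc_nil hξ
      omega
    · rw [mem_rq, pre_length]
      have := Nn_ge ξ 0 y
      omega
    · rw [lt_ta]
      exact alw_Nn_Iio
  full y n := by
    refine ⟨Tt univ (n + 1) y, Tt_ge isLowerSet_univ (mem_univ _) y n, ?_⟩
    rw [ta_top]
    exact ⟨n + 1, by omega, rfl⟩
  coh n y y' ζ h0 h h' i hi := by
    rw [lt_ta] at h h'
    have hI := isLowerSet_Iic ζ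
    have hb : (⊥ : A) ∈ Iic ζ := mem_Iic.2 bot_le
    obtain ⟨m, hm, hT, hT', hle⟩ := coh_Tt hI hb h0 h h'
    rw [lt_ta_iff, lt_ta_iff]
    constructor
    · rintro ⟨m1, hm1, hi1⟩
      refine ⟨m1, hm1, ?_⟩
      rw [hi1]
      apply hle m1 hm1
      rw [hi1, hT, Tt_lt_iff hI hb hm1 hm] at hi
      exact hi.le
    · rintro ⟨m1, hm1, hi1⟩
      refine ⟨m1, hm1, ?_⟩
      rw [hi1]
      symm
      apply hle m1 hm1
      rw [hi1, hT', Tt_lt_iff hI hb hm1 hm] at hi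
      exact hi.le
  nzero l y := Nn_bot l y
  mono ξ l y := Nn_strictMono ξ y (Nat.lt_succ_self l)
  proc ξ l y := by
    refine ⟨lt_ta.2 alw_Nn_Iio, ?_⟩
    rw [mem_rq, pre_length]
    have := Nn_ge ξ l y
    omega
  gap ξ l y n h1 h2 := by
    by_contra hcon
    push Not at hcon
    rw [lt_ta] at hcon
    rcases hcon ξ (mem_Iic.2 le_rfl) with h3 | ⟨m, hm, hm2, hn⟩ | ⟨l', hl'⟩
    · subst h3
      rw [Nn_bot] at h1 h2
      omega
    · by_cases hξ : ξ = ⊥
      · subst hξ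
        rw [Nn_bot] at h1 h2
        omega
      · rw [hn, Nn_eq hξ, Tt_lt_iff (isLowerSet_Iio ξ) (bot_lt_iff_ne_bot.2 hξ) (cc_pos _ _) hm]
          at h1
        have := cc_ge ξ (y ξ) l
        omega
    · rw [hl'] at h1 h2
      have h3 := (Nn_strictMono ξ y).lt_iff_lt.1 h1
      have h4 := (Nn_strictMono ξ y).lt_iff_lt.1 h2
      omega
  nloc ξ l y y' h h' := Nn_loc ξ l y y' h h'
  before ξ y y' n h hn := by
    have hn' : n < Nn ξ 0 y' := by
      rwa [← Nn_loc ξ 0 y y' h rfl]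
    have key : ∀ z z' : A → ℕ → ℕ, (∀ η, η < ξ → z η = z' η) → n < Nn ξ 0 z →
        (ξ : WithTop A) < ta n z → (ξ : WithTop A) < ta n z' := by
      intro z z' hz hnz h1
      rw [lt_ta] at h1 ⊢
      intro η hη
      rcases (mem_Iic.1 hη).lt_or_eq with h2 | h2
      · exact alw_loc (fun ζ hζ => hz ζ (hζ.trans_lt h2)) (h1 η hη)
      · subst h2
        rcases h1 η hη with h3 | ⟨m, hm, hm2, hnm⟩ | ⟨l, hl⟩
        · exact Or.inl h3
        · by_cases hξ : η = ⊥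
          · exact Or.inl hξ
          · refine Or.inr (Or.inl ⟨m, hm, hm2, ?_⟩)
            rw [hnm]
            exact Tt_loc (isLowerSet_Iio η) (bot_lt_iff_ne_bot.2 hξ) hm fun ζ hζ => hz ζ hζ
        · rw [hl] at hnz
          have := (Nn_strictMono η z).lt_iff_lt.1 hnz
          omega
    exact ⟨key y y' h hn, key y' y (fun η hη => (h η hη).symm) hn'⟩
  ncont ξ l := Nn_cont ξ l
  sep ξ l y y' h h1 h2 := by
    by_cases hξ : ξ = ⊥
    · subst hξ
      rw [Nn_bot, Nn_bot]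
      intro h3
      rw [pre_eq_iff] at h3
      exact h2 (h3 l (by omega))
    · intro h3
      have h4 := congrArg List.length h3
      rw [pre_length, pre_length, Nn_eq hξ, Nn_eq hξ] at h4
      rw [Tt_loc (y' := y') (isLowerSet_Iio ξ) (bot_lt_iff_ne_bot.2 hξ) (cc_pos _ _)
        (fun η hη => h η hη)] at h4
      have h5 := Tt_inj (isLowerSet_Iio ξ) (bot_lt_iff_ne_bot.2 hξ) (cc_pos _ _) (cc_pos _ _) h4
      have h6 := (cc_inj h5).2
      rw [pre_eq_iff] at h6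
      exact h2 (h6 l (by omega))

end

end ClockA

/-- TM-Clock -/
theorem clock : SClock := by
  intro A _ _ _ a0 h0
  have e : Encodable A := Encodable.ofCountable A
  let _ : OrderBot A := { bot := a0, bot_le := h0 }
  exact ⟨_, _, _, ClockA.clock (A := A)⟩

end Pool.Agent.H554
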