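import Pool.Agent.H554.Defs

/-!
# The statements of the modules

Section numbers refer to the paper proof (papers table, MP_9a1337_lc).
-/

namespace Pool.Agent.H554

open Pool.Agent.Helper669.Forcing Set

/-! ### Section 1: ZFC part -/

/-- 1.1 for an arbitrary index set which is an image of `R`. -/
def SNotDom : Prop := ∀ (R : Type), Phi3 R → ∀ f : R → ℕ → ℕ,
  ∃ g : ℕ → ℕ, ∀ i, ∀ N : ℕ, ∃ n, N ≤ n ∧ f i n ≤ g n

/-- 1.3 -/
def STri : Prop := ∀ (R J : Type) (_ : LinearOrder J) (par : J → Bool) (B : R → Set ℕ),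
  Phi R J par B → SemifilterTrichotomy

/-- 1.4-1.7 -/
def SMenger : Prop := ∀ (R J : Type) (_ : LinearOrder J) (par : J → Bool) (B : R → Set ℕ),
  Phi R J par B → ∃ X Y : Set (ℕ → Bool), Menger X ∧ Menger Y ∧ ¬ Menger (X ×ˢ Y)

/-! ### Section 2: generic facts on morphisms -/

/-- 2.1 -/
def SConv : Prop := ∀ (I : Type) (_ : LinearOrder I) (_ : WellFoundedLT I) (α : I → Type)
  (_ : ∀ i, TopologicalSpace (α i)) (_ : ∀ i, DiscreteTopology (α i)) (_ : ∀ i, Nontrivial (α i))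
  (dep : I → Set I), (∀ i, ∀ i' ∈ dep i, i' < i) →
  (∀ i, ∀ i' ∈ dep i, ∀ i'' ∈ dep i', i'' ∈ dep i) →
  ∀ (A : Set I) (f : ℕ → W α → W α), (∀ j, IsMor dep A (f j)) →
  (∀ (z : W α), ∀ i ∈ A, ∀ l : ℕ, ∃ c : Cell α, c.supp ⊆ A ∧ c.Mem z ∧ l ≤ (c.val i).length ∧
    ∃ j0, ∀ j, j0 ≤ j → Resp dep (f j) c) →
  ∃ F : ℕ → W α → W α, (∀ n, IsMor dep A (F n)) ∧ (∀ n, F n = f n ∘ F (n + 1)) ∧
    ∀ n c, (∀ j, n ≤ j → Resp dep (f j) c) → Resp dep (F n) c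

/-- 2.2 -/
def SScheme : Prop := ∀ (J : Type) (_ : LinearOrder J) (_ : WellFoundedLT J) (j0 : J),
  (∀ j, j0 ≤ j) → ∀ A : Set (Ix J), A.Countable → mI j0 ∈ A → HasScheme (alph J) (dep J) A

/-- 2.3, general form -/
def SFusion : Prop := ∀ (I : Type) (_ : LinearOrder I) (_ : WellFoundedLT I) (α : I → Type)
  (_ : ∀ i, TopologicalSpace (α i)) (_ : ∀ i, DiscreteTopology (α i)) (_ : ∀ i, Nontrivial (α i))
  (_ : ∀ i, Countable (α i))
  (dep : I → Set I), (∀ i, ∀ i' ∈ dep i, i' < i) →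
  (∀ i, ∀ i' ∈ dep i, ∀ i'' ∈ dep i', i'' ∈ dep i) →
  ∀ i0 : I, (∀ A : Set I, A.Countable → i0 ∈ A → HasScheme α dep A) →
  ∀ K : Set (W α → W α), (∀ f ∈ K, IsMorC dep f) → (∀ f ∈ K, ∀ g ∈ K, f ∘ g ∈ K) →
  (∀ c : Cell α, iota c ∈ K) → (∀ c : Cell α, ∀ r ∈ K, glue dep c r ∈ K) →
  ∀ O : ℕ → Set (W α → W α), (∀ n, ∀ p ∈ K, ∃ r ∈ K, p ∘ r ∈ O n) →
  (∀ n, ∀ p ∈ K, p ∈ O n → ∀ r ∈ K, p ∘ r ∈ O n) →
  ∀ p ∈ K, ∃ (F : W α → W α) (A : Set I), A.Countable ∧ IsMor dep A F ∧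
    ∀ (z : W α) (n : ℕ), ∃ c : Cell α, c.supp ⊆ A ∧ c.Mem z ∧
      ∃ o ∈ O n, ∃ g : W α → W α, IsMorC dep g ∧ p ∘ F ∘ iota c = o ∘ g

/-- 2.3 (SF), for the coordinates of the forcing notion -/
def SSF : Prop := ∀ (J : Type) (_ : LinearOrder J) (_ : WellFoundedLT J) (j0 : J), (∀ j, j0 ≤ j) →
  ∀ U : ℕ → Set (W (alph J)), (∀ n, IsOpen (U n)) → (∀ n, Dense (U n)) →
  ∃ f : W (alph J) → W (alph J), IsMorC (dep J) f ∧ ∀ n z, f z ∈ U n

/-! ### Section 4: the ultrafilter system -/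

/-- strings on `A`: finitely many nonempty finite sequences of natural numbers -/
abbrev Str (A : Type) : Type := Cell (fun _ : A => ℕ)

/-- the support as a finset -/
noncomputable def Str.fs {A : Type} (κ : Str A) : Finset A := κ.fin.toFinset

open Classical in
/-- truncation to the coordinates below `ξ` -/
noncomputable def tr {A : Type} [LinearOrder A] (ξ : WithTop A) (κ : Str A) : Str A :=
  ⟨fun a => if (a : WithTop A) < ξ then κ.val a else [], κ.fin.subset fun a ha => by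
    simp only [mem_ofPred_eq] at ha ⊢
    intro h
    apply ha
    simp [h]⟩

open Classical in
/-- The properties of the system `H η P` of ultrafilters (section 4). -/
structure USystem (A : Type) [LinearOrder A] (H : WithTop A → Finset A → Ultrafilter (Str A)) :
    Prop where
  conc : ∀ η P, ∀ᶠ κ in (H η P : Filter (Str A)), ∀ a : A, a ∈ κ.fs → (a : WithTop A) < η
  loc : ∀ (η : WithTop A) (P P' : Finset A), (∀ a : A, (a : WithTop A) < η → (a ∈ P ↔ a ∈ P')) → H η P = H η P'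
  trunc : ∀ ξ η P, ξ ≤ η → (H η P).map (tr ξ) = H ξ P
  nondeg : ∀ η P (ζ : A) (k : ℕ), (ζ : WithTop A) < η → ∀ᶠ κ in (H η P : Filter (Str A)),
    ∃ a l, κ.val ζ = a :: l ∧ k < a
  move1 : ∀ ξ η P, ξ ≤ η → ∀ Φ : Str A → Prop, (∀ᶠ κ in (H η P : Filter (Str A)), Φ κ) ↔
    ∀ᶠ κ in (H η P : Filter (Str A)), ∀ᶠ κ' in (H ξ (P ∪ κ.fs) : Filter (Str A)), Φ (κ * κ')
  move2 : ∀ (η : A) (ξ : WithTop A) P, (η : WithTop A) < ξ → η ∈ P → ∀ Φ : Str A → Prop,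
    (∀ᶠ κ in (H ξ P : Filter (Str A)), Φ κ) ↔
    ∀ᶠ κ in (H η P : Filter (Str A)), ∀ᶠ κ' in (H ξ (P ∪ κ.fs) : Filter (Str A)), Φ (κ * κ')
  stable : ∀ η P, ∀ Φ : Str A → Prop, (∀ᶠ κ in (H η P : Filter (Str A)), Φ κ) →
    ∀ᶠ κ in (H η P : Filter (Str A)), ∀ ζ : A, ζ ∈ P ∪ κ.fs → (ζ : WithTop A) < η →
      ∀ᶠ κ' in (H ζ (P ∪ κ.fs) : Filter (Str A)), Φ (κ * κ')

/-- 4 -/
def SUSystem : Prop := ∀ (A : Type) (_ : LinearOrder A) (_ : WellFoundedLT A),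
  ∃ H : WithTop A → Finset A → Ultrafilter (Str A), USystem A H

/-! ### Section 5: clocks -/

/-- The properties of the clocks. -/
structure Clock (A : Type) [LinearOrder A] (a0 : A) (τ : ℕ → (A → ℕ → ℕ) → WithTop A)
    (N : A → ℕ → (A → ℕ → ℕ) → ℕ) (Req : List ℕ → Finset A) : Prop where
  tri : ∀ n (ξ : A) (y y' : A → ℕ → ℕ), (∀ η, η ≤ ξ → y η = y' η) →
    ((ξ : WithTop A) < τ n y ↔ (ξ : WithTop A) < τ n y')
  clopen : ∀ n (ξ : A), IsClopen {y | (ξ : WithTop A) < τ n y}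
  zero : ∀ n y, (a0 : WithTop A) < τ n y
  opened : ∀ n y (ξ : A), τ n y = ξ →
    ∃ i, i < n ∧ ξ ∈ Req (pre (y a0) i) ∧ (ξ : WithTop A) < τ i y
  full : ∀ y n, ∃ n', n ≤ n' ∧ τ n' y = ⊤
  coh : ∀ n y y' (ζ : A), pre (y a0) n = pre (y' a0) n → (ζ : WithTop A) < τ n y →
    (ζ : WithTop A) < τ n y' → ∀ i, i < n → ((ζ : WithTop A) < τ i y ↔ (ζ : WithTop A) < τ i y')
  mono : ∀ ξ l y, N ξ l y < N ξ (l + 1) y
  proc : ∀ (ξ : A) l y, (ξ : WithTop A) < τ (N ξ l y) y ∧ ξ ∈ Req (pre (y a0) (N ξ l y))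
  gap : ∀ (ξ : A) l y n, N ξ l y < n → n < N ξ (l + 1) y → τ n y ≤ ξ
  nloc : ∀ (ξ : A) l y y', (∀ η, η < ξ → y η = y' η) → pre (y ξ) l = pre (y' ξ) l →
    N ξ l y = N ξ l y'
  before : ∀ (ξ : A) y y' n, (∀ η, η < ξ → y η = y' η) → n < N ξ 0 y →
    ((ξ : WithTop A) < τ n y ↔ (ξ : WithTop A) < τ n y')
  ncont : ∀ ξ l, Continuous (N ξ l)
  sep : ∀ (ξ : A) l y y', (∀ η, η < ξ → y η = y' η) → pre (y ξ) l = pre (y' ξ) l →
    y ξ l ≠ y' ξ l → pre (y a0) (N ξ (l + 1) y) ≠ pre (y' a0) (N ξ (l + 1) y')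
  nzero : ∀ l y, N a0 l y = l

/-- 5 -/
def SClock : Prop := ∀ (A : Type) (_ : LinearOrder A) (_ : WellFoundedLT A) (_ : Countable A)
  (a0 : A), (∀ a, a0 ≤ a) → ∃ τ N Req, Clock A a0 τ N Req

/-! ### Section 6: the x-part -/

section xpart

variable {A : Type} [LinearOrder A]

/-- the points of the x-part -/
abbrev KW (A : Type) : Type := A → ℕ → Bool

/-- strategies -/
def IsStrat (φ : A → KW A → Set (ℕ → Bool)) : Prop :=
  (∀ β x, (φ β x).Countable) ∧ ∀ β x x', (∀ γ, γ < β → x γ = x' γ) → φ β x = φ β x'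

/-- families of shape `d` (also: stem functions of shape `d`) -/
def OfShape {C : A → Type} (d : A → ℕ) (F : KW A → ∀ a, C a) : Prop :=
  ∀ β x x', (∀ γ, γ ≤ β → pre (x γ) (d γ) = pre (x' γ) (d γ)) → F x β = F x' β

/-- stem functions of shape `d` -/
abbrev Stem (A : Type) : Type := KW A → Cell (fun _ : A => Bool)

/-- positivity -/
def Pos (d : A → ℕ) (s : Stem A) (Y : Set (KW A)) : Prop :=
  ∀ φ, IsStrat φ → ∃ F : KW A → KW A, OfShape d F ∧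
    ∀ x, F x ∈ Y ∧ (s x).Mem (F x) ∧ ∀ β, F x β ∉ φ β (F x)

/-- coordinatewise extension of stems -/
def StemLe (s s' : Stem A) : Prop := ∀ x β, (s x).val β <+: (s' x).val β

end xpart

/-- 6.1 -/
def SPosInit : Prop := ∀ (A : Type) (_ : LinearOrder A) (_ : WellFoundedLT A),
  Pos (A := A) (fun _ => 0) (fun _ => 1) univ

/-- 6.2, for sequences of colourings of families with countably many values -/
def SPosCol : Prop := ∀ (A : Type) (_ : LinearOrder A) (d : A → ℕ) (s : Stem A) (Y : Set (KW A))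
  (C : Type) (col : (KW A → KW A) → C), (col '' {F | OfShape d F}).Countable → Pos d s Y →
  ∃ k : C, ∀ φ, IsStrat φ → ∃ F : KW A → KW A, OfShape d F ∧
    (∀ x, F x ∈ Y ∧ (s x).Mem (F x) ∧ ∀ β, F x β ∉ φ β (F x)) ∧ col F = k

/-- 6.2 (i) -/
def SPosUf : Prop := ∀ (A : Type) (_ : LinearOrder A) (d : A → ℕ) (s : Stem A) (Y : Set (KW A))
  (S : Type) (_ : Countable S) (U : Ultrafilter S) (G : KW A → Set S), {a | d a ≠ 0}.Finite →
  Pos d s Y → (∀ x ∈ Y, G x ∈ U) → ∀ E ∈ U, ∃ κ ∈ E, Pos d s {x | x ∈ Y ∧ κ ∈ G x}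

/-- 6.2 (ii): stems can be extended into given neighbourhoods -/
def SPosStem : Prop := ∀ (A : Type) (_ : LinearOrder A) (_ : Countable A) (d : A → ℕ) (s : Stem A)
  (Y : Set (KW A)) (Pr : Cell (fun _ : A => Bool) → Prop), {a | d a ≠ 0}.Finite →
  OfShape d (fun x => (s x).val) →
  (∀ c c', (∀ a, c.val a <+: c'.val a) → Pr c → Pr c') →
  (∀ x ∈ Y, ∃ c : Cell (fun _ : A => Bool), c.Mem x ∧ Pr c) → Pos d s Y →
  ∃ s' : Stem A, OfShape d (fun x => (s' x).val) ∧ StemLe s s' ∧ (∀ x, Pr (s' x)) ∧ Pos d s' Y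

open Classical in
/-- 6.3 -/
def SPosDouble : Prop := ∀ (A : Type) (_ : LinearOrder A) (_ : Countable A) (d : A → ℕ)
  (s : Stem A) (Y : Set (KW A)) (β : A), {a | d a ≠ 0}.Finite →
  OfShape d (fun x => (s x).val) → Pos d s Y →
  ∃ s' : Stem A, OfShape (Function.update d β (d β + 1)) (fun x => (s' x).val) ∧ StemLe s s' ∧
    Pos (Function.update d β (d β + 1)) s' Y ∧
    ∀ x x', (∀ γ, γ < β → pre (x γ) (d γ) = pre (x' γ) (d γ)) →
      pre (x β) (d β) = pre (x' β) (d β) → x β (d β) ≠ x' β (d β) →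
      ¬ Compat ((s' x).val β) ((s' x').val β)

/-! ### Section 7: the homogeneity theorem -/

/-- all lower coordinates -/
abbrev low {A : Type} [LinearOrder A] (a : A) : Set A := Iio a

/-- the labels `Q_n(y)` of section 7.4 -/
noncomputable def Qs {A : Type} [LinearOrder A] (a0 : A) (τ : ℕ → (A → ℕ → ℕ) → WithTop A)
    (q0 : Str A) (κ : List ℕ → Str A) : ℕ → (A → ℕ → ℕ) → Str A
  | 0, _ => q0
  | n + 1, y => Qs a0 τ q0 κ n y * tr (τ n y) (κ (pre (y a0) n))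

/-- 7.5, the map `h` -/
def SHMor : Prop := ∀ (A : Type) (_ : LinearOrder A) (_ : WellFoundedLT A) (_ : Countable A)
  (a0 : A), (∀ a, a0 ≤ a) → ∀ τ N Req, Clock A a0 τ N Req → ∀ (q0 : Str A) (κ : List ℕ → Str A),
  (∀ w, ∀ ξ ∈ Req w, (κ w).val ξ ≠ []) →
  (∀ w w' ξ, w ≠ w' → ξ ∈ Req w → ξ ∈ Req w' → ((κ w).val ξ).head? ≠ ((κ w').val ξ).head?) →
  ∃ h : W (fun _ : A => ℕ) → W (fun _ : A => ℕ), IsMor low univ h ∧
    ∀ n y, (Qs a0 τ q0 κ n y).Mem (h y)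

open Classical in
/-- 7.5, the map `k` -/
def SKMor : Prop := ∀ (A : Type) (_ : LinearOrder A) (_ : WellFoundedLT A)
  (d : ℕ → A → ℕ) (s : ℕ → Stem A) (β : ℕ → A), (∀ a n, ∃ j, n ≤ j ∧ β j = a) →
  (∀ a, d 0 a = 0) → (∀ j, d (j + 1) = Function.update (d j) (β j) (d j (β j) + 1)) →
  (∀ j, OfShape (d j) (fun x => (s j x).val)) → (∀ j, StemLe (s j) (s (j + 1))) →
  (∀ j x x', (∀ γ, γ < β j → pre (x γ) (d j γ) = pre (x' γ) (d j γ)) →
      pre (x (β j)) (d j (β j)) = pre (x' (β j)) (d j (β j)) →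
      x (β j) (d j (β j)) ≠ x' (β j) (d j (β j)) →
      ¬ Compat ((s (j + 1) x).val (β j)) ((s (j + 1) x').val (β j))) →
  ∃ k : W (fun _ : A => Bool) → W (fun _ : A => Bool), IsMor low univ k ∧
    ∀ j x, (s j x).Mem (k x)

/-- 7 -/
def SHom : Prop := ∀ (Ax Am : Type) (_ : LinearOrder Ax) (_ : WellFoundedLT Ax) (_ : Countable Ax)
  (_ : LinearOrder Am) (_ : WellFoundedLT Am) (_ : Countable Am) (a0 : Am), (∀ a, a0 ≤ a) →
  ∀ D : ℕ → Set (KW Ax × (Am → ℕ → ℕ)), (∀ b, IsClopen (D b)) →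
  ∃ (ε : Bool) (B : Set ℕ) (k : W (fun _ : Ax => Bool) → W (fun _ : Ax => Bool))
    (h : W (fun _ : Am => ℕ) → W (fun _ : Am => ℕ)), B.Infinite ∧ IsMor low univ k ∧
    IsMor low univ h ∧ ∀ b ∈ B, ∀ x y, ((k x, h y) ∈ D b ↔ ε = true)

end Pool.Agent.H554
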