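import Pool.Agent.H554.Basic
import Pool.Agent.H554.Stmts

/-!
# The convergence lemma (2.1)
-/

set_option autoImplicit false

namespace Pool.Agent.H554

open Pool.Agent.Helper669.Forcing Set Filter Topology

namespace Conv

section gen

variable {I : Type} {α : I → Type}

/-- `T f n k = f n ∘ ... ∘ f (n + k - 1)` -/
def T (f : ℕ → W α → W α) (n : ℕ) : ℕ → W α → W α
  | 0 => id
  | k + 1 => T f n k ∘ f (n + k)

theorem T_left (f : ℕ → W α → W α) (n k : ℕ) : T f n (k + 1) = f n ∘ T f (n + 1) k := by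
  induction k with
  | zero => rfl
  | succ k ih =>
    have h1 : T f n (k + 1 + 1) = T f n (k + 1) ∘ f (n + (k + 1)) := rfl
    have h2 : T f (n + 1) (k + 1) = T f (n + 1) k ∘ f (n + 1 + k) := rfl
    rw [h1, ih, h2, show n + (k + 1) = n + 1 + k by omega]
    rfl

theorem T_add (f : ℕ → W α → W α) (n k m : ℕ) : T f n (k + m) = T f n k ∘ T f (n + k) m := by
  induction m with
  | zero => rfl
  | succ m ih =>
    have h1 : T f n (k + (m + 1)) = T f n (k + m) ∘ f (n + (k + m)) := rfl
    have h2 : T f (n + k) (m + 1) = T f (n + k) m ∘ f (n + k + m) := rfl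
    rw [h1, ih, h2, show n + (k + m) = n + k + m by omega]
    rfl

variable [LinearOrder I] [WellFoundedLT I] [∀ i, TopologicalSpace (α i)]
  [∀ i, DiscreteTopology (α i)] [∀ i, Nontrivial (α i)] {dep : I → Set I}
  {A : Set I} {f : ℕ → W α → W α}

omit [LinearOrder I] [WellFoundedLT I] [∀ i, DiscreteTopology (α i)] [∀ i, Nontrivial (α i)] in
theorem T_mor (htr : ∀ i, ∀ i' ∈ dep i, ∀ i'' ∈ dep i', i'' ∈ dep i)
    (hf : ∀ j, IsMor dep A (f j)) (n k : ℕ) : IsMor dep A (T f n k) := by
  induction k with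
  | zero => exact IsMor.id.mono (empty_subset _)
  | succ k ih =>
    have := ih.comp htr (hf (n + k))
    rwa [union_self] at this

omit [LinearOrder I] [WellFoundedLT I] [∀ i, TopologicalSpace (α i)]
  [∀ i, DiscreteTopology (α i)] [∀ i, Nontrivial (α i)] in
theorem T_resp (htr : ∀ i, ∀ i' ∈ dep i, ∀ i'' ∈ dep i', i'' ∈ dep i) {c : Cell α} {n : ℕ}
    (h : ∀ j, n ≤ j → Resp dep (f j) c) (k : ℕ) : Resp dep (T f n k) c := by
  induction k with
  | zero => exact resp_id c
  | succ k ih => exact Resp.comp htr ih (h (n + k) (Nat.le_add_right _ _))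

omit [LinearOrder I] [WellFoundedLT I] [∀ i, TopologicalSpace (α i)]
  [∀ i, DiscreteTopology (α i)] [∀ i, Nontrivial (α i)] in
theorem exists_lim {X β : Type} [TopologicalSpace β] (𝓕 : Filter X) (g : X → ℕ → β)
    (h : ∀ m, ∃ b, ∀ᶠ p in 𝓕, g p m = b) : ∃ v : ℕ → β, Tendsto g 𝓕 (𝓝 v) := by
  choose v hv using h
  refine ⟨v, tendsto_pi_nhds.2 fun m => ?_⟩
  exact (tendsto_congr' (hv m)).2 tendsto_const_nhds

/-- convergence -/
theorem claim (hlt : ∀ i, ∀ i' ∈ dep i, i' < i)
    (htr : ∀ i, ∀ i' ∈ dep i, ∀ i'' ∈ dep i', i'' ∈ dep i) (hf : ∀ j, IsMor dep A (f j))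
    (hyp : ∀ (z : W α), ∀ i ∈ A, ∀ l : ℕ, ∃ c : Cell α, c.supp ⊆ A ∧ c.Mem z ∧
      l ≤ (c.val i).length ∧ ∃ j0, ∀ j, j0 ≤ j → Resp dep (f j) c) :
    ∀ (i : I) (n : ℕ) (z : W α), ∃ v : ℕ → α i,
      Tendsto (fun p : W α × ℕ => T f n p.2 p.1 i) (𝓝 z ×ˢ atTop) (𝓝 v) := by
  classical
  intro i
  induction i using WellFoundedLT.induction with
  | ind i ih =>
  intro n z
  by_cases hi : i ∈ A
  · apply exists_lim
    intro m
    obtain ⟨c, -, hcz, hcl, j0, hj⟩ := hyp z i hi (m + 1)
    set m0 := max j0 n with hm0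
    obtain ⟨K0, hK0⟩ := Nat.exists_eq_add_of_le (le_max_right j0 n)
    rw [← hm0] at hK0
    have hresp : ∀ j, m0 ≤ j → Resp dep (f j) c := fun j h => hj j ((le_max_left _ _).trans h)
    have hii : i ∉ dep i := fun h => lt_irrefl i (hlt i i h)
    obtain ⟨t, φ, -, -, ht3, -, ht5, ht6, ht7, -⟩ := (T_mor htr hf n K0).stem i hii
      (fun i' h h' => lt_asymm (hlt i i' h) (hlt i' i h'))
    -- the limit point on the lower coordinates
    have hv : ∀ i' : I, ∃ v : ℕ → α i', i' ∈ dep i →
        Tendsto (fun p : W α × ℕ => T f m0 p.2 p.1 i') (𝓝 z ×ˢ atTop) (𝓝 v) := by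
      intro i'
      by_cases h : i' ∈ dep i
      · obtain ⟨v, hv⟩ := ih i' (hlt i i' h) m0 z
        exact ⟨v, fun _ => hv⟩
      · exact ⟨z i', fun h' => absurd h' h⟩
    choose v hv using hv
    set w : W α := fun i' => if i' ∈ dep i then v i' else z i' with hw
    set g : W α × ℕ → W α := fun p i' => if i' ∈ dep i then T f m0 p.2 p.1 i' else z i' with hg
    have hgw : Tendsto g (𝓝 z ×ˢ atTop) (𝓝 w) := by
      rw [tendsto_pi_nhds]
      intro i'
      by_cases h : i' ∈ dep i
      · simp only [hg, hw, if_pos h]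
        exact hv i' h
      · simp only [hg, hw, if_neg h]
        exact tendsto_const_nhds
    have hU : ∀ᶠ p in 𝓝 z ×ˢ atTop, t (g p) (c.val i) = t w (c.val i) :=
      hgw.eventually ((ht7 (c.val i) (t w (c.val i))).isOpen.mem_nhds rfl)
    have hU2 : ∀ᶠ p : W α × ℕ in 𝓝 z ×ˢ atTop,
        t (T f m0 p.2 p.1) (c.val i) = t w (c.val i) := by
      filter_upwards [hU] with p hp
      rw [← hp]
      refine (ht6 _ _ _ ?_).1
      intro i' _ h
      simp only [hg, if_pos h]
    have hshift : Tendsto (fun p : W α × ℕ => (p.1, p.2 - K0)) (𝓝 z ×ˢ atTop)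
        (𝓝 z ×ˢ atTop) := by
      refine Tendsto.prodMk tendsto_fst ?_
      exact (tendsto_sub_atTop_nat K0).comp tendsto_snd
    have hU3 := hshift.eventually hU2
    have hc : ∀ᶠ p : W α × ℕ in 𝓝 z ×ˢ atTop, c.Mem p.1 :=
      tendsto_fst.eventually ((isClopen_cell c).isOpen.mem_nhds hcz)
    have hk : ∀ᶠ p : W α × ℕ in 𝓝 z ×ˢ atTop, K0 ≤ p.2 :=
      tendsto_snd.eventually (eventually_ge_atTop K0)
    have hlen : m < (t w (c.val i)).length := by
      have := ht5 w (c.val i)
      omega
    refine ⟨(t w (c.val i))[m], ?_⟩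
    filter_upwards [hU3, hc, hk] with p h1 h2 h3
    have h4 : T f n p.2 = T f n K0 ∘ T f m0 (p.2 - K0) := by
      rw [hK0, ← T_add]
      congr 1
      omega
    have h5 : c.Mem (T f m0 (p.2 - K0) p.1) := (T_resp htr hresp _).mem hlt htr h2
    have h6 := ht3 (T f m0 (p.2 - K0) p.1) (c.val i) (T f m0 (p.2 - K0) p.1)
      (fun _ _ => rfl) (h5 i)
    rw [h1] at h6
    have h7 := h6 m hlen
    rw [h4]
    exact h7
  · refine ⟨z i, ?_⟩
    have h1 : (fun p : W α × ℕ => T f n p.2 p.1 i) = fun p : W α × ℕ => p.1 i := by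
      funext p
      exact (T_mor htr hf n p.2).off p.1 i hi
    rw [h1]
    have h2 : Tendsto (fun p : W α × ℕ => p.1) (𝓝 z ×ˢ atTop) (𝓝 z) := tendsto_fst
    exact (tendsto_pi_nhds.1 h2) i

end gen

end Conv

open Conv in
theorem conv_proof : SConv := by
  intro I _ _ α _ _ _ dep hlt htr A f hf hyp
  choose F hF using claim hlt htr hf hyp
  -- F i n z
  set G : ℕ → W α → W α := fun n z i => F i n z with hG
  have hlim : ∀ n z, Tendsto (fun k => T f n k z) atTop (𝓝 (G n z)) := by
    intro n z
    rw [tendsto_pi_nhds]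
    intro i
    have h1 : Tendsto (fun k : ℕ => (z, k)) atTop (𝓝 z ×ˢ atTop) :=
      Tendsto.prodMk (tendsto_const_nhds) tendsto_id
    exact (hF i n z).comp h1
  have hresp : ∀ n c, (∀ j, n ≤ j → Resp dep (f j) c) → Resp dep (G n) c := by
    intro n c h i z hz v hv he
    have h1 : ∀ k, Ext v (T f n k z i) := fun k => T_resp htr h k i z hz v hv he
    have h2 : Tendsto (fun k => T f n k z i) atTop (𝓝 (G n z i)) :=
      (tendsto_pi_nhds.1 (hlim n z)) i
    exact (isClopen_ext v).isClosed.mem_of_tendsto h2 (Eventually.of_forall h1)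
  have hoff : ∀ n z i, i ∉ A → G n z i = z i := by
    intro n z i hi
    have h2 : Tendsto (fun k => T f n k z i) atTop (𝓝 (G n z i)) :=
      (tendsto_pi_nhds.1 (hlim n z)) i
    have h3 : (fun k => T f n k z i) = fun _ => z i := by
      funext k
      exact (T_mor htr hf n k).off z i hi
    rw [h3] at h2
    exact (tendsto_nhds_unique h2 tendsto_const_nhds)
  have htri : ∀ n i, ∀ z z' : W α, (∀ i', (i' ∈ dep i ∨ i' = i) → z i' = z' i') →
      G n z i = G n z' i := by
    intro n i z z' h
    have h2 := (tendsto_pi_nhds.1 (hlim n z)) i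
    have h3 := (tendsto_pi_nhds.1 (hlim n z')) i
    have h4 : (fun k => T f n k z i) = fun k => T f n k z' i := by
      funext k
      exact (T_mor htr hf n k).tri' i z z' h
    rw [h4] at h2
    exact tendsto_nhds_unique h2 h3
  have hcomp : ∀ n k, G n = T f n k ∘ G (n + k) := by
    intro n k
    funext z
    have h1 := hlim n z
    have h2 : Tendsto (fun m => T f n (k + m) z) atTop (𝓝 (G n z)) :=
      h1.comp (tendsto_atTop_mono (fun m => Nat.le_add_left m k) tendsto_id)
    have h3 : Tendsto (fun m => T f n k (T f (n + k) m z)) atTop (𝓝 (T f n k (G (n + k) z))) :=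
      ((T_mor htr hf n k).cont.tendsto _).comp (hlim (n + k) z)
    have h4 : (fun m => T f n (k + m) z) = fun m => T f n k (T f (n + k) m z) := by
      funext m
      rw [T_add]
      rfl
    rw [h4] at h2
    exact tendsto_nhds_unique h2 h3
  refine ⟨G, ?_, ?_, hresp⟩
  · intro n
    refine ⟨fun z i hi => hoff n z i hi, ?_, ?_, ?_⟩
    · intro i hi z z' h
      have h2 := (tendsto_pi_nhds.1 (hlim n z)) i
      have h3 := (tendsto_pi_nhds.1 (hlim n z')) i
      have h4 : (fun k => T f n k z i) = fun k => T f n k z' i := by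
        funext k
        exact (T_mor htr hf n k).tri i hi z z' h
      rw [h4] at h2
      exact tendsto_nhds_unique h2 h3
    · rw [continuous_pi_iff]
      intro i
      rw [continuous_pi_iff]
      intro m
      rw [continuous_iff_continuousAt]
      intro z
      have h1 : ∀ᶠ p : W α × ℕ in 𝓝 z ×ˢ atTop, T f n p.2 p.1 i m = G n z i m := by
        have h2 := (tendsto_pi_nhds.1 (hF i n z)) m
        rw [nhds_discrete (α i), tendsto_pure] at h2
        exact h2
      have h3 := h1.curry
      rw [ContinuousAt, nhds_discrete (α i), tendsto_pure]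
      filter_upwards [h3] with z' hz'
      have h4 := (tendsto_pi_nhds.1 ((tendsto_pi_nhds.1 (hlim n z')) i)) m
      rw [nhds_discrete (α i), tendsto_pure] at h4
      obtain ⟨k, hk1, hk2⟩ := (h4.and hz').exists
      rw [← hk1, ← hk2]
    · intro i z u
      by_cases hi : i ∈ A
      · haveI : Nonempty (α i) := inferInstance
        obtain ⟨y, hy⟩ := exists_ext u
        set z0 : W α := fun i' => if h : i' = i then h ▸ y else z i' with hz0
        have hz0i : z0 i = y := by simp [hz0]
        have hz0n : ∀ i', i' ≠ i → z0 i' = z i' := by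
          intro i' h
          simp [hz0, h]
        obtain ⟨c, -, hcz, hcl, j0, hj⟩ := hyp z0 i hi (u.length + 1)
        set m0 := max j0 n with hm0
        obtain ⟨K0, hK0⟩ := Nat.exists_eq_add_of_le (le_max_right j0 n)
        rw [← hm0] at hK0
        have hG0 : Resp dep (G m0) c := hresp m0 c fun j h => hj j ((le_max_left _ _).trans h)
        have hci : Ext (c.val i) y := by rw [← hz0i]; exact hcz i
        have hu : u <+: c.val i := (hy.le_iff hci).2 (by omega)
        have hune : u ≠ c.val i := by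
          intro h
          rw [← h] at hcl
          omega
        obtain ⟨t, φ, hφ, he⟩ := (T_mor htr hf n K0).emb i (G m0 z) u
        refine ⟨t, φ, hφ, fun a z' hz' hext => ?_⟩
        have hii : i ∉ dep i := fun h => lt_irrefl i (hlt i i h)
        have h1 : ∀ i' ∈ dep i, Ext (c.val i') (z' i') := by
          intro i' h
          have hne : i' ≠ i := by rintro rfl; exact hii h
          rw [hz' i' h, ← hz0n i' hne]
          exact hcz i'
        have h2 : Ext (u ++ [a]) (G m0 z' i) :=
          hG0 i z' h1 (u ++ [a]) (Or.inr ⟨u, a, rfl, hu, hune⟩) hext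
        have h3 : ∀ i' ∈ dep i, G m0 z' i' = G m0 z i' := by
          intro i' h
          apply htri
          rintro i'' (h' | rfl)
          · exact hz' _ (htr i i' h i'' h')
          · exact hz' _ h
        have h4 := he a (G m0 z') h3 h2
        have h5 : G n = T f n K0 ∘ G m0 := by rw [hK0]; exact hcomp n K0
        rw [h5]
        exact h4
      · refine ⟨u, _root_.id, Function.injective_id, fun a z' _ h => ?_⟩
        rw [hoff n z' i hi]
        exact h
  · intro n
    have := hcomp n 1
    rw [this]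
    rfl

end Pool.Agent.H554
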