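import Pool.Agent.H554.FStmts
import Pool.Agent.H554.Basic

/-!
# Section 9.3, 9.4, and (P0): counting, reflection, the ground model part
-/

namespace Pool.Agent.H554

open Pool.Agent.Helper669.Forcing Set Cardinal Ordinal

namespace CountAux

/-! ### the index set -/

theorem mk_JJ : #JJ = Order.succ continuum := by
  rw [Cardinal.mk_toType, Cardinal.card_ord]

theorem mk_Iio_le (α : JJ) : #(Iio α) ≤ continuum := by
  have h : #(Iio α) < #JJ := Cardinal.mk_Iio_lt α (by
    rw [mk_JJ, Ordinal.type_toType])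
  rw [mk_JJ] at h
  exact Order.lt_succ_iff.1 h

theorem cof_JJ : Order.cof JJ = Order.succ continuum := by
  rw [Ordinal.cof_toType]
  exact (isRegular_succ aleph0_le_continuum).cof_ord

/-- small sets are bounded -/
theorem bdd (s : Set JJ) (h : #s ≤ continuum) : ∃ x, ∀ y ∈ s, y < x := by
  rw [← not_isCofinal_iff]
  intro hc
  have h1 := Order.cof_le hc
  rw [cof_JJ] at h1
  exact absurd (Order.succ_le_iff.1 h1) (not_lt.2 h)

theorem mk_countable {X : Type} {s : Set X} (h : s.Countable) : #s ≤ continuum :=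
  (Cardinal.le_aleph0_iff_set_countable.2 h).trans aleph0_le_continuum

theorem mk_union_le' {X : Type} {s t : Set X} (hs : #s ≤ continuum) (ht : #t ≤ continuum) :
    #(s ∪ t : Set X) ≤ continuum := by
  refine (Cardinal.mk_union_le s t).trans ?_
  calc #s + #t ≤ continuum + continuum := add_le_add hs ht
    _ = continuum := continuum_add_self

theorem mk_iUnion_le' {X ι : Type} {s : ι → Set X} (hι : #ι ≤ continuum)
    (hs : ∀ i, #(s i) ≤ continuum) : #(⋃ i, s i) ≤ continuum := by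
  refine (Cardinal.mk_iUnion_le s).trans ?_
  calc #ι * ⨆ i, #(s i) ≤ continuum * continuum :=
        mul_le_mul' hι (ciSup_le' hs)
    _ = continuum := continuum_mul_self

end CountAux

open CountAux

/-- 9.4 -/
theorem refl : SRefl := by
  classical
  intro T S g hS hg hcard α0
  have hh : ∀ α : JJ, ∃ γ : JJ, α < γ ∧ ∀ t, S t ⊆ Iio α → g t ⊆ Iio γ := by
    intro α
    obtain ⟨x, hx⟩ := bdd ({α} ∪ ⋃ t : {t // S t ⊆ Iio α}, g t)
      (mk_union_le' (mk_countable (countable_singleton α))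
        (mk_iUnion_le' (hcard α) fun t => mk_countable (hg _)))
    exact ⟨x, hx α (Or.inl rfl), fun t ht y hy => hx y (Or.inr (mem_iUnion.2 ⟨⟨t, ht⟩, hy⟩))⟩
  choose h hh1 hh2 using hh
  let Om : Type := (aleph 1).ord.ToType
  have hOm : #Om = aleph 1 := by rw [Cardinal.mk_toType, Cardinal.card_ord]
  have hOmc : ∀ ξ : Om, (Iio ξ).Countable := by
    intro ξ
    have h1 : #(Iio ξ) < #Om := Cardinal.mk_Iio_lt ξ (by rw [hOm, Ordinal.type_toType])
    have h2 : #(Iio ξ) < Order.succ ℵ₀ := by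
      rw [succ_aleph0]
      exact h1.trans_eq hOm
    exact Cardinal.le_aleph0_iff_set_countable.1 (Order.lt_succ_iff.1 h2)
  have hOmcof : Order.cof Om = aleph 1 := by
    rw [Ordinal.cof_toType]
    exact isRegular_aleph_one.cof_ord
  have hOmb : ∀ s : Set Om, s.Countable → ∃ x, ∀ y ∈ s, y < x := by
    intro s hs
    rw [← not_isCofinal_iff]
    intro hc
    have h1 := Order.cof_le hc
    rw [hOmcof, ← succ_aleph0] at h1
    exact absurd (Order.succ_le_iff.1 h1) (not_lt.2 (Cardinal.le_aleph0_iff_set_countable.2 hs))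
  have hcnt : ∀ (ξ : Om) (ih : ∀ η, η < ξ → JJ),
      #({α0} ∪ range (fun η : Iio ξ => h (ih η.1 η.2)) : Set JJ) ≤ continuum := by
    intro ξ ih
    have : Countable (Iio ξ) := (hOmc ξ).to_subtype
    exact mk_countable ((countable_singleton _).union (countable_range _))
  let F : ∀ ξ : Om, (∀ η, η < ξ → JJ) → JJ := fun ξ ih => (bdd _ (hcnt ξ ih)).choose
  let b : Om → JJ := WellFounded.fix (wellFounded_lt) F
  have hb : ∀ ξ, b ξ = F ξ fun η _ => b η := fun ξ => WellFounded.fix_eq _ F ξ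
  have hb1 : ∀ ξ, α0 < b ξ := by
    intro ξ
    rw [hb ξ]
    exact (bdd _ (hcnt ξ fun η _ => b η)).choose_spec α0 (Or.inl rfl)
  have hb2 : ∀ ξ η, η < ξ → h (b η) < b ξ := by
    intro ξ η hη
    rw [hb ξ]
    exact (bdd _ (hcnt ξ fun η _ => b η)).choose_spec _ (Or.inr ⟨⟨η, hη⟩, rfl⟩)
  obtain ⟨x0, hx0⟩ := bdd (range b) (by
    refine (Cardinal.mk_range_le).trans ?_
    rw [hOm]
    exact aleph_one_le_continuum)
  obtain ⟨β, hβ1, hβ2⟩ := (wellFounded_lt (α := JJ)).has_min {x | ∀ ξ, b ξ < x}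
    ⟨x0, fun ξ => hx0 _ ⟨ξ, rfl⟩⟩
  have hβ3 : ∀ c, c < β → ∃ ξ, c ≤ b ξ := by
    intro c hc
    by_contra hcon
    push Not at hcon
    exact hβ2 c hcon hc
  have hbd : ∀ C : Set JJ, C.Countable → C ⊆ Iio β → ∃ ξ, C ⊆ Iio (b ξ) := by
    intro C hC hCβ
    have h1 : ∀ c : C, ∃ ξ, c.1 ≤ b ξ := fun c => hβ3 _ (hCβ c.2)
    choose ξ hξ using h1
    have : Countable C := hC.to_subtype
    obtain ⟨η, hη⟩ := hOmb (range ξ) (countable_range ξ)
    refine ⟨η, fun c hc => ?_⟩
    exact ((hξ ⟨c, hc⟩).trans_lt (hh1 _)).trans (hb2 _ _ (hη _ ⟨⟨c, hc⟩, rfl⟩))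
  obtain ⟨ξ0, -⟩ := hbd ∅ countable_empty (empty_subset _)
  refine ⟨β, (hb1 ξ0).trans (hβ1 ξ0), ?_, ?_⟩
  · intro t ht
    obtain ⟨ξ, hξ⟩ := hbd (S t) (hS t) ht
    obtain ⟨η, hη⟩ := hOmb {ξ} (countable_singleton _)
    intro y hy
    exact ((hh2 _ t hξ hy).trans (hb2 η ξ (hη ξ rfl))).trans (hβ1 η)
  · intro C hC hCβ
    obtain ⟨ξ, hξ⟩ := hbd C hC hCβ
    exact ⟨b ξ, hβ1 ξ, hξ⟩

/-- (P0) -/
theorem ground : SGround := by
  classical
  have hRR : #RR = continuum := by
    rw [Cardinal.mk_set, Cardinal.mk_nat, Cardinal.two_power_aleph0]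
  have hJ : #JJ = #(JJ × Bool) := by
    rw [Cardinal.mk_prod, Cardinal.lift_id, Cardinal.lift_id, Cardinal.mk_bool, mk_JJ]
    exact (Cardinal.mul_eq_left (aleph0_le_continuum.trans (Order.le_succ _))
      ((by exact_mod_cast (natCast_lt_aleph0 (n := 2)).le : (2 : Cardinal) ≤ ℵ₀).trans
        (aleph0_le_continuum.trans (Order.le_succ _))) two_ne_zero).symm
  obtain ⟨e⟩ := Cardinal.eq.1 hJ
  refine ⟨fun j => (e j).2, ?_, ?_, ?_, ?_, ?_⟩
  · intro α
    have h1 : #(Iio α) ≤ #RR := (mk_Iio_le α).trans hRR.ge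
    obtain ⟨f⟩ := h1
    refine ⟨fun r => if h : ∃ γ : Iio α, f γ = r then h.choose.1 else α, fun γ hγ => ?_⟩
    refine ⟨f ⟨γ, hγ⟩, ?_⟩
    have h2 : ∃ γ' : Iio α, f γ' = f ⟨γ, hγ⟩ := ⟨_, rfl⟩
    change (if h : ∃ γ' : Iio α, f γ' = f ⟨γ, hγ⟩ then h.choose.1 else α) = γ
    rw [dif_pos h2]
    exact congrArg Subtype.val (f.injective h2.choose_spec)
  · have h1 : #(RR × RR) ≤ #RR := by
      rw [Cardinal.mk_prod, Cardinal.lift_id, hRR, continuum_mul_self]
    obtain ⟨f⟩ := h1
    exact ⟨Function.invFun f, Function.invFun_surjective f.injective⟩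
  · have h1 : Function.Injective fun n : ℕ => ({n} : Set ℕ) := singleton_injective
    exact ⟨Function.invFun _, Function.invFun_surjective h1⟩
  · intro α v
    by_contra hcon
    push Not at hcon
    have h1 : #{j : JJ // (e j).2 = v} ≤ #(Iic α) :=
      Cardinal.mk_le_of_injective (f := fun j : {j : JJ // (e j).2 = v} =>
        (⟨j.1, not_lt.1 fun h => hcon j.1 h j.2⟩ : Iic α)) fun a b hab => by
          exact Subtype.ext (congrArg (fun x : Iic α => x.1) hab)
    have h2 : #JJ ≤ #{j : JJ // (e j).2 = v} :=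
      Cardinal.mk_le_of_injective (f := fun j : JJ =>
        (⟨e.symm (j, v), by simp⟩ : {j : JJ // (e j).2 = v})) fun a b hab => by
          have := congrArg Subtype.val hab
          simp only [EmbeddingLike.apply_eq_iff_eq, Prod.mk.injEq, and_true] at this
          exact this
    have h3 : #(Iic α) ≤ continuum := by
      have : Iic α = Iio α ∪ {α} := by
        ext x
        simp [le_iff_lt_or_eq]
      rw [this]
      exact mk_union_le' (mk_Iio_le α) (mk_countable (countable_singleton α))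
    have h4 := (h2.trans h1).trans h3
    rw [mk_JJ] at h4
    exact absurd h4 (not_le.2 (Order.lt_succ _))
  · intro i
    unfold BB
    split_ifs with h
    · exact h
    · exact infinite_univ

/-! ### counting -/

namespace CountAux

theorem mk_ctbl {X : Type} (hX : #X ≤ continuum) :
    #{s : Set X // s.Countable} ≤ continuum := by
  have h1 : #{s : Set X // s.Countable} ≤ #{s : Set X // #s ≤ ℵ₀} :=
    Cardinal.mk_le_of_injective (f := fun s : {s : Set X // s.Countable} =>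
      (⟨s.1, Cardinal.le_aleph0_iff_set_countable.2 s.2⟩ : {s : Set X // #s ≤ ℵ₀}))
      fun a b hab => Subtype.ext (congrArg (fun x : {s : Set X // #s ≤ ℵ₀} => x.1) hab)
  refine h1.trans ((Cardinal.mk_bounded_set_le X ℵ₀).trans ?_)
  calc (max #X ℵ₀) ^ ℵ₀ ≤ continuum ^ ℵ₀ :=
        Cardinal.power_le_power_right (max_le hX aleph0_le_continuum)
    _ = continuum := continuum_power_aleph0

theorem mk_prod_le {X Y : Type} (hX : #X ≤ continuum) (hY : #Y ≤ continuum) :
    #(X × Y) ≤ continuum := by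
  rw [Cardinal.mk_prod, Cardinal.lift_id, Cardinal.lift_id]
  calc #X * #Y ≤ continuum * continuum := mul_le_mul' hX hY
    _ = continuum := continuum_mul_self

theorem mk_nat_le : #ℕ ≤ continuum := by
  rw [Cardinal.mk_nat]
  exact aleph0_le_continuum

theorem mk_below (β : JJ) : #(below β) ≤ continuum := by
  have h1 : #(below β) ≤ #(Iio β × Bool) :=
    Cardinal.mk_le_of_injective (f := fun i : below β =>
      ((⟨(ofLex i.1).1, i.2⟩, (ofLex i.1).2) : Iio β × Bool)) fun a b hab => by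
        apply Subtype.ext
        apply ofLex.injective
        apply Prod.ext
        · exact congrArg (fun x : Iio β × Bool => x.1.1) hab
        · exact congrArg (fun x : Iio β × Bool => x.2) hab
  refine h1.trans (mk_prod_le (mk_Iio_le β) ?_)
  rw [Cardinal.mk_bool]
  exact (by exact_mod_cast (natCast_lt_aleph0 (n := 2)).le : (2 : Cardinal) ≤ ℵ₀).trans
    aleph0_le_continuum

/-- coding of letters -/
noncomputable def enc (b : Bool) : Al b → ℕ := (exists_injective_nat (Al b)).choose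

theorem enc_inj (b : Bool) : Function.Injective (enc b) := (exists_injective_nat (Al b)).choose_spec

/-- cells with support below `β` -/
abbrev CellB (β : JJ) : Type := {c : Cell (alph JJ) // c.supp ⊆ below β}

theorem mk_cellB (β : JJ) : #(CellB β) ≤ continuum := by
  classical
  let f : CellB β → {s : Set (below β × ℕ × ℕ) // s.Countable} := fun c =>
    ⟨{x | ∃ a, (c.1.val x.1.1)[x.2.1]? = some a ∧ enc _ a = x.2.2}, by
      have h1 : {x : below β × ℕ × ℕ | ∃ a, (c.1.val x.1.1)[x.2.1]? = some a ∧ enc _ a = x.2.2} ⊆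
          {i : below β | i.1 ∈ c.1.supp} ×ˢ (univ : Set (ℕ × ℕ)) := by
        rintro x ⟨a, ha, -⟩
        refine ⟨fun h => ?_, mem_univ _⟩
        rw [h] at ha
        simp at ha
      refine Countable.mono h1 (Countable.prod ?_ countable_univ)
      exact c.1.fin.countable.preimage Subtype.val_injective⟩
  refine (Cardinal.mk_le_of_injective (f := f) ?_).trans
    (mk_ctbl (mk_prod_le (mk_below β) (mk_prod_le mk_nat_le mk_nat_le)))
  intro c d hcd
  have h1 := congrArg (fun x : {s : Set (below β × ℕ × ℕ) // s.Countable} => x.1) hcd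
  have key : ∀ c d : CellB β, (f c).1 = (f d).1 → ∀ (i : Ix JJ) (k : ℕ) (a : alph JJ i),
      (c.1.val i)[k]? = some a → (d.1.val i)[k]? = some a := by
    intro c d h i k a ha
    have hi : i ∈ below β := by
      apply c.2
      intro h0
      rw [h0] at ha
      simp at ha
    have h2 : ((⟨i, hi⟩, k, enc _ a) : below β × ℕ × ℕ) ∈ (f c).1 := ⟨a, ha, rfl⟩
    rw [h] at h2
    obtain ⟨b, hb, hab⟩ := h2
    rw [hb, enc_inj _ hab]
  apply Subtype.ext
  apply Cell.ext
  funext i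
  apply List.ext_getElem?
  intro k
  apply Option.ext
  intro a
  exact ⟨key c d h1 i k a, key d c h1.symm i k a⟩

/-- coding of countable sets of coordinates below `β` -/
def cA (β : JJ) (A : Set (Ix JJ)) (hA : A.Countable) : {s : Set (below β) // s.Countable} :=
  ⟨{i | i.1 ∈ A}, hA.preimage Subtype.val_injective⟩

theorem cA_inj {β : JJ} {A B : Set (Ix JJ)} {hA : A.Countable} {hB : B.Countable}
    (hA' : A ⊆ below β) (hB' : B ⊆ below β) (h : cA β A hA = cA β B hB) : A = B := by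
  have h1 : {i : below β | i.1 ∈ A} = {i | i.1 ∈ B} :=
    congrArg (fun x : {s : Set (below β) // s.Countable} => x.1) h
  ext i
  constructor
  · intro hi
    have : (⟨i, hA' hi⟩ : below β) ∈ {i : below β | i.1 ∈ A} := hi
    rw [h1] at this
    exact this
  · intro hi
    have : (⟨i, hB' hi⟩ : below β) ∈ {i : below β | i.1 ∈ B} := hi
    rw [← h1] at this
    exact this

theorem ctbl_cells (β : JJ) {A : Set (Ix JJ)} (hA : A.Countable) :
    {c : CellB β | c.1.supp ⊆ A}.Countable :=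
  (countable_cells (α := alph JJ) A hA).preimage Subtype.val_injective

end CountAux

/-- 9.3, first part -/
theorem count1 : SCount1 := by
  classical
  intro β
  let f : {t : Set (Ix JJ) × Mo JJ // t.1.Countable ∧ t.1 ⊆ below β ∧ IsMor (dep JJ) t.1 t.2.1} →
      {s : Set (below β) // s.Countable} ×
        {s : Set (below β × ℕ × ℕ × CellB β) // s.Countable} := fun t =>
    (cA β t.1.1 t.2.1, ⟨{x | x.1.1 ∈ t.1.1 ∧ x.2.2.2.1.supp ⊆ t.1.1 ∧
      ∀ z, x.2.2.2.1.Mem z → enc _ (t.1.2.1 z x.1.1 x.2.1) = x.2.2.1}, by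
        have h1 : {x : below β × ℕ × ℕ × CellB β | x.1.1 ∈ t.1.1 ∧ x.2.2.2.1.supp ⊆ t.1.1 ∧
            ∀ z, x.2.2.2.1.Mem z → enc _ (t.1.2.1 z x.1.1 x.2.1) = x.2.2.1} ⊆
            {i : below β | i.1 ∈ t.1.1} ×ˢ ((univ : Set ℕ) ×ˢ ((univ : Set ℕ) ×ˢ
              {c : CellB β | c.1.supp ⊆ t.1.1})) := by
          rintro x ⟨h1, h2, -⟩
          exact ⟨h1, mem_univ _, mem_univ _, h2⟩
        refine Countable.mono h1 (Countable.prod ?_ (Countable.prod countable_univ
          (Countable.prod countable_univ (ctbl_cells β t.2.1))))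
        exact t.2.1.preimage Subtype.val_injective⟩)
  refine (Cardinal.mk_le_of_injective (f := f) ?_).trans
    (mk_prod_le (mk_ctbl (mk_below β)) (mk_ctbl (mk_prod_le (mk_below β)
      (mk_prod_le mk_nat_le (mk_prod_le mk_nat_le (mk_cellB β))))))
  rintro ⟨⟨A, p⟩, hA1, hA2, hA3⟩ ⟨⟨B, q⟩, hB1, hB2, hB3⟩ hpq
  have h1 := congrArg Prod.fst hpq
  have h2 := congrArg (fun x => (Prod.snd x).1) hpq
  obtain rfl : A = B := cA_inj (hA := hA1) (hB := hB1) hA2 hB2 h1
  have key : p = q := by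
    apply Subtype.ext
    funext z i n
    by_cases hi : i ∈ A
    · obtain ⟨c, hc1, hc2, hc3⟩ := exists_cell_dep (U := {z' : W (alph JJ) | p.1 z' i n = p.1 z i n})
        (((isOpen_discrete {p.1 z i n}).preimage
          ((continuous_apply n).comp ((continuous_apply i).comp hA3.cont)))) A (by
            intro z' z'' h
            have := hA3.tri i hi z' z'' fun i' hi' _ => h i' hi'
            change p.1 z' i n = _ ↔ p.1 z'' i n = _
            rw [this]) (z := z) rfl
      have h3 : ((⟨i, hA2 hi⟩, n, enc _ (p.1 z i n), ⟨c, hc1.trans hA2⟩) :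
          below β × ℕ × ℕ × CellB β) ∈ (f ⟨(A, p), hA1, hA2, hA3⟩).2.1 := by
        refine ⟨hi, hc1, fun z' hz' => ?_⟩
        change enc _ (p.1 z' i n) = _
        rw [hc3 z' hz']
      rw [show (f ⟨(A, p), hA1, hA2, hA3⟩).2.1 = (f ⟨(A, q), hB1, hB2, hB3⟩).2.1 from h2] at h3
      exact (enc_inj _ (h3.2.2 z hc2)).symm
    · rw [hA3.off z i hi, hB3.off z i hi]
  subst key
  rfl

/-- 9.3, second part -/
theorem count2 : SCount2 := by
  classical
  intro β
  let f : {t : Set (Ix JJ) × (W (alph JJ) → Set ℕ) // t.1.Countable ∧ t.1 ⊆ below β ∧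
      ContS t.2 ∧ DepOn t.1 t.2} →
      {s : Set (below β) // s.Countable} × {s : Set (ℕ × CellB β) // s.Countable} := fun t =>
    (cA β t.1.1 t.2.1, ⟨{x | x.2.1.supp ⊆ t.1.1 ∧ ∀ z, x.2.1.Mem z → x.1 ∈ t.1.2 z}, by
        have h1 : {x : ℕ × CellB β | x.2.1.supp ⊆ t.1.1 ∧ ∀ z, x.2.1.Mem z → x.1 ∈ t.1.2 z} ⊆
            (univ : Set ℕ) ×ˢ {c : CellB β | c.1.supp ⊆ t.1.1} := by
          rintro x ⟨h1, -⟩
          exact ⟨mem_univ _, h1⟩
        exact Countable.mono h1 (Countable.prod countable_univ (ctbl_cells β t.2.1))⟩)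
  refine (Cardinal.mk_le_of_injective (f := f) ?_).trans
    (mk_prod_le (mk_ctbl (mk_below β)) (mk_ctbl (mk_prod_le mk_nat_le (mk_cellB β))))
  rintro ⟨⟨A, p⟩, hA1, hA2, hA3, hA4⟩ ⟨⟨B, q⟩, hB1, hB2, hB3, hB4⟩ hpq
  have h1 := congrArg Prod.fst hpq
  have h2 := congrArg (fun x => (Prod.snd x).1) hpq
  obtain rfl : A = B := cA_inj (hA := hA1) (hB := hB1) hA2 hB2 h1
  have main : ∀ (p q : W (alph JJ) → Set ℕ) (hp : ContS p) (hp' : DepOn A p),
      (∀ (n : ℕ) (c : CellB β), c.1.supp ⊆ A → (∀ z, c.1.Mem z → n ∈ p z) →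
        ∀ z, c.1.Mem z → n ∈ q z) → ∀ z n, n ∈ p z → n ∈ q z := by
    intro p q hp hp' h z n hn
    obtain ⟨c, hc1, hc2, hc3⟩ := exists_cell_dep (hp n).isOpen A (by
      intro z' z'' h'
      change n ∈ p z' ↔ n ∈ p z''
      rw [hp' z' z'' h']) (z := z) hn
    exact h n ⟨c, hc1.trans hA2⟩ hc1 hc3 z hc2
  have key : p = q := by
    funext z
    ext n
    constructor
    · refine main p q hA3 hA4 (fun n c hc h z hz => ?_) z n
      have h3 : ((n, c) : ℕ × CellB β) ∈ (f ⟨(A, p), hA1, hA2, hA3, hA4⟩).2.1 := ⟨hc, h⟩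
      rw [show (f ⟨(A, p), hA1, hA2, hA3, hA4⟩).2.1 = (f ⟨(A, q), hB1, hB2, hB3, hB4⟩).2.1
        from h2] at h3
      exact h3.2 z hz
    · refine main q p hB3 hB4 (fun n c hc h z hz => ?_) z n
      have h3 : ((n, c) : ℕ × CellB β) ∈ (f ⟨(A, q), hB1, hB2, hB3, hB4⟩).2.1 := ⟨hc, h⟩
      rw [← show (f ⟨(A, p), hA1, hA2, hA3, hA4⟩).2.1 = (f ⟨(A, q), hB1, hB2, hB3, hB4⟩).2.1
        from h2] at h3
      exact h3.2 z hz
  subst key
  rfl

end Pool.Agent.H554
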