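import Pool.Agent.H554.Pub

/-!
# Worlds, cells, morphisms

`W α` is the product of the spaces `ℕ → α i`. `dep i` is the set of the coordinates (below `i`)
on which the coordinate `i` of a morphism may depend, besides `i` itself.
-/

namespace Pool.Agent.H554

open Pool.Agent.Helper669.Forcing Set

/-- `z` extends the string `s`. -/
def Ext {β : Type} (s : List β) (z : ℕ → β) : Prop := ∀ k (h : k < s.length), z k = s[k]

/-- The string `s` followed by `z`. -/
def app {β : Type} (s : List β) (z : ℕ → β) : ℕ → β :=
  fun n => if h : n < s.length then s[n] else z (n - s.length)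

/-- Remove the first `l` letters. -/
def strip {β : Type} (l : ℕ) (z : ℕ → β) : ℕ → β := fun n => z (l + n)

/-- The first `l` letters. -/
def pre {β : Type} (z : ℕ → β) (l : ℕ) : List β := (List.range l).map z

/-- Compatible strings. -/
def Compat {β : Type} (s t : List β) : Prop := s <+: t ∨ t <+: s

section generic

variable {I : Type}

/-- The product of the spaces `ℕ → α i`. -/
abbrev W (α : I → Type) : Type := ∀ i, ℕ → α i

/-- Cells: finitely many nonempty strings. -/
@[ext] structure Cell (α : I → Type) where
  /-- the strings -/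
  val : ∀ i, List (α i)
  fin : {i | val i ≠ []}.Finite

variable {α : I → Type}

/-- The support of a cell. -/
def Cell.supp (c : Cell α) : Set I := {i | c.val i ≠ []}

/-- The point `z` lies in the cell `c`. -/
def Cell.Mem (c : Cell α) (z : W α) : Prop := ∀ i, Ext (c.val i) (z i)

/-- Coordinatewise concatenation. -/
instance : Mul (Cell α) :=
  ⟨fun c d => ⟨fun i => c.val i ++ d.val i, (c.fin.union d.fin).subset fun i hi => by
    by_contra h
    simp only [mem_union, mem_setOf_eq, not_or, not_not] at h
    exact hi (by simp [h.1, h.2])⟩⟩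

instance : One (Cell α) := ⟨⟨fun _ => [], by simp⟩⟩

theorem Cell.mul_val (c d : Cell α) (i : I) : (c * d).val i = c.val i ++ d.val i := rfl

theorem Cell.one_val (i : I) : (1 : Cell α).val i = [] := rfl

instance : Monoid (Cell α) where
  mul_assoc a b c := by ext i : 2; simp [Cell.mul_val]
  one_mul a := by ext i : 2; simp [Cell.mul_val, Cell.one_val]
  mul_one a := by ext i : 2; simp [Cell.mul_val, Cell.one_val]

/-- Put the strings of `c` in front. -/
def iota (c : Cell α) (z : W α) : W α := fun i => app (c.val i) (z i)

/-- Remove the strings of `c` (their lengths). -/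
def stripc (c : Cell α) (z : W α) : W α := fun i => strip (c.val i).length (z i)

open Classical in
/-- Apply `r` inside the cell `c`. -/
noncomputable def glue (dep : I → Set I) (c : Cell α) (r : W α → W α) (z : W α) : W α := fun i =>
  if (∀ i', (i' ∈ dep i ∨ i' = i) → Ext (c.val i') (z i')) then app (c.val i) (r (stripc c z) i)
  else z i

/-- `f` respects the cell `c`. -/
def Resp (dep : I → Set I) (f : W α → W α) (c : Cell α) : Prop :=
  ∀ i z, (∀ i' ∈ dep i, Ext (c.val i') (z i')) →
    ∀ v : List (α i), (v = c.val i ∨ ∃ u a, v = u ++ [a] ∧ u <+: c.val i ∧ u ≠ c.val i) →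
      Ext v (z i) → Ext v (f z i)

/-- The condition under which `glue c' r` respects `c`. -/
def Star (dep : I → Set I) (c c' : Cell α) : Prop :=
  ∀ i, (∀ i', (i' ∈ dep i ∨ i' = i) → Compat (c.val i') (c'.val i')) →
    (c.val i).length ≤ (c'.val i).length

variable [∀ i, TopologicalSpace (α i)]

/-- Morphisms with support `A`. -/
structure IsMor (dep : I → Set I) (A : Set I) (f : W α → W α) : Prop where
  off : ∀ z i, i ∉ A → f z i = z i
  tri : ∀ i ∈ A, ∀ z z' : W α, (∀ i' ∈ A, (i' ∈ dep i ∨ i' = i) → z i' = z' i') → f z i = f z' i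
  cont : Continuous f
  emb : ∀ (i : I) (z : W α) (u : List (α i)), ∃ (t : List (α i)) (φ : α i → α i),
    Function.Injective φ ∧ ∀ (a : α i) (z' : W α), (∀ i' ∈ dep i, z' i' = z i') →
      Ext (u ++ [a]) (z' i) → Ext (t ++ [φ a]) (f z' i)

/-- Morphisms with some countable support. -/
def IsMorC (dep : I → Set I) (f : W α → W α) : Prop := ∃ A : Set I, A.Countable ∧ IsMor dep A f

/-- A sequence of finite blocks of cells supported in `A`, as used in the fusion construction. -/
def HasScheme (α : I → Type) (dep : I → Set I) (A : Set I) : Prop :=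
  ∃ C : ℕ → List (Cell α), (∀ j, ∀ c ∈ C j, c.supp ⊆ A) ∧
    (∀ j j', j ≤ j' → ∀ c ∈ C j, ∀ c' ∈ C j', Star dep c c') ∧
    ∀ (z : W α), ∀ i ∈ A, ∀ l n : ℕ, ∃ j, n ≤ j ∧ ∃ c ∈ C j, c.Mem z ∧ l ≤ (c.val i).length

end generic

/-! ### The coordinates of the forcing notion -/

/-- The two alphabets. -/
abbrev Al (b : Bool) : Type := match b with
  | false => Bool
  | true => ℕ

instance (b : Bool) : TopologicalSpace (Al b) := ⊥

instance (b : Bool) : DiscreteTopology (Al b) := ⟨rfl⟩

instance (b : Bool) : Countable (Al b) := match b with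
  | false => inferInstanceAs (Countable Bool)
  | true => inferInstanceAs (Countable ℕ)

instance (b : Bool) : DecidableEq (Al b) := match b with
  | false => inferInstanceAs (DecidableEq Bool)
  | true => inferInstanceAs (DecidableEq ℕ)

instance (b : Bool) : Inhabited (Al b) := match b with
  | false => inferInstanceAs (Inhabited Bool)
  | true => inferInstanceAs (Inhabited ℕ)

instance (b : Bool) : Nontrivial (Al b) := match b with
  | false => inferInstanceAs (Nontrivial Bool)
  | true => inferInstanceAs (Nontrivial ℕ)

/-- Coordinates: `(j, false)` is the `x`-coordinate `j`, `(j, true)` the `m`-coordinate `j`. -/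
abbrev Ix (J : Type) : Type := Lex (J × Bool)

/-- The alphabet of a coordinate. -/
abbrev alph (J : Type) (i : Ix J) : Type := Al (ofLex i).2

section poset

variable (J : Type) [LinearOrder J]

/-- the `x`-coordinate `j` -/
abbrev xI {J : Type} (j : J) : Ix J := toLex (j, false)

/-- the `m`-coordinate `j` -/
abbrev mI {J : Type} (j : J) : Ix J := toLex (j, true)

/-- `x`-coordinates depend on lower `x`-coordinates, `m`-coordinates on all lower coordinates. -/
def dep (i : Ix J) : Set (Ix J) := {i' | i' < i ∧ ((ofLex i).2 = false → (ofLex i').2 = false)}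

/-- The forcing notion. -/
def Mo : Type := {f : W (alph J) → W (alph J) // IsMorC (dep J) f}

/-- Stronger conditions are obtained by composing with morphisms on the right. -/
instance : LE (Mo J) := ⟨fun q p => ∃ r : Mo J, q.1 = p.1 ∘ r.1⟩

end poset

/-! ### Names -/

section names

variable {J : Type} [LinearOrder J]

/-- The name of the set `x γ`. -/
def xN (γ : J) (n : ℕ) : Set (Mo J) := {p | ∀ z, (p.1 z (xI γ) : ℕ → Bool) n = true}

/-- The name of the set `A β`. -/
def aN (β : J) (n : ℕ) : Set (Mo J) :=
  {p | ∃ u : List ℕ, Encodable.encode u = n ∧ ∀ z, Ext u (p.1 z (mI β) : ℕ → ℕ)}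

end names

end Pool.Agent.H554
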