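import Pool.Agent.H554.Base
import Pool.Agent.H554.Stmts

/-!
# The statements of the modules, forcing part
-/

namespace Pool.Agent.H554

open Pool.Agent.Helper669.Forcing Set

/-- the index set `J` of the forcing notion: the initial ordinal of the successor of the
continuum -/
abbrev JJ : Type := (Order.succ Cardinal.continuum.{0}).ord.ToType

/-- the index set `R` -/
abbrev RR : Type := Set ℕ

open Classical in
/-- the reaping family of all infinite ground model sets -/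
noncomputable def BB (i : RR) : Set ℕ := if i.Infinite then i else univ

section

variable {J : Type} [LinearOrder J]

/-- `q` reads the name `C` of a subset of `X` by the function `G` (3.2) -/
def Reads {X : Type} (q : Mo J) (C : X → Set (Mo J)) (G : W (alph J) → Set X) : Prop :=
  ∀ z n, ∃ c : Cell (alph J), c.Mem z ∧ ∀ r : Mo J, r.1 = q.1 ∘ iota c →
    (n ∈ G z → r ∈ meets (C n)) ∧ (n ∉ G z → r ∈ fnot (meets (C n)))

/-- `G` only depends on the coordinates in `A` -/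
def DepOn {X : Type} (A : Set (Ix J)) (G : W (alph J) → X) : Prop :=
  ∀ z z' : W (alph J), (∀ i ∈ A, z i = z' i) → G z = G z'

/-- continuity of a set valued function -/
def ContS {X : Type} (G : W (alph J) → Set X) : Prop := ∀ n, IsClopen {z | n ∈ G z}

/-- the coordinates below `β` -/
def below (β : J) : Set (Ix J) := {i | (ofLex i).1 < β}

open Classical in
/-- restriction of a condition to a set of coordinates (9) -/
noncomputable def resF (S : Set (Ix J)) (f : W (alph J) → W (alph J)) : W (alph J) → W (alph J) :=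
  fun z i => if i ∈ S then f z i else z i

end

/-- 3.2 -/
def STruth : Prop := ∀ (J : Type) (_ : LinearOrder J) (_ : WellFoundedLT J) (X : Type) (q : Mo J)
  (C : X → Set (Mo J)) (G : W (alph J) → Set X), Reads q C G →
  ContS G ∧ ∀ s : Mo J, Reads (q.comp s) C (fun z => G (s.1 z)) ∧
    ∀ n, (q.comp s ∈ meets (C n) ↔ ∀ z, n ∈ G (s.1 z)) ∧
      (q.comp s ∈ fnot (meets (C n)) ↔ ∀ z, n ∉ G (s.1 z))

/-- (FL) with a name to be read and further dense open sets -/
def SRead : Prop := ∀ (J : Type) (_ : LinearOrder J) (_ : WellFoundedLT J) (j0 : J),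
  (∀ j, j0 ≤ j) → ∀ (X : Type) (_ : Countable X) (C : X → Set (Mo J)) (O : ℕ → Set (Mo J)),
  (∀ n, Down (O n)) → (∀ n (p : Mo J), ∃ q ≤ p, q ∈ O n) → ∀ p : Mo J,
  ∃ q ≤ p, ∃ (A : Set (Ix J)) (G : W (alph J) → Set X), A.Countable ∧ IsMor (dep J) A q.1 ∧
    DepOn A G ∧ Reads q C G ∧
    ∀ z n, ∃ c : Cell (alph J), c.supp ⊆ A ∧ c.Mem z ∧ ∀ r : Mo J, r.1 = q.1 ∘ iota c → r ∈ O n

/-- 8 -/
def SP2 : Prop := ∀ (J : Type) (_ : LinearOrder J) (_ : WellFoundedLT J) (j0 : J),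
  (∀ j, j0 ≤ j) → ∀ p : Mo J, p ∈ FPhi2 (Mo J) RR BB

/-- 9.1, 9.2: restriction and amalgamation -/
def SRestr : Prop := ∀ (J : Type) (_ : LinearOrder J) (_ : WellFoundedLT J) (β : J) (p : Mo J),
  ∃ pβ : Mo J, pβ.1 = resF (below β) p.1 ∧ (∃ A, A.Countable ∧ A ⊆ below β ∧ IsMor (dep J) A pβ.1) ∧
    p ≤ pβ ∧
    (∀ q : Mo J, (∃ A, A.Countable ∧ A ⊆ below β ∧ IsMor (dep J) A q.1) → q ≤ pβ →
      ∃ s : Mo J, (∃ A, A.Countable ∧ A ⊆ below β ∧ IsMor (dep J) A s.1) ∧ q = pβ.comp s ∧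
        p.comp s ≤ q ∧ resF (below β) (p.comp s).1 = q.1) ∧
    (∀ p' : Mo J, (∃ A, A.Countable ∧ A ⊆ below β ∧ IsMor (dep J) A p'.1) → p ≤ p' → pβ ≤ p')

/-- 9.3, first part: counting conditions with a support -/
def SCount1 : Prop := ∀ β : JJ,
  Cardinal.mk {t : Set (Ix JJ) × Mo JJ // t.1.Countable ∧ t.1 ⊆ below β ∧
    IsMor (dep JJ) t.1 t.2.1} ≤ Cardinal.continuum

/-- 9.3, second part: counting continuous functions with a support -/
def SCount2 : Prop := ∀ β : JJ,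
  Cardinal.mk {t : Set (Ix JJ) × (W (alph JJ) → Set ℕ) // t.1.Countable ∧ t.1 ⊆ below β ∧
    ContS t.2 ∧ DepOn t.1 t.2} ≤ Cardinal.continuum

/-- 9.4 -/
def SRefl : Prop := ∀ (T : Type) (S g : T → Set JJ), (∀ t, (S t).Countable) →
  (∀ t, (g t).Countable) → (∀ α : JJ, Cardinal.mk {t : T // S t ⊆ Iio α} ≤ Cardinal.continuum) →
  ∀ α0 : JJ, ∃ β : JJ, α0 < β ∧ (∀ t, S t ⊆ Iio β → g t ⊆ Iio β) ∧
    ∀ C : Set JJ, C.Countable → C ⊆ Iio β → ∃ α, α < β ∧ C ⊆ Iio α

/-- (P0) -/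
def SGround : Prop := ∃ par : JJ → Bool, Ground RR JJ par BB

/-- (P1) -/
def SP1 : Prop := ∀ p : Mo JJ, p ∈ FPhi1 (Mo JJ) RR JJ

/-- 10 -/
def SP3 : Prop := ∀ p : Mo JJ, p ∈ FPhi3 (Mo JJ) RR

/-- 11 (a) -/
def SP4a : Prop := ∀ (J : Type) (_ : LinearOrder J) (_ : WellFoundedLT J) (p : Mo J),
  p ∈ FPhi4Unb (Mo J) J aN ∧ p ∈ FPhi4Diff (Mo J) J xN ∧ p ∈ FPhi4Diff3 (Mo J) J xN aN

/-- 11 (b) -/
def SP4b : Prop := ∀ p : Mo JJ, p ∈ FPhi4Gap (Mo JJ) JJ aN

/-- 11 (c) -/
def SP4c : Prop := ∀ (par : JJ → Bool), Ground RR JJ par BB → ∀ p : Mo JJ,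
  p ∈ FPhi4Cov (Mo JJ) RR JJ par xN

/-- assembly of the forcing part -/
theorem mainForced_of (h0 : SGround) (h1 : SP1) (h2 : SP2) (h3 : SP3) (h4a : SP4a) (h4b : SP4b)
    (h4c : SP4c) : MainForced := by
  obtain ⟨par, hg⟩ := h0
  have hne : Nonempty JJ := by
    obtain ⟨s, hs⟩ := hg.nat
    have : Nonempty RR := ⟨∅⟩
    rw [← not_isEmpty_iff]
    intro he
    have h1 : (Order.succ Cardinal.continuum.{0}).ord = 0 := by
      by_contra h
      have := Ordinal.nonempty_toType_iff.2 h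
      exact he.false this.some
    rw [Cardinal.ord_eq_zero] at h1
    exact (Order.succ_ne_bot _) (by rw [h1]; rfl)
  have hwf : WellFoundedLT JJ := inferInstance
  obtain ⟨j0, -, hj0⟩ := (hwf.wf).has_min univ ⟨hne.some, mem_univ _⟩
  refine ⟨RR, JJ, inferInstance, par, BB, Mo JJ, inferInstance, inferInstance, fun p => ?_⟩
  refine ⟨hg, h1 p, h2 JJ inferInstance inferInstance j0
    (fun j => not_lt.1 (hj0 j (mem_univ _))) p, h3 p, ?_⟩
  refine mem_fex_of_mem (i := xN) ?_ ?_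
  · exact down_fex _
  · refine mem_fex_of_mem (i := aN) ?_ ?_
    · refine down_fand (down_fall fun _ => down_fall fun _ => down_fex _) (down_fand
        (down_fall fun _ => down_fall fun _ => down_fimp _ _) (down_fand
        (down_fall fun _ => down_fall fun _ => down_fall fun _ => down_fex _) (down_fand
        (down_fall fun _ => down_fimp _ _) (down_fall fun _ => down_fnot _))))
    · exact ⟨(h4a JJ inferInstance inferInstance p).1, (h4a JJ inferInstance inferInstance p).2.1,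
        (h4a JJ inferInstance inferInstance p).2.2, h4b p, h4c par hg p⟩

end Pool.Agent.H554
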