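import Pool.Agent.H554.Basic
import Pool.Agent.H554.Stmts

/-!
# The fusion lemma (2.3)
-/

set_option autoImplicit false

namespace Pool.Agent.H554

open Pool.Agent.Helper669.Forcing Set

namespace Fusion

section gen

variable {I : Type} {α : I → Type}

/-- the composition of the glued maps of one block -/
noncomputable def blockf (dep : I → Set I) (r : ℕ → (W α → W α) → (W α → W α)) (j : ℕ) :
    (W α → W α) → List (Cell α) → (W α → W α)
  | _, [] => id
  | p, c :: L => glue dep c (r j (p ∘ iota c)) ∘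
      blockf dep r j (p ∘ glue dep c (r j (p ∘ iota c))) L

/-- closing off under block steps -/
def step (dep : I → Set I) (r : ℕ → (W α → W α) → (W α → W α))
    (sp : (W α → W α) → Set I) (x : Set (W α → W α) × Set I) :
    Set (W α → W α) × Set I :=
  (x.1 ∪ ⋃ j : ℕ, ⋃ p ∈ x.1, ⋃ L ∈ {L : List (Cell α) | ∀ c ∈ L, c.supp ⊆ x.2},
      {p ∘ blockf dep r j p L},
   x.2 ∪ ⋃ j : ℕ, ⋃ p ∈ x.1, ⋃ L ∈ {L : List (Cell α) | ∀ c ∈ L, c.supp ⊆ x.2},
      sp (blockf dep r j p L))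

/-- the stages -/
def stg (dep : I → Set I) (r : ℕ → (W α → W α) → (W α → W α))
    (sp : (W α → W α) → Set I) (x : Set (W α → W α) × Set I) :
    ℕ → Set (W α → W α) × Set I
  | 0 => x
  | n + 1 => step dep r sp (stg dep r sp x n)

theorem stg_mono (dep : I → Set I) (r : ℕ → (W α → W α) → (W α → W α))
    (sp : (W α → W α) → Set I) (x : Set (W α → W α) × Set I) {n m : ℕ} (h : n ≤ m) :
    (stg dep r sp x n).1 ⊆ (stg dep r sp x m).1 ∧ (stg dep r sp x n).2 ⊆ (stg dep r sp x m).2 := by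
  induction m, h using Nat.le_induction with
  | base => exact ⟨subset_rfl, subset_rfl⟩
  | succ m _ ih =>
    exact ⟨ih.1.trans subset_union_left, ih.2.trans subset_union_left⟩

theorem countable_lists {β : Type} {S : Set β} (hS : S.Countable) :
    {L : List β | ∀ c ∈ L, c ∈ S}.Countable := by
  haveI : Countable S := hS.to_subtype
  have h1 : {L : List β | ∀ c ∈ L, c ∈ S} ⊆
      Set.range (fun L : List S => L.map Subtype.val) := by
    intro L hL
    rw [Set.range_list_map_coe]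
    exact hL
  exact (Set.countable_range _).mono h1

theorem exists_stage {β : Type} {t : ℕ → Set β} (hmono : ∀ n m, n ≤ m → t n ⊆ t m) {s : Set β}
    (hs : s.Finite) (h : s ⊆ ⋃ n, t n) : ∃ n, s ⊆ t n := by
  induction s, hs using Set.Finite.induction_on with
  | empty => exact ⟨0, empty_subset _⟩
  | @insert a s _ _ ih =>
    obtain ⟨n, hn⟩ := ih ((subset_insert a s).trans h)
    obtain ⟨m, hm⟩ := mem_iUnion.1 (h (mem_insert a s))
    refine ⟨max n m, insert_subset (hmono _ _ (le_max_right _ _) hm)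
      (hn.trans (hmono _ _ (le_max_left _ _)))⟩

end gen

section main

variable {I : Type} [LinearOrder I] [WellFoundedLT I] {α : I → Type}
  [∀ i, TopologicalSpace (α i)] [∀ i, DiscreteTopology (α i)] [∀ i, Nontrivial (α i)]
  [∀ i, Countable (α i)] {dep : I → Set I} {K : Set (W α → W α)}
  {r : ℕ → (W α → W α) → (W α → W α)} {O : ℕ → Set (W α → W α)}

omit [LinearOrder I] [WellFoundedLT I] [∀ i, TopologicalSpace (α i)]
  [∀ i, DiscreteTopology (α i)] [∀ i, Nontrivial (α i)] [∀ i, Countable (α i)] in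
theorem blockf_mem (hKc : ∀ f ∈ K, ∀ g ∈ K, f ∘ g ∈ K) (hKi : ∀ c : Cell α, iota c ∈ K)
    (hKg : ∀ c : Cell α, ∀ r ∈ K, glue dep c r ∈ K) {j : ℕ} (hr : ∀ q ∈ K, r j q ∈ K)
    (L : List (Cell α)) : ∀ p ∈ K, blockf dep r j p L ∈ K := by
  induction L with
  | nil =>
    intro p _
    have := hKi 1
    rw [iota_one] at this
    exact this
  | cons c L ih =>
    intro p hp
    have h1 : glue dep c (r j (p ∘ iota c)) ∈ K := hKg c _ (hr _ (hKc _ hp _ (hKi c)))
    exact hKc _ h1 _ (ih _ (hKc _ hp _ h1))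

omit [LinearOrder I] [WellFoundedLT I] [∀ i, TopologicalSpace (α i)]
  [∀ i, DiscreteTopology (α i)] [∀ i, Nontrivial (α i)] [∀ i, Countable (α i)] in
theorem blockf_resp (htr : ∀ i, ∀ i' ∈ dep i, ∀ i'' ∈ dep i', i'' ∈ dep i) {j : ℕ}
    {c : Cell α} (L : List (Cell α)) (hL : ∀ c' ∈ L, Star dep c c') :
    ∀ p, Resp dep (blockf dep r j p L) c := by
  induction L with
  | nil => intro p; exact resp_id c
  | cons c' L ih =>
    intro p
    exact Resp.comp htr (resp_glue (hL c' (by simp)) _)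
      (ih (fun c'' h => hL c'' (List.mem_cons_of_mem _ h)) _)

/-- a map respecting a cell factors inside the cell -/
theorem factor_resp (hlt : ∀ i, ∀ i' ∈ dep i, i' < i)
    (htr : ∀ i, ∀ i' ∈ dep i, ∀ i'' ∈ dep i', i'' ∈ dep i) {f : W α → W α}
    (hf : IsMorC dep f) {c : Cell α} (hc : Resp dep f c) :
    ∃ g, IsMorC dep g ∧ f ∘ iota c = iota c ∘ g := by
  obtain ⟨B, hB, hfB⟩ := hf
  have h1 : IsMor dep (B ∪ c.supp) (f ∘ iota c) := hfB.comp htr (isMor_iota c)
  obtain ⟨g, hg, he⟩ := h1.factor c (fun z => hc.mem hlt htr (mem_iota c z))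
  exact ⟨g, ⟨_, (hB.union c.fin.countable).union c.fin.countable, hg⟩, he⟩

theorem block_claim (hlt : ∀ i, ∀ i' ∈ dep i, i' < i)
    (htr : ∀ i, ∀ i' ∈ dep i, ∀ i'' ∈ dep i', i'' ∈ dep i)
    (hK : ∀ f ∈ K, IsMorC dep f) (hKc : ∀ f ∈ K, ∀ g ∈ K, f ∘ g ∈ K)
    (hKi : ∀ c : Cell α, iota c ∈ K) (hKg : ∀ c : Cell α, ∀ r ∈ K, glue dep c r ∈ K) {j : ℕ}
    (hr : ∀ q ∈ K, r j q ∈ K ∧ ∀ n ≤ j, q ∘ r j q ∈ O n) (L : List (Cell α)) :
    ∀ p ∈ K, ∀ c ∈ L, (∀ c' ∈ L, Star dep c c') →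
      ∃ o, (∀ n ≤ j, o ∈ O n) ∧ ∃ g, IsMorC dep g ∧
        p ∘ blockf dep r j p L ∘ iota c = o ∘ g := by
  induction L with
  | nil => intro p _ c hc; simp at hc
  | cons c1 L ih =>
    intro p hp c hc hst
    have hpi : p ∘ iota c1 ∈ K := hKc _ hp _ (hKi c1)
    have h1 : glue dep c1 (r j (p ∘ iota c1)) ∈ K := hKg c1 _ (hr _ hpi).1
    rcases List.mem_cons.1 hc with rfl | hc'
    · set p' := p ∘ glue dep c (r j (p ∘ iota c)) with hp'
      have hR : Resp dep (blockf dep r j p' L) c :=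
        blockf_resp htr L (fun c' h => hst c' (List.mem_cons_of_mem _ h)) p'
      have hRK : blockf dep r j p' L ∈ K :=
        blockf_mem hKc hKi hKg (fun q hq => (hr q hq).1) L p' (hKc _ hp _ h1)
      obtain ⟨g, hg, he⟩ := factor_resp hlt htr (hK _ hRK) hR
      refine ⟨p ∘ iota c ∘ r j (p ∘ iota c), fun n hn => (hr _ hpi).2 n hn, g, hg, ?_⟩
      calc p ∘ blockf dep r j p (c :: L) ∘ iota c
          = p ∘ glue dep c (r j (p ∘ iota c)) ∘ (blockf dep r j p' L ∘ iota c) := rfl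
        _ = p ∘ (glue dep c (r j (p ∘ iota c)) ∘ iota c) ∘ g := by rw [he]; rfl
        _ = p ∘ (iota c ∘ r j (p ∘ iota c)) ∘ g := by rw [glue_iota]
        _ = (p ∘ iota c ∘ r j (p ∘ iota c)) ∘ g := rfl
    · obtain ⟨o, ho, g, hg, he⟩ := ih (p ∘ glue dep c1 (r j (p ∘ iota c1))) (hKc _ hp _ h1) c hc'
        (fun c' h => hst c' (List.mem_cons_of_mem _ h))
      exact ⟨o, ho, g, hg, he⟩

end main

end Fusion

open Fusion in
theorem fusion_proof (hconv : SConv) : SFusion := by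
  classical
  intro I _ _ α _ _ _ _ dep hlt htr i0 hscheme K hK hKc hKi hKg O hdense hclosed p hp
  -- choice of the refinements
  have hr0 : ∀ (j : ℕ) (q : W α → W α), ∃ r : W α → W α,
      q ∈ K → (r ∈ K ∧ ∀ n ≤ j, q ∘ r ∈ O n) := by
    intro j
    induction j with
    | zero =>
      intro q
      by_cases hq : q ∈ K
      · obtain ⟨r, hr, hr'⟩ := hdense 0 q hq
        refine ⟨r, fun _ => ⟨hr, fun n hn => ?_⟩⟩
        rw [Nat.le_zero.1 hn]
        exact hr'
      · exact ⟨_root_.id, fun h => absurd h hq⟩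
    | succ j ih =>
      intro q
      by_cases hq : q ∈ K
      · obtain ⟨r, hr⟩ := ih q
        obtain ⟨hr1, hr2⟩ := hr hq
        have hqr : q ∘ r ∈ K := hKc _ hq _ hr1
        obtain ⟨r', hr', hr''⟩ := hdense (j + 1) (q ∘ r) hqr
        refine ⟨r ∘ r', fun _ => ⟨hKc _ hr1 _ hr', fun n hn => ?_⟩⟩
        rcases Nat.lt_succ_iff_lt_or_eq.1 (Nat.lt_succ_of_le hn) with h | h
        · exact hclosed n (q ∘ r) hqr (hr2 n (Nat.lt_succ_iff.1 h)) r' hr'
        · rw [h]; exact hr''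
      · exact ⟨_root_.id, fun h => absurd h hq⟩
  choose r hr using hr0
  have hrK : ∀ j, ∀ q ∈ K, r j q ∈ K := fun j q hq => (hr j q hq).1
  -- supports
  have hsp0 : ∀ f : W α → W α, ∃ S : Set I, f ∈ K → (S.Countable ∧ IsMor dep S f) := by
    intro f
    by_cases hf : f ∈ K
    · obtain ⟨S, h1, h2⟩ := hK f hf
      exact ⟨S, fun _ => ⟨h1, h2⟩⟩
    · exact ⟨∅, fun h => absurd h hf⟩
  choose sp hsp using hsp0
  -- the closure
  set st := stg dep r sp ({p}, {i0} ∪ sp p) with hst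
  have hinv : ∀ n, (∀ q ∈ (st n).1, q ∈ K) ∧ (st n).1.Countable ∧ (st n).2.Countable := by
    intro n
    induction n with
    | zero =>
      refine ⟨?_, countable_singleton p, (countable_singleton i0).union (hsp p hp).1⟩
      intro q hq
      rw [mem_singleton_iff.1 hq]
      exact hp
    | succ n ih =>
      obtain ⟨h1, h2, h3⟩ := ih
      have hL : {L : List (Cell α) | ∀ c ∈ L, c.supp ⊆ (st n).2}.Countable :=
        countable_lists (countable_cells (st n).2 h3)
      refine ⟨?_, ?_, ?_⟩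
      · intro q hq
        rcases hq with hq | hq
        · exact h1 q hq
        · simp only [mem_iUnion, mem_singleton_iff] at hq
          obtain ⟨j, p', hp', L, -, rfl⟩ := hq
          exact hKc _ (h1 p' hp') _ (blockf_mem hKc hKi hKg (hrK j) L p' (h1 p' hp'))
      · refine h2.union (countable_iUnion fun j => h2.biUnion fun p' _ => hL.biUnion fun L _ => ?_)
        exact countable_singleton _
      · refine h3.union (countable_iUnion fun j => h2.biUnion fun p' hp' => hL.biUnion fun L _ => ?_)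
        exact (hsp _ (blockf_mem hKc hKi hKg (hrK j) L p' (h1 p' hp'))).1
  set A : Set I := ⋃ n, (st n).2 with hA
  set S : Set (W α → W α) := ⋃ n, (st n).1 with hS
  have hAc : A.Countable := countable_iUnion fun n => (hinv n).2.2
  have hSK : ∀ q ∈ S, q ∈ K := by
    intro q hq
    obtain ⟨n, hn⟩ := mem_iUnion.1 hq
    exact (hinv n).1 q hn
  have hstep : ∀ (j : ℕ), ∀ q ∈ S, ∀ L : List (Cell α), (∀ c ∈ L, c.supp ⊆ A) →
      q ∘ blockf dep r j q L ∈ S ∧ IsMor dep A (blockf dep r j q L) := by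
    intro j q hq L hL
    obtain ⟨n, hn⟩ := mem_iUnion.1 hq
    have hm : ∃ m, ∀ c ∈ L, c.supp ⊆ (st m).2 := by
      clear hq hn
      induction L with
      | nil => exact ⟨0, fun c hc => by simp at hc⟩
      | cons c L ih =>
        obtain ⟨m, hm⟩ := ih (fun c' h => hL c' (List.mem_cons_of_mem _ h))
        obtain ⟨m', hm'⟩ := exists_stage (t := fun n => (st n).2)
          (fun a b h => (stg_mono dep r sp _ h).2) c.fin (hL c (by simp))
        refine ⟨max m m', fun c' hc' => ?_⟩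
        rcases List.mem_cons.1 hc' with rfl | h
        · exact hm'.trans (stg_mono dep r sp _ (le_max_right _ _)).2
        · exact (hm c' h).trans (stg_mono dep r sp _ (le_max_left _ _)).2
    obtain ⟨m, hm⟩ := hm
    set N := max n m with hN
    have hqN : q ∈ (st N).1 := (stg_mono dep r sp _ (le_max_left n m)).1 hn
    have hLN : ∀ c ∈ L, c.supp ⊆ (st N).2 := fun c hc =>
      (hm c hc).trans (stg_mono dep r sp _ (le_max_right n m)).2
    constructor
    · refine mem_iUnion.2 ⟨N + 1, Or.inr ?_⟩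
      simp only [mem_iUnion, mem_singleton_iff]
      exact ⟨j, q, hqN, L, hLN, rfl⟩
    · have h1 := (hsp _ (blockf_mem hKc hKi hKg (hrK j) L q (hSK q hq))).2
      refine h1.mono ?_
      intro i hi
      refine mem_iUnion.2 ⟨N + 1, Or.inr ?_⟩
      simp only [mem_iUnion]
      exact ⟨j, q, hqN, L, hLN, hi⟩
  have hi0 : i0 ∈ A := mem_iUnion.2 ⟨0, Or.inl rfl⟩
  have hpS : p ∈ S := mem_iUnion.2 ⟨0, rfl⟩
  obtain ⟨C, hC1, hC2, hC3⟩ := hscheme A hAc hi0
  -- the fusion sequence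
  let pj : ℕ → {q : W α → W α // q ∈ S} := fun j => Nat.rec ⟨p, hpS⟩
    (fun j q => ⟨q.1 ∘ blockf dep r j q.1 (C j), (hstep j q.1 q.2 (C j) (hC1 j)).1⟩) j
  have hpj0 : (pj 0).1 = p := rfl
  have hpj : ∀ j, (pj (j + 1)).1 = (pj j).1 ∘ blockf dep r j (pj j).1 (C j) := fun j => rfl
  set f : ℕ → W α → W α := fun j => blockf dep r j (pj j).1 (C j) with hf
  have hfm : ∀ j, IsMor dep A (f j) := fun j => (hstep j (pj j).1 (pj j).2 (C j) (hC1 j)).2
  have hfr : ∀ j, ∀ c ∈ C j, ∀ j', j ≤ j' → Resp dep (f j') c := by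
    intro j c hc j' hjj'
    exact blockf_resp htr (C j') (fun c' hc' => hC2 j j' hjj' c hc c' hc') _
  obtain ⟨F, hF1, hF2, hF3⟩ := hconv I inferInstance inferInstance α inferInstance inferInstance
    inferInstance dep hlt htr A f hfm (by
      intro z i hi l
      obtain ⟨j, -, c, hc, hcz, hcl⟩ := hC3 z i hi l 0
      exact ⟨c, hC1 j c hc, hcz, hcl, j, fun j' h => hfr j c hc j' h⟩)
  have hpF : ∀ j, p ∘ F 0 = (pj j).1 ∘ F j := by
    intro j
    induction j with
    | zero => rfl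
    | succ j ih =>
      rw [ih, hpj, hF2 j]
      rfl
  refine ⟨F 0, A, hAc, hF1 0, ?_⟩
  intro z n
  obtain ⟨j, hj, c, hc, hcz, -⟩ := hC3 z i0 hi0 0 n
  refine ⟨c, hC1 j c hc, hcz, ?_⟩
  have hres : Resp dep (F (j + 1)) c :=
    hF3 (j + 1) c (fun j' h => hfr j c hc j' (by omega))
  obtain ⟨g, hg, hge⟩ := factor_resp hlt htr ⟨A, hAc, hF1 (j + 1)⟩ hres
  obtain ⟨o, ho, g', hg', hoe⟩ := block_claim hlt htr hK hKc hKi hKg
    (fun q hq => hr j q hq) (C j) (pj j).1 (hSK _ (pj j).2) c hc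
    (fun c' hc' => hC2 j j le_rfl c hc c' hc')
  refine ⟨o, ho n hj, g' ∘ g, hg'.comp htr hg, ?_⟩
  calc p ∘ F 0 ∘ iota c = (p ∘ F 0) ∘ iota c := rfl
    _ = ((pj (j + 1)).1 ∘ F (j + 1)) ∘ iota c := by rw [hpF (j + 1)]
    _ = (pj (j + 1)).1 ∘ (F (j + 1) ∘ iota c) := rfl
    _ = (pj (j + 1)).1 ∘ (iota c ∘ g) := by rw [hge]
    _ = ((pj j).1 ∘ blockf dep r j (pj j).1 (C j) ∘ iota c) ∘ g := rfl
    _ = (o ∘ g') ∘ g := by rw [hoe]
    _ = o ∘ g' ∘ g := rfl

end Pool.Agent.H554
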