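import Pool.Agent.H554.Stmts

/-!
# Section 7.5: the map `h` (TM-HMor, helper322)
-/

set_option linter.unusedSectionVars false

namespace Pool.Agent.H554

open Set

namespace HMorA

theorem pre_succ {β : Type} (z : ℕ → β) (l : ℕ) : pre z (l + 1) = pre z l ++ [z l] := by
  simp [pre, List.range_succ]

theorem pre_length {β : Type} (z : ℕ → β) (l : ℕ) : (pre z l).length = l := by
  simp [pre]

theorem pre_eq_iff {β : Type} (z z' : ℕ → β) (l : ℕ) :
    pre z l = pre z' l ↔ ∀ k < l, z k = z' k := by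
  unfold pre
  rw [List.map_inj_left]
  simp

theorem pre_le {β : Type} {z z' : ℕ → β} {l l' : ℕ} (h : pre z l = pre z' l) (hl : l' ≤ l) :
    pre z l' = pre z' l' := by
  rw [pre_eq_iff] at *
  exact fun k hk => h k (by omega)

theorem pre_of_ext {β : Type} {z z' : ℕ → β} {u : List β} {l : ℕ} (h : Ext u z) (h' : Ext u z')
    (hl : l ≤ u.length) : pre z l = pre z' l := by
  rw [pre_eq_iff]
  intro k hk
  rw [h k (by omega), h' k (by omega)]

section

variable {A : Type} [LinearOrder A] {a0 : A} {τ : ℕ → (A → ℕ → ℕ) → WithTop A}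
  {N : A → ℕ → (A → ℕ → ℕ) → ℕ} {Req : List ℕ → Finset A}

open Classical in
/-- the output at the coordinate `ξ` before time `n` -/
noncomputable def Ot (a0 : A) (τ : ℕ → (A → ℕ → ℕ) → WithTop A) (q0 : Str A) (κ : List ℕ → Str A)
    (ξ : A) (n : ℕ) (y : A → ℕ → ℕ) : List ℕ := (Qs a0 τ q0 κ n y).val ξ

variable {q0 : Str A} {κ : List ℕ → Str A}

theorem Ot_zero (ξ : A) (y : A → ℕ → ℕ) : Ot a0 τ q0 κ ξ 0 y = q0.val ξ := rfl

open Classical in
theorem Ot_succ (ξ : A) (n : ℕ) (y : A → ℕ → ℕ) : Ot a0 τ q0 κ ξ (n + 1) y =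
    Ot a0 τ q0 κ ξ n y ++ (if (ξ : WithTop A) < τ n y then (κ (pre (y a0) n)).val ξ else []) := rfl

theorem Ot_succ_of_lt {ξ : A} {n : ℕ} {y : A → ℕ → ℕ} (h : (ξ : WithTop A) < τ n y) :
    Ot a0 τ q0 κ ξ (n + 1) y = Ot a0 τ q0 κ ξ n y ++ (κ (pre (y a0) n)).val ξ := by
  rw [Ot_succ, if_pos h]

theorem Ot_succ_of_not {ξ : A} {n : ℕ} {y : A → ℕ → ℕ} (h : ¬ (ξ : WithTop A) < τ n y) :
    Ot a0 τ q0 κ ξ (n + 1) y = Ot a0 τ q0 κ ξ n y := by
  rw [Ot_succ, if_neg h, List.append_nil]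

theorem Ot_step (ξ : A) (n : ℕ) (y : A → ℕ → ℕ) :
    Ot a0 τ q0 κ ξ n y <+: Ot a0 τ q0 κ ξ (n + 1) y := by
  rw [Ot_succ]
  exact List.prefix_append _ _

theorem Ot_mono (ξ : A) (y : A → ℕ → ℕ) {n n' : ℕ} (h : n ≤ n') :
    Ot a0 τ q0 κ ξ n y <+: Ot a0 τ q0 κ ξ n' y := by
  induction n', h using Nat.le_induction with
  | base => exact List.prefix_rfl
  | succ n' _ ih => exact ih.trans (Ot_step ξ n' y)

theorem Ot_getD (ξ : A) (y : A → ℕ → ℕ) {n n' k : ℕ} (h : k < (Ot a0 τ q0 κ ξ n y).length)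
    (h' : k < (Ot a0 τ q0 κ ξ n' y).length) :
    (Ot a0 τ q0 κ ξ n y).getD k 0 = (Ot a0 τ q0 κ ξ n' y).getD k 0 := by
  have key : ∀ {s t : List ℕ}, s <+: t → k < s.length → s.getD k 0 = t.getD k 0 := by
    rintro s t ⟨r, rfl⟩ hk
    rw [List.getD_append _ _ _ _ hk]
  rcases le_total n n' with hn | hn
  · exact key (Ot_mono ξ y hn) h
  · exact (key (Ot_mono ξ y hn) h').symm

variable (hC : Clock A a0 τ N Req) (h0 : ∀ a, a0 ≤ a) (hκ : ∀ w, ∀ ξ ∈ Req w, (κ w).val ξ ≠ [])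

include hC

theorem Ot_N (ξ : A) (l : ℕ) (y : A → ℕ → ℕ) : Ot a0 τ q0 κ ξ (N ξ l y + 1) y =
    Ot a0 τ q0 κ ξ (N ξ l y) y ++ (κ (pre (y a0) (N ξ l y))).val ξ :=
  Ot_succ_of_lt (hC.proc ξ l y).1

theorem Ot_gap (ξ : A) (l : ℕ) (y : A → ℕ → ℕ) : Ot a0 τ q0 κ ξ (N ξ (l + 1) y) y =
    Ot a0 τ q0 κ ξ (N ξ l y + 1) y := by
  have key : ∀ n, N ξ l y + 1 ≤ n → n ≤ N ξ (l + 1) y →
      Ot a0 τ q0 κ ξ n y = Ot a0 τ q0 κ ξ (N ξ l y + 1) y := by
    intro n hn
    induction n, hn using Nat.le_induction with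
    | base => exact fun _ => rfl
    | succ n hn ih =>
      intro h
      rw [Ot_succ_of_not (not_lt.2 (hC.gap ξ l y n (by omega) (by omega)))]
      exact ih (by omega)
  exact key _ (hC.mono ξ l y) le_rfl

include hκ in
theorem Ot_len (ξ : A) (l : ℕ) (y : A → ℕ → ℕ) :
    l + 1 ≤ (Ot a0 τ q0 κ ξ (N ξ l y + 1) y).length := by
  have hpos : ∀ l, 1 ≤ ((κ (pre (y a0) (N ξ l y))).val ξ).length := fun l =>
    List.length_pos_iff.2 (hκ _ _ (hC.proc ξ l y).2)
  induction l with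
  | zero =>
    rw [Ot_N hC, List.length_append]
    have := hpos 0
    omega
  | succ l ih =>
    rw [Ot_N hC, List.length_append, Ot_gap hC]
    have := hpos (l + 1)
    omega

include h0 in
/-- the string at `a0` at the time of processing -/
theorem word_eq (ξ : A) {l : ℕ} {y y' : A → ℕ → ℕ} (h : ∀ η, η < ξ → y η = y' η)
    (hl : pre (y ξ) l = pre (y' ξ) l) :
    pre (y a0) (N ξ l y) = pre (y' a0) (N ξ l y') := by
  rw [hC.nloc ξ l y y' h hl]
  rcases (h0 ξ).eq_or_lt with h1 | h1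
  · subst h1
    rw [hC.nzero]
    exact hl
  · rw [h a0 h1]

include h0 in
theorem Ot_loc_zero (ξ : A) {y y' : A → ℕ → ℕ} (h : ∀ η, η < ξ → y η = y' η) :
    Ot a0 τ q0 κ ξ (N ξ 0 y) y = Ot a0 τ q0 κ ξ (N ξ 0 y') y' := by
  rw [← hC.nloc ξ 0 y y' h rfl]
  rcases (h0 ξ).eq_or_lt with h1 | h1
  · subst h1
    rw [hC.nzero]
    rfl
  · have key : ∀ n, n ≤ N ξ 0 y → Ot a0 τ q0 κ ξ n y = Ot a0 τ q0 κ ξ n y' := by
      intro n
      induction n with
      | zero => exact fun _ => rfl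
      | succ n ih =>
        intro hn
        have hb := hC.before ξ y y' n h (by omega)
        by_cases hτ : (ξ : WithTop A) < τ n y
        · rw [Ot_succ_of_lt hτ, Ot_succ_of_lt (hb.1 hτ), ih (by omega), h a0 h1]
        · rw [Ot_succ_of_not hτ, Ot_succ_of_not (fun h' => hτ (hb.2 h')), ih (by omega)]
    exact key _ le_rfl

include h0 in
theorem Ot_loc (ξ : A) {l : ℕ} {y y' : A → ℕ → ℕ} (h : ∀ η, η < ξ → y η = y' η)
    (hl : pre (y ξ) l = pre (y' ξ) l) :
    Ot a0 τ q0 κ ξ (N ξ l y) y = Ot a0 τ q0 κ ξ (N ξ l y') y' := by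
  induction l with
  | zero => exact Ot_loc_zero hC h0 ξ h
  | succ l ih =>
    have hl' := pre_le hl (Nat.le_succ l)
    rw [Ot_gap hC, Ot_gap hC, Ot_N hC, Ot_N hC, ih hl', word_eq hC h0 ξ h hl']

include h0 in
/-- the output before processing the node of length `l + 1` -/
theorem Ot_loc' (ξ : A) {l : ℕ} {y y' : A → ℕ → ℕ} (h : ∀ η, η < ξ → y η = y' η)
    (hl : pre (y ξ) l = pre (y' ξ) l) :
    Ot a0 τ q0 κ ξ (N ξ (l + 1) y) y = Ot a0 τ q0 κ ξ (N ξ (l + 1) y') y' := by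
  rw [Ot_gap hC, Ot_gap hC, Ot_N hC, Ot_N hC, Ot_loc hC h0 ξ h hl, word_eq hC h0 ξ h hl]

include h0 in
theorem Ot_tri (ξ : A) (n : ℕ) {y y' : A → ℕ → ℕ} (h : ∀ η, η ≤ ξ → y η = y' η) :
    Ot a0 τ q0 κ ξ n y = Ot a0 τ q0 κ ξ n y' := by
  induction n with
  | zero => rfl
  | succ n ih =>
    have hb := hC.tri n ξ y y' h
    by_cases hτ : (ξ : WithTop A) < τ n y
    · rw [Ot_succ_of_lt hτ, Ot_succ_of_lt (hb.1 hτ), ih, h a0 (h0 ξ)]
    · rw [Ot_succ_of_not hτ, Ot_succ_of_not (fun h' => hτ (hb.2 h')), ih]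

theorem Ot_open (ξ : A) (n : ℕ) (y0 : A → ℕ → ℕ) :
    ∀ᶠ y in nhds y0, Ot a0 τ q0 κ ξ n y = Ot a0 τ q0 κ ξ n y0 := by
  induction n with
  | zero => exact Filter.Eventually.of_forall fun _ => rfl
  | succ n ih =>
    have h1 : ∀ᶠ y in nhds y0, ((ξ : WithTop A) < τ n y ↔ (ξ : WithTop A) < τ n y0) := by
      by_cases hτ : (ξ : WithTop A) < τ n y0
      · filter_upwards [(hC.clopen n ξ).isOpen.mem_nhds hτ] with y hy
        exact ⟨fun _ => hτ, fun _ => hy⟩
      · filter_upwards [(hC.clopen n ξ).isClosed.isOpen_compl.mem_nhds hτ] with y hy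
        exact ⟨fun h => absurd h hy, fun h => absurd h hτ⟩
    have h2 : ∀ᶠ y in nhds y0, pre (y a0) n = pre (y0 a0) n := by
      have hopen : IsOpen {y : A → ℕ → ℕ | pre (y a0) n = pre (y0 a0) n} := by
        have : {y : A → ℕ → ℕ | pre (y a0) n = pre (y0 a0) n} =
            ⋂ k ∈ Finset.range n, {y : A → ℕ → ℕ | y a0 k = y0 a0 k} := by
          ext y
          simp only [mem_ofPred_eq, mem_iInter, Finset.mem_range]
          exact pre_eq_iff _ _ _
        rw [this]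
        refine isOpen_biInter_finset fun k _ => ?_
        have hc : Continuous (fun y : A → ℕ → ℕ => y a0 k) := by fun_prop
        exact (isOpen_discrete {y0 a0 k}).preimage hc
      exact hopen.mem_nhds rfl
    filter_upwards [ih, h1, h2] with y k1 k2 k3
    by_cases hτ : (ξ : WithTop A) < τ n y
    · rw [Ot_succ_of_lt hτ, Ot_succ_of_lt (k2.1 hτ), k1, k3]
    · rw [Ot_succ_of_not hτ, Ot_succ_of_not (fun h' => hτ (k2.2 h')), k1]

end

end HMorA

open HMorA in
/-- TM-HMor -/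
theorem hmor : SHMor := by
  intro A _ _ _ a0 h0 τ N Req hC q0 κ hκ hκ2
  let h : W (fun _ : A => ℕ) → W (fun _ : A => ℕ) := fun y ξ k =>
    (Ot a0 τ q0 κ ξ (N ξ k y + 1) y).getD k 0
  have hlen := fun (ξ : A) (k : ℕ) (y : A → ℕ → ℕ) => Ot_len (q0 := q0) hC hκ ξ k y
  have hExt : ∀ (ξ : A) (n : ℕ) (y : A → ℕ → ℕ), Ext (Ot a0 τ q0 κ ξ n y) (h y ξ) := by
    intro ξ n y k hk
    have h1 : h y ξ k = (Ot a0 τ q0 κ ξ n y).getD k 0 :=
      Ot_getD ξ y (by have := hlen ξ k y; omega) hk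
    rw [h1, List.getD_eq_getElem _ _ hk]
  refine ⟨h, ⟨?_, ?_, ?_, ?_⟩, fun n y ξ => hExt ξ n y⟩
  · exact fun z i hi => absurd (mem_univ i) hi
  · intro ξ _ z z' hz
    have hz' : ∀ η, η ≤ ξ → z η = z' η := fun η hη =>
      hz η (mem_univ _) (by
        rcases hη.lt_or_eq with h1 | h1
        · exact Or.inl h1
        · exact Or.inr h1)
    funext k
    show (Ot a0 τ q0 κ ξ (N ξ k z + 1) z).getD k 0 = (Ot a0 τ q0 κ ξ (N ξ k z' + 1) z').getD k 0
    rw [hC.nloc ξ k z z' (fun η hη => hz' η hη.le) (by rw [hz' ξ le_rfl]), Ot_tri hC h0 ξ _ hz']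
  · refine continuous_pi fun ξ => continuous_pi fun k => ?_
    rw [continuous_iff_continuousAt]
    intro y0
    have hcst : ContinuousAt (fun _ : W (fun _ : A => ℕ) => h y0 ξ k) y0 := continuousAt_const
    refine hcst.congr ?_
    have h1 : ∀ᶠ y in nhds y0, N ξ k y = N ξ k y0 :=
      ((isOpen_discrete {N ξ k y0}).preimage (hC.ncont ξ k)).mem_nhds rfl
    filter_upwards [h1, Ot_open (q0 := q0) (κ := κ) hC ξ (N ξ k y0 + 1) y0] with y hy hy2
    show (Ot a0 τ q0 κ ξ (N ξ k y0 + 1) y0).getD k 0 = (Ot a0 τ q0 κ ξ (N ξ k y + 1) y).getD k 0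
    rw [hy, hy2]
  · intro ξ z u
    -- the point with the `ξ`-coordinate beginning with `u ++ [a]`
    let za : ℕ → A → ℕ → ℕ := fun a => Function.update z ξ
      (fun n => if hn : n < u.length then u[n] else a)
    have hza1 : ∀ a η, η < ξ → za a η = z η := fun a η hη => Function.update_of_ne hη.ne _ _
    have hza2 : ∀ a, za a ξ = fun n => if hn : n < u.length then u[n] else a := fun a =>
      Function.update_self _ _ _
    have hza3 : ∀ a, Ext (u ++ [a]) (za a ξ) := by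
      intro a k hk
      rw [hza2]
      rw [List.length_append, List.length_singleton] at hk
      by_cases hk' : k < u.length
      · show (if hn : k < u.length then u[k] else a) = (u ++ [a])[k]
        rw [dif_pos hk', List.getElem_append_left hk']
      · show (if hn : k < u.length then u[k] else a) = (u ++ [a])[k]
        rw [dif_neg hk', List.getElem_append_right (by omega)]
        simp
    have hza4 : ∀ a, Ext u (za a ξ) := by
      intro a k hk
      have := hza3 a k (by rw [List.length_append]; omega)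
      rw [this, List.getElem_append_left hk]
    set l := u.length with hl
    let w : ℕ → List ℕ := fun a => pre (za a a0) (N ξ (l + 1) (za a))
    have hwReq : ∀ a, ξ ∈ Req (w a) := fun a => (hC.proc ξ (l + 1) (za a)).2
    have hne : ∀ a, (κ (w a)).val ξ ≠ [] := fun a => hκ _ _ (hwReq a)
    have hwinj : ∀ a b, a ≠ b → w a ≠ w b := by
      intro a b hab
      apply hC.sep ξ l (za a) (za b)
      · exact fun η hη => (hza1 a η hη).trans (hza1 b η hη).symm
      · exact pre_of_ext (hza4 a) (hza4 b) le_rfl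
      · rw [hza2, hza2]
        simp only [hl, lt_self_iff_false, dite_false]
        exact hab
    refine ⟨Ot a0 τ q0 κ ξ (N ξ (l + 1) (za 0)) (za 0), fun a => ((κ (w a)).val ξ).head (hne a),
      ?_, ?_⟩
    · intro a b hab
      by_contra hcon
      apply hκ2 (w a) (w b) ξ (hwinj a b hcon) (hwReq a) (hwReq b)
      rw [List.head?_eq_some_head (hne a), List.head?_eq_some_head (hne b)]
      exact congrArg some hab
    · intro a z' hz' hext
      have hz'' : ∀ η, η < ξ → z' η = z η := fun η hη => hz' η hη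
      have hagr : ∀ η, η < ξ → z' η = za a η := fun η hη => (hz'' η hη).trans (hza1 a η hη).symm
      have hpre : pre (z' ξ) (l + 1) = pre (za a ξ) (l + 1) :=
        pre_of_ext hext (hza3 a) (by rw [List.length_append, List.length_singleton])
      have hw : pre (z' a0) (N ξ (l + 1) z') = w a := word_eq hC h0 ξ hagr hpre
      have hO : Ot a0 τ q0 κ ξ (N ξ (l + 1) z') z' =
          Ot a0 τ q0 κ ξ (N ξ (l + 1) (za 0)) (za 0) := by
        apply Ot_loc' hC h0 ξ
        · exact fun η hη => (hz'' η hη).trans (hza1 0 η hη).symm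
        · apply pre_of_ext (u := u) ?_ (hza4 0) le_rfl
          intro k hk
          have := hext k (by rw [List.length_append]; omega)
          rw [this, List.getElem_append_left hk]
      have hE := hExt ξ (N ξ (l + 1) z' + 1) z'
      rw [Ot_N hC, hO, hw] at hE
      intro k hk
      beta_reduce at hk
      have hsub : Ot a0 τ q0 κ ξ (N ξ (l + 1) (za 0)) (za 0) ++ [((κ (w a)).val ξ).head (hne a)] <+:
          Ot a0 τ q0 κ ξ (N ξ (l + 1) (za 0)) (za 0) ++ (κ (w a)).val ξ := by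
        rw [List.prefix_append_right_inj]
        refine ⟨((κ (w a)).val ξ).tail, ?_⟩
        rw [List.singleton_append, List.cons_head_tail]
      obtain ⟨r, hr⟩ := hsub
      have hk2 : k < (Ot a0 τ q0 κ ξ (N ξ (l + 1) (za 0)) (za 0) ++ (κ (w a)).val ξ).length := by
        rw [← hr, List.length_append]
        omega
      have h3 := hE k hk2
      rw [h3]
      have h4 : ∀ {s t : List ℕ} (hst : s = t) (hs : k < s.length) (ht : k < t.length),
          s[k] = t[k] := by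
        rintro s t rfl _ _
        rfl
      rw [h4 hr.symm hk2 (by rw [← hr] at hk2; exact hk2), List.getElem_append_left hk]

end Pool.Agent.H554
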