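import Pool.Agent.H554.HomB

/-!
# Section 7: the homogeneity theorem
-/

namespace Pool.Agent.H554

namespace HomP

open Set Filter

theorem hom_aux (hU : SUSystem) (hCl : SClock) (hInit : SPosInit) (hCol : SPosCol)
    (hUf : SPosUf) (hStem : SPosStem) (hDouble : SPosDouble) (hHM : SHMor) (hKM : SKMor)
    (Ax Am : Type) [LinearOrder Ax] [WellFoundedLT Ax] [Countable Ax] [Nonempty Ax]
    [LinearOrder Am] [WellFoundedLT Am] [Countable Am] (a0 : Am) (ha0 : ∀ a, a0 ≤ a)
    (D : ℕ → Set (KW Ax × (Am → ℕ → ℕ))) (hD : ∀ b, IsClopen (D b)) :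
    ∃ (ε : Bool) (B : Set ℕ) (k : W (fun _ : Ax => Bool) → W (fun _ : Ax => Bool))
      (h : W (fun _ : Am => ℕ) → W (fun _ : Am => ℕ)), B.Infinite ∧ IsMor low univ k ∧
      IsMor low univ h ∧ ∀ b ∈ B, ∀ x y, ((k x, h y) ∈ D b ↔ ε = true) := by
  classical
  obtain ⟨H, hH⟩ := hU Am inferInstance inferInstance
  obtain ⟨τ, N, Req, hC⟩ := hCl Am inferInstance inferInstance inferInstance a0 ha0
  choose εx hεx using fun x => start a0 hD hH x
  -- the value
  obtain ⟨ε, hε⟩ := hCol Ax inferInstance (fun _ => 0) (fun _ => 1) univ Bool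
    (fun F => εx (F (fun _ _ => false))) (Set.to_countable _)
    (hInit Ax inferInstance inferInstance)
  have hpos0 : Pos (A := Ax) (fun _ => 0) (fun _ => 1) {x | εx x = ε} := by
    intro φ hφ
    obtain ⟨F, hF, hF2, hF3⟩ := hε φ hφ
    refine ⟨F, hF, fun x => ⟨?_, (hF2 x).2⟩⟩
    have : F x = F (fun _ _ => false) := by
      ext1 β
      exact hF β _ _ fun γ _ => rfl
    rw [this]
    exact hF3
  obtain ⟨q0, -, hpos1⟩ := hUf Ax inferInstance (fun _ => 0) (fun _ => 1) {x | εx x = ε}
    (Str Am) (by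
      have := countable_cells (α := fun _ : Am => ℕ) (univ : Set Am) (countable_univ)
      have h2 : {c : Cell (fun _ : Am => ℕ) | c.supp ⊆ univ} = univ := by ext; simp
      rw [h2] at this
      exact countable_univ_iff.1 this) (H ⊤ ∅) (fun x => {κ | Inv D H x ε κ}) (by simp) hpos0
    (fun x hx => by
      have h1 := hεx x
      have h2 : εx x = ε := hx
      rw [h2] at h1
      exact h1) univ Filter.univ_mem
  obtain ⟨e, he⟩ := exists_surjective_nat Ax
  set β : ℕ → Ax := fun n => e n.unpair.1 with hβ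
  have hβ' : ∀ a n, ∃ j, n ≤ j ∧ β j = a := by
    intro a n
    obtain ⟨j, hj⟩ := he a
    exact ⟨Nat.pair j n, Nat.right_le_pair j n, by simp [hβ, hj]⟩
  obtain ⟨f, hf1', hf2⟩ := exists_seq (S := Stt Ax Am)
    (fun j σ => PP D H a0 τ Req q0 ε j σ ∧ (j = 0 → ∀ a, σ.d a = 0))
    (RR' D a0 τ q0 ε β) (by
      refine ⟨⟨fun _ => 1, fun _ => 0, fun _ => 0, fun _ => 1,
        {x | x ∈ {x | εx x = ε} ∧ q0 ∈ {κ | Inv D H x ε κ}}⟩,
        ⟨?_, ?_, hpos1, ?_, ?_, ?_, ?_, ?_, ?_⟩, fun _ _ => rfl⟩
      · simp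
      · intro β' x x' _; rfl
      · refine (finite_singleton q0).subset ?_
        rintro q ⟨y, n, hy, rfl⟩
        rcases n with _ | n
        · rfl
        · exact absurd (hy.1 n (Nat.lt_succ_self n)) (Nat.not_lt_zero _)
      · intro y n hy x hx
        rcases n with _ | n
        · exact hx.2
        · exact absurd (hy.1 n (Nat.lt_succ_self n)) (Nat.not_lt_zero _)
      · intro y n hy x hx i hi
        exact absurd hi (Nat.not_lt_zero _)
      · intro w hw
        exact absurd hw (Nat.not_lt_zero _)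
      · intro w w' ξ hw
        exact absurd hw (Nat.not_lt_zero _)
      · intro i i' _ hi
        exact absurd hi (Nat.not_lt_zero _))
    (fun n s hs => by
      obtain ⟨σ', h1, h2⟩ := step hUf hStem hDouble hC hH n s hs.1
      exact ⟨σ', ⟨h1, fun h => absurd h (Nat.succ_ne_zero n)⟩, h2⟩)
  have hf1 : ∀ j, PP D H a0 τ Req q0 ε j (f j) := fun j => (hf1' j).1
  set κ : List ℕ → Str Am := fun w => (f (Encodable.encode w + 1)).κ w with hκ
  have hκ' : ∀ w j, Encodable.encode w < j → (f j).κ w = κ w := by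
    intro w j hj
    induction j with
    | zero => exact absurd hj (Nat.not_lt_zero _)
    | succ j ih =>
      by_cases h : Encodable.encode w < j
      · rw [(hf2 j).κ w h, ih h]
      · have : Encodable.encode w = j := by omega
        simp only [hκ, this]
  set b : ℕ → ℕ := fun i => (f (i + 1)).b i with hb
  have hb' : ∀ i j, i < j → (f j).b i = b i := by
    intro i j hj
    induction j with
    | zero => exact absurd hj (Nat.not_lt_zero _)
    | succ j ih =>
      by_cases h : i < j
      · rw [(hf2 j).b i h, ih h]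
      · have : i = j := by omega
        simp only [hb, this]
  have hbmono : StrictMono b := by
    intro i i' hii
    rw [← hb' i (i' + 1) (by omega), ← hb' i' (i' + 1) (by omega)]
    exact (hf1 (i' + 1)).bmono i i' hii (by omega)
  obtain ⟨h, hh, hh2⟩ := hHM Am inferInstance inferInstance inferInstance a0 ha0 τ N Req hC q0 κ
    (fun w ξ hξ => by
      rw [← hκ' w _ (Nat.lt_succ_self _)]
      exact (hf1 _).req w (Nat.lt_succ_self _) ξ hξ)
    (fun w w' ξ hne hξ hξ' => by
      have h1 : Encodable.encode w < max (Encodable.encode w) (Encodable.encode w') + 1 := by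
        have := le_max_left (Encodable.encode w) (Encodable.encode w'); omega
      have h2 : Encodable.encode w' < max (Encodable.encode w) (Encodable.encode w') + 1 := by
        have := le_max_right (Encodable.encode w) (Encodable.encode w'); omega
      rw [← hκ' w _ h1, ← hκ' w' _ h2]
      exact (hf1 _).heads w w' ξ h1 h2 hne hξ hξ')
  obtain ⟨k, hk, hk2⟩ := hKM Ax inferInstance inferInstance (fun j => (f j).d) (fun j => (f j).s)
    (fun n => β n) hβ' ((hf1' 0).2 rfl) (fun j => (hf2 j).d) (fun j => (hf1 j).shape) (fun j => (hf2 j).s)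
    (fun j => (hf2 j).sep)
  refine ⟨ε, range b, k, h, infinite_range_of_injective hbmono.injective, hk, hh, ?_⟩
  rintro _ ⟨i, rfl⟩ x y
  obtain ⟨n, hn, htop⟩ := hC.full y (i + 1)
  have hle := le_enc_pre (y a0) n
  have hdec := (hf2 (Encodable.encode (pre (y a0) n))).decd y n rfl htop i (by omega) x
  rw [hb' i _ (by omega)] at hdec
  apply hdec (k x) (h y) (hk2 _ x)
  have hQ : Qs a0 τ q0 (f (Encodable.encode (pre (y a0) n) + 1)).κ (n + 1) y =
      Qs a0 τ q0 κ (n + 1) y := by
    apply Qs_congr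
    intro i' hi'
    apply hκ'
    by_cases hin : i' = n
    · rw [hin]; omega
    · have := enc_pre_lt (z := y a0) (show i' < n by omega)
      omega
  rw [hQ]
  exact hh2 _ y

end HomP

open HomP in
/-- 7 -/
theorem hom (hU : SUSystem) (hCl : SClock) (hInit : SPosInit) (hCol : SPosCol)
    (hUf : SPosUf) (hStem : SPosStem) (hDouble : SPosDouble) (hHM : SHMor) (hKM : SKMor) :
    SHom := by
  intro Ax Am _ _ _ _ _ _ a0 ha0 D hD
  rcases isEmpty_or_nonempty Ax with hemp | hne
  · have hx : ∀ x : KW Ax, x = fun a => hemp.elim a := fun x => funext fun a => hemp.elim a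
    obtain ⟨ε, B, k, h, hB, hk, hh, hkey⟩ := hom_aux hU hCl hInit hCol hUf hStem hDouble hHM hKM
      Unit Am a0 ha0 (fun b => (fun p : KW Unit × (Am → ℕ → ℕ) =>
        ((fun a => hemp.elim a : KW Ax), p.2)) ⁻¹' D b)
      (fun b => (hD b).preimage (continuous_const.prodMk continuous_snd))
    refine ⟨ε, B, id, h, hB, IsMor.id.mono (Set.empty_subset _), hh, fun b hb x y => ?_⟩
    have := hkey b hb (fun _ _ => false) y
    rw [hx (id x)]
    exact this
  · exact hom_aux hU hCl hInit hCol hUf hStem hDouble hHM hKM Ax Am a0 ha0 D hD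

end Pool.Agent.H554
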