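import Pool.Agent.H554.XPart

/-!
# The map `k` (7.5)
-/

namespace Pool.Agent.H554

namespace KM

open Set Filter Topology XP

theorem ext_mono {β : Type} {s t : List β} {z : ℕ → β} (h : Ext t z) (hs : s <+: t) : Ext s z := by
  intro k hk
  have h1 : k < t.length := hk.trans_le hs.length_le
  rw [h k h1]
  exact (hs.getElem hk).symm

theorem ext_app {β : Type} (s : List β) (z : ℕ → β) : Ext s (app s z) := by
  intro k hk
  simp [app, hk]

theorem exists_split {β : Type} : ∀ S T : List β, ¬ Compat S T →
    ∃ (t : List β) (b c : β), b ≠ c ∧ t ++ [b] <+: S ∧ t ++ [c] <+: T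
  | [], T, h => absurd (Or.inl ⟨_, rfl⟩) h
  | _ :: _, [], h => absurd (Or.inr ⟨_, rfl⟩) h
  | b :: S, c :: T, h => by
    by_cases hbc : b = c
    · subst hbc
      have h' : ¬ Compat S T := by
        rintro (⟨r, hr⟩ | ⟨r, hr⟩)
        · exact h (Or.inl ⟨r, by rw [List.cons_append, hr]⟩)
        · exact h (Or.inr ⟨r, by rw [List.cons_append, hr]⟩)
      obtain ⟨t, b', c', hne, ⟨r, hr⟩, ⟨r', hr'⟩⟩ := exists_split S T h'
      refine ⟨b :: t, b', c', hne, ⟨r, ?_⟩, ⟨r', ?_⟩⟩
      · rw [← hr]
        rfl
      · rw [← hr']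
        rfl
    · exact ⟨[], b, c, hbc, ⟨S, rfl⟩, ⟨T, rfl⟩⟩

section

variable {A : Type} [LinearOrder A] {d : ℕ → A → ℕ} {s : ℕ → Stem A} {β : ℕ → A}

omit [LinearOrder A] in
theorem d_step [DecidableEq A] (h3 : ∀ j, d (j + 1) = Function.update (d j) (β j) (d j (β j) + 1))
    (j : ℕ) (a : A) : d (j + 1) a = if β j = a then d j a + 1 else d j a := by
  rw [h3]
  split_ifs with h
  · subst h
    simp
  · rw [Function.update_of_ne (Ne.symm h)]

theorem exists_stage (h1 : ∀ a n, ∃ j, n ≤ j ∧ β j = a)
    (hs : ∀ j a, d (j + 1) a = if β j = a then d j a + 1 else d j a) (n : ℕ) (a : A) :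
    ∃ j, n ≤ j ∧ β j = a ∧ d j a = d n a := by
  classical
  have hex := h1 a n
  refine ⟨Nat.find hex, (Nat.find_spec hex).1, (Nat.find_spec hex).2, ?_⟩
  have key : ∀ m, n ≤ m → m ≤ Nat.find hex → d m a = d n a := by
    intro m hm
    induction m, hm using Nat.le_induction with
    | base => intro _; rfl
    | succ m hm ih =>
      intro hlt
      have h2 : β m ≠ a := fun h => Nat.find_min hex hlt ⟨hm, h⟩
      rw [hs, if_neg h2]
      exact ih (Nat.le_of_succ_le hlt)
  exact key _ (Nat.find_spec hex).1 le_rfl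

theorem exists_stage' (h1 : ∀ a n, ∃ j, n ≤ j ∧ β j = a) (h2 : ∀ a, d 0 a = 0)
    (hs : ∀ j a, d (j + 1) a = if β j = a then d j a + 1 else d j a) (a : A) (l : ℕ) :
    ∃ j, β j = a ∧ d j a = l := by
  induction l with
  | zero =>
    obtain ⟨j, _, hj, hd⟩ := exists_stage h1 hs 0 a
    exact ⟨j, hj, hd.trans (h2 a)⟩
  | succ l ih =>
    obtain ⟨j, hj, hd⟩ := ih
    obtain ⟨j', _, hj', hd'⟩ := exists_stage h1 hs (j + 1) a
    exact ⟨j', hj', by rw [hd', hs, if_pos hj, hd]⟩

theorem finite_d (h2 : ∀ a, d 0 a = 0)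
    (hs : ∀ j a, d (j + 1) a = if β j = a then d j a + 1 else d j a) (j : ℕ) :
    {a | d j a ≠ 0}.Finite := by
  induction j with
  | zero => simp [h2]
  | succ j ih =>
    apply (ih.union (finite_singleton (β j))).subset
    intro a ha
    by_cases h : β j = a
    · exact Or.inr h.symm
    · left
      rw [mem_ofPred_eq, hs, if_neg h] at ha
      exact ha

omit [LinearOrder A] in
theorem stem_le (h5 : ∀ j, StemLe (s j) (s (j + 1))) {j j' : ℕ} (h : j ≤ j') (x : KW A) (a : A) :
    (s j x).val a <+: (s j' x).val a := by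
  induction j', h using Nat.le_induction with
  | base => exact List.prefix_rfl
  | succ m _ ih => exact ih.trans (h5 m x a)

theorem length_lt (h4 : ∀ j, OfShape (d j) (fun x => (s j x).val))
    (h5 : ∀ j, StemLe (s j) (s (j + 1)))
    (h6 : ∀ j x x', (∀ γ, γ < β j → pre (x γ) (d j γ) = pre (x' γ) (d j γ)) →
      pre (x (β j)) (d j (β j)) = pre (x' (β j)) (d j (β j)) →
      x (β j) (d j (β j)) ≠ x' (β j) (d j (β j)) →
      ¬ Compat ((s (j + 1) x).val (β j)) ((s (j + 1) x').val (β j))) (j : ℕ) (x : KW A) :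
    ((s j x).val (β j)).length < ((s (j + 1) x).val (β j)).length := by
  classical
  by_contra hlt
  have h7 : (s j x).val (β j) = (s (j + 1) x).val (β j) :=
    (h5 j x (β j)).eq_of_length_le (not_lt.1 hlt)
  set x' : KW A := Function.update x (β j)
    (Function.update (x (β j)) (d j (β j)) (!(x (β j) (d j (β j))))) with hx'
  have e1 : ∀ γ, γ < β j → x' γ = x γ := fun γ hγ => by
    rw [hx', Function.update_of_ne hγ.ne]
  have e2 : pre (x (β j)) (d j (β j)) = pre (x' (β j)) (d j (β j)) := by
    rw [pre_eq]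
    intro k hk
    rw [hx', Function.update_self, Function.update_of_ne hk.ne]
  have e3 : x (β j) (d j (β j)) ≠ x' (β j) (d j (β j)) := by
    rw [hx', Function.update_self, Function.update_self]
    simp
  apply h6 j x x' (fun γ hγ => by rw [e1 γ hγ]) e2 e3
  left
  rw [← h7]
  have h8 : (s j x).val (β j) = (s j x').val (β j) := by
    apply h4 j
    intro γ hγ
    rcases hγ.eq_or_lt with rfl | hγ
    · exact e2
    · rw [e1 γ hγ]
  rw [h8]
  exact h5 j x' (β j)

theorem d_le_length (h2 : ∀ a, d 0 a = 0)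
    (hs : ∀ j a, d (j + 1) a = if β j = a then d j a + 1 else d j a)
    (h4 : ∀ j, OfShape (d j) (fun x => (s j x).val))
    (h5 : ∀ j, StemLe (s j) (s (j + 1)))
    (h6 : ∀ j x x', (∀ γ, γ < β j → pre (x γ) (d j γ) = pre (x' γ) (d j γ)) →
      pre (x (β j)) (d j (β j)) = pre (x' (β j)) (d j (β j)) →
      x (β j) (d j (β j)) ≠ x' (β j) (d j (β j)) →
      ¬ Compat ((s (j + 1) x).val (β j)) ((s (j + 1) x').val (β j))) (j : ℕ) (x : KW A) (a : A) :
    d j a ≤ ((s j x).val a).length := by
  induction j with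
  | zero => rw [h2]; exact Nat.zero_le _
  | succ j ih =>
    rw [hs]
    split_ifs with h
    · subst h
      exact Nat.succ_le_of_lt (ih.trans_lt (length_lt h4 h5 h6 j x))
    · exact ih.trans (h5 j x a).length_le

end

end KM

open KM XP Set Filter Topology

theorem kMor : SKMor := by
  intro A _ _ d s β h1 h2 h3 h4 h5 h6
  classical
  have hs := fun j a => d_step h3 j a
  have hJ : ∀ (a : A) (n : ℕ), ∃ j, β j = a ∧ d j a = n + 1 := fun a n =>
    exists_stage' h1 h2 hs a (n + 1)
  choose J _ hJd using hJ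
  have hlen : ∀ x a n, n < ((s (J a n) x).val a).length := by
    intro x a n
    have := d_le_length h2 hs h4 h5 h6 (J a n) x a
    rw [hJd] at this
    exact this
  let k : W (fun _ : A => Bool) → W (fun _ : A => Bool) := fun x a n =>
    ((s (J a n) x).val a)[n]'(hlen x a n)
  have hk : ∀ j x a, Ext ((s j x).val a) (k x a) := by
    intro j x a n hn
    change ((s (J a n) x).val a)[n]'(hlen x a n) = _
    rcases le_total j (J a n) with h | h
    · exact ((stem_le h5 h x a).getElem hn).symm
    · exact (stem_le h5 h x a).getElem (hlen x a n)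
  have hloc : ∀ a n x x', (∀ γ, γ ≤ a → pre (x γ) (d (J a n) γ) = pre (x' γ) (d (J a n) γ)) →
      k x a n = k x' a n := by
    intro a n x x' h
    have h7 : (s (J a n) x).val a = (s (J a n) x').val a := h4 (J a n) a x x' h
    change ((s (J a n) x).val a)[n]'(hlen x a n) = ((s (J a n) x').val a)[n]'(hlen x' a n)
    simp only [h7]
  refine ⟨k, ⟨fun z i hi => absurd (mem_univ i) hi, ?_, ?_, ?_⟩, fun j x a => hk j x a⟩
  · intro i _ z z' h
    funext n
    apply hloc
    intro γ hγ
    rw [h γ (mem_univ _) (by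
      rcases hγ.eq_or_lt with h | h
      · exact Or.inr h
      · exact Or.inl h)]
  · refine continuous_pi fun a => continuous_pi fun n => ?_
    apply IsLocallyConstant.continuous
    rw [IsLocallyConstant.iff_eventually_eq]
    intro x
    have h7 : ∀ᶠ x' in 𝓝 x, ∀ γ ∈ {γ | d (J a n) γ ≠ 0}, ∀ l ∈ Iio (d (J a n) γ),
        x' γ l = x γ l := by
      rw [Filter.eventually_all_finite (finite_d h2 hs _)]
      intro γ _
      rw [Filter.eventually_all_finite (finite_Iio _)]
      intro l _
      have hc : Continuous fun x' : KW A => x' γ l :=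
        (continuous_apply l).comp (continuous_apply γ)
      have ho : IsOpen {b : Bool | b = x γ l} := isOpen_discrete _
      exact hc.continuousAt.eventually (ho.mem_nhds rfl)
    filter_upwards [h7] with x' hx'
    apply hloc
    intro γ _
    rw [pre_eq]
    intro l hl
    have hne : d (J a n) γ ≠ 0 := by omega
    exact hx' γ hne l hl
  · intro i z u
    obtain ⟨j, hj, hd⟩ := exists_stage' h1 h2 hs i u.length
    subst hj
    let X : Bool → KW A := fun a => Function.update z (β j) (app (u ++ [a]) fun _ => false)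
    have hXlt : ∀ a γ, γ < β j → X a γ = z γ := fun a γ hγ => by
      simp only [X]
      rw [Function.update_of_ne hγ.ne]
    have hXe : ∀ a, Ext (u ++ [a]) (X a (β j)) := fun a => by
      simp only [X]
      rw [Function.update_self]
      exact KM.ext_app _ _
    have hXp : ∀ a, u = pre (X a (β j)) u.length := fun a =>
      ext_eq_pre (KM.ext_mono (hXe a) ⟨[a], rfl⟩)
    have hXb : ∀ a, X a (β j) u.length = a := fun a => by
      rw [hXe a u.length (by simp)]
      simp
    have hnc : ¬ Compat ((s (j + 1) (X false)).val (β j)) ((s (j + 1) (X true)).val (β j)) := by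
      apply h6 j
      · intro γ hγ
        rw [hXlt _ γ hγ, hXlt _ γ hγ]
      · rw [hd, ← hXp, ← hXp]
      · rw [hd, hXb, hXb]
        simp
    obtain ⟨t, b, c, hbc, hb, hc⟩ := exists_split _ _ hnc
    refine ⟨t, fun a => if a then c else b, ?_, ?_⟩
    · intro a a' h
      cases a <;> cases a' <;> simp at h ⊢
      · exact hbc h
      · exact hbc h.symm
    · intro a z' hz' he
      have h8 : (s (j + 1) z').val (β j) = (s (j + 1) (X a)).val (β j) := by
        apply h4 (j + 1)
        intro γ hγ
        rcases hγ.eq_or_lt with rfl | hγ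
        · rw [hs, if_pos rfl, hd]
          have e1 := ext_eq_pre he
          have e2 := ext_eq_pre (hXe a)
          rw [List.length_append, List.length_singleton] at e1 e2
          rw [← e1, ← e2]
        · rw [hXlt _ γ hγ, hz' γ hγ]
      have h9 := hk (j + 1) z' (β j)
      rw [h8] at h9
      cases a
      · exact KM.ext_mono h9 hb
      · exact KM.ext_mono h9 hc

end Pool.Agent.H554
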