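import Pool.Agent.H554.Tri

/-!
# Two Menger sets whose product is not Menger (sections 1.4 - 1.7)
-/

set_option autoImplicit false

namespace Pool.Agent.H554

namespace Meng

/-! ### Menger spaces -/

theorem menger_of {α : Type} [TopologicalSpace α] [SecondCountableTopology α] {X : Set α}
    (h : ∀ V : ℕ → ℕ → Set α, (∀ n k, IsOpen (V n k)) → (∀ n, Monotone (V n)) →
      (∀ n, ∀ x ∈ X, ∃ k, x ∈ V n k) → ∃ g : ℕ → ℕ, ∀ x ∈ X, ∃ n, x ∈ V n (g n)) :
    Menger X := by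
  intro U hU
  have hT : ∀ n, ∃ e : ℕ → Set α, (∀ j, IsOpen (e j)) ∧ (∀ j, (e j).Nonempty → e j ∈ U n) ∧
      X ⊆ ⋃ j, e j := by
    intro n
    obtain ⟨T, hTc, hTU, hTe⟩ := TopologicalSpace.isOpen_sUnion_countable (U n) (hU n).1
    obtain ⟨e, he⟩ := (hTc.insert ∅).exists_eq_range (Set.insert_nonempty _ _)
    have hej : ∀ j, e j = ∅ ∨ e j ∈ T := fun j => by
      have : e j ∈ insert ∅ T := by rw [he]; exact ⟨j, rfl⟩
      exact this
    refine ⟨e, ?_, ?_, ?_⟩
    · intro j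
      rcases hej j with h1 | h1
      · rw [h1]
        exact isOpen_empty
      · exact (hU n).1 _ (hTU h1)
    · intro j hj
      rcases hej j with h1 | h1
      · rw [h1] at hj
        exact absurd hj Set.not_nonempty_empty
      · exact hTU h1
    · intro x hx
      have h1 := (hU n).2 hx
      rw [← hTe] at h1
      obtain ⟨t, ht, hxt⟩ := h1
      have h2 : t ∈ insert ∅ T := Set.mem_insert_of_mem _ ht
      rw [he] at h2
      obtain ⟨j, rfl⟩ := h2
      exact Set.mem_iUnion.2 ⟨j, hxt⟩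
  choose e he1 he2 he3 using hT
  obtain ⟨g, hg⟩ := h (fun n k => ⋃ j ∈ Set.Iic k, e n j)
    (fun n k => isOpen_biUnion fun j _ => he1 n j)
    (fun n k k' hkk => Set.biUnion_subset_biUnion_left (Set.Iic_subset_Iic.2 hkk))
    (fun n x hx => by
      obtain ⟨j, hj⟩ := Set.mem_iUnion.1 (he3 n hx)
      exact ⟨j, Set.mem_biUnion (Set.mem_Iic.2 le_rfl) hj⟩)
  refine ⟨fun n => {u | u ∈ U n ∧ ∃ j ∈ Set.Iic (g n), e n j = u}, fun n => ⟨fun u hu => hu.1, ?_⟩,
    ?_⟩
  · refine ((Set.finite_Iic (g n)).image (e n)).subset ?_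
    rintro u ⟨-, j, hj, rfl⟩
    exact ⟨j, hj, rfl⟩
  · intro x hx
    obtain ⟨n, hn⟩ := hg x hx
    obtain ⟨j, hj, hxj⟩ := Set.mem_iUnion₂.1 hn
    exact Set.mem_iUnion.2 ⟨n, e n j, ⟨he2 n j ⟨x, hxj⟩, j, hj, rfl⟩, hxj⟩

theorem menger_inc {α : Type} [TopologicalSpace α] {X : Set α} (h : Menger X)
    (V : ℕ → ℕ → Set α) (hV : ∀ n k, IsOpen (V n k)) (hm : ∀ n, Monotone (V n))
    (hc : ∀ n, ∀ x ∈ X, ∃ k, x ∈ V n k) : ∃ g : ℕ → ℕ, ∀ x ∈ X, ∃ n, x ∈ V n (g n) := by
  obtain ⟨F, hF, hX⟩ := h (fun n => Set.range (V n)) (fun n => ⟨by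
    rintro u ⟨k, rfl⟩
    exact hV n k, fun x hx => by
      obtain ⟨k, hk⟩ := hc n x hx
      exact ⟨V n k, ⟨k, rfl⟩, hk⟩⟩)
  have hb : ∀ n, ∃ M, ∀ u ∈ F n, u ⊆ V n M := by
    intro n
    have hex : ∀ u, ∃ k, u ∈ F n → V n k = u := by
      intro u
      by_cases hu : u ∈ F n
      · obtain ⟨k, hk⟩ := (hF n).1 hu
        exact ⟨k, fun _ => hk⟩
      · exact ⟨0, fun h => absurd h hu⟩
    choose kf hkf using hex
    obtain ⟨M, hM⟩ := ((hF n).2.image kf).bddAbove
    refine ⟨M, fun u hu => ?_⟩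
    have h1 : V n (kf u) ⊆ V n M := hm n (hM ⟨u, hu, rfl⟩)
    rwa [hkf u hu] at h1
  choose g hg using hb
  refine ⟨g, fun x hx => ?_⟩
  obtain ⟨n, hn⟩ := Set.mem_iUnion.1 (hX hx)
  obtain ⟨u, hu, hxu⟩ := hn
  exact ⟨n, hg n u hu hxu⟩

theorem menger_image {α β : Type} [TopologicalSpace α] [TopologicalSpace β]
    [SecondCountableTopology β] {X : Set α} (h : Menger X) {f : α → β} (hf : Continuous f) :
    Menger (f '' X) := by
  apply menger_of
  intro V hV hm hc
  obtain ⟨g, hg⟩ := menger_inc h (fun n k => f ⁻¹' (V n k)) (fun n k => (hV n k).preimage hf)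
    (fun n k k' hkk => Set.preimage_mono (hm n hkk)) (fun n x hx => hc n (f x) ⟨x, hx, rfl⟩)
  refine ⟨g, ?_⟩
  rintro _ ⟨x, hx, rfl⟩
  exact hg x hx

/-! ### The Cantor space -/

/-- the Cantor space -/
abbrev K : Type := ℕ → Bool

open Classical in
/-- characteristic functions -/
noncomputable def chi (x : Set ℕ) : K := fun n => decide (n ∈ x)

theorem chi_iff (x : Set ℕ) (n : ℕ) : chi x n = true ↔ n ∈ x := by
  simp [chi]

/-- addition -/
def xo (x y : K) : K := fun k => xor (x k) (y k)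

/-- addition of a finite set -/
def sh (s : Finset ℕ) (y : K) : K := fun k => xor (y k) (decide (k ∈ s))

/-- agreement below `N` -/
def Ag (N : ℕ) (y y' : K) : Prop := ∀ j, j < N → y' j = y j

theorem cont_sh (s : Finset ℕ) : Continuous (sh s) := by
  refine continuous_pi fun k => ?_
  exact (continuous_of_discreteTopology (f := fun b : Bool => xor b (decide (k ∈ s)))).comp
    (continuous_apply k)

theorem open_nbhd {U : Set K} (hU : IsOpen U) {y : K} (hy : y ∈ U) :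
    ∃ N, ∀ y', Ag N y y' → y' ∈ U := by
  obtain ⟨I, u, hu, hsub⟩ := isOpen_pi_iff.1 hU y hy
  refine ⟨I.sup id + 1, fun y' h => hsub ?_⟩
  intro a ha
  rw [h a (Nat.lt_succ_of_le (Finset.le_sup (f := id) ha))]
  exact (hu a ha).2

/-- the initial part of length `N` -/
def ini (y : K) (N : ℕ) : List Bool := List.ofFn (fun k : Fin N => y k)

theorem seg_iff (s : List Bool) (x : Set ℕ) :
    Seg s x ↔ ∀ k (h : k < s.length), s[k] = chi x k := by
  unfold Seg
  refine forall_congr' fun k => forall_congr' fun h => ?_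
  rw [← chi_iff x k]
  cases s[k] <;> cases chi x k <;> simp

theorem ag_of_ini {y y' : K} {s : List Bool} {N : ℕ} (hs : s <+: ini y N) (h : Ag N y y') :
    ∀ k (h : k < s.length), s[k] = y' k := by
  intro k hk
  have hlen : s.length ≤ N := by
    have := hs.length_le
    rwa [ini, List.length_ofFn] at this
  rw [h k (lt_of_lt_of_le hk hlen), List.IsPrefix.getElem hs hk]
  simp [ini]

section cov

variable {R J : Type} [LinearOrder J] {par : J → Bool} {x : J → Set ℕ}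

/-- consequence of `Phi4Cov` -/
theorem cov (hx : Phi4Cov R J par x) {Q : Type} (en : ℕ → Q) (hen : Function.Surjective en)
    (W : Q → ℕ → Set K) (hW : ∀ q k, IsOpen (W q k))
    (hm : ∀ q, Monotone (W q)) (v : Bool) (hv : ∀ γ, par γ = v → ∀ q, ∃ k, chi (x γ) ∈ W q k) :
    ∃ (α : J) (Kl : R → Set K), (∀ β, α ≤ β → ∃ l, chi (x β) ∈ Kl l) ∧
      ∀ l q, ∃ k L, ∀ y ∈ Kl l, ∀ y', Ag L y y' → y' ∈ W q k := by
  classical
  rcases hx (fun n => {s | ∃ k, ∀ y : K, (∀ j (h : j < s.length), s[j] = y j) → y ∈ W (en n) k})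
    with h | ⟨α, b, hα⟩
  · exfalso
    obtain ⟨γ, hγ, n, hn⟩ := h v
    obtain ⟨k, hk⟩ := hv γ hγ (en n)
    obtain ⟨N, hN⟩ := open_nbhd (hW (en n) k) hk
    refine hn (ini (chi (x γ)) N) ⟨k, fun y hy => hN y fun j hj => ?_⟩ ?_
    · have := hy j (by simpa [ini] using hj)
      rw [← this]
      simp [ini]
    · rw [seg_iff]
      intro j hj
      simp [ini]
  · refine ⟨α, fun l => {y | (∀ s ∈ b l, ¬ ∀ k (h : k < s.length), s[k] = y k) ∧
      ∀ q, ∃ k L, ∀ y : K, (∀ s ∈ b l, ¬ ∀ k (h : k < s.length), s[k] = y k) →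
        ∀ y', Ag L y y' → y' ∈ W q k}, ?_, ?_⟩
    · intro β hβ
      obtain ⟨l, hl1, hl2⟩ := hα β hβ
      refine ⟨l, fun s hs h => hl1 s hs ((seg_iff s _).2 h), fun q => ?_⟩
      obtain ⟨n, rfl⟩ := hen q
      obtain ⟨N, hN⟩ := hl2 n
      -- bounds for all strings of length `N`
      have hk : ∀ t : List Bool, ∃ k, (∃ s, s <+: t ∧ ∃ k, ∀ y : K,
          (∀ j (h : j < s.length), s[j] = y j) → y ∈ W (en n) k) →
          ∃ s, s <+: t ∧ ∀ y : K, (∀ j (h : j < s.length), s[j] = y j) → y ∈ W (en n) k := by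
        intro t
        by_cases h : ∃ s, s <+: t ∧ ∃ k, ∀ y : K,
            (∀ j (h : j < s.length), s[j] = y j) → y ∈ W (en n) k
        · obtain ⟨s, hs, k, hk⟩ := h
          exact ⟨k, fun _ => ⟨s, hs, hk⟩⟩
        · exact ⟨0, fun h' => absurd h' h⟩
      choose kt hkt using hk
      obtain ⟨M, hM⟩ : ∃ M, ∀ t : List Bool, t.length = N → kt t ≤ M := by
        have hfin : {t : List Bool | t.length = N}.Finite := List.finite_length_eq Bool N
        obtain ⟨M, hM⟩ := (hfin.image kt).bddAbove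
        exact ⟨M, fun t ht => hM ⟨t, ht, rfl⟩⟩
      refine ⟨M, N, fun y hy y' hyy => ?_⟩
      have hlen : (ini y N).length = N := by simp [ini]
      obtain ⟨s, hs, hsa⟩ := hN (ini y N) hlen
      rcases hsa with ⟨k, hsk⟩ | hsb
      · obtain ⟨s', hs', hk'⟩ := hkt (ini y N) ⟨s, hs, k, hsk⟩
        exact hm _ (hM _ hlen) (hk' y' (ag_of_ini hs' hyy))
      · exact absurd (ag_of_ini hs (fun j _ => rfl)) (hy s hsb)
    · intro l q
      by_cases hg : ∀ q, ∃ k L, ∀ y : K, (∀ s ∈ b l, ¬ ∀ k (h : k < s.length), s[k] = y k) →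
          ∀ y', Ag L y y' → y' ∈ W q k
      · obtain ⟨k, L, h⟩ := hg q
        exact ⟨k, L, fun y hy => h y hy.1⟩
      · exact ⟨0, 0, fun y hy => absurd hy.2 hg⟩

end cov

/-! ### Indices -/

theorem surj_idx {R : Type} (hp : ∃ s : R → R × R, Function.Surjective s)
    (hn : ∃ s : R → ℕ, Function.Surjective s) :
    ∃ s : R → ℕ × R × R × R, Function.Surjective s := by
  obtain ⟨s, hs⟩ := hp
  obtain ⟨t, ht⟩ := hn
  refine ⟨fun r => (t (s (s r).1).1, (s (s r).1).2, (s (s r).2).1, (s (s r).2).2), ?_⟩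
  rintro ⟨n, a, b, c⟩
  obtain ⟨p, hp⟩ := ht n
  obtain ⟨u, hu⟩ := hs (p, a)
  obtain ⟨w, hw⟩ := hs (b, c)
  obtain ⟨r, hr⟩ := hs (u, w)
  exact ⟨r, by simp [hr, hu, hw, hp]⟩

theorem notDomQ {R : Type} (h3 : Phi3 R) (hp : ∃ s : R → R × R, Function.Surjective s)
    (hn : ∃ s : R → ℕ, Function.Surjective s) (f : ℕ → R → R → R → ℕ → ℕ) :
    ∃ g : ℕ → ℕ, ∀ n a b c, ∀ N, ∃ m, N ≤ m ∧ f n a b c m ≤ g m := by
  obtain ⟨s, hs⟩ := surj_idx hp hn
  obtain ⟨g, hg⟩ := notDom R h3 (fun r => f (s r).1 (s r).2.1 (s r).2.2.1 (s r).2.2.2)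
  refine ⟨g, fun n a b c N => ?_⟩
  obtain ⟨r, hr⟩ := hs (n, a, b, c)
  have := hg r N
  rwa [hr] at this

theorem phi1Q {R J : Type} [LinearOrder J] (h1 : Phi1 R J)
    (hp : ∃ s : R → R × R, Function.Surjective s)
    (hn : ∃ s : R → ℕ, Function.Surjective s) (T : R → R → R → J → Prop)
    (hT : ∀ a b c, ∃ γ, T a b c γ) : ∃ α : J, ∀ a b c, ∃ γ, γ < α ∧ T a b c γ := by
  obtain ⟨s, hs⟩ := surj_idx hp hn
  obtain ⟨α, hα⟩ := h1 (fun r => T (s r).2.1 (s r).2.2.1 (s r).2.2.2) (fun r => hT _ _ _)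
  refine ⟨α, fun a b c => ?_⟩
  obtain ⟨r, hr⟩ := hs (0, a, b, c)
  have := hα r
  rwa [hr] at this

/-- for large `β` the set `A β` avoids the intervals `[n, L n)`, `n` in some `B j` -/
theorem gap {R J : Type} [LinearOrder J] {B : R → Set ℕ} {A : J → Set ℕ} (h1 : Phi1 R J)
    (h2 : Phi2 R B) (hp : ∃ s : R → R × R, Function.Surjective s)
    (hn : ∃ s : R → ℕ, Function.Surjective s) (hB : ∀ i, (B i).Infinite) (hA : Phi4Gap J A)
    (L : R → R → ℕ → ℕ) : ∃ α : J, ∀ β, α ≤ β → ∀ a b, ∃ j, ∀ n ∈ B j, ∀ k, n ≤ k → k < L a b n →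
      k ∉ A β := by
  obtain ⟨α, hα⟩ := phi1Q h1 hp hn (fun a b j γ => ∀ β, γ ≤ β → ∃ n ∈ B j, ∀ k, n ≤ k →
      k < L a b n → k ∉ A β) (by
    intro a b j
    choose nx hnx using Tri.unb_iff.2 (hB j)
    let s : ℕ → ℕ := fun k => Nat.rec 0 (fun _ z => L a b (nx z) + nx z + 1) k
    have hss : ∀ k, s (k + 1) = L a b (nx (s k)) + nx (s k) + 1 := fun k => rfl
    have hmono : StrictMono s := strictMono_nat_of_lt_succ fun k => by
      have := (hnx (s k)).1
      have := hss k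
      omega
    obtain ⟨γ, hγ⟩ := hA (Set.range s) (fun N => ⟨s N, hmono.le_apply, N, rfl⟩)
    refine ⟨γ, fun β hβ => ?_⟩
    obtain ⟨c, c', -, hcc, ⟨k, rfl⟩, ⟨l, rfl⟩, hk⟩ := hγ β hβ 0
    refine ⟨nx (s k), (hnx _).2, fun m hm1 hm2 => hk m ?_ ?_⟩
    · exact (hnx _).1.trans hm1
    · have h3 : k + 1 ≤ l := hmono.lt_iff_lt.1 hcc
      have h4 := hmono.monotone h3
      have := hss k
      omega)
  refine ⟨α, fun β hβ a b => ?_⟩
  obtain ⟨j, v, hjv⟩ := h2 {n | ∀ k, n ≤ k → k < L a b n → k ∉ A β}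
  refine ⟨j, ?_⟩
  cases v with
  | true => exact fun n hn => (hjv n hn).2 rfl
  | false =>
    exfalso
    obtain ⟨γ, hγ, h⟩ := hα a b j
    obtain ⟨n, hn, hk⟩ := h β (hγ.le.trans hβ)
    exact absurd ((hjv n hn).1 hk) (by simp)

/-! ### The sets -/

section main

variable {R J : Type} [LinearOrder J] {par : J → Bool} {B : R → Set ℕ} {x A : J → Set ℕ}

/-- the first set -/
def XX (par : J → Bool) (x : J → Set ℕ) : Set K := {z | ∃ γ, par γ = false ∧ z = chi (x γ)}

/-- the points of the second set -/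
noncomputable def pt (par : J → Bool) (B : R → Set ℕ) (x A : J → Set ℕ) (β : J) (s : Finset ℕ)
    (i : R) : K × K :=
  (sh s (if par β = true then chi (x β) else xo (chi (x β)) (chi (A β))), chi (B i))

/-- the second set -/
def YY (par : J → Bool) (B : R → Set ℕ) (x A : J → Set ℕ) : Set (K × K) :=
  {p | ∃ β s i, p = pt par B x A β s i}

theorem menger_XX (hG : Ground R J par B) (h3 : Phi3 R) (hx : Phi4Cov R J par x) :
    Menger (XX par x) := by
  apply menger_of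
  intro V hV hm hc
  obtain ⟨α, Kl, hα, hKl⟩ := cov hx id Function.surjective_id V hV hm false
    (fun γ hγ q => hc q _ ⟨γ, hγ, rfl⟩)
  choose κ L hκ using hKl
  obtain ⟨c, hcα⟩ := hG.cover α
  have hex : ∀ γ n, ∃ k, par γ = false → chi (x γ) ∈ V n k := by
    intro γ n
    by_cases hγ : par γ = false
    · obtain ⟨k, hk⟩ := hc n _ ⟨γ, hγ, rfl⟩
      exact ⟨k, fun _ => hk⟩
    · exact ⟨0, fun h => absurd h hγ⟩
  choose kk hkk using hex
  obtain ⟨g, hg⟩ := notDomQ h3 hG.pair hG.nat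
    (fun t a _ _ n => if t = 0 then κ a n else kk (c a) n)
  refine ⟨g, ?_⟩
  rintro _ ⟨γ, hγ, rfl⟩
  by_cases h : γ < α
  · obtain ⟨a, rfl⟩ := hcα γ h
    obtain ⟨m, -, hm'⟩ := hg 1 a a a 0
    simp only [one_ne_zero, if_false] at hm'
    exact ⟨m, hm m hm' (hkk _ m hγ)⟩
  · obtain ⟨l, hl⟩ := hα γ (not_lt.1 h)
    obtain ⟨m, -, hm'⟩ := hg 0 l l l 0
    simp only [if_true] at hm'
    exact ⟨m, hm m hm' (hκ l m _ hl _ (fun _ _ => rfl))⟩

theorem menger_YY (hG : Ground R J par B) (h1 : Phi1 R J) (h2 : Phi2 R B) (h3 : Phi3 R)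
    (hA : Phi4Gap J A) (hx : Phi4Cov R J par x) : Menger (YY par B x A) := by
  classical
  apply menger_of
  intro V hV hm hc
  let V' : ℕ → ℕ → Set (K × K) := fun n k => ⋂ m ∈ Set.Iic n, V m k
  have hV'mem : ∀ n k p, p ∈ V' n k ↔ ∀ m, m ≤ n → p ∈ V m k := by
    intro n k p
    simp only [V', Set.mem_iInter, Set.mem_Iic]
  have hV' : ∀ n k, IsOpen (V' n k) := fun n k =>
    (Set.finite_Iic n).isOpen_biInter fun m _ => hV m k
  have hm' : ∀ n, Monotone (V' n) := by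
    intro n k k' hkk p hp
    rw [hV'mem] at hp ⊢
    exact fun m hmn => hm m hkk (hp m hmn)
  have hdec : ∀ n n' k, n ≤ n' → V' n' k ⊆ V' n k := by
    intro n n' k hn p hp
    rw [hV'mem] at hp ⊢
    exact fun m hmn => hp m (hmn.trans hn)
  have hc' : ∀ n, ∀ p ∈ YY par B x A, ∃ k, p ∈ V' n k := by
    intro n p hp
    choose k hk using fun m => hc m p hp
    refine ⟨(Finset.range (n + 1)).sup k, (hV'mem _ _ _).2 fun m hmn => ?_⟩
    exact hm m (Finset.le_sup (Finset.mem_range.2 (Nat.lt_succ_of_le hmn))) (hk m)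
  -- the closed sets
  have hcov : ∀ i, ∃ γ, ∃ Kl : R → Set K, (∀ β, γ ≤ β → ∃ l, chi (x β) ∈ Kl l) ∧
      ∀ l (q : ℕ × Finset ℕ), ∃ k L, ∀ y ∈ Kl l, ∀ y', Ag L y y' →
        (sh q.2 y', chi (B i)) ∈ V' q.1 k := by
    intro i
    obtain ⟨en, hen⟩ := exists_surjective_nat (ℕ × Finset ℕ)
    have hcont : ∀ q : ℕ × Finset ℕ, Continuous fun y : K => (sh q.2 y, chi (B i)) := fun q =>
      (cont_sh q.2).prodMk continuous_const
    exact cov hx en hen (fun q k => (fun y : K => (sh q.2 y, chi (B i))) ⁻¹' (V' q.1 k))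
      (fun q k => (hV' _ _).preimage (hcont q)) (fun q k k' hkk => Set.preimage_mono (hm' _ hkk))
      true (fun γ hγ q => hc' q.1 _ ⟨γ, q.2, i, by rw [pt, if_pos hγ]⟩)
  obtain ⟨α1, hα1⟩ := h1 (fun i γ => ∃ Kl : R → Set K, (∀ β, γ ≤ β → ∃ l, chi (x β) ∈ Kl l) ∧
      ∀ l (q : ℕ × Finset ℕ), ∃ k L, ∀ y ∈ Kl l, ∀ y', Ag L y y' →
        (sh q.2 y', chi (B i)) ∈ V' q.1 k) hcov
  choose γ1 hγ1 Kl hKl1 hKl2 using hα1
  choose κ Lq hκ using hKl2
  let Nf : R → R → ℕ → ℕ := fun i l n => (Finset.range n).powerset.sup fun σ => κ i l (n, σ)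
  let Lf : R → R → ℕ → ℕ := fun i l n => (Finset.range n).powerset.sup fun σ => Lq i l (n, σ)
  have hun : ∀ i l n, ∀ σ ⊆ Finset.range n, ∀ y ∈ Kl i l, ∀ y', Ag (Lf i l n) y y' →
      (sh σ y', chi (B i)) ∈ V' n (Nf i l n) := by
    intro i l n σ hσ y hy y' hyy
    have h4 : κ i l (n, σ) ≤ Nf i l n :=
      Finset.le_sup (f := fun σ => κ i l (n, σ)) (Finset.mem_powerset.2 hσ)
    have h5 : Lq i l (n, σ) ≤ Lf i l n :=
      Finset.le_sup (f := fun σ => Lq i l (n, σ)) (Finset.mem_powerset.2 hσ)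
    exact hm' n h4 (hκ i l (n, σ) y hy y' fun j hj => hyy j (lt_of_lt_of_le hj h5))
  obtain ⟨α2, hα2⟩ := gap h1 h2 hG.pair hG.nat hG.inf hA Lf
  obtain ⟨c, hcv⟩ := hG.cover (max α1 α2)
  choose nxB hnxB using fun j => Tri.unb_iff.2 (hG.inf j)
  choose kk hkk using fun β s i n => hc' n _ ⟨β, s, i, rfl⟩
  obtain ⟨ts, hts⟩ : ∃ ts : R → Finset ℕ, Function.Surjective ts := by
    obtain ⟨t, ht⟩ := hG.nat
    obtain ⟨en, hen⟩ := exists_surjective_nat (Finset ℕ)
    exact ⟨en ∘ t, hen.comp ht⟩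
  obtain ⟨g, hg⟩ := notDomQ h3 hG.pair hG.nat (fun t a b d n =>
    if t = 0 then κ a b (n, ts d) else if t = 1 then Nf a b (nxB d n) else kk (c a) (ts d) b n)
  refine ⟨g, ?_⟩
  rintro _ ⟨β, s, i, rfl⟩
  suffices h : ∃ n, pt par B x A β s i ∈ V' n (g n) by
    obtain ⟨n, hn⟩ := h
    exact ⟨n, (hV'mem _ _ _).1 hn n le_rfl⟩
  obtain ⟨d, rfl⟩ := hts s
  by_cases h : β < max α1 α2
  · obtain ⟨a, rfl⟩ := hcv β h
    obtain ⟨m, -, hm1⟩ := hg 2 a i d 0
    simp only [show ¬ (2 : ℕ) = 0 by norm_num, show ¬ (2 : ℕ) = 1 by norm_num, if_false] at hm1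
    exact ⟨m, hm' m hm1 (hkk _ _ _ _)⟩
  · have hβ : max α1 α2 ≤ β := not_lt.1 h
    have hβ1 : α1 ≤ β := (le_max_left _ _).trans hβ
    have hβ2 : α2 ≤ β := (le_max_right _ _).trans hβ
    obtain ⟨l, hl⟩ := hKl1 i β ((hγ1 i).le.trans hβ1)
    by_cases hpar : par β = true
    · obtain ⟨m, -, hm1⟩ := hg 0 i l d 0
      simp only [if_true] at hm1
      refine ⟨m, hm' m hm1 ?_⟩
      rw [pt, if_pos hpar]
      exact hκ i l (m, ts d) (chi (x β)) hl _ (fun _ _ => rfl)
    · obtain ⟨j, hj⟩ := hα2 β hβ2 i l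
      obtain ⟨m, hm0, hm1⟩ := hg 1 i l j ((ts d).sup id + 1)
      simp only [one_ne_zero, if_true, if_false] at hm1
      obtain ⟨hn1, hn2⟩ := hnxB j m
      refine ⟨m, hm' m hm1 (hdec m (nxB j m) _ hn1 ?_)⟩
      rw [pt, if_neg hpar]
      have key := hun i l (nxB j m) ((Finset.range (nxB j m)).filter
        (fun k => xor (chi (A β) k) (decide (k ∈ ts d)) = true)) (Finset.filter_subset _ _)
        (chi (x β)) hl (sh ((Finset.range (nxB j m)).filter
        (fun k => xor (chi (A β) k) (decide (k ∈ ts d)) = true))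
          (sh (ts d) (xo (chi (x β)) (chi (A β))))) ?_
      · have h4 : ∀ (σ : Finset ℕ) (y : K), sh σ (sh σ y) = y := by
          intro σ y
          funext k
          simp only [sh]
          cases y k <;> cases decide (k ∈ σ) <;> rfl
        rw [h4] at key
        exact key
      · intro k hk
        simp only [sh, xo, Finset.mem_filter, Finset.mem_range]
        by_cases hkn : k < nxB j m
        · simp only [hkn, true_and]
          cases chi (x β) k <;> cases chi (A β) k <;> cases decide (k ∈ ts d) <;> simp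
        · have h5 : k ∉ A β := hj _ hn2 k (not_lt.1 hkn) hk
          have h6 : k ∉ ts d := by
            intro h7
            have := Finset.le_sup (f := id) h7
            simp only [id] at this
            omega
          have h8 : chi (A β) k = false := by
            rw [← Bool.not_eq_true, chi_iff]
            exact h5
          simp [hkn, h8, h6]

theorem open_coord (m : ℕ) : IsOpen {z : K | z m = true} := by
  have h : {z : K | z m = true} = (fun z : K => z m) ⁻¹' {true} := by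
    ext z
    simp
  rw [h]
  exact (isOpen_discrete _).preimage (continuous_apply m)

theorem not_menger (hG : Ground R J par B) (h1 : Phi1 R J) (h2 : Phi2 R B)
    (hd : ∀ γ β, γ ≠ β → ∀ N : ℕ, ∃ n, N ≤ n ∧ ¬ (n ∈ x γ ↔ n ∈ x β))
    (hd3 : ∀ γ β, ∀ N : ℕ, ∃ n, N ≤ n ∧ ¬ ((n ∈ x γ ↔ n ∈ x β) ↔ n ∉ A β))
    (hA : Phi4Gap J A) : ¬ Menger (XX par x ×ˢ YY par B x A) := by
  classical
  intro hM
  let U : ℕ → ℕ → Set (K × (K × K)) := fun n k => {p | ∃ m m', (n ≤ m ∧ m ≤ m' ∧ m' ≤ k) ∧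
    p.2.2 m = true ∧ xo p.1 p.2.1 m' = true}
  have hxo : Continuous fun p : K × (K × K) => xo p.1 p.2.1 := by
    refine continuous_pi fun k => ?_
    have h3 : Continuous fun p : K × (K × K) => (p.1 k, p.2.1 k) :=
      ((continuous_apply k).comp continuous_fst).prodMk
        ((continuous_apply k).comp (continuous_fst.comp continuous_snd))
    exact (continuous_of_discreteTopology (f := fun b : Bool × Bool => xor b.1 b.2)).comp h3
  have hUo : ∀ n k, IsOpen (U n k) := by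
    intro n k
    have h3 : U n k = ⋃ m, ⋃ m', ⋃ _ : (n ≤ m ∧ m ≤ m' ∧ m' ≤ k),
        {p : K × (K × K) | p.2.2 m = true} ∩ {p : K × (K × K) | xo p.1 p.2.1 m' = true} := by
      ext p
      simp only [U, Set.mem_iUnion, Set.mem_inter_iff, Set.mem_ofPred_eq, exists_prop]
    rw [h3]
    refine isOpen_iUnion fun m => isOpen_iUnion fun m' => isOpen_iUnion fun _ => ?_
    exact ((open_coord m).preimage (continuous_snd.comp continuous_snd)).inter
      ((open_coord m').preimage hxo)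
  have hUm : ∀ n, Monotone (U n) := by
    rintro n k k' hkk p ⟨m, m', ⟨h3, h4, h5⟩, h6⟩
    exact ⟨m, m', ⟨h3, h4, h5.trans hkk⟩, h6⟩
  have hUc : ∀ n, ∀ p ∈ XX par x ×ˢ YY par B x A, ∃ k, p ∈ U n k := by
    rintro n ⟨z, p⟩ ⟨⟨γ, hγ, hz⟩, ⟨β, s, i, hp⟩⟩
    simp only at hz hp
    subst hz hp
    obtain ⟨m, hm, hmB⟩ := Tri.unb_iff.2 (hG.inf i) n
    have h3 : ∃ m', max m (s.sup id + 1) ≤ m' ∧ xo (chi (x γ))
        (if par β = true then chi (x β) else xo (chi (x β)) (chi (A β))) m' = true := by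
      by_cases hpar : par β = true
      · have hne : γ ≠ β := by
          rintro rfl
          rw [hγ] at hpar
          exact absurd hpar (by simp)
        obtain ⟨m', hm', h4⟩ := hd γ β hne (max m (s.sup id + 1))
        refine ⟨m', hm', ?_⟩
        rw [if_pos hpar]
        rw [← chi_iff, ← chi_iff] at h4
        simp only [xo]
        revert h4
        cases chi (x γ) m' <;> cases chi (x β) m' <;> simp
      · obtain ⟨m', hm', h4⟩ := hd3 γ β (max m (s.sup id + 1))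
        refine ⟨m', hm', ?_⟩
        rw [if_neg hpar]
        rw [← chi_iff, ← chi_iff, ← chi_iff (A β)] at h4
        simp only [xo]
        revert h4
        cases chi (x γ) m' <;> cases chi (x β) m' <;> cases chi (A β) m' <;> simp
    obtain ⟨m', hm', h4⟩ := h3
    refine ⟨m', m, m', ⟨hm, (le_max_left _ _).trans hm', le_rfl⟩, (chi_iff _ _).2 hmB, ?_⟩
    have h5 : m' ∉ s := by
      intro h6
      have h7 := Finset.le_sup (f := id) h6
      have h8 := (le_max_right _ _).trans hm'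
      simp only [id] at h7
      omega
    simp only [xo, pt, sh, h5, decide_false, Bool.xor_false] at h4 ⊢
    exact h4
  obtain ⟨g, hg⟩ := menger_inc hM U hUo hUm hUc
  obtain ⟨t, ht⟩ := hG.nat
  obtain ⟨r, -⟩ := ht 0
  obtain ⟨α, hα⟩ := gap h1 h2 hG.pair ⟨t, ht⟩ hG.inf hA
    (fun _ _ n => (Finset.range (n + 1)).sup g + 1)
  obtain ⟨β, hβ, hpar⟩ := hG.unb α false
  obtain ⟨j, hj⟩ := hα β hβ.le r r
  obtain ⟨n, m, m', ⟨hnm, hmm, hmk⟩, hm, hx'⟩ := hg (chi (x β), pt par B x A β ∅ j)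
    ⟨⟨β, hpar, rfl⟩, ⟨β, ∅, j, rfl⟩⟩
  refine hj m ((chi_iff _ _).1 hm) m' hmm ?_ ?_
  · have h3 : g n ≤ (Finset.range (m + 1)).sup g :=
      Finset.le_sup (Finset.mem_range.2 (Nat.lt_succ_of_le hnm))
    omega
  · rw [← chi_iff]
    simp only [pt, hpar, xo, sh, Bool.false_eq_true, if_false, Finset.notMem_empty, decide_false,
      Bool.xor_false] at hx'
    revert hx'
    cases chi (x β) m' <;> cases chi (A β) m' <;> simp

end main

/-! ### Coding of pairs -/

/-- coding of pairs -/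
def cod (p : K × K) : K := fun n => if n % 2 = 0 then p.1 (n / 2) else p.2 (n / 2)

/-- decoding of pairs -/
def dec (z : K) : K × K := (fun n => z (2 * n), fun n => z (2 * n + 1))

theorem dec_cod (p : K × K) : dec (cod p) = p := by
  refine Prod.ext ?_ ?_
  · funext n
    simp [dec, cod]
  · funext n
    have h2 : (2 * n + 1) / 2 = n := by omega
    simp [dec, cod, h2]

theorem cont_cod : Continuous cod := by
  refine continuous_pi fun n => ?_
  unfold cod
  by_cases h : n % 2 = 0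
  · simp only [h, if_true]
    exact (continuous_apply _).comp continuous_fst
  · simp only [h, if_false]
    exact (continuous_apply _).comp continuous_snd

theorem cont_dec : Continuous dec :=
  (continuous_pi fun n => continuous_apply (2 * n)).prodMk
    (continuous_pi fun n => continuous_apply (2 * n + 1))

end Meng

open Meng

/-- 1.4 - 1.7 -/
theorem mengerPair : SMenger := by
  intro R J _ par B hPhi
  obtain ⟨hG, h1, h2, h3, x, A, -, hd, hd3, hA, hx⟩ := hPhi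
  refine ⟨XX par x, cod '' YY par B x A, menger_XX hG h3 hx,
    menger_image (menger_YY hG h1 h2 h3 hA hx) cont_cod, fun hM => ?_⟩
  apply not_menger hG h1 h2 hd hd3 hA
  have h4 := menger_image hM (f := Prod.map id dec) (continuous_id.prodMap cont_dec)
  have h5 : Prod.map id dec '' (XX par x ×ˢ (cod '' YY par B x A)) =
      XX par x ×ˢ YY par B x A := by
    ext ⟨z, p⟩
    constructor
    · rintro ⟨⟨z', _⟩, ⟨hz, q, hq, rfl⟩, he⟩
      simp only [Prod.map_apply, id, dec_cod, Prod.mk.injEq] at he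
      obtain ⟨rfl, rfl⟩ := he
      exact ⟨hz, hq⟩
    · rintro ⟨hz, hp⟩
      exact ⟨(z, cod p), ⟨hz, p, hp, rfl⟩, by simp [dec_cod]⟩
  rwa [h5] at h4

end Pool.Agent.H554
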