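import Pool.Agent.H554.Basic
import Pool.Agent.H554.FStmts

/-!
# (P2) is forced (section 8)
-/

set_option autoImplicit false

namespace Pool.Agent.H554

open Pool.Agent.Helper669.Forcing Set

namespace P2

section

variable {J : Type}

/-- definition by cases on a coordinate -/
def ixRec {motive : Ix J → Sort*} (fx : ∀ j, motive (xI j)) (fm : ∀ j, motive (mI j))
    (i : Ix J) : motive i :=
  match i with
  | (j, false) => fx j
  | (j, true) => fm j

variable [LinearOrder J]

theorem xI_lt {j j' : J} : (xI j : Ix J) < xI j' ↔ j < j' := by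
  rw [Prod.Lex.toLex_lt_toLex]
  simp

theorem mI_lt {j j' : J} : (mI j : Ix J) < mI j' ↔ j < j' := by
  rw [Prod.Lex.toLex_lt_toLex]
  simp

theorem xI_dep {j j' : J} : (xI j : Ix J) ∈ dep J (xI j') ↔ j < j' := by
  constructor
  · exact fun h => xI_lt.1 h.1
  · exact fun h => ⟨xI_lt.2 h, fun _ => rfl⟩

theorem mI_dep {j j' : J} : (mI j : Ix J) ∈ dep J (mI j') ↔ j < j' := by
  constructor
  · exact fun h => mI_lt.1 h.1
  · exact fun h => ⟨mI_lt.2 h, fun h' => absurd h' (by simp)⟩

end

section

open Classical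

variable {J : Type} {Sx Sm : Set J}

/-- the x-part of a point -/
def xpart (Sx : Set J) (z : W (alph J)) : W (fun _ : Sx => Bool) := fun j => z (xI j.1)

/-- the m-part of a point -/
def mpart (Sm : Set J) (z : W (alph J)) : W (fun _ : Sm => ℕ) := fun j => z (mI j.1)

open Classical in
/-- the map acting as `k` and `h` on the coordinates in `Sx`, `Sm` -/
noncomputable def fmor (k : W (fun _ : Sx => Bool) → W (fun _ : Sx => Bool))
    (h : W (fun _ : Sm => ℕ) → W (fun _ : Sm => ℕ)) (z : W (alph J)) : W (alph J) :=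
  ixRec (motive := fun i => ℕ → alph J i)
    (fun j => if hj : j ∈ Sx then (k (xpart Sx z) ⟨j, hj⟩ : ℕ → Bool) else z (xI j))
    (fun j => if hj : j ∈ Sm then (h (mpart Sm z) ⟨j, hj⟩ : ℕ → ℕ) else z (mI j))

theorem fmor_x (k : W (fun _ : Sx => Bool) → W (fun _ : Sx => Bool))
    (h : W (fun _ : Sm => ℕ) → W (fun _ : Sm => ℕ)) (z : W (alph J)) {j : J} (hj : j ∈ Sx) :
    (fmor k h z (xI j) : ℕ → Bool) = k (xpart Sx z) ⟨j, hj⟩ := by
  show (if hj : j ∈ Sx then (k (xpart Sx z) ⟨j, hj⟩ : ℕ → Bool) else z (xI j)) = _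
  rw [dif_pos hj]

theorem fmor_m (k : W (fun _ : Sx => Bool) → W (fun _ : Sx => Bool))
    (h : W (fun _ : Sm => ℕ) → W (fun _ : Sm => ℕ)) (z : W (alph J)) {j : J} (hj : j ∈ Sm) :
    (fmor k h z (mI j) : ℕ → ℕ) = h (mpart Sm z) ⟨j, hj⟩ := by
  show (if hj : j ∈ Sm then (h (mpart Sm z) ⟨j, hj⟩ : ℕ → ℕ) else z (mI j)) = _
  rw [dif_pos hj]

theorem fmor_x' (k : W (fun _ : Sx => Bool) → W (fun _ : Sx => Bool))
    (h : W (fun _ : Sm => ℕ) → W (fun _ : Sm => ℕ)) (z : W (alph J)) {j : J} (hj : j ∉ Sx) :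
    fmor k h z (xI j) = z (xI j) := by
  show (if hj : j ∈ Sx then (k (xpart Sx z) ⟨j, hj⟩ : ℕ → Bool) else z (xI j)) = _
  rw [dif_neg hj]

theorem fmor_m' (k : W (fun _ : Sx => Bool) → W (fun _ : Sx => Bool))
    (h : W (fun _ : Sm => ℕ) → W (fun _ : Sm => ℕ)) (z : W (alph J)) {j : J} (hj : j ∉ Sm) :
    fmor k h z (mI j) = z (mI j) := by
  show (if hj : j ∈ Sm then (h (mpart Sm z) ⟨j, hj⟩ : ℕ → ℕ) else z (mI j)) = _
  rw [dif_neg hj]

theorem continuous_xpart (Sx : Set J) : Continuous (xpart (J := J) Sx) := by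
  refine continuous_pi fun j => ?_
  exact continuous_apply (xI j.1)

theorem continuous_mpart (Sm : Set J) : Continuous (mpart (J := J) Sm) := by
  refine continuous_pi fun j => ?_
  exact continuous_apply (mI j.1)

theorem isMor_fmor [LinearOrder J] {k : W (fun _ : Sx => Bool) → W (fun _ : Sx => Bool)}
    {h : W (fun _ : Sm => ℕ) → W (fun _ : Sm => ℕ)} (hk : IsMor low univ k)
    (hh : IsMor low univ h) :
    IsMor (dep J) ((fun j => xI j) '' Sx ∪ (fun j => mI j) '' Sm) (fmor k h) := by
  refine ⟨?_, ?_, ?_, ?_⟩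
  · intro z i
    refine ixRec (motive := fun i => i ∉ ((fun j => xI j) '' Sx ∪ (fun j => mI j) '' Sm) →
      fmor k h z i = z i) ?_ ?_ i
    · intro j hj
      exact fmor_x' k h z fun h' => hj (Or.inl ⟨j, h', rfl⟩)
    · intro j hj
      exact fmor_m' k h z fun h' => hj (Or.inr ⟨j, h', rfl⟩)
  · intro i
    refine ixRec (motive := fun i => i ∈ ((fun j => xI j) '' Sx ∪ (fun j => mI j) '' Sm) →
      ∀ z z' : W (alph J), (∀ i' ∈ ((fun j => xI j) '' Sx ∪ (fun j => mI j) '' Sm),
        (i' ∈ dep J i ∨ i' = i) → z i' = z' i') → fmor k h z i = fmor k h z' i) ?_ ?_ i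
    · intro j hj z z' hz
      have hjS : j ∈ Sx := by
        rcases hj with ⟨j', h1, h2⟩ | ⟨j', h1, h2⟩
        · have : j' = j := congrArg Prod.fst h2
          rwa [← this]
        · exact absurd (show true = false from congrArg Prod.snd h2) (by simp)
      have e : k (xpart Sx z) ⟨j, hjS⟩ = k (xpart Sx z') ⟨j, hjS⟩ := by
        apply hk.tri _ (mem_univ _)
        intro i' _ hi'
        refine hz (xI i'.1) (Or.inl ⟨i'.1, i'.2, rfl⟩) ?_
        rcases hi' with h' | h'
        · exact Or.inl (xI_dep.2 h')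
        · right; rw [h']
      have e1 := fmor_x k h z hjS
      have e2 := fmor_x k h z' hjS
      exact e1.trans (e.trans e2.symm)
    · intro j hj z z' hz
      have hjS : j ∈ Sm := by
        rcases hj with ⟨j', h1, h2⟩ | ⟨j', h1, h2⟩
        · exact absurd (show false = true from congrArg Prod.snd h2) (by simp)
        · have : j' = j := congrArg Prod.fst h2
          rwa [← this]
      have e : h (mpart Sm z) ⟨j, hjS⟩ = h (mpart Sm z') ⟨j, hjS⟩ := by
        apply hh.tri _ (mem_univ _)
        intro i' _ hi'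
        refine hz (mI i'.1) (Or.inr ⟨i'.1, i'.2, rfl⟩) ?_
        rcases hi' with h' | h'
        · exact Or.inl (mI_dep.2 h')
        · right; rw [h']
      have e1 := fmor_m k h z hjS
      have e2 := fmor_m k h z' hjS
      exact e1.trans (e.trans e2.symm)
  · refine continuous_pi fun i => ?_
    refine ixRec (motive := fun i => Continuous fun z => fmor k h z i) ?_ ?_ i
    · intro j
      by_cases hj : j ∈ Sx
      · have e : (fun z => (fmor k h z (xI j) : ℕ → Bool)) =
            fun z => k (xpart Sx z) ⟨j, hj⟩ := by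
          funext z; exact fmor_x k h z hj
        show Continuous (fun z => (fmor k h z (xI j) : ℕ → Bool))
        rw [e]
        exact (continuous_apply _).comp (hk.cont.comp (continuous_xpart Sx))
      · have e : (fun z => fmor k h z (xI j)) = fun z => z (xI j) := by
          funext z; exact fmor_x' k h z hj
        rw [e]
        exact continuous_apply _
    · intro j
      by_cases hj : j ∈ Sm
      · have e : (fun z => (fmor k h z (mI j) : ℕ → ℕ)) =
            fun z => h (mpart Sm z) ⟨j, hj⟩ := by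
          funext z; exact fmor_m k h z hj
        show Continuous (fun z => (fmor k h z (mI j) : ℕ → ℕ))
        rw [e]
        exact (continuous_apply _).comp (hh.cont.comp (continuous_mpart Sm))
      · have e : (fun z => fmor k h z (mI j)) = fun z => z (mI j) := by
          funext z; exact fmor_m' k h z hj
        rw [e]
        exact continuous_apply _
  · intro i
    refine ixRec (motive := fun i => ∀ (z : W (alph J)) (u : List (alph J i)),
      ∃ (t : List (alph J i)) (φ : alph J i → alph J i),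
      Function.Injective φ ∧ ∀ (a : alph J i) (z' : W (alph J)), (∀ i' ∈ dep J i, z' i' = z i') →
      Ext (u ++ [a]) (z' i) → Ext (t ++ [φ a]) (fmor k h z' i)) ?_ ?_ i
    · intro j z u
      by_cases hj : j ∈ Sx
      · obtain ⟨t, φ, hφ, he⟩ := hk.emb ⟨j, hj⟩ (xpart Sx z) u
        refine ⟨t, φ, hφ, fun a z' hz' hext => ?_⟩
        have h1 := he a (xpart Sx z') (fun i' hi' => hz' (xI i'.1) (xI_dep.2 hi')) hext
        have e := fmor_x k h z' hj
        rw [← e] at h1
        exact h1
      · refine ⟨u, _root_.id, Function.injective_id, fun a z' _ hext => ?_⟩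
        rw [fmor_x' k h z' hj]
        exact hext
    · intro j z u
      by_cases hj : j ∈ Sm
      · obtain ⟨t, φ, hφ, he⟩ := hh.emb ⟨j, hj⟩ (mpart Sm z) u
        refine ⟨t, φ, hφ, fun a z' hz' hext => ?_⟩
        have h1 := he a (mpart Sm z') (fun i' hi' => hz' (mI i'.1) (mI_dep.2 hi')) hext
        have e := fmor_m k h z' hj
        rw [← e] at h1
        exact h1
      · refine ⟨u, _root_.id, Function.injective_id, fun a z' _ hext => ?_⟩
        rw [fmor_m' k h z' hj]
        exact hext

open Classical in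
/-- the point with given x-part and m-part -/
noncomputable def merge (x : W (fun _ : Sx => Bool)) (y : W (fun _ : Sm => ℕ)) : W (alph J) :=
  ixRec (motive := fun i => ℕ → alph J i)
    (fun j => if hj : j ∈ Sx then (x ⟨j, hj⟩ : ℕ → Bool) else (fun _ => false : ℕ → Bool))
    (fun j => if hj : j ∈ Sm then (y ⟨j, hj⟩ : ℕ → ℕ) else (fun _ => 0 : ℕ → ℕ))

theorem continuous_merge :
    Continuous (fun p : W (fun _ : Sx => Bool) × W (fun _ : Sm => ℕ) => merge p.1 p.2) := by
  refine continuous_pi fun i => ?_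
  refine ixRec (motive := fun i => Continuous
    fun p : W (fun _ : Sx => Bool) × W (fun _ : Sm => ℕ) => merge p.1 p.2 i) ?_ ?_ i
  · intro j
    by_cases hj : j ∈ Sx
    · have e : (fun p : W (fun _ : Sx => Bool) × W (fun _ : Sm => ℕ) =>
          (merge p.1 p.2 (xI j) : ℕ → Bool)) = fun p => p.1 ⟨j, hj⟩ := by
        funext p
        show (if hj : j ∈ Sx then (p.1 ⟨j, hj⟩ : ℕ → Bool) else (fun _ => false : ℕ → Bool)) = _
        rw [dif_pos hj]
      show Continuous (fun p : W (fun _ : Sx => Bool) × W (fun _ : Sm => ℕ) =>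
          (merge p.1 p.2 (xI j) : ℕ → Bool))
      rw [e]
      exact (continuous_apply _).comp continuous_fst
    · have e : (fun p : W (fun _ : Sx => Bool) × W (fun _ : Sm => ℕ) =>
          (merge p.1 p.2 (xI j) : ℕ → Bool)) = fun p => (fun _ => false : ℕ → Bool) := by
        funext p
        show (if hj : j ∈ Sx then (p.1 ⟨j, hj⟩ : ℕ → Bool) else (fun _ => false : ℕ → Bool)) = _
        rw [dif_neg hj]
      show Continuous (fun p : W (fun _ : Sx => Bool) × W (fun _ : Sm => ℕ) =>
          (merge p.1 p.2 (xI j) : ℕ → Bool))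
      rw [e]
      exact continuous_const
  · intro j
    by_cases hj : j ∈ Sm
    · have e : (fun p : W (fun _ : Sx => Bool) × W (fun _ : Sm => ℕ) =>
          (merge p.1 p.2 (mI j) : ℕ → ℕ)) = fun p => p.2 ⟨j, hj⟩ := by
        funext p
        show (if hj : j ∈ Sm then (p.2 ⟨j, hj⟩ : ℕ → ℕ) else (fun _ => 0 : ℕ → ℕ)) = _
        rw [dif_pos hj]
      show Continuous (fun p : W (fun _ : Sx => Bool) × W (fun _ : Sm => ℕ) =>
          (merge p.1 p.2 (mI j) : ℕ → ℕ))
      rw [e]
      exact (continuous_apply _).comp continuous_snd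
    · have e : (fun p : W (fun _ : Sx => Bool) × W (fun _ : Sm => ℕ) =>
          (merge p.1 p.2 (mI j) : ℕ → ℕ)) = fun p => (fun _ => 0 : ℕ → ℕ) := by
        funext p
        show (if hj : j ∈ Sm then (p.2 ⟨j, hj⟩ : ℕ → ℕ) else (fun _ => 0 : ℕ → ℕ)) = _
        rw [dif_neg hj]
      show Continuous (fun p : W (fun _ : Sx => Bool) × W (fun _ : Sm => ℕ) =>
          (merge p.1 p.2 (mI j) : ℕ → ℕ))
      rw [e]
      exact continuous_const

theorem merge_x (x : W (fun _ : Sx => Bool)) (y : W (fun _ : Sm => ℕ)) {j : J} (hj : j ∈ Sx) :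
    (merge x y (xI j) : ℕ → Bool) = x ⟨j, hj⟩ := by
  show (if hj : j ∈ Sx then (x ⟨j, hj⟩ : ℕ → Bool) else (fun _ => false : ℕ → Bool)) = _
  rw [dif_pos hj]

theorem merge_m (x : W (fun _ : Sx => Bool)) (y : W (fun _ : Sm => ℕ)) {j : J} (hj : j ∈ Sm) :
    (merge x y (mI j) : ℕ → ℕ) = y ⟨j, hj⟩ := by
  show (if hj : j ∈ Sm then (y ⟨j, hj⟩ : ℕ → ℕ) else (fun _ => 0 : ℕ → ℕ)) = _
  rw [dif_pos hj]

end

end P2

open P2 in
theorem p2_proof (hread : SRead) (htruth : STruth) (hhom : SHom) : SP2 := by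
  classical
  intro J _ _ j0 hj0 p C
  rw [mem_fex]
  intro p' _
  obtain ⟨q, hqp, A, G, hA, -, hG, hR, -⟩ := hread J inferInstance inferInstance j0 hj0 ℕ
    inferInstance C (fun _ => univ) (fun _ _ _ _ _ => mem_univ _)
    (fun _ p => ⟨p, le_rfl, mem_univ _⟩) p'
  obtain ⟨hcont, htr⟩ := htruth J inferInstance inferInstance ℕ q C G hR
  set Sx : Set J := {j | xI j ∈ A} with hSx
  set Sm : Set J := {j | mI j ∈ A ∨ j = j0} with hSm
  have hxinj : Function.Injective (fun j : J => (xI j : Ix J)) := fun a b h => congrArg Prod.fst h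
  have hminj : Function.Injective (fun j : J => (mI j : Ix J)) := fun a b h => congrArg Prod.fst h
  have hSxc : Sx.Countable := hA.preimage hxinj
  have hSmc : Sm.Countable := by
    have h1 : Sm = (fun j : J => (mI j : Ix J)) ⁻¹' A ∪ {j0} := by
      ext j; rfl
    rw [h1]
    exact (hA.preimage hminj).union (countable_singleton j0)
  haveI : Countable Sx := hSxc.to_subtype
  haveI : Countable Sm := hSmc.to_subtype
  set D : ℕ → Set (KW Sx × (Sm → ℕ → ℕ)) := fun b => {p | b ∈ G (merge p.1 p.2)} with hD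
  obtain ⟨ε, B, k, h, hB, hk, hh, hkey⟩ := hhom Sx Sm inferInstance inferInstance inferInstance
    inferInstance inferInstance inferInstance ⟨j0, Or.inr rfl⟩ (fun a => hj0 a.1) D
    (fun b => (hcont b).preimage continuous_merge)
  have hf : IsMorC (dep J) (fmor k h) :=
    ⟨_, (hSxc.image _).union (hSmc.image _), isMor_fmor hk hh⟩
  set s : Mo J := ⟨fmor k h, hf⟩ with hs
  have hGf : ∀ z b, b ∈ B → (b ∈ G (s.1 z) ↔ ε = true) := by
    intro z b hb
    rw [← hkey b hb (xpart Sx z) (mpart Sm z)]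
    have e : G (s.1 z) = G (merge (k (xpart Sx z)) (h (mpart Sm z))) := by
      apply hG
      intro i
      refine ixRec (motive := fun i => i ∈ A →
        s.1 z i = merge (k (xpart Sx z)) (h (mpart Sm z)) i) ?_ ?_ i
      · intro j hj
        have hjS : j ∈ Sx := hj
        exact (fmor_x k h z hjS).trans (merge_x _ _ hjS).symm
      · intro j hj
        have hjS : j ∈ Sm := Or.inl hj
        exact (fmor_m k h z hjS).trans (merge_m _ _ hjS).symm
    rw [e]
    rfl
  refine ⟨q.comp s, (Mo.comp_le q s).trans hqp, B, ?_⟩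
  have hBB : BB B = B := if_pos hB
  refine mem_fex_of_mem (i := ε) (down_fall fun _ => down_fimp _ _) ?_
  intro n
  rw [mem_fimp]
  intro r hr hn
  refine ⟨r, le_rfl, ?_⟩
  have hn' : n ∈ B := by
    have h1 : n ∈ BB B := hn
    rwa [hBB] at h1
  have ht := (htr s).2 n
  cases hε : ε with
  | true =>
    have h1 : q.comp s ∈ meets (C n) := ht.1.2 fun z => (hGf z n hn').2 hε
    constructor
    · rw [mem_fimp]
      intro r' _ _
      exact ⟨r', le_rfl, rfl⟩
    · rw [mem_fimp]
      intro r' hr' _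
      exact ⟨r', le_rfl, down_meets _ _ h1 _ (hr'.trans hr)⟩
  | false =>
    have h1 : q.comp s ∈ fnot (meets (C n)) := ht.2.2 fun z h => by
      have := (hGf z n hn').1 h
      rw [hε] at this
      exact absurd this (by simp)
    constructor
    · rw [mem_fimp]
      intro r' hr' hr''
      exact absurd hr'' (h1 r' (hr'.trans hr))
    · rw [mem_fimp]
      intro r' _ hr''
      exact absurd hr'' (by simp [fground])

end Pool.Agent.H554
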