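import Pool.Agent.H554.P3c

/-!
# Section 10: `Phi3` is forced
-/

namespace Pool.Agent.H554

namespace P3P

open Set Filter Topology Pool.Agent.Helper669.Forcing

section

variable {J : Type} [LinearOrder J]

theorem below_dep {β : J} {i : Ix J} (hi : i ∈ below β) : i ∈ dep J (mI β) := by
  refine ⟨?_, fun h => absurd h (by simp)⟩
  induction i using Lex.rec with
  | h p =>
  obtain ⟨j, c⟩ := p
  exact Prod.Lex.toLex_lt_toLex.2 (Or.inl hi)

theorem below_closed (β : J) : ∀ i ∈ below β, ∀ i' ∈ dep J i, i' ∈ below β := by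
  intro i hi i' hi'
  have h := hi'.1
  induction i using Lex.rec with
  | h p =>
  induction i' using Lex.rec with
  | h p' =>
  obtain ⟨j, c⟩ := p
  obtain ⟨j', c'⟩ := p'
  rcases Prod.Lex.toLex_lt_toLex.1 h with h | ⟨h, -⟩
  · exact lt_trans h hi
  · simp only at h
    subst h
    exact hi

theorem mI_not_below (β : J) : mI β ∉ below β := fun h => lt_irrefl β h

theorem ne_mI {β : J} {i : Ix J} (hi : i ∈ below β) : i ≠ mI β := by
  rintro rfl
  exact mI_not_below β hi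

theorem stem_SD [WellFoundedLT J] {A : Set (Ix J)} {r : W (alph J) → W (alph J)}
    (hr : IsMor (dep J) A r) (β : J) : ∃ (t : W (alph J) → List ℕ → List ℕ)
    (φ : W (alph J) → List ℕ → ℕ → ℕ), SD β A t φ ∧
    ∀ z u (z' : W (alph J)), (∀ i' ∈ dep J (mI β), z' i' = z i') → Ext u (z' (mI β) : ℕ → ℕ) →
      Ext (t z u) (r z' (mI β) : ℕ → ℕ) := by
  obtain ⟨t, φ, h1, h2, h3, h4, h5, h6, h7, h8⟩ := hr.stem (mI β)
    (fun h => lt_irrefl _ (dep_lt _ _ h)) (fun i' hi' h => lt_asymm (dep_lt _ _ hi') (dep_lt _ _ h))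
  refine ⟨t, φ, ⟨h1, h4, h5, h6, fun u z => ?_, fun u a z => ?_⟩, h3⟩
  · exact (h7 u (t z u)).isOpen.mem_nhds rfl
  · exact (h8 u a (φ z u a)).isOpen.mem_nhds rfl

/-- the main construction: below `r` there is a condition forcing that `aN β` belongs to `Gi` -/
theorem main_step (hTruth : STruth) [WellFoundedLT J] {β : J} {Gi : (ℕ → Set (Mo J)) → Set (Mo J)}
    {r q s : Mo J} {A As A' : Set (Ix J)} {t : W (alph J) → List ℕ → List ℕ}
    {φ : W (alph J) → List ℕ → ℕ → ℕ} {G' : W (alph J) → Set ℕ} {C : ℕ → Set (Mo J)}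
    (htd : TD β A t φ s.1 As A' G')
    (hst : ∀ z u (z' : W (alph J)), (∀ i' ∈ dep J (mI β), z' i' = z i') →
      Ext u (z' (mI β) : ℕ → ℕ) → Ext (t z u) (r.1 z' (mI β) : ℕ → ℕ))
    (hunb : ∀ p : Mo J, p ∈ FUnb (aN β))
    (hgw : r ∈ FGwDense Gi) (hmem : q.comp s ∈ FMem C Gi) (hreads : Reads (q.comp s) C G')
    (hle : r.comp s ≤ q.comp s) (hres : resF (below β) (r.comp s).1 = (q.comp s).1) :
    ∃ r' ≤ r, r' ∈ FMem (aN β) Gi := by
  obtain ⟨T, hT1, hT2⟩ := exists_thin htd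
  obtain ⟨ρ, hρ⟩ := Mo.eq_comp hle
  -- ρ is the identity below β
  have hρb : ∀ z, ∀ i ∈ below β, ρ.1 z i = z i := by
    intro z
    obtain ⟨Aq, -, hAq⟩ := (q.comp s).2
    apply IsMor.inj_on dep_lt hAq (below β) (below_closed β)
    intro i hi
    have h1 : (r.comp s).1 z i = (q.comp s).1 (ρ.1 z) i := by rw [hρ]; rfl
    have h2 : resF (below β) (r.comp s).1 z i = (r.comp s).1 z i := by simp [resF, hi]
    rw [← h1, ← h2, hres]
  have hle' : (r.comp s).comp T ≤ r := (Mo.comp_le _ _).trans (Mo.comp_le _ _)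
  have hgw' := down_FGwDense _ _ hgw _ hle'
  have hkey : (r.comp s).comp T ∈ (fex fun N : ℕ => fall fun n : ℕ =>
      fimp (fand (fground (N ≤ n)) (meets (aN β n))) (meets (C n))) := by
    rw [mem_fex]
    intro r1 hr1
    obtain ⟨v, rfl⟩ := Mo.eq_comp hr1
    obtain ⟨Av, -, hAv⟩ := v.2
    set z0 : W (alph J) := fun _ _ => default with hz0
    set t0 : List ℕ := t (s.1 (v.1 z0)) [] with ht0
    have hev : ∀ᶠ z in 𝓝 z0, t (s.1 (v.1 z)) [] = t0 :=
      lc_comp (htd.sd.lct []) (htd.mor.cont.comp hAv.cont) z0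
    obtain ⟨O, hO1, hO2, hO3⟩ := mem_nhds_iff.1 hev
    obtain ⟨c, hc, hc'⟩ := exists_cell hO2 hO3
    refine ⟨(((r.comp s).comp T).comp v).comp (Mo.io c), Mo.comp_le _ _, en t0 + 1, fun n => ?_⟩
    rw [mem_fimp]
    rintro r3 hr3 ⟨hN, hmeet⟩
    obtain ⟨r4, hr4, a, ⟨u, hu1, hu2⟩, hr4a⟩ := hmeet r3 le_rfl
    have hext : ∀ z, Ext u (r4.1 z (mI β) : ℕ → ℕ) := by
      obtain ⟨x, rfl⟩ := Mo.eq_comp hr4a
      exact fun z => hu2 (x.1 z)
    obtain ⟨v4, hv4⟩ := Mo.eq_comp (hr4.trans hr3)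
    refine ⟨r4, hr4, ?_⟩
    have hr4q : r4 = (q.comp s).comp (ρ.comp (T.comp ((v.comp (Mo.io c)).comp v4))) := by
      rw [hv4]
      apply Subtype.ext
      funext z
      show (r.comp s).1 _ = _
      rw [hρ]
      rfl
    have hTr := (hTruth J inferInstance inferInstance ℕ (q.comp s) C G' hreads).2
      (ρ.comp (T.comp ((v.comp (Mo.io c)).comp v4)))
    rw [hr4q]
    rw [(hTr.2 n).1]
    intro z
    set w : W (alph J) := v.1 (iota c (v4.1 z)) with hw
    have hG : G' ((ρ.comp (T.comp ((v.comp (Mo.io c)).comp v4))).1 z) = G' w := by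
      apply htd.dG
      intro i hi
      have hib := htd.a'b hi
      show ρ.1 (T.1 w) i = w i
      rw [hρb _ i hib, hT1 _ i (ne_mI hib)]
    rw [hG]
    obtain ⟨U, hU0, hU1, hU2, hU3⟩ := hT2 w
    -- the real m
    have hm : r4.1 z (mI β) = r.1 (s.1 (T.1 w)) (mI β) := by rw [hv4]; rfl
    have hTw : ∀ i' ∈ dep J (mI β), T.1 w i' = w i' := by
      intro i' hi'
      apply hT1
      rintro rfl
      exact lt_irrefl _ (dep_lt _ _ hi')
    have hsT : ∀ i' ∈ dep J (mI β), s.1 (T.1 w) i' = s.1 w i' := by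
      intro i' hi'
      apply htd.mor.tri'
      rintro i'' (h | rfl)
      · exact hTw _ (dep_trans _ _ hi' _ h)
      · exact hTw _ hi'
    have hsm : s.1 (T.1 w) (mI β) = T.1 w (mI β) :=
      htd.mor.off _ _ fun h => mI_not_below β (htd.asb h)
    have hextU : ∀ l, Ext (t (s.1 w) (U l)) (r4.1 z (mI β) : ℕ → ℕ) := by
      intro l
      rw [hm]
      apply hst _ _ _ hsT
      rw [hsm]
      exact hU1 l
    have hw0 : t (s.1 w) (U 0) = t0 := by
      rw [hU0]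
      exact hO1 (hc' _ (mem_iota c (v4.1 z)))
    have hN' : en t0 + 1 ≤ n := hN
    have hu1' : en u = n := hu1
    have hlt0 : t0.length < u.length := by
      apply lt_of_en_lt (by omega)
      rw [← hw0]
      exact (hextU 0).compat (hext z)
    have hex : ∃ l, u.length ≤ (t (s.1 w) (U l)).length :=
      ⟨u.length, (hU2 u.length).symm.le.trans (htd.sd.len _ _)⟩
    classical
    obtain ⟨l, hl⟩ : ∃ l, Nat.find hex = l + 1 := by
      apply Nat.exists_eq_succ_of_ne_zero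
      intro h
      have := Nat.find_spec hex
      rw [h, hw0] at this
      omega
    have h1 := Nat.find_spec hex
    rw [hl] at h1
    have h2 : ¬ u.length ≤ (t (s.1 w) (U l)).length := Nat.find_min hex (by omega)
    obtain ⟨a', ha', hG'⟩ := hU3 l
    rw [← hu1']
    have hstep := htd.sd.step (s.1 w) (U l) a'
    rw [← ha'] at hstep
    have hv1 : t (s.1 w) (U l) ++ [φ (s.1 w) (U l) a'] <+: u := by
      refine (((hextU (l + 1)).mono hstep).le_iff (hext z)).2 ?_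
      simp
      omega
    have hv2 : u <+: t (s.1 w) (U (l + 1)) := ((hext z).le_iff (hextU (l + 1))).2 h1
    exact hG' (en u) (en_le hv1) (en_le hv2)
  obtain ⟨r'', h1, h2⟩ := mem_fimp.1 (hgw'.1 C (aN β)) _ le_rfl
    ⟨down_FMem _ _ _ hmem _ ((Mo.comp_le _ _).trans hle), hunb _, hkey⟩
  exact ⟨r'', h1.trans hle', h2⟩

end

/-- first components -/
def fj {J : Type} (A : Set (Ix J)) : Set J := (fun i => (ofLex i).1) '' A

theorem fj_subset {J : Type} [LinearOrder J] {A : Set (Ix J)} {β : J} :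
    fj A ⊆ Iio β ↔ A ⊆ below β := by
  unfold fj
  rw [image_subset_iff]
  rfl

end P3P

open P3P Pool.Agent.Helper669.Forcing Set Cardinal in
/-- 10 -/
theorem p3_of (hRead : SRead) (hTruth : STruth) (hRestr : SRestr) (hC1 : SCount1)
    (hC2 : SCount2) (hRefl : SRefl) (h4a : SP4a) : SP3 := by
  intro p G
  rw [mem_fimp]
  intro p0 _ hG
  have hne : Nonempty JJ := by
    by_contra h
    rw [not_nonempty_iff] at h
    have h1 : (Order.succ Cardinal.continuum.{0}).ord = 0 := by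
      by_contra h'
      have := Ordinal.nonempty_toType_iff.2 h'
      exact h.false this.some
    rw [Cardinal.ord_eq_zero] at h1
    exact (Order.succ_ne_bot _) (by rw [h1]; rfl)
  have hwf : WellFoundedLT JJ := inferInstance
  obtain ⟨j0, -, hj0⟩ := (hwf.wf).has_min univ ⟨hne.some, mem_univ _⟩
  have hj0' : ∀ j, j0 ≤ j := fun j => not_lt.1 (hj0 j (mem_univ _))
  have hunb : ∀ (β : JJ) (p : Mo JJ), p ∈ FUnb (aN β) := fun β p =>
    (h4a JJ inferInstance inferInstance p).1 β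
  -- parameters
  let T1 : Type := {t : Set (Ix JJ) × Mo JJ // t.1.Countable ∧ IsMor (dep JJ) t.1 t.2.1}
  let T2 : Type := {t : Set (Ix JJ) × (W (alph JJ) → Set ℕ) // t.1.Countable ∧ ContS t.2 ∧
    DepOn t.1 t.2}
  let T : Type := T1 × T2 × RR
  have hch : ∀ t : T, ∃ (s : Mo JJ) (A' : Set (Ix JJ)) (C : ℕ → Set (Mo JJ))
      (G' : W (alph JJ) → Set ℕ), A'.Countable ∧
      (t.1.1.2 ∈ FGwDense (G t.2.2) → (∀ z, Unb (t.2.1.1.2 z)) →
      IsMor (dep JJ) A' (t.1.1.2.comp s).1 ∧ DepOn A' G' ∧ t.1.1.2.comp s ∈ FMem C (G t.2.2) ∧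
      Reads (t.1.1.2.comp s) C G' ∧ ∀ z N, ∃ a a', N ≤ a ∧ a < a' ∧ a ∈ t.2.1.1.2 (s.1 z) ∧
        a' ∈ t.2.1.1.2 (s.1 z) ∧ ∀ k, a ≤ k → k < a' → k ∈ G' z) := by
    intro t
    by_cases h : t.1.1.2 ∈ FGwDense (G t.2.2) ∧ ∀ z, Unb (t.2.1.1.2 z)
    · obtain ⟨s, A', C, G', h1, h2⟩ := choose_member hRead hTruth j0 hj0' h.1 t.2.1.1.2
        t.2.1.2.2.1 h.2
      exact ⟨s, A', C, G', h1, fun _ _ => h2⟩
    · exact ⟨Mo.one, ∅, fun _ => ∅, fun _ => ∅, countable_empty,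
        fun h1 h2 => absurd ⟨h1, h2⟩ h⟩
  choose s A' C G' hA' hprop using hch
  obtain ⟨A0, hA0, hp0A⟩ := p0.2
  obtain ⟨β1, -, hβ1, -⟩ := hRefl Unit (fun _ => ∅) (fun _ => fj A0) (fun _ => countable_empty)
    (fun _ => hA0.image _) (fun α => by
      refine (Cardinal.mk_subtype_le _).trans ?_
      rw [Cardinal.mk_unit]
      exact Cardinal.one_le_aleph0.trans Cardinal.aleph0_le_continuum) j0
  have hA0b : A0 ⊆ below β1 := fj_subset.1 (hβ1 () (by simp))
  obtain ⟨β, hβ, hcl, -⟩ := hRefl T (fun t => fj t.1.1.1 ∪ fj t.2.1.1.1) (fun t => fj (A' t))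
    (fun t => (t.1.2.1.image _).union (t.2.1.2.1.image _)) (fun t => (hA' t).image _)
    (fun α => by
      let e : {t : T // fj t.1.1.1 ∪ fj t.2.1.1.1 ⊆ Iio α} →
          {t : Set (Ix JJ) × Mo JJ // t.1.Countable ∧ t.1 ⊆ below α ∧
            IsMor (dep JJ) t.1 t.2.1} ×
          {t : Set (Ix JJ) × (W (alph JJ) → Set ℕ) // t.1.Countable ∧ t.1 ⊆ below α ∧
            ContS t.2 ∧ DepOn t.1 t.2} × RR := fun t =>
        (⟨t.1.1.1, t.1.1.2.1, fj_subset.1 (subset_union_left.trans t.2), t.1.1.2.2⟩,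
          ⟨t.1.2.1.1, t.1.2.1.2.1, fj_subset.1 (subset_union_right.trans t.2),
            t.1.2.1.2.2.1, t.1.2.1.2.2.2⟩, t.1.2.2)
      have he : Function.Injective e := by
        rintro ⟨⟨⟨t1, ht1⟩, ⟨t2, ht2⟩, t3⟩, ht⟩ ⟨⟨⟨t1', ht1'⟩, ⟨t2', ht2'⟩, t3'⟩, ht'⟩ h
        simp only [e, Prod.mk.injEq, Subtype.mk.injEq] at h
        obtain ⟨rfl, rfl, rfl⟩ := h
        rfl
      refine (Cardinal.mk_le_of_injective he).trans ?_
      rw [Cardinal.mk_prod, Cardinal.mk_prod, Cardinal.lift_id, Cardinal.lift_id,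
        Cardinal.lift_id, Cardinal.lift_id]
      have h3 : #RR ≤ Cardinal.continuum := by
        rw [Cardinal.mk_set, Cardinal.mk_nat]
        exact Cardinal.two_power_aleph0.le
      calc _ ≤ Cardinal.continuum * (Cardinal.continuum * Cardinal.continuum) :=
            mul_le_mul' (hC1 α) (mul_le_mul' (hC2 α) h3)
        _ = Cardinal.continuum := by
            rw [Cardinal.continuum_mul_self, Cardinal.continuum_mul_self]) β1
  have hA0β : A0 ⊆ below β := fun i hi => lt_trans (hA0b hi) hβ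
  refine ⟨p0, le_rfl, mem_fex_of_mem (i := aN β) (down_fand (down_FUnb _)
    (down_fall fun i => down_FMem _ _)) ⟨hunb β p0, fun i => ?_⟩⟩
  have hmain : ∀ r ≤ p0, ∃ r' ≤ r, r' ∈ FMem (aN β) (G i) := by
    intro r hr
    obtain ⟨Ar, hArc, hAr⟩ := r.2
    obtain ⟨q, hq1, ⟨Aq, hq2, hq3, hq4⟩, hq5, hq6, hq7⟩ := hRestr JJ inferInstance inferInstance β r
    have hqp : q ≤ p0 := hq7 p0 ⟨A0, hA0, hA0β, hp0A⟩ hr
    have hgq : q ∈ FGwDense (G i) := down_FGwDense _ _ (hG i) _ hqp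
    have hgr : r ∈ FGwDense (G i) := down_FGwDense _ _ (hG i) _ hr
    obtain ⟨t, φ, hSD, hst⟩ := stem_SD hAr β
    let t0 : T := (⟨(Aq, q), hq2, hq4⟩, ⟨(Ar ∩ below β, Fb β t φ), hArc.mono inter_subset_left,
      contS_Fb hSD, depOn_Fb hSD⟩, i)
    have hA'b : A' t0 ⊆ below β := by
      apply fj_subset.1
      apply hcl t0
      apply union_subset
      · exact fj_subset.2 hq3
      · exact fj_subset.2 inter_subset_right
    obtain ⟨h1, h2, h3, h4, h5⟩ := hprop t0 hgq (fun z => unb_Fb z)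
    obtain ⟨s2, ⟨As, hs1, hs2, hs3⟩, hs4, hs5, hs6⟩ := hq6 (q.comp (s t0))
      ⟨A' t0, hA' t0, hA'b, h1⟩ (Mo.comp_le _ _)
    have hss : s t0 = s2 := by
      apply Subtype.ext
      funext z
      apply Mo.inj q
      have := congrArg (fun m : Mo JJ => m.1 z) hs4
      exact this
    rw [← hss] at hs3 hs5 hs6
    have htd : TD β Ar t φ (s t0).1 As (A' t0) (G' t0) :=
      ⟨hSD, hArc, hs1, hA' t0, hs3, hs2, hA'b,
        (hTruth JJ inferInstance inferInstance ℕ _ _ _ h4).1, h2, h5⟩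
    exact main_step hTruth htd hst (hunb β) hgr h3 h4 hs5 hs6
  refine mem_fex.2 fun r hr => ?_
  obtain ⟨r', hr', hr''⟩ := hmain r hr
  obtain ⟨r2, h1, h2⟩ := mem_fex.1 hr'' r' le_rfl
  exact ⟨r2, h1.trans hr', h2⟩

end Pool.Agent.H554
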