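import Pool.Agent.H554.Basic
import Pool.Agent.H554.FStmts

/-!
# Section 11 (a), (b)
-/

namespace Pool.Agent.H554

namespace P4

open Pool.Agent.Helper669.Forcing Set Filter Topology

section forcing

variable {P : Type} [Preorder P] {r : P} {φ ψ : Set P} {b c : Prop}

/-- `r` decides the statement `φ` with truth value `b`. -/
def Dec (r : P) (φ : Set P) (b : Prop) : Prop := (b → r ∈ φ) ∧ (¬ b → r ∈ fnot φ)

theorem Dec.not (hd : Down φ) (h : Dec r φ b) : Dec r (fnot φ) (¬ b) :=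
  ⟨h.2, fun hb q hq hq' => hq' q le_rfl (hd _ (h.1 (not_not.1 hb)) _ hq)⟩

theorem Dec.and (h : Dec r φ b) (h' : Dec r ψ c) : Dec r (fand φ ψ) (b ∧ c) := by
  refine ⟨fun hbc => ⟨h.1 hbc.1, h'.1 hbc.2⟩, fun hbc q hq hq' => ?_⟩
  by_cases hb : b
  · have hc : ¬ c := fun hc => hbc ⟨hb, hc⟩
    exact h'.2 hc q hq hq'.2
  · exact h.2 hb q hq hq'.1

theorem Dec.congr (h : Dec r φ b) (hbc : b ↔ c) : Dec r φ c :=
  ⟨fun hc => h.1 (hbc.2 hc), fun hc => h.2 fun hb => hc (hbc.1 hb)⟩

theorem Dec.imp (hφ : Down φ) (hψ : Down ψ) (h : Dec r φ b) (h' : Dec r ψ c) :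
    Dec r (fimp φ ψ) (b → c) :=
  ((h.and (h'.not hψ)).not (down_fand hφ (down_fnot _))).congr (by tauto)

theorem Dec.iff (hφ : Down φ) (hψ : Down ψ) (h : Dec r φ b) (h' : Dec r ψ c) :
    Dec r (fiff φ ψ) (b ↔ c) :=
  ((h.imp hφ hψ h').and (h'.imp hψ hφ h)).congr (by tauto)

theorem down_fiff (φ ψ : Set P) : Down (fiff φ ψ) :=
  down_fand (down_fimp _ _) (down_fimp _ _)

end forcing

/-! ### codes of strings -/

theorem encode_lt (u : List ℕ) (a : ℕ) : Encodable.encode u < Encodable.encode (u ++ [a]) := by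
  induction u with
  | nil => simp
  | cons b u ih =>
    rw [List.cons_append, Encodable.encode_list_cons, Encodable.encode_list_cons]
    exact Nat.succ_lt_succ (Nat.pair_lt_pair_right _ ih)

theorem encode_le_append (u v : List ℕ) : Encodable.encode u ≤ Encodable.encode (u ++ v) := by
  induction v generalizing u with
  | nil => simp
  | cons a v ih =>
    have h1 := ih (u ++ [a])
    rw [List.append_assoc, List.singleton_append] at h1
    exact (encode_lt u a).le.trans h1

theorem encode_mono {u v : List ℕ} (h : u <+: v) : Encodable.encode u ≤ Encodable.encode v := by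
  obtain ⟨w, rfl⟩ := h
  exact encode_le_append u w

theorem length_le_encode (u : List ℕ) : u.length ≤ Encodable.encode u := by
  induction u using List.reverseRecOn with
  | nil => simp
  | append_singleton u a ih =>
    have := encode_lt u a
    rw [List.length_append, List.length_singleton]
    omega

section

variable {J : Type} [LinearOrder J]

theorem Mo.comp_assoc' (q s t : Mo J) : (q.comp s).comp t = q.comp (s.comp t) := rfl

theorem exists_of_le {q p : Mo J} (h : q ≤ p) : ∃ s : Mo J, q = p.comp s := by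
  obtain ⟨s, hs⟩ := h
  exact ⟨s, Subtype.ext hs⟩

theorem cont (q : Mo J) : Continuous q.1 := by
  obtain ⟨A, _, h⟩ := q.2
  exact h.cont

theorem refine' (z0 : W (alph J)) {Q : W (alph J) → Prop} (h : ∀ᶠ z in 𝓝 z0, Q z) :
    ∃ s : Mo J, ∀ z, Q (s.1 z) := by
  obtain ⟨U, hU, hUo, hz0⟩ := eventually_nhds_iff.1 h
  obtain ⟨c, _, hc⟩ := exists_cell hUo hz0
  exact ⟨⟨iota c, isMorC_iota c⟩, fun z => hU _ (hc _ (mem_iota c z))⟩

theorem near (q : Mo J) (z0 : W (alph J)) (i : Ix J) (l : ℕ) :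
    ∀ᶠ z in 𝓝 z0, ∀ n < l, q.1 z i n = q.1 z0 i n := by
  have h1 : Continuous fun z => q.1 z i := (continuous_apply i).comp (cont q)
  have h2 : IsOpen {z : W (alph J) | Ext (pre (q.1 z0 i) l) (q.1 z i)} :=
    ((isClopen_ext (pre (q.1 z0 i) l)).isOpen).preimage h1
  filter_upwards [h2.mem_nhds (ext_pre l)] with z hz
  exact fun n hn => pre_eq_iff.1 (ext_pre_iff.1 hz) n hn

theorem dec_x (r : Mo J) (γ : J) (n : ℕ) (b : Bool)
    (h : ∀ z, (r.1 z (xI γ) : ℕ → Bool) n = b) : Dec r (meets (xN γ n)) (b = true) := by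
  constructor
  · intro hb
    exact meets_of_mem fun z => (h z).trans hb
  · intro hb q hq hm
    obtain ⟨r', hr', s, hs, hle⟩ := hm q le_rfl
    obtain ⟨w, hw⟩ := hr'.trans hq
    obtain ⟨v, hv⟩ := hle
    have z : W (alph J) := fun _ _ => default
    have h1 : (r'.1 z (xI γ) : ℕ → Bool) n = b := by
      rw [hw]
      exact h _
    have h2 : (r'.1 z (xI γ) : ℕ → Bool) n = true := by
      rw [hv]
      exact hs _
    exact hb (h1.symm.trans h2)

theorem ext_of_near {β : Type} {v : List β} {y z : ℕ → β} {l : ℕ} (h : ∀ n < l, z n = y n)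
    (hv : Ext v y) (hl : v.length ≤ l) : Ext v z :=
  fun k hk => (h k (hk.trans_le hl)).trans (hv k hk)

theorem mem_a (r : Mo J) (β : J) (u : List ℕ) (h : ∀ z, Ext u (r.1 z (mI β) : ℕ → ℕ)) :
    r ∈ meets (aN β (Encodable.encode u)) := meets_of_mem ⟨u, rfl, h⟩

theorem not_mem_a (r : Mo J) (β : J) (u : List ℕ) (n : ℕ)
    (h : ∀ z, Ext u (r.1 z (mI β) : ℕ → ℕ)) (hn : ∀ v, Compat u v → Encodable.encode v ≠ n) :
    r ∈ fnot (meets (aN β n)) := by
  intro q hq hm
  obtain ⟨r', hr', s, ⟨v, hv, hs⟩, hle⟩ := hm q le_rfl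
  obtain ⟨w, hw⟩ := hr'.trans hq
  obtain ⟨x, hx⟩ := hle
  have z : W (alph J) := fun _ _ => default
  have h1 : Ext u (r'.1 z (mI β) : ℕ → ℕ) := by
    rw [hw]
    exact h _
  have h2 : Ext v (r'.1 z (mI β) : ℕ → ℕ) := by
    rw [hx]
    exact hs _
  exact hn v (h1.compat h2) hv

/-- a splitting node of a condition -/
theorem node (q : Mo J) (i : Ix J) (z : W (alph J)) (u : List (alph J i)) :
    ∃ (t : List (alph J i)) (φ : alph J i → alph J i), Function.Injective φ ∧
      u.length ≤ t.length ∧ ∀ a z', (∀ i' ∈ dep J i, z' i' = z i') → Ext (u ++ [a]) (z' i) →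
        Ext (t ++ [φ a]) (q.1 z' i) := by
  obtain ⟨A, _, hq⟩ := q.2
  obtain ⟨t, φ, h1, h2, _, _, h5, _⟩ := hq.stem i (fun h => (dep_lt i i h).false)
    (fun i' h h' => ((dep_lt i i' h).trans (dep_lt i' i h')).false)
  exact ⟨t z u, φ z u, h1 z u, h5 z u, fun a z' => h2 z u a z'⟩

/-- a splitting node at an `m`-coordinate -/
theorem nodeM (q : Mo J) (β : J) (z : W (alph J)) (u : List ℕ) :
    ∃ (t : List ℕ) (φ : ℕ → ℕ), Function.Injective φ ∧
      u.length ≤ t.length ∧ ∀ (a : ℕ) z', (∀ i' ∈ dep J (mI β), z' i' = z i') →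
        Ext (u ++ [a]) (z' (mI β) : ℕ → ℕ) → Ext (t ++ [φ a]) (q.1 z' (mI β) : ℕ → ℕ) :=
  node q (mI β) z u

theorem dep_eq (q : Mo J) (i : Ix J) (z z' : W (alph J))
    (h : ∀ i', (i' ∈ dep J i ∨ i' = i) → z i' = z' i') : q.1 z i = q.1 z' i := by
  obtain ⟨A, _, hq⟩ := q.2
  exact hq.tri' i z z' h

open Classical in
/-- change the coordinate `i` of `z` -/
noncomputable def chg (z : W (alph J)) (i : Ix J) (v : List (alph J i)) : W (alph J) :=
  Function.update z i (app v fun _ => default)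

theorem chg_ext (z : W (alph J)) (i : Ix J) (v : List (alph J i)) : Ext v (chg z i v i) := by
  rw [chg, Function.update_self]
  exact ext_app

theorem chg_ne (z : W (alph J)) (i : Ix J) (v : List (alph J i)) {i' : Ix J} (h : i' ≠ i) :
    chg z i v i' = z i' := by
  rw [chg, Function.update_of_ne h]

theorem dep_ne {i i' : Ix J} (h : i' ∈ dep J i) : i' ≠ i := (dep_lt i i' h).ne

end

end P4

open P4 Pool.Agent.Helper669.Forcing Set Filter Topology

section

variable {J : Type} [LinearOrder J]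

theorem p4unb (p : Mo J) : p ∈ FPhi4Unb (Mo J) J aN := by
  intro β N
  refine mem_fex.2 fun q _ => ?_
  have z0 : W (alph J) := fun _ _ => default
  obtain ⟨s, hs⟩ := P4.refine' z0 (near q z0 (mI β) N)
  refine ⟨q.comp s, Mo.comp_le q s,
    Encodable.encode (α := List ℕ) (pre (q.1 z0 (mI β)) N), ?_, ?_⟩
  · have h1 := length_le_encode (pre (q.1 z0 (mI β)) N : List ℕ)
    have h2 : (pre (q.1 z0 (mI β)) N : List ℕ).length = N := length_pre N
    rw [h2] at h1
    exact h1
  · apply mem_a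
    intro z
    exact ext_pre_iff.2 (pre_eq_iff.2 fun k hk => hs z k hk)

theorem p4diff_aux (q : Mo J) (N : ℕ) {γ β : J} (h : γ < β) :
    ∃ r ≤ q, ∃ n, N ≤ n ∧ r ∈ fnot (fiff (meets (xN γ n)) (meets (xN β n))) := by
  have z : W (alph J) := fun _ _ => default
  obtain ⟨t, φ, hφ, hlen, ht⟩ := node q (xI β) z (pre (z (xI β)) N)
  rw [length_pre] at hlen
  set u : List (alph J (xI β)) := pre (z (xI β)) N
  set n := t.length with hn
  have e1 : ∀ a, (q.1 (chg z (xI β) (u ++ [a])) (xI β) : ℕ → Bool) n = φ a := by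
    intro a
    have h1 := ht a (chg z (xI β) (u ++ [a])) (fun i' hi' => chg_ne _ _ _ (dep_ne hi'))
      (chg_ext _ _ _)
    have h2 := (ext_concat.1 h1).2
    exact h2
  have hlt : (xI γ : Ix J) < xI β := Prod.Lex.toLex_lt_toLex.2 (Or.inl h)
  have e2 : ∀ a, q.1 (chg z (xI β) (u ++ [a])) (xI γ) = q.1 z (xI γ) := by
    intro a
    apply dep_eq
    rintro i' (hi' | rfl)
    · exact chg_ne _ _ _ ((dep_lt _ _ hi').trans hlt).ne
    · exact chg_ne _ _ _ hlt.ne
  obtain ⟨a, ha⟩ : ∃ a : alph J (xI β), φ a ≠ (q.1 z (xI γ) : ℕ → Bool) n := by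
    by_contra hne
    push Not at hne
    have : (false : Bool) = true := hφ ((hne false).trans (hne true).symm)
    exact Bool.false_ne_true this
  set z' := chg z (xI β) (u ++ [a]) with hz'
  obtain ⟨s, hs⟩ := P4.refine' z' ((near q z' (xI β) (n + 1)).and (near q z' (xI γ) (n + 1)))
  refine ⟨q.comp s, Mo.comp_le q s, n, hlen, ?_⟩
  have d1 : Dec (q.comp s) (meets (xN β n)) _ := dec_x (q.comp s) β n (φ a) fun w => by
    have := (hs w).1 n (Nat.lt_succ_self n)
    exact this.trans (e1 a)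
  have d2 : Dec (q.comp s) (meets (xN γ n)) _ := dec_x (q.comp s) γ n
    ((q.1 z (xI γ) : ℕ → Bool) n) fun w => by
    have := (hs w).2 n (Nat.lt_succ_self n)
    rw [hz', e2 a] at this
    exact this
  refine (d2.iff (down_meets _) (down_meets _) d1).2 ?_
  intro hiff
  apply ha
  exact (Bool.eq_iff_iff.2 hiff).symm

theorem fiff_comm {P : Type} [Preorder P] (φ ψ : Set P) : fiff φ ψ = fiff ψ φ := by
  ext p
  exact and_comm

theorem p4diff (p : Mo J) : p ∈ FPhi4Diff (Mo J) J xN := by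
  intro γ β
  refine mem_fimp.2 fun q _ hne => ⟨q, le_rfl, fun N => mem_fex.2 fun q' _ => ?_⟩
  rcases lt_or_gt_of_ne (show γ ≠ β from hne) with h | h
  · obtain ⟨r, hr, n, hn, hf⟩ := p4diff_aux q' N h
    exact ⟨r, hr, n, hn, hf⟩
  · obtain ⟨r, hr, n, hn, hf⟩ := p4diff_aux q' N h
    rw [fiff_comm] at hf
    exact ⟨r, hr, n, hn, hf⟩

theorem p4diff3 (p : Mo J) : p ∈ FPhi4Diff3 (Mo J) J xN aN := by
  intro γ β N
  refine mem_fex.2 fun q _ => ?_
  have z : W (alph J) := fun _ _ => default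
  obtain ⟨t, φ, hφ, hlen, ht⟩ := nodeM q β z (pre (fun _ => 0) N)
  rw [length_pre] at hlen
  set u : List ℕ := pre (fun _ => 0) N
  have e1 : ∀ a : ℕ, Ext (t ++ [φ a]) (q.1 (chg z (mI β) (u ++ [a])) (mI β) : ℕ → ℕ) := fun a =>
    ht a (chg z (mI β) (u ++ [a])) (fun i' hi' => chg_ne _ _ _ (dep_ne hi'))
      (chg_ext z (mI β) (u ++ [a]))
  have e2 : ∀ (a : ℕ) (δ : J), q.1 (chg z (mI β) (u ++ [a])) (xI δ) = q.1 z (xI δ) := by
    intro a δ
    apply dep_eq
    rintro i' (hi' | rfl)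
    · apply chg_ne
      rintro rfl
      exact Bool.noConfusion (hi'.2 rfl)
    · apply chg_ne
      intro h
      have : (ofLex (xI δ)).2 = (ofLex (mI β)).2 := by rw [h]
      exact Bool.noConfusion this
  set n : ℕ := Encodable.encode (t ++ [φ 0]) with hn
  have hNn : N ≤ n := by
    have h1 := length_le_encode (t ++ [φ 0])
    rw [List.length_append, List.length_singleton] at h1
    omega
  set X : Bool := (q.1 z (xI γ) : ℕ → Bool) n with hX
  set Y : Bool := (q.1 z (xI β) : ℕ → Bool) n with hY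
  -- the letter
  have key : ∀ a : ℕ, ∃ r ≤ q, Dec r (meets (xN γ n)) (X = true) ∧
      Dec r (meets (xN β n)) (Y = true) ∧ ∀ w, Ext (t ++ [φ a]) (r.1 w (mI β) : ℕ → ℕ) := by
    intro a
    set z' := chg z (mI β) (u ++ [a]) with hz'
    obtain ⟨s, hs⟩ := P4.refine' z' ((near q z' (xI β) (n + 1)).and
      ((near q z' (xI γ) (n + 1)).and (near q z' (mI β) (t.length + 1))))
    refine ⟨q.comp s, Mo.comp_le q s, ?_, ?_, ?_⟩
    · apply dec_x
      intro w
      have := (hs w).2.1 n (Nat.lt_succ_self n)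
      rw [hz', e2 a] at this
      exact this
    · apply dec_x
      intro w
      have := (hs w).1 n (Nat.lt_succ_self n)
      rw [hz', e2 a] at this
      exact this
    · intro w
      exact ext_of_near (hs w).2.2 (e1 a) (by simp)
  by_cases hXY : X = true ↔ Y = true
  · obtain ⟨r, hr, d1, d2, h3⟩ := key 0
    refine ⟨r, hr, n, hNn, ?_⟩
    have d3 : Dec r (meets (aN β n)) True := ⟨fun _ => mem_a r β _ h3, fun h => absurd trivial h⟩
    refine ((d1.iff (down_meets _) (down_meets _) d2).iff (down_fiff _ _) (down_fnot _)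
      (d3.not (down_meets _))).2 ?_
    tauto
  · obtain ⟨r, hr, d1, d2, h3⟩ := key 1
    refine ⟨r, hr, n, hNn, ?_⟩
    have d3 : Dec r (meets (aN β n)) False := by
      refine ⟨fun h => h.elim, fun _ => not_mem_a r β (t ++ [φ 1]) n h3 ?_⟩
      intro v hv hvn
      have h4 : v = t ++ [φ 0] := Encodable.encode_injective (hvn.trans hn)
      have h5 : t ++ [φ 1] = t ++ [φ 0] := by
        rw [h4] at hv
        rcases hv with hv | hv
        · exact hv.eq_of_length (by simp)
        · exact (hv.eq_of_length (by simp)).symm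
      have h7 : φ 1 = φ 0 := List.singleton_injective (List.append_cancel_left h5)
      exact absurd (hφ h7) (by decide)
    refine ((d1.iff (down_meets _) (down_meets _) d2).iff (down_fiff _ _) (down_fnot _)
      (d3.not (down_meets _))).2 ?_
    tauto

end

theorem p4a : SP4a := fun _ _ _ p => ⟨p4unb p, p4diff p, p4diff3 p⟩

open Cardinal in
theorem countable_bounded_JJ (C : Set JJ) (hC : C.Countable) : ∃ α : JJ, ∀ j ∈ C, j < α := by
  by_contra hne
  push Not at hne
  have h1 : (univ : Set JJ) ⊆ ⋃ c : C, Iic c.1 := by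
    intro α _
    obtain ⟨j, hj, hα⟩ := hne α
    exact mem_iUnion.2 ⟨⟨j, hj⟩, hα⟩
  have h2 : #JJ = Order.succ Cardinal.continuum := by
    rw [Cardinal.mk_toType, Cardinal.card_ord]
  have h3 : #(⋃ c : C, Iic c.1) ≤ Cardinal.continuum := by
    refine (Cardinal.mk_iUnion_le _).trans ?_
    have h4 : #C ≤ Cardinal.continuum := by
      have : #C ≤ ℵ₀ := Cardinal.le_aleph0_iff_set_countable.2 hC
      exact this.trans Cardinal.aleph0_le_continuum
    have h5 : ⨆ c : C, #(Iic c.1) ≤ Cardinal.continuum := by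
      apply ciSup_le'
      intro c
      have h6 : #(Iio c.1) ≤ Cardinal.continuum := by
        have h9 := Cardinal.mk_Iio_lt c.1 (by rw [h2, Ordinal.type_toType])
        rw [h2] at h9
        exact Order.lt_succ_iff.1 h9
      have h7 : Iic c.1 = insert c.1 (Iio c.1) := by
        ext x
        simp [le_iff_eq_or_lt]
      rw [h7]
      refine (Cardinal.mk_insert_le).trans ?_
      exact Cardinal.add_le_of_le Cardinal.aleph0_le_continuum h6
        (Cardinal.nat_lt_continuum 1 |>.le.trans' (by simp))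
    calc #C * ⨆ c : C, #(Iic c.1) ≤ Cardinal.continuum * Cardinal.continuum :=
          mul_le_mul' h4 h5
      _ = Cardinal.continuum := Cardinal.continuum_mul_self
  have h8 : #JJ ≤ Cardinal.continuum := by
    rw [← Cardinal.mk_univ]
    exact (Cardinal.mk_le_mk_of_subset h1).trans h3
  rw [h2] at h8
  exact absurd (Order.lt_succ Cardinal.continuum) (not_lt.2 h8)

theorem exists_least_JJ (j : JJ) : ∃ j0 : JJ, ∀ j, j0 ≤ j := by
  have hwf : WellFoundedLT JJ := inferInstance
  obtain ⟨j0, -, hj0⟩ := (hwf.wf).has_min univ ⟨j, mem_univ _⟩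
  exact ⟨j0, fun j => not_lt.1 (hj0 j (mem_univ _))⟩

theorem p4b (hread : SRead) (htruth : STruth) : SP4b := by
  intro p H
  refine mem_fimp.2 fun q0 _ hq0 => ?_
  obtain ⟨j1, _⟩ := countable_bounded_JJ ∅ countable_empty
  obtain ⟨j0, hj0⟩ := exists_least_JJ j1
  set E : ℕ → Set (Mo JJ) := fun N => {r | ∃ n, N ≤ n ∧ r ∈ meets (H n)} with hE
  have hEd : ∀ N, Down (E N) := by
    rintro N r ⟨n, hn, hr⟩ q hq
    exact ⟨n, hn, down_meets _ _ hr _ hq⟩
  set O : ℕ → Set (Mo JJ) := fun N => E N ∪ fnot (E N) with hO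
  have hOd : ∀ N, Down (O N) := by
    rintro N r (hr | hr) q hq
    · exact Or.inl (hEd N r hr q hq)
    · exact Or.inr (down_fnot _ r hr q hq)
  have hOden : ∀ (N : ℕ) (p : Mo JJ), ∃ q ≤ p, q ∈ O N := by
    intro N p
    by_cases h : ∃ q ≤ p, q ∈ E N
    · obtain ⟨q, hq, hqE⟩ := h
      exact ⟨q, hq, Or.inl hqE⟩
    · exact ⟨p, le_rfl, Or.inr fun q hq hqE => h ⟨q, hq, hqE⟩⟩
  obtain ⟨q, hqq0, A, G, hA, _, hdep, hreads, hOc⟩ :=
    hread JJ inferInstance inferInstance j0 hj0 ℕ inferInstance H O hOd hOden q0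
  have hT := htruth JJ inferInstance inferInstance ℕ q H G hreads
  have hunb : ∀ z N, ∃ n, N ≤ n ∧ n ∈ G z := by
    intro z N
    obtain ⟨c, _, hc, hcO⟩ := hOc z N
    have hE1 : q.comp ⟨iota c, isMorC_iota c⟩ ∈ E N := by
      rcases hcO (q.comp ⟨iota c, isMorC_iota c⟩) rfl with h | h
      · exact h
      · exfalso
        obtain ⟨r, hr, n, hn⟩ := mem_fex.1 (hq0 N) (q.comp ⟨iota c, isMorC_iota c⟩)
          ((Mo.comp_le _ _).trans hqq0)
        exact h r hr ⟨n, hn⟩
    obtain ⟨n, hn, hm⟩ := hE1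
    refine ⟨n, hn, ?_⟩
    have := ((hT.2 ⟨iota c, isMorC_iota c⟩).2 n).1.1 hm (stripc c z)
    simp only at this
    rwa [iota_stripc hc] at this
  obtain ⟨α, hα⟩ := countable_bounded_JJ ((fun i : Ix JJ => (ofLex i).1) '' A) (hA.image _)
  refine ⟨q, hqq0, mem_fex_of_mem α (down_fall fun _ => down_fimp _ _) fun β => ?_⟩
  refine mem_fimp.2 fun q1 hq1 hαβ => ⟨q1, le_rfl, fun N => mem_fex.2 fun q2 hq2 => ?_⟩
  obtain ⟨s, rfl⟩ := exists_of_le (hq2.trans hq1)
  have z : W (alph JJ) := fun _ _ => default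
  obtain ⟨t, φ, hφ, -, ht⟩ := nodeM (q.comp s) β z []
  obtain ⟨a, ha, haG⟩ := hunb (s.1 z) (max N (Encodable.encode t + 1))
  obtain ⟨a', ha', haG'⟩ := hunb (s.1 z) (a + 1)
  obtain ⟨b, hb⟩ : ∃ b : ℕ, a' ≤ Encodable.encode (t ++ [φ b]) := by
    have hinj : Function.Injective fun b : ℕ => Encodable.encode (t ++ [φ b]) := by
      intro b b' h
      have h1 : t ++ [φ b] = t ++ [φ b'] := Encodable.encode_injective h
      exact hφ (List.singleton_injective (List.append_cancel_left h1))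
    obtain ⟨_, ⟨b, rfl⟩, hb⟩ := (Set.infinite_range_of_injective hinj).exists_gt a'
    exact ⟨b, hb.le⟩
  set z' := chg z (mI β) ([] ++ [b]) with hz'
  have e1 : Ext (t ++ [φ b]) ((q.comp s).1 z' (mI β) : ℕ → ℕ) :=
    ht b z' (fun i' hi' => chg_ne _ _ _ (dep_ne hi')) (chg_ext z (mI β) ([] ++ [b]))
  have e2 : G (s.1 z') = G (s.1 z) := by
    apply hdep
    intro i hi
    apply dep_eq
    intro i' hi'
    apply chg_ne
    rintro rfl
    have h1 : (ofLex i).1 < β := (hα _ ⟨i, hi, rfl⟩).trans_le hαβ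
    have h2 : (mI β : Ix JJ) ≤ i := by
      rcases hi' with h | h
      · exact (dep_lt _ _ h).le
      · exact h.le
    have h3 : i < (mI β : Ix JJ) := Prod.Lex.toLex_lt_toLex.2 (Or.inl h1)
    exact (h3.trans_le h2).false
  have hop : ∀ c, c ∈ G (s.1 z') → ∀ᶠ w in 𝓝 z', c ∈ G (s.1 w) := by
    intro c hc
    exact (((hT.1 c).isOpen).preimage (cont s)).mem_nhds hc
  obtain ⟨s2, hs2⟩ := P4.refine' z' ((near (q.comp s) z' (mI β) (t.length + 1)).and
    ((hop a (by rw [e2]; exact haG)).and (hop a' (by rw [e2]; exact haG'))))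
  have hr3 : ∀ w, Ext (t ++ [φ b]) (((q.comp s).comp s2).1 w (mI β) : ℕ → ℕ) := by
    intro w
    exact ext_of_near (hs2 w).1 e1 (by simp)
  refine ⟨(q.comp s).comp s2, Mo.comp_le _ _, a, mem_fex_of_mem a' ?_ ⟨?_, ?_, ?_, ?_⟩⟩
  · exact down_fand (down_fground _) (down_fand (down_meets _) (down_fand (down_meets _)
      (down_fall fun _ => down_fimp _ _)))
  · exact ⟨(le_max_left _ _).trans ha, ha'⟩
  · exact ((hT.2 (s.comp s2)).2 a).1.2 fun w => (hs2 w).2.1
  · exact ((hT.2 (s.comp s2)).2 a').1.2 fun w => (hs2 w).2.2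
  · intro k
    refine mem_fimp.2 fun r' hr' hk => ⟨r', le_rfl, down_fnot _ _ ?_ _ hr'⟩
    refine not_mem_a _ β (t ++ [φ b]) k hr3 ?_
    have hk' : a ≤ k ∧ k < a' := hk
    have hta : Encodable.encode t < a :=
      (Nat.lt_succ_self _).trans_le ((le_max_right _ _).trans ha)
    intro v hv hvk
    rcases hv with hv | hv
    · have h1 : Encodable.encode (t ++ [φ b]) ≤ Encodable.encode v :=
        encode_mono hv
      omega
    · rcases List.prefix_concat_iff.1 hv with h | h
      · have h1 : Encodable.encode v = Encodable.encode (t ++ [φ b]) := by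
          rw [h]
        omega
      · have h1 : Encodable.encode v ≤ Encodable.encode t := encode_mono h
        omega

end Pool.Agent.H554
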