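import Pool.Agent.H554.Basic
import Pool.Agent.H554.FStmts
import Pool.Agent.H554.P2

/-!
# (P4) (c) is forced (section 11 (c))
-/

set_option autoImplicit false

namespace Pool.Agent.H554

open Pool.Agent.Helper669.Forcing Set Filter Topology

namespace P4c

open P2

section basic

variable {J : Type} [LinearOrder J]

theorem mo_cont (q : Mo J) : Continuous q.1 := by
  obtain ⟨A, _, h⟩ := q.2
  exact h.cont

theorem mo_comp_assoc (p q r : Mo J) : (p.comp q).comp r = p.comp (q.comp r) := rfl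

/-- the condition `iota c` -/
def io (c : Cell (alph J)) : Mo J := ⟨iota c, isMorC_iota c⟩

theorem isClopen_xt (q : Mo J) (t : List Bool) (γ : J) :
    IsClopen {z : W (alph J) | Ext t (q.1 z (xI γ) : ℕ → Bool)} := by
  have h1 : Continuous fun z : W (alph J) => (q.1 z (xI γ) : ℕ → Bool) :=
    (continuous_apply (xI γ)).comp (mo_cont q)
  exact (isClopen_ext t).preimage h1

theorem isClopen_bit (q : Mo J) (γ : J) (n : ℕ) (b : Bool) :
    IsClopen {z : W (alph J) | (q.1 z (xI γ) : ℕ → Bool) n = b} := by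
  have h1 : Continuous fun z : W (alph J) => (q.1 z (xI γ) : ℕ → Bool) n :=
    (continuous_apply n).comp ((continuous_apply (xI γ)).comp (mo_cont q))
  exact (isClopen_discrete {b}).preimage h1

theorem exists_cell_io {U : Set (W (alph J))} (hU : IsOpen U) {z : W (alph J)} (hz : z ∈ U) :
    ∃ c : Cell (alph J), ∀ z', iota c z' ∈ U := by
  obtain ⟨c, _, hc2⟩ := exists_cell hU hz
  exact ⟨c, fun z' => hc2 _ (mem_iota c z')⟩

theorem meets_x (q : Mo J) (γ : J) (n : ℕ) :
    q ∈ meets (xN γ n) ↔ ∀ z, (q.1 z (xI γ) : ℕ → Bool) n = true := by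
  constructor
  · intro h z
    by_contra hz
    have hz' : (q.1 z (xI γ) : ℕ → Bool) n = false := Bool.eq_false_iff.2 hz
    obtain ⟨c, hc⟩ := exists_cell_io (isClopen_bit q γ n false).isOpen hz'
    obtain ⟨r', ⟨s1, hs1⟩, s, hs, ⟨s2, hs2⟩⟩ := h (q.comp (io c)) (Mo.comp_le _ _)
    have e1 : (r'.1 z (xI γ) : ℕ → Bool) n = false := by
      rw [hs1]
      exact hc (s1.1 z)
    have e2 : (r'.1 z (xI γ) : ℕ → Bool) n = true := by
      rw [hs2]
      exact hs (s2.1 z)
    rw [e1] at e2
    exact absurd e2 (by simp)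
  · intro h
    exact meets_of_mem h

theorem mem_FSeg (r : Mo J) (t : List Bool) (γ : J) :
    r ∈ FSeg t (xN γ) ↔ ∀ z, Ext t (r.1 z (xI γ) : ℕ → Bool) := by
  constructor
  · intro h z k hk
    obtain ⟨h1, h2⟩ := h k hk
    cases ht : t[k] with
    | true =>
      by_contra hne
      have hf : (r.1 z (xI γ) : ℕ → Bool) k = false := Bool.eq_false_iff.2 hne
      obtain ⟨c, hc⟩ := exists_cell_io (isClopen_bit r γ k false).isOpen hf
      obtain ⟨r', ⟨s1, hs1⟩, hr'⟩ := mem_fimp.1 h1 (r.comp (io c)) (Mo.comp_le _ _) ht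
      have e1 := (meets_x r' γ k).1 hr' z
      rw [hs1] at e1
      have e2 := hc (s1.1 z)
      have e3 : (r.1 (iota c (s1.1 z)) (xI γ) : ℕ → Bool) k = true := e1
      have e4 : (r.1 (iota c (s1.1 z)) (xI γ) : ℕ → Bool) k = false := e2
      rw [e3] at e4
      exact absurd e4 (by simp)
    | false =>
      by_contra hne
      have hf : (r.1 z (xI γ) : ℕ → Bool) k = true := Bool.eq_true_of_not_eq_false hne
      obtain ⟨c, hc⟩ := exists_cell_io (isClopen_bit r γ k true).isOpen hf
      have e1 : r.comp (io c) ∈ meets (xN γ k) := (meets_x _ γ k).2 fun z' => hc z'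
      obtain ⟨r', _, hr'⟩ := mem_fimp.1 h2 (r.comp (io c)) (Mo.comp_le _ _) e1
      have e2 : t[k] = true := hr'
      rw [ht] at e2
      exact absurd e2 (by simp)
  · intro h k hk
    constructor
    · rw [mem_fimp]
      rintro q ⟨s, hs⟩ hq
      have hq' : t[k] = true := hq
      refine ⟨q, le_rfl, (meets_x q γ k).2 fun z => ?_⟩
      rw [hs]
      have := h (s.1 z) k hk
      rw [hq'] at this
      exact this
    · rw [mem_fimp]
      rintro q ⟨s, hs⟩ hq
      refine ⟨q, le_rfl, ?_⟩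
      have e1 := (meets_x q γ k).1 hq (fun i _ => default)
      rw [hs] at e1
      have := h (s.1 (fun i _ => default)) k hk
      show t[k] = true
      rw [← this]
      exact e1

/-- no string in `a n` is an initial segment of `x γ` -/
def Ph (a : ℕ → List Bool → Set (Mo J)) (n : ℕ) (γ : J) : Set (Mo J) :=
  fall fun t : List Bool => fimp (meets (a n t)) (fnot (FSeg t (xN γ)))

theorem down_Ph (a : ℕ → List Bool → Set (Mo J)) (n : ℕ) (γ : J) : Down (Ph a n γ) :=
  down_fall fun _ => down_fimp _ _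

theorem notFSeg_of {r : Mo J} {t : List Bool} {γ : J}
    (h : ∀ z, ¬ Ext t (r.1 z (xI γ) : ℕ → Bool)) : r ∈ fnot (FSeg t (xN γ)) := by
  rintro r' ⟨s, hs⟩ hr'
  have e1 := (mem_FSeg r' t γ).1 hr' (fun i _ => default)
  rw [hs] at e1
  exact h _ e1

theorem ph_iff {a : ℕ → List Bool → Set (Mo J)} {G : W (alph J) → Set (ℕ × List Bool)}
    {q : Mo J} (hc : ContS G)
    (ht : ∀ (s : Mo J) n t, q.comp s ∈ meets (a n t) ↔ ∀ z, (n, t) ∈ G (s.1 z))
    (s : Mo J) (n : ℕ) (γ : J) : q.comp s ∈ Ph a n γ ↔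
      ∀ z t, (n, t) ∈ G (s.1 z) → ¬ Ext t ((q.comp s).1 z (xI γ) : ℕ → Bool) := by
  constructor
  · intro h z t hz hext
    have hU : IsOpen ({z' : W (alph J) | (n, t) ∈ G (s.1 z')} ∩
        {z' : W (alph J) | Ext t ((q.comp s).1 z' (xI γ) : ℕ → Bool)}) :=
      ((hc (n, t)).preimage (mo_cont s)).isOpen.inter (isClopen_xt (q.comp s) t γ).isOpen
    obtain ⟨c, hc'⟩ := exists_cell_io hU ⟨hz, hext⟩
    have h1 : (q.comp s).comp (io c) ∈ meets (a n t) := by
      rw [mo_comp_assoc]
      exact (ht (s.comp (io c)) n t).2 fun z' => (hc' z').1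
    obtain ⟨r', hr', hr''⟩ := mem_fimp.1 (h t) _ (Mo.comp_le _ _) h1
    have h2 : (q.comp s).comp (io c) ∈ FSeg t (xN γ) :=
      (mem_FSeg _ t γ).2 fun z' => (hc' z').2
    refine hr'' r' le_rfl ?_
    obtain ⟨s', hs'⟩ := hr'
    rw [mem_FSeg]
    intro z'
    rw [hs']
    exact (mem_FSeg _ t γ).1 h2 (s'.1 z')
  · intro h t
    rw [mem_fimp]
    rintro r ⟨s', hs'⟩ hr
    refine ⟨r, le_rfl, notFSeg_of fun z => ?_⟩
    have hr2 : r = q.comp (s.comp s') := Subtype.ext hs'
    rw [hr2, ht (s.comp s') n t] at hr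
    rw [hs']
    exact h (s'.1 z) t (hr z)

end basic

section transfer

variable {J : Type} [LinearOrder J]

open Classical in
/-- the auxiliary point -/
noncomputable def zo (al be γ : J) (z : W (alph J)) : W (alph J) :=
  Function.update (fun i => if (ofLex i).1 < al then z i else fun _ => default) (xI be)
    (z (xI γ) : ℕ → Bool)

theorem zo_be (al be γ : J) (z : W (alph J)) :
    (zo al be γ z (xI be) : ℕ → Bool) = z (xI γ) := by
  exact Function.update_self _ _ _

open Classical in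
theorem zo_ne {al be γ : J} (z : W (alph J)) {i : Ix J} (h : i ≠ xI be) :
    zo al be γ z i = if (ofLex i).1 < al then z i else fun _ => default :=
  Function.update_of_ne h _ _

theorem continuous_zo (al be γ : J) : Continuous (zo (J := J) al be γ) := by
  classical
  have h1 : Continuous (fun z : W (alph J) => (z (xI γ) : ℕ → Bool)) := continuous_apply (xI γ)
  have h2 : Continuous (fun z : W (alph J) =>
      (fun i => if (ofLex i).1 < al then z i else fun _ => default : W (alph J))) := by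
    refine continuous_pi fun i => ?_
    by_cases h : (ofLex i).1 < al
    · simp only [if_pos h]; exact continuous_apply i
    · simp only [if_neg h]; exact continuous_const
  exact h2.update (xI be) h1

/-- the map which copies `q(·)` at `x be` to `x γ` -/
noncomputable def rho (q : Mo J) (al be γ : J) (z : W (alph J)) : W (alph J) :=
  Function.update z (xI γ) (q.1 (zo al be γ z) (xI be) : ℕ → Bool)

theorem rho_γ (q : Mo J) (al be γ : J) (z : W (alph J)) :
    (rho q al be γ z (xI γ) : ℕ → Bool) = q.1 (zo al be γ z) (xI be) :=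
  Function.update_self _ _ _

theorem rho_ne (q : Mo J) {al be γ : J} (z : W (alph J)) {i : Ix J} (h : i ≠ xI γ) :
    rho q al be γ z i = z i := Function.update_of_ne h _ _

theorem dep_xI {be : J} {i : Ix J} (h : i ∈ dep J (xI be)) : ∃ j, i = xI j ∧ j < be := by
  revert h
  refine ixRec (motive := fun i => i ∈ dep J (xI be) → ∃ j, i = xI j ∧ j < be) ?_ ?_ i
  · intro j hj
    exact ⟨j, rfl, xI_dep.1 hj⟩
  · intro j hj
    exact absurd (hj.2 rfl) (by simp)

theorem isMor_rho (q : Mo J) {al be γ : J} (hal : al ≤ be) (hγ : be ≤ γ) :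
    IsMorC (dep J) (rho q al be γ) := by
  classical
  obtain ⟨A1, hA1, hq⟩ := q.2
  have hzo : ∀ z z' : W (alph J), (∀ i' ∈ dep J (xI γ), z i' = z' i') →
      ∀ i' ∈ dep J (xI be), zo al be γ z i' = zo al be γ z' i' := by
    intro z z' h i' hi'
    obtain ⟨j, rfl, hj⟩ := dep_xI hi'
    have hne : (xI j : Ix J) ≠ xI be := fun h => (ne_of_lt hj) (congrArg Prod.fst h)
    rw [zo_ne z hne, zo_ne z' hne]
    by_cases hj2 : (ofLex (xI j : Ix J)).1 < al
    · rw [if_pos hj2, if_pos hj2]
      exact h _ (xI_dep.2 (lt_of_lt_of_le hj hγ))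
    · rw [if_neg hj2, if_neg hj2]
  refine ⟨A1 ∪ {xI γ}, hA1.union (countable_singleton _), ?_, ?_, ?_, ?_⟩
  · intro z i hi
    exact rho_ne q z fun h => hi (Or.inr h)
  · intro i hi z z' h
    by_cases hiγ : i = xI γ
    · subst hiγ
      have e : (q.1 (zo al be γ z) (xI be) : ℕ → Bool) = q.1 (zo al be γ z') (xI be) := by
        have hself : (z (xI γ) : ℕ → Bool) = z' (xI γ) := h (xI γ) (Or.inr rfl) (Or.inr rfl)
        by_cases hbe : xI be ∈ A1
        · apply hq.tri _ hbe
          intro i' hi'A hi'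
          rcases hi' with hi' | rfl
          · obtain ⟨j, rfl, hj⟩ := dep_xI hi'
            have hne : (xI j : Ix J) ≠ xI be := fun h => (ne_of_lt hj) (congrArg Prod.fst h)
            rw [zo_ne z hne, zo_ne z' hne]
            by_cases hj2 : (ofLex (xI j : Ix J)).1 < al
            · rw [if_pos hj2, if_pos hj2]
              exact h _ (Or.inl hi'A) (Or.inl (xI_dep.2 (lt_of_lt_of_le hj hγ)))
            · rw [if_neg hj2, if_neg hj2]
          · exact ((zo_be al be γ z).trans hself).trans (zo_be al be γ z').symm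
        · have e1 := hq.off (zo al be γ z) (xI be) hbe
          have e2 := hq.off (zo al be γ z') (xI be) hbe
          rw [e1, e2]
          exact ((zo_be al be γ z).trans hself).trans (zo_be al be γ z').symm
      exact ((rho_γ q al be γ z).trans e).trans (rho_γ q al be γ z').symm
    · rw [rho_ne q z hiγ, rho_ne q z' hiγ]
      exact h i hi (Or.inr rfl)
  · have h1 : Continuous fun z : W (alph J) => (q.1 (zo al be γ z) (xI be) : ℕ → Bool) :=
      (continuous_apply (xI be)).comp ((mo_cont q).comp (continuous_zo al be γ))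
    exact continuous_id.update (xI γ) h1
  · intro i z u
    by_cases hiγ : i = xI γ
    · subst hiγ
      obtain ⟨t, φ, hφ, he⟩ := hq.emb (xI be) (zo al be γ z) u
      refine ⟨t, φ, hφ, fun a z' hz' hext => ?_⟩
      have h2 : Ext (u ++ [a]) (zo al be γ z' (xI be)) := by
        have e := zo_be al be γ z'
        rw [e]
        exact hext
      have h3 := he a (zo al be γ z') (hzo z' z hz') h2
      have e := rho_γ q al be γ z'
      rw [← e] at h3
      exact h3
    · refine ⟨u, _root_.id, Function.injective_id, fun a z' _ hext => ?_⟩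
      rw [rho_ne q z' hiγ]
      exact hext

/-- a morphism at coordinates below `al` only depends on the coordinates below `al` -/
theorem below_dep (s : Mo J) {al : J} {z z' : W (alph J)} (h : ∀ i ∈ below al, z i = z' i) :
    ∀ i ∈ below al, s.1 z i = s.1 z' i := by
  obtain ⟨A, _, hs⟩ := s.2
  intro i hi
  apply hs.tri'
  rintro i' (hi' | rfl)
  · apply h
    have h1 : i' < i := dep_lt i i' hi'
    have h2 : (ofLex i').1 ≤ (ofLex i).1 := by
      rcases Prod.Lex.lt_iff.1 h1 with h3 | h3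
      · exact le_of_lt h3
      · exact le_of_eq h3.1
    exact lt_of_le_of_lt h2 hi
  · exact h _ hi

/-- case 1: move the bad coordinate to `γ` -/
theorem transfer {a : ℕ → List Bool → Set (Mo J)} {G : W (alph J) → Set (ℕ × List Bool)}
    {q : Mo J} (hc : ContS G)
    (ht : ∀ (s : Mo J) n t, q.comp s ∈ meets (a n t) ↔ ∀ z, (n, t) ∈ G (s.1 z))
    {A : Set (Ix J)} {al : J} (hG : DepOn A G) (hA : A ⊆ below al) (s : Mo J) {n : ℕ} {be γ : J}
    (hal : al ≤ be) (hγ : be ≤ γ) {A1 : Set (Ix J)} (hA1 : IsMor (dep J) A1 (q.comp s).1)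
    (hγA : xI γ ∉ A1) (h : q.comp s ∈ Ph a n be) :
    ∃ r ≤ q.comp s, r ∈ Ph a n γ := by
  classical
  have h1 := (ph_iff hc ht s n be).1 h
  set ρ : Mo J := ⟨rho (q.comp s) al be γ, isMor_rho _ hal hγ⟩ with hρ
  refine ⟨(q.comp s).comp ρ, Mo.comp_le _ _, ?_⟩
  rw [mo_comp_assoc]
  rw [ph_iff hc ht (s.comp ρ) n γ]
  intro z t hz hext
  have e1 : ∀ i ∈ below al, ρ.1 z i = zo al be γ z i := by
    intro i hi
    have hne : i ≠ xI γ := by
      rintro rfl
      exact absurd (show γ < al from hi) (not_lt.2 (hal.trans hγ))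
    have hne2 : i ≠ xI be := by
      rintro rfl
      exact absurd (show be < al from hi) (not_lt.2 hal)
    rw [zo_ne z hne2, if_pos (show (ofLex i).1 < al from hi)]
    exact rho_ne _ z hne
  have e2 : G ((s.comp ρ).1 z) = G (s.1 (zo al be γ z)) :=
    hG _ _ fun i hi => below_dep s e1 i (hA hi)
  rw [e2] at hz
  refine h1 _ t hz ?_
  have e3 : ((q.comp (s.comp ρ)).1 z (xI γ) : ℕ → Bool) =
      (q.comp s).1 (zo al be γ z) (xI be) := by
    have e4 : (q.comp (s.comp ρ)).1 z = (q.comp s).1 (ρ.1 z) := rfl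
    rw [e4]
    exact (hA1.off _ _ hγA).trans (rho_γ _ al be γ z)
  rw [e3] at hext
  exact hext

end transfer

section compact

/-- neighbourhoods in the Cantor space -/
theorem exists_pre_subset {O : Set (ℕ → Bool)} (hO : IsOpen O) {y : ℕ → Bool} (hy : y ∈ O) :
    ∃ l, ∀ y', Ext (pre y l) y' → y' ∈ O := by
  obtain ⟨F, u, hu, hF⟩ := isOpen_pi_iff.1 hO y hy
  refine ⟨F.sup _root_.id + 1, fun y' hy' => hF ?_⟩
  intro i hi
  have h1 : i < F.sup _root_.id + 1 :=
    Nat.lt_succ_of_le (Finset.le_sup (f := _root_.id) hi)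
  have h2 : y' i = y i := by
    have h3 := hy' i (by rw [length_pre]; exact h1)
    rw [h3]
    simp [pre]
  rw [h2]
  exact (hu i hi).2

/-- compactness of the Cantor space, for sets of strings -/
theorem exists_bar (S : Set (List Bool)) (h : ∀ y : ℕ → Bool, ∃ s ∈ S, Ext s y) :
    ∃ N, ∀ t : List Bool, t.length = N → ∃ s ∈ S, s <+: t := by
  by_contra hcon
  push Not at hcon
  set F : ℕ → Set (ℕ → Bool) := fun N => {y | ∀ s ∈ S, s.length ≤ N → ¬ Ext s y} with hF
  have hclosed : ∀ N, IsClosed (F N) := by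
    intro N
    have e : F N = (⋃ s ∈ {s : List Bool | s ∈ S ∧ s.length ≤ N}, {y : ℕ → Bool | Ext s y})ᶜ := by
      ext y
      simp only [hF, mem_setOf_eq, mem_compl_iff, mem_iUnion, not_exists, and_imp]
    rw [e, isClosed_compl_iff]
    exact isOpen_biUnion fun s _ => (isClopen_ext s).isOpen
  have hne : ∀ N, (F N).Nonempty := by
    intro N
    obtain ⟨t, ht, ht2⟩ := hcon N
    obtain ⟨y, hy⟩ := exists_ext t
    refine ⟨y, fun s hs hl he => ht2 s hs ((he.le_iff hy).2 (by omega))⟩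
  obtain ⟨y, hy⟩ := IsCompact.nonempty_iInter_of_sequence_nonempty_isCompact_isClosed F
    (fun N y hy s hs hl => hy s hs (by omega)) hne (hclosed 0).isCompact hclosed
  obtain ⟨s, hs, he⟩ := h y
  exact (mem_iInter.1 hy s.length) s hs le_rfl he

variable {J : Type} [LinearOrder J]

open Classical in
/-- replace the x-coordinates from `al` on -/
noncomputable def mix (al : J) (w : W (alph J)) (u : J → ℕ → Bool) : W (alph J) :=
  ixRec (motive := fun i => ℕ → alph J i)
    (fun j => if j < al then (w (xI j) : ℕ → Bool) else u j) (fun j => w (mI j))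

theorem mix_lt {al : J} (w : W (alph J)) (u : J → ℕ → Bool) {j : J} (h : j < al) :
    (mix al w u (xI j) : ℕ → Bool) = w (xI j) := by
  classical
  show (if j < al then (w (xI j) : ℕ → Bool) else u j) = _
  rw [if_pos h]

theorem mix_ge {al : J} (w : W (alph J)) (u : J → ℕ → Bool) {j : J} (h : ¬ j < al) :
    (mix al w u (xI j) : ℕ → Bool) = u j := by
  classical
  show (if j < al then (w (xI j) : ℕ → Bool) else u j) = _
  rw [if_neg h]

theorem mix_below {al : J} (w : W (alph J)) (u : J → ℕ → Bool) :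
    ∀ i ∈ below al, mix al w u i = w i := by
  intro i
  refine ixRec (motive := fun i => i ∈ below al → mix al w u i = w i) ?_ ?_ i
  · intro j hj
    exact mix_lt w u hj
  · intro j _
    rfl

theorem mix_self (al : J) (w : W (alph J)) : mix al w (fun j => w (xI j)) = w := by
  funext i
  refine ixRec (motive := fun i => mix al w (fun j => w (xI j)) i = w i) ?_ ?_ i
  · intro j
    by_cases h : j < al
    · exact mix_lt w _ h
    · exact mix_ge w _ h
  · intro j
    rfl

theorem continuous_mix (al : J) :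
    Continuous fun p : W (alph J) × (J → ℕ → Bool) => mix al p.1 p.2 := by
  refine continuous_pi fun i => ?_
  refine ixRec (motive := fun i => Continuous
    fun p : W (alph J) × (J → ℕ → Bool) => mix al p.1 p.2 i) ?_ ?_ i
  · intro j
    show Continuous fun p : W (alph J) × (J → ℕ → Bool) => (mix al p.1 p.2 (xI j) : ℕ → Bool)
    by_cases h : j < al
    · have e : (fun p : W (alph J) × (J → ℕ → Bool) => (mix al p.1 p.2 (xI j) : ℕ → Bool)) =
          fun p => (p.1 (xI j) : ℕ → Bool) := by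
        funext p; exact mix_lt p.1 p.2 h
      rw [e]
      exact (continuous_apply (xI j)).comp continuous_fst
    · have e : (fun p : W (alph J) × (J → ℕ → Bool) => (mix al p.1 p.2 (xI j) : ℕ → Bool)) =
          fun p => p.2 j := by
        funext p; exact mix_ge p.1 p.2 h
      rw [e]
      exact (continuous_apply j).comp continuous_snd
  · intro j
    show Continuous fun p : W (alph J) × (J → ℕ → Bool) => p.1 (mI j)
    exact (continuous_apply (mI j)).comp continuous_fst

/-- the strings excluded by the compact set of the possible values of `q` at `x be` -/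
def Bs (q : Mo J) (al be : J) (w : W (alph J)) : Set (List Bool) :=
  {t | ∀ u, ¬ Ext t (q.1 (mix al w u) (xI be) : ℕ → Bool)}

theorem continuous_val (q : Mo J) (al be : J) :
    Continuous fun p : W (alph J) × (J → ℕ → Bool) =>
      (q.1 (mix al p.1 p.2) (xI be) : ℕ → Bool) :=
  (continuous_apply (xI be)).comp ((mo_cont q).comp (continuous_mix al))

theorem isClopen_Bs (q : Mo J) (al be : J) (t : List Bool) :
    IsClopen {w : W (alph J) | t ∈ Bs q al be w} := by
  set S : Set (W (alph J) × (J → ℕ → Bool)) :=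
    {p | Ext t (q.1 (mix al p.1 p.2) (xI be) : ℕ → Bool)} with hS
  have hSc : IsClopen S := (isClopen_ext t).preimage (continuous_val q al be)
  have e : {w : W (alph J) | t ∈ Bs q al be w} = (Prod.fst '' S)ᶜ := by
    ext w
    simp only [Bs, mem_setOf_eq, mem_compl_iff, mem_image, Prod.exists, exists_and_right,
      exists_eq_right, not_exists]
    exact Iff.rfl
  rw [e]
  exact IsClopen.compl ⟨isClosedMap_fst_of_compactSpace _ hSc.isClosed,
    isOpenMap_fst _ hSc.isOpen⟩

theorem Bs_dep (q : Mo J) {al be : J} (hal : al ≤ be) {A2 : Set (Ix J)}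
    (hA2 : IsMor (dep J) A2 q.1)
    {w w' : W (alph J)} (h : ∀ i ∈ A2 ∩ below al, w i = w' i) : Bs q al be w = Bs q al be w' := by
  have e : ∀ u, (q.1 (mix al w u) (xI be) : ℕ → Bool) = q.1 (mix al w' u) (xI be) := by
    intro u
    by_cases hbe : xI be ∈ A2
    · apply hA2.tri _ hbe
      intro i' hi'A hi'
      have hx : ∃ j, i' = xI j := by
        rcases hi' with hi' | rfl
        · obtain ⟨j, hj, _⟩ := dep_xI hi'; exact ⟨j, hj⟩
        · exact ⟨be, rfl⟩
      obtain ⟨j, rfl⟩ := hx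
      by_cases hj : j < al
      · exact (mix_lt w u hj).trans ((h _ ⟨hi'A, hj⟩).trans (mix_lt w' u hj).symm)
      · exact (mix_ge w u hj).trans (mix_ge w' u hj).symm
    · rw [hA2.off _ _ hbe, hA2.off _ _ hbe]
      have hj : ¬ be < al := not_lt.2 hal
      exact (mix_ge w u hj).trans (mix_ge w' u hj).symm
  ext t
  simp only [Bs, mem_setOf_eq, e]

end compact

section names

variable {J : Type} [LinearOrder J]

theorem Bs_cover (q : Mo J) (al be : J) (w : W (alph J)) (y : ℕ → Bool)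
    (hy : ¬ ∃ u, (q.1 (mix al w u) (xI be) : ℕ → Bool) = y) :
    ∃ t ∈ Bs q al be w, Ext t y := by
  have hc : Continuous fun u : J → ℕ → Bool => (q.1 (mix al w u) (xI be) : ℕ → Bool) :=
    (continuous_val q al be).comp (Continuous.prodMk_right w)
  have hcl : IsClosed (Set.range fun u : J → ℕ → Bool =>
      (q.1 (mix al w u) (xI be) : ℕ → Bool)) := (isCompact_range hc).isClosed
  obtain ⟨l, hl⟩ := exists_pre_subset hcl.isOpen_compl (y := y) (fun ⟨u, hu⟩ => hy ⟨u, hu⟩)
  exact ⟨pre y l, fun u hu => hl _ hu ⟨u, rfl⟩, ext_pre l⟩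

/-- the name of the set of strings given by a restricted condition and a continuous function -/
def nm (pa : Mo J) (B : W (alph J) → Set ℕ) (t : List Bool) : Set (Mo J) :=
  {p' | ∃ s' : Mo J, p'.1 = pa.1 ∘ s'.1 ∧ ∀ z, Encodable.encode t ∈ B (s'.1 z)}

/-- the set valued function of numbers coding `Bs` -/
def Bn (q : Mo J) (al be : J) (w : W (alph J)) : Set ℕ :=
  {m | ∃ t ∈ Bs q al be w, Encodable.encode t = m}

theorem mem_Bn {q : Mo J} {al be : J} {w : W (alph J)} {t : List Bool} :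
    Encodable.encode t ∈ Bn q al be w ↔ t ∈ Bs q al be w := by
  constructor
  · rintro ⟨t', h1, h2⟩
    rwa [← Encodable.encode_injective h2]
  · intro h
    exact ⟨t, h, rfl⟩

theorem contS_Bn (q : Mo J) (al be : J) : ContS (Bn q al be) := by
  intro m
  by_cases h : ∃ t : List Bool, Encodable.encode t = m
  · obtain ⟨t, rfl⟩ := h
    have e : {z | Encodable.encode t ∈ Bn q al be z} = {z | t ∈ Bs q al be z} := by
      ext z
      exact mem_Bn
    rw [e]
    exact isClopen_Bs q al be t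
  · have e : {z | m ∈ Bn q al be z} = ∅ := by
      ext z
      constructor
      · rintro ⟨t, _, ht⟩
        exact absurd ⟨t, ht⟩ h
      · intro h'
        exact absurd h' (by simp)
    rw [e]
    exact isClopen_empty

variable [WellFoundedLT J]

theorem mo_inj (q : Mo J) : Function.Injective q.1 := by
  obtain ⟨A, _, h⟩ := q.2
  haveI : WellFoundedLT (Ix J) := inferInstance
  exact h.injective dep_lt

/-- the quotient of a condition by its restriction is the identity below -/
theorem quot_id {al : J} {qs pa rs : Mo J} (hpa : pa.1 = resF (below al) qs.1)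
    (hrs : qs.1 = pa.1 ∘ rs.1) (w : W (alph J)) : ∀ i ∈ below al, rs.1 w i = w i := by
  classical
  have hin : ∀ (z : W (alph J)) i, i ∈ below al → pa.1 z i = qs.1 z i := by
    intro z i hi
    rw [hpa]
    exact if_pos hi
  have hout : ∀ (z : W (alph J)) i, i ∉ below al → pa.1 z i = z i := by
    intro z i hi
    rw [hpa]
    exact if_neg hi
  set z' : W (alph J) := fun i => if i ∈ below al then rs.1 w i else w i with hz'
  have h1 : ∀ i ∈ below al, z' i = rs.1 w i := fun i hi => if_pos hi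
  have h2 : pa.1 z' = pa.1 w := by
    funext i
    by_cases hi : i ∈ below al
    · rw [below_dep pa h1 i hi, hin w i hi]
      have : pa.1 (rs.1 w) = qs.1 w := (congrFun hrs w).symm
      rw [this]
    · rw [hout _ i hi, hout _ i hi]
      exact if_neg hi
  have h3 : z' = w := mo_inj pa h2
  intro i hi
  rw [← h1 i hi, h3]

/-- N1 -/
theorem mem_nm {al : J} {qs pa rs : Mo J} (hrs : qs.1 = pa.1 ∘ rs.1)
    (hid : ∀ w, ∀ i ∈ below al, rs.1 w i = w i) {B : W (alph J) → Set ℕ} {A : Set (Ix J)}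
    (hB : DepOn A B) (hA : A ⊆ below al) {t : List Bool} (s1 : Mo J)
    (h : ∀ z, Encodable.encode t ∈ B (s1.1 z)) : qs.comp s1 ∈ nm pa B t := by
  refine ⟨rs.comp s1, ?_, fun z => ?_⟩
  · show qs.1 ∘ s1.1 = pa.1 ∘ (rs.1 ∘ s1.1)
    rw [hrs]
    rfl
  · have e : B ((rs.comp s1).1 z) = B (s1.1 z) := hB _ _ fun i hi => hid _ i (hA hi)
    rw [e]
    exact h z

/-- N2 -/
theorem of_meets_nm {al : J} {qs pa rs : Mo J} (hrs : qs.1 = pa.1 ∘ rs.1)
    (hid : ∀ w, ∀ i ∈ below al, rs.1 w i = w i) {B : W (alph J) → Set ℕ} {A : Set (Ix J)}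
    (hB : DepOn A B) (hA : A ⊆ below al) {t : List Bool} (s1 : Mo J)
    (h : qs.comp s1 ∈ meets (nm pa B t)) :
    ∃ s4 : Mo J, qs.comp s4 ≤ qs.comp s1 ∧ ∀ z, Encodable.encode t ∈ B (s4.1 z) := by
  obtain ⟨r2, ⟨τ, hτ⟩, s2, ⟨s', hs', hs''⟩, ⟨σ, hσ⟩⟩ := h (qs.comp s1) le_rfl
  refine ⟨s1.comp τ, ⟨τ, rfl⟩, fun z => ?_⟩
  have e1 : pa.1 (s'.1 (σ.1 z)) = pa.1 (rs.1 (s1.1 (τ.1 z))) := by
    have h1 : r2.1 z = pa.1 (s'.1 (σ.1 z)) := by rw [hσ, hs']; rfl
    have h2 : r2.1 z = pa.1 (rs.1 (s1.1 (τ.1 z))) := by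
      rw [hτ]
      show qs.1 (s1.1 (τ.1 z)) = _
      rw [hrs]
      rfl
    rw [← h1, h2]
  have e2 := mo_inj pa e1
  have e3 : B (s'.1 (σ.1 z)) = B ((s1.comp τ).1 z) := by
    rw [e2]
    exact hB _ _ fun i hi => hid _ i (hA hi)
  rw [← e3]
  exact hs'' _

end names

section case2

variable {J : Type} [LinearOrder J] [WellFoundedLT J]

/-- the second half of (c2) -/
theorem part2 {a : ℕ → List Bool → Set (Mo J)} {G : W (alph J) → Set (ℕ × List Bool)}
    {q : Mo J} (hc : ContS G)
    (ht : ∀ (s : Mo J) n t, q.comp s ∈ meets (a n t) ↔ ∀ z, (n, t) ∈ G (s.1 z))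
    {A : Set (Ix J)} {al be : J} (hG : DepOn A G) (hA : A ⊆ below al) {ss pa rs : Mo J}
    (hrs : (q.comp ss).1 = pa.1 ∘ rs.1)
    (hid : ∀ w, ∀ i ∈ below al, rs.1 w i = w i) {A2 : Set (Ix J)}
    (hB : DepOn A2 (Bn (q.comp ss) al be)) (hA2 : A2 ⊆ below al)
    (hin : ∀ z n, ∃ t, (n, t) ∈ G (ss.1 z) ∧ Ext t ((q.comp ss).1 z (xI be) : ℕ → Bool))
    {b : List Bool → Set (Mo J)} (hb : b = nm pa (Bn (q.comp ss) al be)) :
    q.comp ss ∈ fall fun n : ℕ => fex fun N : ℕ => fall fun t : List Bool =>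
      fimp (fground (t.length = N))
        (fex fun s : List Bool => fand (fground (s <+: t))
          (forr (meets (a n s)) (meets (b s)))) := by
  classical
  intro n
  rw [mem_fex]
  rintro q1 ⟨s1, hs1⟩
  have hq1 : q1 = (q.comp ss).comp s1 := Subtype.ext hs1
  set z0 : W (alph J) := fun i _ => default with hz0
  set S : Set (List Bool) := {s | (n, s) ∈ G (ss.1 (s1.1 z0)) ∨
    s ∈ Bs (q.comp ss) al be (s1.1 z0)} with hS
  have hcov : ∀ y : ℕ → Bool, ∃ s ∈ S, Ext s y := by
    intro y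
    by_cases hy : ∃ u, ((q.comp ss).1 (mix al (s1.1 z0) u) (xI be) : ℕ → Bool) = y
    · obtain ⟨u, hu⟩ := hy
      obtain ⟨t, ht1, ht2⟩ := hin (mix al (s1.1 z0) u) n
      refine ⟨t, Or.inl ?_, ?_⟩
      · have e : G (ss.1 (mix al (s1.1 z0) u)) = G (ss.1 (s1.1 z0)) :=
          hG _ _ fun i hi => below_dep ss (mix_below (s1.1 z0) u) i (hA hi)
        rw [← e]
        exact ht1
      · rw [← hu]
        exact ht2
    · obtain ⟨t, ht1, ht2⟩ := Bs_cover (q.comp ss) al be (s1.1 z0) y hy
      exact ⟨t, Or.inr ht1, ht2⟩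
  obtain ⟨N, hN⟩ := exists_bar S hcov
  have hloc : ∀ t : List Bool, ∃ U : Set (W (alph J)), IsOpen U ∧ z0 ∈ U ∧
      (t.length = N → ∃ s, s <+: t ∧ ((∀ z ∈ U, (n, s) ∈ G (ss.1 (s1.1 z))) ∨
        (∀ z ∈ U, s ∈ Bs (q.comp ss) al be (s1.1 z)))) := by
    intro t
    by_cases hl : t.length = N
    · obtain ⟨s, hs, hst⟩ := hN t hl
      rcases hs with hs | hs
      · exact ⟨{z | (n, s) ∈ G (ss.1 (s1.1 z))},
          ((hc (n, s)).preimage ((mo_cont ss).comp (mo_cont s1))).isOpen, hs,
          fun _ => ⟨s, hst, Or.inl fun z hz => hz⟩⟩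
      · exact ⟨{z | s ∈ Bs (q.comp ss) al be (s1.1 z)},
          ((isClopen_Bs (q.comp ss) al be s).preimage (mo_cont s1)).isOpen, hs,
          fun _ => ⟨s, hst, Or.inr fun z hz => hz⟩⟩
    · exact ⟨univ, isOpen_univ, mem_univ _, fun h => absurd h hl⟩
  choose U hU1 hU2 hU3 using hloc
  have hfin : {t : List Bool | t.length = N}.Finite := List.finite_length_eq Bool N
  have hUo : IsOpen (⋂ t ∈ {t : List Bool | t.length = N}, U t) :=
    hfin.isOpen_biInter fun t _ => hU1 t
  obtain ⟨c, hcell⟩ := exists_cell_io hUo (z := z0) (by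
    simp only [mem_iInter]
    exact fun t _ => hU2 t)
  refine ⟨q1.comp (io c), Mo.comp_le _ _, N, fun t => ?_⟩
  rw [mem_fimp]
  intro r' hr' hlen
  have hlen' : t.length = N := hlen
  refine ⟨r', le_rfl, ?_⟩
  obtain ⟨s, hst, hs⟩ := hU3 t hlen'
  have hcU : ∀ z, iota c z ∈ U t := by
    intro z
    have := hcell z
    simp only [mem_iInter] at this
    exact this t hlen'
  refine mem_fex_of_mem (i := s) (down_fand (down_fground _) (down_fnot _)) ⟨hst, ?_⟩
  intro r'' hr'' hcon
  rcases hs with hs | hs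
  · have h1 : q1.comp (io c) ∈ meets (a n s) := by
      rw [hq1, mo_comp_assoc, mo_comp_assoc]
      exact (ht (ss.comp (s1.comp (io c))) n s).2 fun z => hs _ (hcU z)
    exact hcon.1 r'' le_rfl (down_meets _ _ h1 _ (hr''.trans hr'))
  · have h1 : q1.comp (io c) ∈ meets (b s) := by
      apply meets_of_mem
      rw [hb, hq1, mo_comp_assoc]
      exact mem_nm hrs hid hB hA2 (s1.comp (io c)) fun z => mem_Bn.2 (hs _ (hcU z))
    exact hcon.2 r'' le_rfl (down_meets _ _ h1 _ (hr''.trans hr'))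

/-- the first half of (c2) -/
theorem part1 {qs pa rs : Mo J} {al be : J} (hrs : qs.1 = pa.1 ∘ rs.1)
    (hid : ∀ w, ∀ i ∈ below al, rs.1 w i = w i) {A2 : Set (Ix J)}
    (hB : DepOn A2 (Bn qs al be)) (hA2 : A2 ⊆ below al)
    {b : List Bool → Set (Mo J)} (hb : b = nm pa (Bn qs al be)) :
    qs ∈ fall fun s : List Bool => fimp (meets (b s)) (fnot (FSeg s (xN be))) := by
  intro t
  rw [mem_fimp]
  rintro r ⟨s1, hs1⟩ hr
  have hr1 : r = qs.comp s1 := Subtype.ext hs1
  rw [hb, hr1] at hr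
  obtain ⟨s4, h4, h5⟩ := of_meets_nm hrs hid hB hA2 s1 hr
  refine ⟨qs.comp s4, by rw [hr1]; exact h4, notFSeg_of fun z hext => ?_⟩
  have h6 := mem_Bn.1 (h5 z) (fun j => s4.1 z (xI j))
  rw [mix_self] at h6
  exact h6 hext

end case2

theorem JJ_nonempty : Nonempty JJ := by
  rw [← not_isEmpty_iff]
  intro he
  have h1 : (Order.succ Cardinal.continuum.{0}).ord = 0 := by
    by_contra h
    have := Ordinal.nonempty_toType_iff.2 h
    exact he.false this.some
  rw [Cardinal.ord_eq_zero] at h1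
  exact (Order.succ_ne_bot _) (by rw [h1]; rfl)

theorem bounded (hrefl : SRefl) (C : Set JJ) (hC : C.Countable) : ∃ β : JJ, ∀ c ∈ C, c < β := by
  haveI : Countable C := hC.to_subtype
  obtain ⟨β, -, h1, -⟩ := hrefl C (fun _ => ∅) (fun t => {t.1}) (fun _ => countable_empty)
    (fun _ => countable_singleton _)
    (fun α => (Cardinal.mk_le_aleph0).trans Cardinal.aleph0_le_continuum) JJ_nonempty.some
  exact ⟨β, fun c hc => h1 ⟨c, hc⟩ (empty_subset _) rfl⟩

theorem bounded_below (hrefl : SRefl) (A : Set (Ix JJ)) (hA : A.Countable) :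
    ∃ al : JJ, A ⊆ below al := by
  obtain ⟨β, hβ⟩ := bounded hrefl _ (hA.image fun i => (ofLex i).1)
  exact ⟨β, fun i hi => hβ _ ⟨i, hi, rfl⟩⟩

/-- codes of names -/
abbrev Cd (β : JJ) : Type :=
  {t : Set (Ix JJ) × Mo JJ // t.1.Countable ∧ t.1 ⊆ below β ∧ IsMor (dep JJ) t.1 t.2.1} ×
  {t : Set (Ix JJ) × (W (alph JJ) → Set ℕ) // t.1.Countable ∧ t.1 ⊆ below β ∧
    ContS t.2 ∧ DepOn t.1 t.2}

theorem exists_codes (h1 : SCount1) (h2 : SCount2) (β : JJ) :
    ∃ b : RR → List Bool → Set (Mo JJ), ∀ cd : Cd β, ∃ l, b l = nm cd.1.1.2 cd.2.1.2 := by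
  classical
  have hle : Cardinal.mk (Cd β) ≤ Cardinal.mk RR := by
    rw [Cardinal.mk_set_nat]
    calc Cardinal.mk (Cd β) = _ := Cardinal.mk_prod _ _
      _ ≤ Cardinal.continuum * Cardinal.continuum := by
        rw [Cardinal.lift_id, Cardinal.lift_id]
        exact mul_le_mul' (h1 β) (h2 β)
      _ = Cardinal.continuum := Cardinal.continuum_mul_self
  obtain ⟨emb⟩ := (Cardinal.le_def _ _).1 hle
  refine ⟨fun l => if h : ∃ cd, emb cd = l then nm h.choose.1.1.2 h.choose.2.1.2 else fun _ => ∅,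
    fun cd => ⟨emb cd, ?_⟩⟩
  have h : ∃ cd', emb cd' = emb cd := ⟨cd, rfl⟩
  have h3 : h.choose = cd := emb.injective h.choose_spec
  show (if h : ∃ cd', emb cd' = emb cd then nm h.choose.1.1.2 h.choose.2.1.2
    else fun _ => ∅) = _
  rw [dif_pos h, h3]

end P4c

open P4c P2 in
theorem p4c_proof (hread : SRead) (htruth : STruth) (hsf : SSF) (hrefl : SRefl)
    (hrestr : SRestr) (hcount1 : SCount1) (hcount2 : SCount2) : SP4c := by
  classical
  intro par hg p a
  rintro q0 - ⟨hn1, hn2⟩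
  -- the least coordinate
  have hwf : WellFoundedLT JJ := inferInstance
  obtain ⟨j0, -, hj0'⟩ := (hwf.wf).has_min univ ⟨JJ_nonempty.some, mem_univ _⟩
  have hj0 : ∀ j, j0 ≤ j := fun j => not_lt.1 (hj0' j (mem_univ _))
  obtain ⟨q, hq0, A, G, hAc, hqA, hG, hR, -⟩ := hread JJ inferInstance inferInstance j0 hj0
    (ℕ × List Bool) inferInstance (fun x => a x.1 x.2) (fun _ => univ)
    (fun _ _ _ _ _ => mem_univ _) (fun _ p => ⟨p, le_rfl, mem_univ _⟩) q0
  obtain ⟨hc, htr⟩ := htruth JJ inferInstance inferInstance (ℕ × List Bool) q _ G hR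
  have ht : ∀ (s : Mo JJ) n t, q.comp s ∈ meets (a n t) ↔ ∀ z, (n, t) ∈ G (s.1 z) :=
    fun s n t => ((htr s).2 (n, t)).1
  obtain ⟨al, hal⟩ := bounded_below hrefl A hAc
  by_cases hcase : ∃ q' ≤ q, ∃ be, al ≤ be ∧ ∃ n, q' ∈ Ph a n be
  · -- case 1
    obtain ⟨q', hq', be, hbe, n, hPh⟩ := hcase
    refine hn1 q' (hq'.trans hq0) fun v => ?_
    rw [mem_fex]
    rintro q1 hq1
    obtain ⟨s, hs⟩ := hq1.trans hq'
    have hqs : q1 = q.comp s := Subtype.ext hs
    have hPh1 : q.comp s ∈ Ph a n be := by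
      rw [← hqs]
      exact down_Ph a n be _ hPh _ hq1
    obtain ⟨A1, hA1c, hA1⟩ := (q.comp s).2
    obtain ⟨β1, hβ1⟩ := bounded_below hrefl A1 hA1c
    obtain ⟨γ, hγ, hpar⟩ := hg.unb (max be β1) v
    have hγA : xI γ ∉ A1 := fun h =>
      absurd (show γ < β1 from hβ1 h) (not_lt.2 ((le_max_right _ _).trans (le_of_lt hγ)))
    obtain ⟨r, hr, hr'⟩ := transfer hc ht hG hal s hbe ((le_max_left _ _).trans (le_of_lt hγ))
      hA1 hγA hPh1
    refine ⟨r, by rw [hqs]; exact hr, γ, hpar, ?_⟩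
    exact mem_fex_of_mem (i := n) (down_Ph a n γ) hr'
  · -- case 2
    obtain ⟨b, hb⟩ := exists_codes hcount1 hcount2 al
    refine hn2 q hq0 ?_
    refine mem_fex_of_mem (i := al) (down_fex _) ?_
    refine mem_fex_of_mem (i := b) (down_fall fun _ => down_fimp _ _) ?_
    intro be
    rw [mem_fimp]
    intro q' hq' hle
    have hle' : al ≤ be := hle
    obtain ⟨s, hs⟩ := hq'
    have hqs : q' = q.comp s := Subtype.ext hs
    -- dense open sets
    obtain ⟨f, hf, hfU⟩ := hsf JJ inferInstance inferInstance j0 hj0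
      (fun n => {z | ∃ t, (n, t) ∈ G (s.1 z) ∧ Ext t ((q.comp s).1 z (xI be) : ℕ → Bool)})
      (by
        intro n
        have e : {z | ∃ t, (n, t) ∈ G (s.1 z) ∧
            Ext t ((q.comp s).1 z (xI be) : ℕ → Bool)} =
            ⋃ t : List Bool, ({z | (n, t) ∈ G (s.1 z)} ∩
              {z | Ext t ((q.comp s).1 z (xI be) : ℕ → Bool)}) := by
          ext z
          simp only [mem_setOf_eq, mem_iUnion, mem_inter_iff]
        rw [e]
        exact isOpen_iUnion fun t => ((hc (n, t)).preimage (mo_cont s)).isOpen.inter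
          (isClopen_xt (q.comp s) t be).isOpen)
      (by
        intro n
        rw [dense_iff_inter_open]
        rintro O hO ⟨z, hz⟩
        obtain ⟨c, hcO⟩ := exists_cell_io hO hz
        by_contra hemp
        rw [not_nonempty_iff_eq_empty] at hemp
        apply hcase
        refine ⟨(q.comp s).comp (io c), (Mo.comp_le _ _).trans (Mo.comp_le _ _), be, hle', n, ?_⟩
        rw [mo_comp_assoc, ph_iff hc ht (s.comp (io c)) n be]
        intro z' t h1 h2
        have : iota c z' ∈ O ∩ {z | ∃ t, (n, t) ∈ G (s.1 z) ∧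
            Ext t ((q.comp s).1 z (xI be) : ℕ → Bool)} := ⟨hcO z', t, h1, h2⟩
        rw [hemp] at this
        exact absurd this (by simp))
    set fs : Mo JJ := ⟨f, hf⟩ with hfs
    set ss : Mo JJ := s.comp fs with hss
    have hin : ∀ z n, ∃ t, (n, t) ∈ G (ss.1 z) ∧
        Ext t ((q.comp ss).1 z (xI be) : ℕ → Bool) := fun z n => hfU n z
    obtain ⟨pa, hpa, ⟨Apa, hApa1, hApa2, hApa3⟩, ⟨rs, hrs⟩, -, -⟩ :=
      hrestr JJ inferInstance inferInstance al (q.comp ss)
    have hid := quot_id hpa hrs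
    obtain ⟨A2, hA2c, hA2⟩ := (q.comp ss).2
    have hdep : DepOn (A2 ∩ below al) (Bn (q.comp ss) al be) := by
      intro z z' h
      ext m
      simp only [Bn, mem_setOf_eq, Bs_dep (q.comp ss) hle' hA2 h]
    obtain ⟨l, hl⟩ := hb ⟨⟨(Apa, pa), hApa1, hApa2, hApa3⟩,
      ⟨(A2 ∩ below al, Bn (q.comp ss) al be), hA2c.mono inter_subset_left, inter_subset_right,
        contS_Bn _ _ _, hdep⟩⟩
    have hl' : b l = nm pa (Bn (q.comp ss) al be) := hl
    have hle2 : q.comp ss ≤ q' := by
      rw [hqs, hss, ← mo_comp_assoc]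
      exact Mo.comp_le _ _
    refine ⟨q.comp ss, hle2, ?_⟩
    refine mem_fex_of_mem (i := l) (down_fand (down_fall fun _ => down_fimp _ _)
      (down_fall fun _ => down_fex _)) ⟨?_, ?_⟩
    · exact part1 hrs hid hdep inter_subset_right hl'
    · exact part2 hc ht hG hal hrs hid hdep inter_subset_right hin hl'

end Pool.Agent.H554
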