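import Pool.Agent.H554.Basic
import Pool.Agent.H554.FStmts

/-!
# Reading names (FL)
-/

set_option autoImplicit false

namespace Pool.Agent.H554

open Pool.Agent.Helper669.Forcing Set

namespace Read

variable {J : Type} [LinearOrder J]

theorem cell_mem_of {c : Cell (alph J)} {A : Set (Ix J)} (hc : c.supp ⊆ A) {z z' : W (alph J)}
    (h : ∀ i ∈ A, z i = z' i) (hz : c.Mem z) : c.Mem z' := by
  intro i
  by_cases hi : c.val i = []
  · rw [hi]; exact ext_nil
  · rw [← h i (hc hi)]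
    exact hz i

/-- the sets deciding the name -/
def dec {X : Type} (ι : X → ℕ) (C : X → Set (Mo J)) (O : ℕ → Set (Mo J)) (n : ℕ) :
    Set (Mo J) :=
  if n % 2 = 0 then O (n / 2) else
    {r | ∀ x, ι x = n / 2 → (r ∈ meets (C x) ∨ r ∈ fnot (meets (C x)))}

theorem dec_down {X : Type} (ι : X → ℕ) (C : X → Set (Mo J)) (O : ℕ → Set (Mo J))
    (hO : ∀ n, Down (O n)) (n : ℕ) : Down (dec ι C O n) := by
  unfold dec
  split_ifs
  · exact hO _
  · intro p hp q hq x hx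
    rcases hp x hx with h | h
    · exact Or.inl (down_meets _ p h q hq)
    · exact Or.inr (down_fnot _ p h q hq)

theorem dec_dense {X : Type} {ι : X → ℕ} (hι : Function.Injective ι) (C : X → Set (Mo J))
    (O : ℕ → Set (Mo J)) (hO : ∀ n (p : Mo J), ∃ q ≤ p, q ∈ O n) (n : ℕ) (p : Mo J) :
    ∃ q ≤ p, q ∈ dec ι C O n := by
  unfold dec
  split_ifs
  · exact hO _ p
  · by_cases hx : ∃ x, ι x = n / 2
    · obtain ⟨x, hx⟩ := hx
      by_cases h : ∃ q ≤ p, q ∈ meets (C x)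
      · obtain ⟨q, hq, hq'⟩ := h
        refine ⟨q, hq, fun y hy => ?_⟩
        rw [hι (hy.trans hx.symm)]
        exact Or.inl hq'
      · refine ⟨p, le_rfl, fun y hy => ?_⟩
        rw [hι (hy.trans hx.symm)]
        exact Or.inr fun q hq hq' => h ⟨q, hq, hq'⟩
    · exact ⟨p, le_rfl, fun y hy => absurd ⟨y, hy⟩ hx⟩

end Read

open Read in
theorem read_proof (hfus : SFusion) (hsch : SScheme) : SRead := by
  classical
  intro J _ _ j0 hj0 X _ C O hOd hOdense p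
  obtain ⟨ι, hι⟩ := Countable.exists_injective_nat X
  set D : ℕ → Set (Mo J) := dec ι C O with hD
  have hDd : ∀ n, Down (D n) := dec_down ι C O hOd
  have hDdense : ∀ n (p : Mo J), ∃ q ≤ p, q ∈ D n := dec_dense hι C O hOdense
  haveI : WellFoundedLT (Ix J) := inferInstance
  obtain ⟨F, A0, hA0, hF, hkey⟩ := hfus (Ix J) inferInstance inferInstance (alph J)
    (fun i => inferInstance) (fun i => inferInstance) (fun i => inferInstance)
    (fun i => inferInstance) (dep J) dep_lt dep_trans (mI j0)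
    (fun A hA h => hsch J inferInstance inferInstance j0 hj0 A hA h)
    {f | IsMorC (dep J) f} (fun f hf => hf) (fun f hf g hg => hf.comp dep_trans hg)
    (fun c => isMorC_iota c)
    (fun c r hr => by
      obtain ⟨B, hB, hr⟩ := hr
      exact ⟨c.supp ∪ B, c.fin.countable.union hB,
        isMor_glue dep_trans (fun i h => lt_irrefl i (dep_lt i i h)) c hr⟩)
    (fun n => {f | ∃ h : IsMorC (dep J) f, (⟨f, h⟩ : Mo J) ∈ D n})
    (fun n f hf => by
      obtain ⟨q, ⟨r, hr⟩, hq⟩ := hDdense n ⟨f, hf⟩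
      refine ⟨r.1, r.2, ?_⟩
      have h1 : f ∘ r.1 = q.1 := hr.symm
      rw [h1]
      exact ⟨q.2, hq⟩)
    (fun n f _ ⟨h1, h2⟩ r hr =>
      ⟨h1.comp dep_trans hr, hDd n _ h2 _ ⟨⟨r, hr⟩, rfl⟩⟩)
    p.1 p.2
  obtain ⟨B, hB, hpB⟩ := p.2
  set q : Mo J := ⟨p.1 ∘ F, p.2.comp dep_trans ⟨A0, hA0, hF⟩⟩ with hq
  set A : Set (Ix J) := B ∪ A0 with hA
  have hAc : A.Countable := hB.union hA0
  have hqA : IsMor (dep J) A q.1 := by
    have h := IsMor.comp dep_trans hpB hF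
    exact h
  have hcell : ∀ (z : W (alph J)) (n : ℕ), ∃ c : Cell (alph J), c.supp ⊆ A ∧ c.Mem z ∧
      ∀ r : Mo J, r.1 = q.1 ∘ iota c → r ∈ D n := by
    intro z n
    obtain ⟨c, hc1, hc2, o, ⟨ho1, ho2⟩, g, hg, he⟩ := hkey z n
    refine ⟨c, hc1.trans subset_union_right, hc2, fun r hr => ?_⟩
    exact hDd n _ ho2 r ⟨⟨g, hg⟩, hr.trans he⟩
  have hqc : ∀ c : Cell (alph J), ∃ r : Mo J, r.1 = q.1 ∘ iota c :=
    fun c => ⟨q.comp ⟨iota c, isMorC_iota c⟩, rfl⟩
  set G : W (alph J) → Set X := fun z => {x | ∃ c : Cell (alph J), c.supp ⊆ A ∧ c.Mem z ∧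
    ∀ r : Mo J, r.1 = q.1 ∘ iota c → r ∈ meets (C x)} with hG
  refine ⟨q, ⟨⟨F, ⟨A0, hA0, hF⟩⟩, rfl⟩, A, G, hAc, hqA, ?_, ?_, ?_⟩
  · intro z z' h
    ext x
    constructor
    · rintro ⟨c, h1, h2, h3⟩
      exact ⟨c, h1, cell_mem_of h1 h h2, h3⟩
    · rintro ⟨c, h1, h2, h3⟩
      exact ⟨c, h1, cell_mem_of h1 (fun i hi => (h i hi).symm) h2, h3⟩
  · intro z x
    obtain ⟨c, hc1, hc2, hc3⟩ := hcell z (2 * ι x + 1)
    refine ⟨c, hc2, fun r hr => ?_⟩
    have h1 := hc3 r hr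
    rw [hD, dec, if_neg (by omega)] at h1
    have h2 := h1 x (by omega)
    rcases h2 with h2 | h2
    · refine ⟨fun _ => h2, fun hx => absurd ?_ hx⟩
      refine ⟨c, hc1, hc2, fun r' hr' => ?_⟩
      have h3 : r' = r := Subtype.ext (hr'.trans hr.symm)
      rw [h3]
      exact h2
    · have hx : x ∉ G z := by
        rintro ⟨c', hc1', hc2', hc3'⟩
        obtain ⟨e, he1, ⟨c1, he2⟩, ⟨c2, he3⟩, -⟩ := exists_cell_le c c' z hc2 hc2'
        obtain ⟨s, hs⟩ := hqc e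
        obtain ⟨r', hr'⟩ := hqc c'
        have h4 : s ≤ r := ⟨⟨iota c1, isMorC_iota c1⟩, by
          rw [hs, he2, iota_mul, hr]; rfl⟩
        have h5 : s ≤ r' := ⟨⟨iota c2, isMorC_iota c2⟩, by
          rw [hs, he3, iota_mul, hr']; rfl⟩
        exact h2 s h4 (down_meets _ r' (hc3' r' hr') s h5)
      exact ⟨fun h => absurd h hx, fun _ => h2⟩
  · intro z n
    obtain ⟨c, hc1, hc2, hc3⟩ := hcell z (2 * n)
    refine ⟨c, hc1, hc2, fun r hr => ?_⟩
    have h1 := hc3 r hr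
    rw [hD, dec, if_pos (by omega)] at h1
    have h2 : 2 * n / 2 = n := by omega
    rw [h2] at h1
    exact h1

end Pool.Agent.H554
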