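import Pool.Agent.H554.FStmts

/-!
# Section 9.1, 9.2: restriction and amalgamation of conditions, and (P1)
-/

namespace Pool.Agent.H554

open Pool.Agent.Helper669.Forcing Set

namespace RestrAux

variable {J : Type} [LinearOrder J]

theorem below_dep {β : J} {i i' : Ix J} (h : i ∈ below β) (h' : i' ∈ dep J i) : i' ∈ below β := by
  have h1 : i' < i := h'.1
  have h2 : (ofLex i').1 ≤ (ofLex i).1 := by
    rcases (Prod.Lex.lt_iff).1 h1 with h3 | h3
    · exact h3.le
    · exact h3.1.le
  exact lt_of_le_of_lt h2 h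

omit [LinearOrder J] in
theorem resF_mem {S : Set (Ix J)} {f : W (alph J) → W (alph J)} {z : W (alph J)} {i : Ix J}
    (h : i ∈ S) : resF S f z i = f z i := by
  simp [resF, h]

omit [LinearOrder J] in
theorem resF_notMem {S : Set (Ix J)} {f : W (alph J) → W (alph J)} {z : W (alph J)} {i : Ix J}
    (h : i ∉ S) : resF S f z i = z i := by
  simp [resF, h]

/-- the restriction is a morphism -/
theorem isMor_resF {β : J} {A : Set (Ix J)} {f : W (alph J) → W (alph J)}
    (hf : IsMor (dep J) A f) : IsMor (dep J) (A ∩ below β) (resF (below β) f) where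
  off z i hi := by
    by_cases hb : i ∈ below β
    · rw [resF_mem hb]
      exact hf.off z i fun h => hi ⟨h, hb⟩
    · exact resF_notMem hb
  tri i hi z z' h := by
    rw [resF_mem hi.2, resF_mem hi.2]
    refine hf.tri i hi.1 z z' fun i' hi' h' => ?_
    refine h i' ⟨hi', ?_⟩ h'
    rcases h' with h' | rfl
    · exact below_dep hi.2 h'
    · exact hi.2
  cont := by
    refine continuous_pi fun i => ?_
    by_cases hb : i ∈ below β
    · have : (fun z => resF (below β) f z i) = fun z => f z i := by
        funext z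
        exact resF_mem hb
      rw [this]
      exact (continuous_apply i).comp hf.cont
    · have : (fun z => resF (below β) f z i) = fun z : W (alph J) => z i := by
        funext z
        exact resF_notMem hb
      rw [this]
      exact continuous_apply i
  emb i z u := by
    by_cases hb : i ∈ below β
    · obtain ⟨t, φ, hφ, h⟩ := hf.emb i z u
      refine ⟨t, φ, hφ, fun a z' hz' he => ?_⟩
      rw [resF_mem hb]
      exact h a z' hz' he
    · refine ⟨u, id, Function.injective_id, fun a z' _ he => ?_⟩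
      rw [resF_notMem hb]
      exact he

open Classical in
/-- the complementary part -/
noncomputable def resC (S : Set (Ix J)) (f : W (alph J) → W (alph J)) : W (alph J) → W (alph J) :=
  fun z i => if i ∈ S then z i else f z i

omit [LinearOrder J] in
theorem resC_mem {S : Set (Ix J)} {f : W (alph J) → W (alph J)} {z : W (alph J)} {i : Ix J}
    (h : i ∈ S) : resC S f z i = z i := by
  simp [resC, h]

omit [LinearOrder J] in
theorem resC_notMem {S : Set (Ix J)} {f : W (alph J) → W (alph J)} {z : W (alph J)} {i : Ix J}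
    (h : i ∉ S) : resC S f z i = f z i := by
  simp [resC, h]

theorem isMor_resC {S : Set (Ix J)} {A : Set (Ix J)} {f : W (alph J) → W (alph J)}
    (hf : IsMor (dep J) A f) : IsMor (dep J) A (resC S f) where
  off z i hi := by
    by_cases hb : i ∈ S
    · exact resC_mem hb
    · rw [resC_notMem hb]
      exact hf.off z i hi
  tri i hi z z' h := by
    by_cases hb : i ∈ S
    · rw [resC_mem hb, resC_mem hb]
      exact h i hi (Or.inr rfl)
    · rw [resC_notMem hb, resC_notMem hb]
      exact hf.tri i hi z z' h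
  cont := by
    refine continuous_pi fun i => ?_
    by_cases hb : i ∈ S
    · have : (fun z => resC S f z i) = fun z : W (alph J) => z i := by
        funext z
        exact resC_mem hb
      rw [this]
      exact continuous_apply i
    · have : (fun z => resC S f z i) = fun z => f z i := by
        funext z
        exact resC_notMem hb
      rw [this]
      exact (continuous_apply i).comp hf.cont
  emb i z u := by
    by_cases hb : i ∈ S
    · refine ⟨u, id, Function.injective_id, fun a z' _ he => ?_⟩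
      rw [resC_mem hb]
      exact he
    · obtain ⟨t, φ, hφ, h⟩ := hf.emb i z u
      refine ⟨t, φ, hφ, fun a z' hz' he => ?_⟩
      rw [resC_notMem hb]
      exact h a z' hz' he

/-- the restriction of a condition -/
noncomputable def res (β : J) (p : Mo J) : Mo J :=
  ⟨resF (below β) p.1, p.2.choose ∩ below β,
    p.2.choose_spec.1.mono inter_subset_left, isMor_resF p.2.choose_spec.2⟩

/-- supported below `β` -/
def Sup (β : J) (p : Mo J) : Prop := ∃ A, A.Countable ∧ A ⊆ below β ∧ IsMor (dep J) A p.1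

theorem sup_res (β : J) (p : Mo J) : Sup β (res β p) :=
  ⟨p.2.choose ∩ below β, p.2.choose_spec.1.mono inter_subset_left, inter_subset_right,
    isMor_resF p.2.choose_spec.2⟩

theorem Sup.off {β : J} {p : Mo J} (h : Sup β p) (z : W (alph J)) {i : Ix J} (hi : i ∉ below β) :
    p.1 z i = z i := by
  obtain ⟨A, -, hA, hp⟩ := h
  exact hp.off z i fun h' => hi (hA h')

/-- a condition only depends on the coordinates below `β` in its coordinates below `β` -/
theorem agree {β : J} (p : Mo J) {z z' : W (alph J)} (h : ∀ i ∈ below β, z i = z' i) {i : Ix J}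
    (hi : i ∈ below β) : p.1 z i = p.1 z' i := by
  obtain ⟨A, -, hp⟩ := p.2
  refine hp.tri' i z z' ?_
  rintro i' (h' | rfl)
  · exact h i' (below_dep hi h')
  · exact h _ hi

theorem le_res (β : J) (p : Mo J) : p ≤ res β p := by
  refine ⟨⟨resC (below β) p.1, p.2.choose, p.2.choose_spec.1, isMor_resC p.2.choose_spec.2⟩, ?_⟩
  funext z i
  by_cases hi : i ∈ below β
  · change p.1 z i = resF (below β) p.1 (resC (below β) p.1 z) i
    rw [resF_mem hi]
    exact agree p (fun i' hi' => (resC_mem hi').symm) hi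
  · change p.1 z i = resF (below β) p.1 (resC (below β) p.1 z) i
    rw [resF_notMem hi, resC_notMem hi]

theorem res_comp {β : J} (p s : Mo J) (hs : Sup β s) : res β (p.comp s) = (res β p).comp s := by
  apply Subtype.ext
  funext z i
  by_cases hi : i ∈ below β
  · change resF (below β) (p.1 ∘ s.1) z i = resF (below β) p.1 (s.1 z) i
    rw [resF_mem hi, resF_mem hi]
    rfl
  · change resF (below β) (p.1 ∘ s.1) z i = resF (below β) p.1 (s.1 z) i
    rw [resF_notMem hi, resF_notMem hi, hs.off z hi]

/-- if `q` is supported below `β` and `q = p ∘ r` for a condition `p` supported below `β`, then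
`q = p ∘ (r|β)` -/
theorem eq_comp_res {β : J} {p q r : Mo J} (hp : Sup β p) (hq : Sup β q) (h : q.1 = p.1 ∘ r.1) :
    q = p.comp (res β r) := by
  apply Subtype.ext
  funext z i
  change q.1 z i = p.1 (resF (below β) r.1 z) i
  by_cases hi : i ∈ below β
  · rw [h]
    exact agree p (fun i' hi' => (resF_mem hi').symm) hi
  · rw [hp.off _ hi, hq.off _ hi, resF_notMem hi]

end RestrAux

open RestrAux

/-- 9.1, 9.2 -/
theorem restr : SRestr := by
  intro J _ _ β p
  refine ⟨res β p, rfl, sup_res β p, le_res β p, ?_, ?_⟩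
  · intro q hq hle
    obtain ⟨r, hr⟩ := hle
    have h1 := eq_comp_res (sup_res β p) hq hr
    have h2 : res β (p.comp (res β r)) = q := by
      rw [res_comp p _ (sup_res β r), h1]
    refine ⟨res β r, sup_res β r, h1, ?_, ?_⟩
    · have h3 := le_res β (p.comp (res β r))
      rw [h2] at h3
      exact h3
    · exact congrArg Subtype.val h2
  · intro p' hp' hle
    obtain ⟨r, hr⟩ := hle
    refine ⟨res β r, ?_⟩
    funext z i
    change resF (below β) p.1 z i = p'.1 (resF (below β) r.1 z) i
    by_cases hi : i ∈ below β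
    · rw [resF_mem hi, hr]
      exact agree p' (fun i' hi' => (resF_mem hi').symm) hi
    · rw [resF_notMem hi, Sup.off hp' _ hi, resF_notMem hi]

theorem card_RR : Cardinal.mk RR ≤ Cardinal.continuum := by
  rw [Cardinal.mk_set, Cardinal.mk_nat, Cardinal.two_power_aleph0]

/-- (P1) -/
theorem p1_of (h2 : SCount1) (h3 : SRefl) : SP1 := by
  classical
  intro p T
  rw [mem_fimp]
  intro q _ hq
  refine ⟨q, le_rfl, ?_⟩
  obtain ⟨Aq, hAq, hqA⟩ := q.2
  obtain ⟨-, -, γ0, -⟩ := mem_fex.1 (hq (∅ : Set ℕ)) q le_rfl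
  -- choices
  have hch : ∀ (p' : Mo JJ) (i : RR), ∃ x : Mo JJ × JJ, p' ≤ q →
      x.1 ≤ p' ∧ x.1 ∈ meets (T i x.2) := by
    intro p' i
    by_cases hp' : p' ≤ q
    · obtain ⟨r, hr, γ, hγ⟩ := mem_fex.1 (hq i) p' hp'
      exact ⟨(r, γ), fun _ => ⟨hr, hγ⟩⟩
    · exact ⟨(p', γ0), fun h => absurd h hp'⟩
  choose x hx using hch
  have hsup : ∀ p' : Mo JJ, ∃ A : Set (Ix JJ), A.Countable ∧ IsMor (dep JJ) A p'.1 := fun p' => p'.2
  choose sup hsup1 hsup2 using hsup
  let π : Ix JJ → JJ := fun i => (ofLex i).1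
  let X : Type := {t : Set (Ix JJ) × Mo JJ // t.1.Countable ∧ IsMor (dep JJ) t.1 t.2.1} × RR
  let S : X → Set JJ := fun t => π '' t.1.1.1
  let g : X → Set JJ := fun t => π '' (sup (x t.1.1.2 t.2).1) ∪ {(x t.1.1.2 t.2).2} ∪ π '' Aq
  have hS : ∀ t, (S t).Countable := fun t => t.1.2.1.image _
  have hg : ∀ t, (g t).Countable := fun t =>
    (((hsup1 _).image _).union (countable_singleton _)).union (hAq.image _)
  have hcard : ∀ α : JJ, Cardinal.mk {t : X // S t ⊆ Iio α} ≤ Cardinal.continuum := by
    intro α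
    have hinj : Cardinal.mk {t : X // S t ⊆ Iio α} ≤
        Cardinal.mk ({t : Set (Ix JJ) × Mo JJ // t.1.Countable ∧ t.1 ⊆ below α ∧
          IsMor (dep JJ) t.1 t.2.1} × RR) := by
      refine Cardinal.mk_le_of_injective (f := fun t : {t : X // S t ⊆ Iio α} =>
        (⟨t.1.1.1, t.1.1.2.1, fun i hi => t.2 ⟨i, hi, rfl⟩, t.1.1.2.2⟩, t.1.2)) ?_
      intro a b hab
      apply Subtype.ext
      apply Prod.ext
      · apply Subtype.ext
        exact congrArg (fun t => t.1.1) hab
      · exact congrArg (fun t => t.2) hab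
    refine hinj.trans ?_
    rw [Cardinal.mk_prod, Cardinal.lift_id, Cardinal.lift_id]
    calc _ ≤ Cardinal.continuum * Cardinal.continuum := mul_le_mul' (h2 α) card_RR
      _ = Cardinal.continuum := Cardinal.continuum_mul_self
  obtain ⟨β, -, hβ, -⟩ := h3 X S g hS hg hcard γ0
  have hone : π '' Aq ⊆ Iio β := by
    have h := hβ (⟨(∅, Mo.one), countable_empty, IsMor.id⟩, (∅ : Set ℕ)) (by
      simp only [S, image_empty]
      exact empty_subset _)
    exact fun a ha => h (Or.inr ha)
  have hqβ : Sup β q := ⟨Aq, hAq, fun i hi => hone ⟨i, hi, rfl⟩, hqA⟩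
  refine mem_fex_of_mem β ?_ ?_
  · exact down_fall fun _ => down_fex _
  intro i
  rw [mem_fex]
  intro r hr
  obtain ⟨rβ, -, ⟨A, hA1, hA2, hA3⟩, hle, ham, hmin⟩ := restr JJ inferInstance inferInstance β r
  have hrq : rβ ≤ q := hmin q hqβ hr
  obtain ⟨hx1, hx2⟩ := hx rβ i hrq
  have hcl := hβ (⟨(A, rβ), hA1, hA3⟩, i) (by
    rintro _ ⟨j, hj, rfl⟩
    exact hA2 hj)
  have hxβ : ∃ A, A.Countable ∧ A ⊆ below β ∧ IsMor (dep JJ) A (x rβ i).1.1 :=
    ⟨_, hsup1 _, fun j hj => hcl (Or.inl (Or.inl ⟨j, hj, rfl⟩)), hsup2 _⟩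
  obtain ⟨s, -, -, hs, -⟩ := ham (x rβ i).1 hxβ hx1
  refine ⟨r.comp s, Mo.comp_le _ _, (x rβ i).2, ?_, ?_⟩
  · exact hcl (Or.inl (Or.inr rfl))
  · exact down_meets _ _ hx2 _ hs

end Pool.Agent.H554
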