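import Pool.Agent.H554.Stmts
import Pool.Agent.H554.Basic

/-!
# Section 2.3 (SF): morphisms with range in countably many dense open sets
-/

namespace Pool.Agent.H554

open Set

namespace SFm

variable {I : Type} {α : I → Type}

theorem cell_of_le (o c : Cell α) (h : ∀ i, o.val i <+: c.val i) : ∃ e : Cell α, c = o * e := by
  have hf : {i | (c.val i).drop (o.val i).length ≠ []}.Finite := by
    apply c.fin.subset
    intro i hi h2
    apply hi
    rw [h2]
    simp
  refine ⟨⟨fun i => (c.val i).drop (o.val i).length, hf⟩, ?_⟩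
  ext i : 2
  rw [Cell.mul_val]
  obtain ⟨t, ht⟩ := h i
  simp [← ht]

theorem le_mul (o e : Cell α) (i : I) : o.val i <+: (o * e).val i := ⟨e.val i, rfl⟩

/-- the property of the maps used in (SF) -/
def Sk (f : W α → W α) : Prop := ∀ o : Cell α, ∃ c d : Cell α, (∀ i, o.val i <+: c.val i) ∧
  f ∘ iota c = iota d

theorem sk_iota (c : Cell α) : Sk (iota c) := by
  intro o
  exact ⟨o, c * o, fun i => List.prefix_rfl, (iota_mul c o).symm⟩

theorem sk_comp {f g : W α → W α} (hf : Sk f) (hg : Sk g) : Sk (f ∘ g) := by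
  intro o
  obtain ⟨c, d, h1, h2⟩ := hg o
  obtain ⟨c', d', h3, h4⟩ := hf d
  obtain ⟨e, rfl⟩ := cell_of_le d c' h3
  refine ⟨c * e, d', fun i => (h1 i).trans (le_mul c e i), ?_⟩
  rw [iota_mul, ← Function.comp_assoc, Function.comp_assoc f g, h2, Function.comp_assoc,
    ← iota_mul]
  exact h4

theorem sk_glue [∀ i, TopologicalSpace (α i)] {dep : I → Set I}
    (htr : ∀ i, ∀ i' ∈ dep i, ∀ i'' ∈ dep i', i'' ∈ dep i) (c : Cell α) {r : W α → W α}
    {A : Set I} (hr : IsMor dep A r) (hs : Sk r) : Sk (glue dep c r) := by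
  classical
  intro o
  -- extend `o`
  have hf1 : {i | (if o.val i <+: c.val i then c.val i else o.val i) ≠ []}.Finite := by
    apply (o.fin.union c.fin).subset
    intro i hi
    rw [mem_ofPred_eq] at hi
    split_ifs at hi with h
    · exact Or.inr hi
    · exact Or.inl hi
  set o' : Cell α := ⟨fun i => if o.val i <+: c.val i then c.val i else o.val i, hf1⟩ with ho'
  have ho'v : ∀ i, o'.val i = if o.val i <+: c.val i then c.val i else o.val i := fun i => rfl
  have hoo' : ∀ i, o.val i <+: o'.val i := by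
    intro i
    rw [ho'v]
    split_ifs with h
    · exact h
    · exact List.prefix_rfl
  have hinc : ∀ i, ¬ c.val i <+: o'.val i → ¬ o'.val i <+: c.val i := by
    intro i h1 h2
    rw [ho'v] at h1 h2
    split_ifs at h1 h2 with h
    · exact h1 List.prefix_rfl
    · exact h h2
  let Mt : Set I := {i | ∀ i', (i' ∈ dep i ∨ i' = i) → c.val i' <+: o'.val i'}
  have hMt : ∀ i ∈ Mt, ∀ i', (i' ∈ dep i ∨ i' = i) → i' ∈ Mt := by
    intro i hi i' hi' i'' hi''
    apply hi
    rcases hi'' with h | rfl
    · rcases hi' with h' | rfl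
      · exact Or.inl (htr _ _ h' _ h)
      · exact Or.inl h
    · exact hi'
  have hf2 : {i | (if i ∈ Mt then (o'.val i).drop (c.val i).length else []) ≠ []}.Finite := by
    apply o'.fin.subset
    intro i hi h
    apply hi
    rw [h]
    simp
  obtain ⟨s', d, h1, h2⟩ := hs ⟨fun i => if i ∈ Mt then (o'.val i).drop (c.val i).length else [], hf2⟩
  have hf3 : {i | (if i ∈ Mt then c.val i ++ s'.val i else o'.val i) ≠ []}.Finite := by
    apply ((c.fin.union s'.fin).union o'.fin).subset
    intro i hi
    rw [mem_ofPred_eq] at hi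
    by_contra hn
    simp only [mem_union, mem_ofPred_eq, not_or, not_not] at hn
    apply hi
    rw [hn.1.1, hn.1.2, hn.2]
    simp
  have hf4 : {i | (if i ∈ Mt then c.val i ++ d.val i else o'.val i) ≠ []}.Finite := by
    apply ((c.fin.union d.fin).union o'.fin).subset
    intro i hi
    rw [mem_ofPred_eq] at hi
    by_contra hn
    simp only [mem_union, mem_ofPred_eq, not_or, not_not] at hn
    apply hi
    rw [hn.1.1, hn.1.2, hn.2]
    simp
  set e : Cell α := ⟨fun i => if i ∈ Mt then c.val i ++ s'.val i else o'.val i, hf3⟩ with he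
  set d' : Cell α := ⟨fun i => if i ∈ Mt then c.val i ++ d.val i else o'.val i, hf4⟩ with hd'
  have he1 : ∀ i ∈ Mt, e.val i = c.val i ++ s'.val i := fun i hi => if_pos hi
  have he2 : ∀ i ∉ Mt, e.val i = o'.val i := fun i hi => if_neg hi
  have hd1 : ∀ i ∈ Mt, d'.val i = c.val i ++ d.val i := fun i hi => if_pos hi
  have hd2 : ∀ i ∉ Mt, d'.val i = o'.val i := fun i hi => if_neg hi
  refine ⟨e, d', fun i => ?_, ?_⟩
  · by_cases hi : i ∈ Mt
    · rw [he1 i hi]
      refine (hoo' i).trans ?_
      have h3 := h1 i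
      simp only [if_pos hi] at h3
      obtain ⟨t, ht⟩ := hi i (Or.inr rfl)
      rw [← ht] at h3 ⊢
      simp only [List.drop_left] at h3
      obtain ⟨t', ht'⟩ := h3
      exact ⟨t', by rw [← ht', List.append_assoc]⟩
    · rw [he2 i hi]
      exact hoo' i
  · funext z i
    simp only [Function.comp]
    by_cases hi : i ∈ Mt
    · have hcond : ∀ i', (i' ∈ dep i ∨ i' = i) → Ext (c.val i') (iota e z i') := by
        intro i' hi'
        have h3 := hMt i hi i' hi'
        show Ext (c.val i') (app (e.val i') (z i'))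
        rw [he1 i' h3, app_append]
        exact ext_app
      unfold glue
      rw [if_pos hcond]
      have h4 : r (stripc c (iota e z)) i = r (iota s' z) i := by
        apply hr.tri'
        intro i' hi'
        have h3 := hMt i hi i' hi'
        show strip (c.val i').length (app (e.val i') (z i')) = app (s'.val i') (z i')
        rw [he1 i' h3, app_append, strip_app]
      rw [h4]
      have h5 := congrFun (congrFun h2 z) i
      simp only [Function.comp] at h5
      rw [h5]
      show app (c.val i) (app (d.val i) (z i)) = app (d'.val i) (z i)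
      rw [hd1 i hi, app_append]
    · have hcond : ¬ ∀ i', (i' ∈ dep i ∨ i' = i) → Ext (c.val i') (iota e z i') := by
        intro h3
        apply hi
        intro i' hi'
        by_contra h4
        have h5 : i' ∉ Mt := fun h => h4 (h i' (Or.inr rfl))
        have h6 := h3 i' hi'
        have h7 : Ext (o'.val i') (iota e z i') := by
          show Ext (o'.val i') (app (e.val i') (z i'))
          rw [he2 i' h5]
          exact ext_app
        rcases h6.compat h7 with h8 | h8
        · exact h4 h8
        · exact hinc i' h4 h8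
      unfold glue
      rw [if_neg hcond]
      show app (e.val i) (z i) = app (d'.val i) (z i)
      rw [he2 i hi, hd2 i hi]

end SFm

/-- 2.3 (SF) -/
theorem sf (h1 : SFusion) (h2 : SScheme) : SSF := by
  intro J _ _ j0 hj0 U hU hD
  have hwf : WellFoundedLT (Ix J) := inferInstance
  obtain ⟨F, A, hA, hF, hc⟩ := h1 (Ix J) inferInstance inferInstance (alph J)
    (fun i => inferInstance) (fun i => inferInstance) (fun i => inferInstance)
    (fun i => inferInstance) (dep J) dep_lt dep_trans (mI j0)
    (fun A hA hm => h2 J inferInstance inferInstance j0 hj0 A hA hm)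
    {f | IsMorC (dep J) f ∧ SFm.Sk f} (fun f hf => hf.1)
    (fun f hf g hg => ⟨hf.1.comp dep_trans hg.1, SFm.sk_comp hf.2 hg.2⟩)
    (fun c => ⟨isMorC_iota c, SFm.sk_iota c⟩)
    (fun c r hr => by
      obtain ⟨B, hB, hrB⟩ := hr.1
      exact ⟨⟨_, c.fin.countable.union hB, isMor_glue dep_trans
        (fun i hi => absurd (dep_lt i i hi) (lt_irrefl _)) c hrB⟩,
        SFm.sk_glue dep_trans c hrB hr.2⟩)
    (fun n => {f | ∀ z, f z ∈ U n})
    (by
      intro n p hp
      obtain ⟨c, d, -, hcd⟩ := hp.2 1
      have hne : {z : W (alph J) | d.Mem z}.Nonempty :=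
        ⟨iota d (fun i _ => default), mem_iota d _⟩
      obtain ⟨z, hz1, hz2⟩ := (hD n).inter_open_nonempty _ (isClopen_cell d).isOpen hne
      obtain ⟨d', hd1, hd2⟩ := exists_cell (hU n) hz2
      obtain ⟨e, he1, ⟨e1, he2⟩, ⟨e2, he3⟩, -⟩ := exists_cell_le d d' z hz1 hd1
      refine ⟨iota c ∘ iota e1, ⟨(isMorC_iota c).comp dep_trans (isMorC_iota e1),
        SFm.sk_comp (SFm.sk_iota c) (SFm.sk_iota e1)⟩, fun y => ?_⟩
      rw [← Function.comp_assoc, hcd, ← iota_mul, ← he2, he3, iota_mul]
      exact hd2 _ (mem_iota d' _))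
    (fun n p _ hpo r _ z => hpo (r z))
    id ⟨IsMorC.id, by
      have := SFm.sk_iota (1 : Cell (alph J))
      rwa [iota_one] at this⟩
  refine ⟨F, ⟨A, hA, hF⟩, fun n z => ?_⟩
  obtain ⟨c, -, h3, o, ho, g, -, hg⟩ := hc z n
  have h4 := congrFun hg (stripc c z)
  simp only [Function.comp, id] at h4
  rw [iota_stripc h3] at h4
  rw [h4]
  exact ho _

end Pool.Agent.H554
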