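import Pool.Agent.H554.Stmts
import Pool.Agent.H554.Basic

/-!
# Section 2.2: schemes of cells
-/

namespace Pool.Agent.H554

open Set

namespace Scheme

/-! ### The code of a node -/

/-- A code of pairs (coordinate, string). -/
structure Code {M : Type} (idx : M → ℕ) (c : M → List ℕ → ℕ) : Prop where
  inj : ∀ ξ u ξ' u', c ξ u = c ξ' u' → ξ = ξ' ∧ u = u'
  idx_lt : ∀ ξ u, idx ξ < c ξ u
  len_lt : ∀ ξ u, u.length < c ξ u
  mono : ∀ ξ u u', u <+: u' → c ξ u ≤ c ξ u'

/-- code of strings, increasing along end extension -/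
def enc (u : List ℕ) : ℕ := Encodable.encode u.reverse

theorem enc_inj {u v : List ℕ} (h : enc u = enc v) : u = v :=
  List.reverse_injective (Encodable.encode_injective h)

theorem enc_concat (u : List ℕ) (a : ℕ) : enc u < enc (u ++ [a]) := by
  unfold enc
  rw [List.reverse_append, List.reverse_singleton, List.singleton_append, Encodable.encode_list_cons]
  exact Nat.lt_succ_of_le (Nat.right_le_pair _ _)

theorem enc_append (u v : List ℕ) : enc u ≤ enc (u ++ v) := by
  induction v using List.reverseRecOn with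
  | nil => simp
  | append_singleton v a ih =>
    rw [← List.append_assoc]
    exact ih.trans (enc_concat _ _).le

theorem enc_mono {u v : List ℕ} (h : u <+: v) : enc u ≤ enc v := by
  obtain ⟨w, rfl⟩ := h
  exact enc_append u w

theorem enc_lt {u v : List ℕ} (h : u <+: v) (hne : u ≠ v) : enc u < enc v :=
  lt_of_le_of_ne (enc_mono h) fun h' => hne (enc_inj h')

theorem length_le_enc (u : List ℕ) : u.length ≤ enc u := by
  induction u using List.reverseRecOn with
  | nil => simp
  | append_singleton v a ih =>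
    have := enc_concat v a
    simp only [List.length_append, List.length_singleton]
    omega

theorem code_exists {M : Type} {idx : M → ℕ} (hidx : Function.Injective idx) :
    Code idx (fun ξ u => Nat.pair (idx ξ) (enc u) + 1) where
  inj ξ u ξ' u' h := by
    have h' : Nat.pair (idx ξ) (enc u) = Nat.pair (idx ξ') (enc u') := by omega
    rw [Nat.pair_eq_pair] at h'
    exact ⟨hidx h'.1, enc_inj h'.2⟩
  idx_lt ξ u := Nat.lt_succ_of_le (Nat.left_le_pair _ _)
  len_lt ξ u := Nat.lt_succ_of_le ((length_le_enc u).trans (Nat.right_le_pair _ _))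
  mono ξ u u' h := by
    have h1 := enc_mono h
    rcases h1.eq_or_lt with h1 | h1
    · rw [h1]
    · have := Nat.pair_lt_pair_right (idx ξ) h1
      show Nat.pair (idx ξ) (enc u) + 1 ≤ Nat.pair (idx ξ) (enc u') + 1
      omega

/-! ### Good chains -/

variable {M : Type} [LinearOrder M]

/-- Good chains. -/
structure Good (idx : M → ℕ) (c : M → List ℕ → ℕ) (b : M) (C : M → List ℕ) : Prop where
  fin : {i | C i ≠ []}.Finite
  g0 : C b ≠ []
  g1 : ∀ ξ, C ξ ≠ [] → idx ξ < (C ξ).length
  g2 : ∀ ξ η, C ξ ≠ [] → ξ < η → idx η < (C ξ).length →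
    ∃ ξ', ξ < ξ' ∧ ξ' ≤ η ∧ C ξ' ≠ [] ∧ c ξ' (C ξ') = (C ξ).length
  g3 : ∀ ξ', C ξ' ≠ [] → ξ' ≠ b → ∃ ξ, ξ < ξ' ∧ C ξ ≠ [] ∧ (C ξ).length = c ξ' (C ξ')

variable {idx : M → ℕ} {c : M → List ℕ → ℕ} {b : M} {C C' : M → List ℕ}

theorem good_eq_aux (hc : Code idx c) (h : Good idx c b C) (h' : Good idx c b C')
    (i : M) (hi : i ≠ b) (hlt : ∀ k, k < i → C k = C' k) (hne : C i ≠ []) : C i = C' i := by
  obtain ⟨ξ, hξ, h1, h2⟩ := h.g3 i hne hi
  have e := hlt ξ hξ
  have h3 : idx i < (C' ξ).length := by rw [← e, h2]; exact hc.idx_lt _ _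
  obtain ⟨ξ', h4, h5, h6, h7⟩ := h'.g2 ξ i (by rw [← e]; exact h1) hξ h3
  rw [← e, h2] at h7
  obtain ⟨h8, h9⟩ := hc.inj _ _ _ _ h7
  subst h8
  exact h9.symm

/-- (T0) -/
theorem good_eq [WellFoundedLT M] (hc : Code idx c) (h : Good idx c b C) (h' : Good idx c b C')
    (h0 : C b = C' b) : C = C' := by
  funext i
  induction i using WellFoundedLT.induction with
  | ind i ih =>
    by_cases hi : i = b
    · rw [hi, h0]
    by_cases h1 : C i = []
    · by_cases h2 : C' i = []
      · rw [h1, h2]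
      · exact (good_eq_aux hc h' h i hi (fun k hk => (ih k hk).symm) h2).symm
    · exact good_eq_aux hc h h' i hi ih h1

/-- (T1) -/
theorem good_lt [WellFoundedLT M] (hc : Code idx c) (h : Good idx c b C) (h' : Good idx c b C')
    (h0 : (C b).length < (C' b).length) (i : M) (hcomp : ∀ k, k ≤ i → Compat (C k) (C' k))
    (hi : C i ≠ []) : (C i).length < (C' i).length := by
  induction i using WellFoundedLT.induction with
  | ind i ih =>
    by_cases hib : i = b
    · rw [hib]; exact h0
    obtain ⟨ξ, hξ, h1, h2⟩ := h.g3 i hi hib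
    have h3 := ih ξ hξ (fun k hk => hcomp k (hk.trans hξ.le)) h1
    have hS : {ζ | ξ ≤ ζ ∧ ζ < i ∧ (C ξ).length < (C' ζ).length}.Finite := by
      apply h'.fin.subset
      rintro ζ ⟨-, -, h5⟩
      rw [mem_ofPred_eq]
      intro h6
      rw [h6] at h5
      simp at h5
    obtain ⟨ζ, ⟨hζ1, hζ2, hζ3⟩, hmax⟩ := hS.exists_maximal ⟨ξ, le_rfl, hξ, h3⟩
    have hζ4 : C' ζ ≠ [] := by
      intro h6
      rw [h6] at hζ3
      simp at hζ3
    have h5 : idx i < (C ξ).length := by rw [h2]; exact hc.idx_lt _ _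
    obtain ⟨ζ', h6, h7, h8, h9⟩ := h'.g2 ζ i hζ4 hζ2 (h5.trans hζ3)
    rcases h7.eq_or_lt with h7 | h7
    · subst h7
      rcases hcomp ζ' le_rfl with h10 | h10
      · refine lt_of_le_of_ne h10.length_le fun h11 => ?_
        have h12 := h10.eq_of_length h11
        rw [← h12, ← h2] at h9
        omega
      · have := hc.mono ζ' _ _ h10
        omega
    · exfalso
      by_cases h10 : idx ζ' < (C ξ).length
      · obtain ⟨ξ'', h11, h12, h13, h14⟩ := h.g2 ξ ζ' h1 (lt_of_le_of_lt hζ1 h6) h10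
        rw [h2] at h14
        have h15 := (hc.inj _ _ _ _ h14).1
        subst h15
        exact absurd (lt_of_le_of_lt h12 h7) (lt_irrefl _)
      · have h11 := h'.g1 ζ' h8
        have h12 := hmax (y := ζ') ⟨hζ1.trans h6.le, h7, by omega⟩ h6.le
        exact absurd (lt_of_lt_of_le h6 h12) (lt_irrefl _)

/-- the recursive construction of (T2) -/
theorem good_exists_aux [WellFoundedLT M] (hidx : Function.Injective idx) (hb : ∀ i, b ≤ i)
    (hb0 : idx b = 0) (hc : Code idx c) (z : M → ℕ → ℕ) (ξ : M) : ∀ l : ℕ, idx ξ < l →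
    ∃ C : M → List ℕ, {i | C i ≠ []}.Finite ∧ C b ≠ [] ∧ C ξ = pre (z ξ) l ∧
      (∀ η, ξ < η → C η = []) ∧ (∀ η, C η ≠ [] → l ≤ (C η).length) ∧
      (∀ η, C η ≠ [] → idx η < (C η).length) ∧ (∀ η, Ext (C η) (z η)) ∧
      (∀ η, η ≤ ξ → idx η < l → C η ≠ []) ∧
      (∀ ξ' η, C ξ' ≠ [] → ξ' < η → η ≤ ξ → idx η < (C ξ').length →
        ∃ ξ'', ξ' < ξ'' ∧ ξ'' ≤ η ∧ C ξ'' ≠ [] ∧ c ξ'' (C ξ'') = (C ξ').length) ∧
      (∀ ξ', C ξ' ≠ [] → ξ' ≠ b → ∃ ξ, ξ < ξ' ∧ C ξ ≠ [] ∧ (C ξ).length = c ξ' (C ξ')) := by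
  classical
  induction ξ using WellFoundedLT.induction with
  | ind ξ ih =>
    intro l hl
    have hpre : pre (z ξ) l ≠ [] := by
      intro h
      have := congrArg List.length h
      rw [length_pre] at this
      simp at this
      omega
    by_cases hξ : ξ = b
    · subst hξ
      refine ⟨fun i => if i = ξ then pre (z ξ) l else [], ?_, ?_, ?_, ?_, ?_, ?_, ?_, ?_, ?_, ?_⟩
      · apply (finite_singleton ξ).subset
        intro i hi
        by_contra h
        exact hi (if_neg h)
      · simpa using hpre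
      · simp
      · intro η hη
        exact if_neg hη.ne'
      · intro η hη
        have : η = ξ := by
          by_contra h
          exact hη (if_neg h)
        simp [this, length_pre]
      · intro η hη
        have : η = ξ := by
          by_contra h
          exact hη (if_neg h)
        simp only [this, if_true, length_pre]
        exact hl
      · intro η
        by_cases h : η = ξ
        · subst h
          simp only [if_true]
          exact ext_pre l
        · simp only [h, if_false]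
          exact ext_nil
      · intro η hη _
        have : η = ξ := le_antisymm hη (hb _)
        simpa [this] using hpre
      · intro ξ' η _ h1 h2 _
        exact absurd (lt_of_lt_of_le h1 (h2.trans (hb ξ'))) (lt_irrefl _)
      · intro ξ' h1 h2
        exact absurd (if_neg h2) h1
    · have hl' : idx b < c ξ (pre (z ξ) l) := by
        rw [hb0]
        exact lt_of_le_of_lt (Nat.zero_le _) (hc.idx_lt ξ (pre (z ξ) l))
      set l' := c ξ (pre (z ξ) l) with hl'def
      have hll' : l < l' := by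
        have := hc.len_lt ξ (pre (z ξ) l)
        rwa [length_pre] at this
      have hS : {η | η < ξ ∧ idx η < l'}.Finite := by
        apply Set.Finite.of_injOn (f := idx) (t := Iio l')
        · intro η hη
          exact hη.2
        · exact hidx.injOn
        · exact finite_Iio _
      obtain ⟨ξ₁, ⟨h1, h2⟩, hmax⟩ := hS.exists_maximal
        ⟨b, lt_of_le_of_ne (hb ξ) (Ne.symm hξ), hl'⟩
      obtain ⟨C, c1, c2, c3, c4, c5, c6, c7, c8, c9, c10⟩ := ih ξ₁ h1 l' h2
      have hle : ∀ η, C η ≠ [] → η ≤ ξ₁ := by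
        intro η hη
        by_contra h
        exact hη (c4 η (not_le.1 h))
      have hout : ∀ η, ξ₁ < η → η < ξ → l' ≤ idx η := by
        intro η h3 h4
        by_contra h5
        exact absurd (lt_of_lt_of_le h3 (hmax ⟨h4, not_le.1 h5⟩ h3.le)) (lt_irrefl _)
      have hlt_ne : ∀ η, η ≤ ξ₁ → η ≠ ξ := fun η h => (lt_of_le_of_lt h h1).ne
      obtain ⟨D, hD, hCξ⟩ : ∃ D : M → List ℕ, D ξ = pre (z ξ) l ∧ ∀ η, η ≠ ξ → D η = C η :=
        ⟨fun i => if i = ξ then pre (z ξ) l else C i, if_pos rfl, fun η h => if_neg h⟩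
      refine ⟨D, ?_, ?_, hD, ?_, ?_, ?_, ?_, ?_, ?_, ?_⟩
      · apply (c1.insert ξ).subset
        intro i hi
        by_cases h : i = ξ
        · exact Or.inl h
        · right
          rw [mem_ofPred_eq, hCξ i h] at hi
          exact hi
      · rw [hCξ b (Ne.symm hξ)]
        exact c2
      · intro η hη
        rw [hCξ η hη.ne']
        exact c4 η (h1.trans hη)
      · intro η hη
        by_cases h : η = ξ
        · rw [h, hD, length_pre]
        · rw [hCξ η h] at hη ⊢
          exact hll'.le.trans (c5 η hη)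
      · intro η hη
        by_cases h : η = ξ
        · rw [h, hD, length_pre]
          exact hl
        · rw [hCξ η h] at hη ⊢
          exact c6 η hη
      · intro η
        by_cases h : η = ξ
        · rw [h, hD]
          exact ext_pre l
        · rw [hCξ η h]
          exact c7 η
      · intro η hη h3
        rcases hη.eq_or_lt with h4 | h4
        · rw [h4, hD]
          exact hpre
        · rw [hCξ η h4.ne]
          apply c8 η
          · by_contra h5
            have := hout η (not_le.1 h5) h4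
            omega
          · omega
      · intro ξ' η h3 h4 h5 h6
        have h7 : ξ' ≠ ξ := by
          rintro rfl
          exact absurd (lt_of_lt_of_le h4 h5) (lt_irrefl _)
        rw [hCξ ξ' h7] at h3 h6
        have h8 := hle ξ' h3
        by_cases h9 : η ≤ ξ₁
        · obtain ⟨ξ'', k1, k2, k3, k4⟩ := c9 ξ' η h3 h4 h9 h6
          refine ⟨ξ'', k1, k2, ?_, ?_⟩
          · rw [hCξ _ (hlt_ne _ (k2.trans h9))]; exact k3
          · rw [hCξ _ (hlt_ne _ (k2.trans h9)), hCξ _ h7]; exact k4
        · have h9' := not_le.1 h9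
          rcases h8.eq_or_lt with h8 | h8
          · have h10 : η = ξ := by
              by_contra h10
              have := hout η h9' (lt_of_le_of_ne h5 h10)
              rw [h8, c3, length_pre] at h6
              omega
            refine ⟨η, h4, le_rfl, ?_, ?_⟩
            · rw [h10, hD]
              exact hpre
            · rw [hCξ _ h7, h8, c3, length_pre, h10, hD]
          · obtain ⟨ξ'', k1, k2, k3, k4⟩ := c9 ξ' ξ₁ h3 h8 le_rfl (h2.trans_le (c5 _ h3))
            refine ⟨ξ'', k1, k2.trans h9'.le, ?_, ?_⟩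
            · rw [hCξ _ (hlt_ne _ k2)]; exact k3
            · rw [hCξ _ (hlt_ne _ k2), hCξ _ h7]; exact k4
      · intro ξ' h3 h4
        by_cases h5 : ξ' = ξ
        · refine ⟨ξ₁, by rw [h5]; exact h1, ?_, ?_⟩
          · rw [hCξ _ h1.ne, c3]
            intro h6
            have := congrArg List.length h6
            rw [length_pre] at this
            simp at this
            omega
          · rw [hCξ _ h1.ne, c3, length_pre, h5, hD]
        · rw [hCξ _ h5] at h3
          obtain ⟨η, k1, k2, k3⟩ := c10 ξ' h3 h4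
          have h6 : η ≠ ξ := hlt_ne _ (k1.le.trans (hle _ h3))
          refine ⟨η, k1, ?_, ?_⟩
          · rw [hCξ _ h6]; exact k2
          · rw [hCξ _ h6, hCξ _ h5]; exact k3

/-- (T2) -/
theorem good_exists [WellFoundedLT M] (hidx : Function.Injective idx) (hb : ∀ i, b ≤ i)
    (hb0 : idx b = 0) (hc : Code idx c) (z : M → ℕ → ℕ) (m : ℕ) (hm : 0 < m) :
    ∃ C : M → List ℕ, Good idx c b C ∧ (∀ η, Ext (C η) (z η)) ∧
      (∀ η, C η ≠ [] → m ≤ (C η).length) ∧ ∀ η, idx η < m → C η ≠ [] := by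
  have hS : {η | idx η < m}.Finite := by
    apply Set.Finite.of_injOn (f := idx) (t := Iio m)
    · intro η hη
      exact hη
    · exact hidx.injOn
    · exact finite_Iio _
  obtain ⟨ξ, h1, hmax⟩ := hS.exists_maximal ⟨b, by rw [mem_ofPred_eq, hb0]; exact hm⟩
  obtain ⟨C, c1, c2, c3, c4, c5, c6, c7, c8, c9, c10⟩ :=
    good_exists_aux hidx hb hb0 hc z ξ m h1
  have hle : ∀ η, idx η < m → η ≤ ξ := by
    intro η h2
    by_contra h3
    exact h3 (hmax h2 (not_le.1 h3).le)
  have hle' : ∀ η, C η ≠ [] → η ≤ ξ := by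
    intro η hη
    by_contra h
    exact hη (c4 η (not_le.1 h))
  refine ⟨C, ⟨c1, c2, c6, ?_, c10⟩, c7, c5, fun η h2 => c8 η (hle η h2) h2⟩
  intro ξ' η h2 h3 h4
  by_cases h5 : η ≤ ξ
  · exact c9 ξ' η h2 h3 h5 h4
  · have h5' := not_le.1 h5
    rcases (hle' ξ' h2).eq_or_lt with h6 | h6
    · subst h6
      rw [c3, length_pre] at h4
      exact absurd (hle η h4) h5
    · obtain ⟨ξ'', k1, k2, k3, k4⟩ := c9 ξ' ξ h2 h6 le_rfl (lt_of_lt_of_le h1 (c5 _ h2))
      exact ⟨ξ'', k1, k2.trans h5'.le, k3, k4⟩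

/-! ### The blocks -/

section blocks

variable {J : Type} [LinearOrder J]

/-- the block of number `j` -/
structure Blk (A : Set (Ix J)) (f : Ix J → ℕ) (idx : {j : J // mI j ∈ A} → ℕ)
    (cd : {j : J // mI j ∈ A} → List ℕ → ℕ) (b : {j : J // mI j ∈ A}) (j : ℕ)
    (c : Cell (alph J)) : Prop where
  supp : c.supp ⊆ A
  xin : ∀ i ∈ A, (ofLex i).2 = false → f i < j → (c.val i).length = j
  xout : ∀ i ∈ A, (ofLex i).2 = false → ¬ f i < j → c.val i = []
  good : Good idx cd b (fun ξ => (c.val (mI ξ.1) : List ℕ))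
  num : enc (c.val (mI b.1) : List ℕ) = j

variable {A : Set (Ix J)} {f : Ix J → ℕ} {idx : {j : J // mI j ∈ A} → ℕ}
  {cd : {j : J // mI j ∈ A} → List ℕ → ℕ} {b : {j : J // mI j ∈ A}}

theorem blk_eq [WellFoundedLT J] (hc : Code idx cd) {j : ℕ} {c c' : Cell (alph J)}
    (h : Blk A f idx cd b j c) (h' : Blk A f idx cd b j c') (i : Ix J)
    (hi : ¬ (i ∈ A ∧ (ofLex i).2 = false ∧ f i < j)) : c.val i = c'.val i := by
  by_cases hA : i ∈ A
  · rcases hv : (ofLex i).2 with _ | _
    · have h1 : ¬ f i < j := fun h1 => hi ⟨hA, hv, h1⟩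
      rw [h.xout i hA hv h1, h'.xout i hA hv h1]
    · have h1 : enc (c.val (mI b.1) : List ℕ) = enc (c'.val (mI b.1) : List ℕ) := by
        rw [h.num, h'.num]
      have h2 := good_eq hc h.good h'.good (enc_inj h1)
      obtain ⟨k, rfl⟩ : ∃ k, i = mI k := ⟨(ofLex i).1, by rw [mI, ← hv]; rfl⟩
      exact congrFun h2 ⟨k, hA⟩
  · have h1 : ∀ c : Cell (alph J), c.supp ⊆ A → c.val i = [] := by
      intro c hc
      by_contra h
      exact hA (hc h)
    rw [h1 c h.supp, h1 c' h'.supp]

theorem blk_finite [WellFoundedLT J] (hc : Code idx cd) (hf : InjOn f A) (j : ℕ) :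
    {c | Blk A f idx cd b j c}.Finite := by
  have hF : {i | i ∈ A ∧ (ofLex i).2 = false ∧ f i < j}.Finite := by
    apply Set.Finite.of_injOn (f := f) (t := Iio j)
    · intro i hi
      exact hi.2.2
    · exact hf.mono fun i hi => hi.1
    · exact finite_Iio _
  set F := {i | i ∈ A ∧ (ofLex i).2 = false ∧ f i < j} with hFdef
  have : Finite F := hF
  apply Set.Finite.of_injOn (f := fun c : Cell (alph J) => fun i : F => c.val i.1)
    (t := Set.pi univ fun i : F => {l : List (alph J i.1) | l.length = j})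
  · intro c hc i _
    exact hc.xin i.1 i.2.1 i.2.2.1 i.2.2.2
  · intro c h c' h' he
    ext i : 2
    by_cases hi : i ∈ F
    · exact congrFun he ⟨i, hi⟩
    · exact blk_eq hc h h' i hi
  · apply Set.Finite.pi
    rintro ⟨i, hi⟩
    have : Finite (alph J i) := by
      have h1 := hi.2.1
      show Finite (Al (ofLex i).2)
      rw [h1]
      exact inferInstanceAs (Finite Bool)
    exact List.finite_length_eq _ _

theorem blk_star [WellFoundedLT J] (hc : Code idx cd) (hb : ∀ j : J, b.1 ≤ j) {j j' : ℕ}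
    (hj : j ≤ j') {c c' : Cell (alph J)}
    (h : Blk A f idx cd b j c) (h' : Blk A f idx cd b j' c') : Star (dep J) c c' := by
  intro i hcomp
  by_cases h0 : c.val i = []
  · rw [h0]; exact Nat.zero_le _
  have hA : i ∈ A := h.supp h0
  rcases hv : (ofLex i).2 with _ | _
  · by_cases h1 : f i < j
    · rw [h.xin i hA hv h1, h'.xin i hA hv (h1.trans_le hj)]
      exact hj
    · exact absurd (h.xout i hA hv h1) h0
  · rcases hj.eq_or_lt with hj | hj
    · subst hj
      rw [blk_eq hc h h' i (by rw [hv]; simp)]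
    · obtain ⟨k, rfl⟩ : ∃ k, i = mI k := ⟨(ofLex i).1, by rw [mI, ← hv]; rfl⟩
      have hdep : ∀ k', k' ≤ k → (mI k' ∈ dep J (mI k) ∨ mI k' = mI k) := by
        intro k' hk'
        rcases hk'.eq_or_lt with h1 | h1
        · right; rw [h1]
        · left
          refine ⟨?_, fun h2 => absurd h2 (by simp)⟩
          rw [Prod.Lex.toLex_lt_toLex]
          exact Or.inl h1
      have hcb := hcomp (mI b.1) (hdep _ (hb k))
      have hn : enc (c.val (mI b.1) : List ℕ) < enc (c'.val (mI b.1) : List ℕ) := by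
        rw [h.num, h'.num]; exact hj
      have hlen : (c.val (mI b.1) : List ℕ).length < (c'.val (mI b.1) : List ℕ).length := by
        rcases hcb with h1 | h1
        · refine lt_of_le_of_ne h1.length_le fun h2 => ?_
          have h3 : (c.val (mI b.1) : List ℕ) = (c'.val (mI b.1) : List ℕ) := h1.eq_of_length h2
          rw [h3] at hn
          exact lt_irrefl _ hn
        · have h3 : enc (c'.val (mI b.1) : List ℕ) ≤ enc (c.val (mI b.1) : List ℕ) := enc_mono h1
          omega
      exact (good_lt hc h.good h'.good hlen ⟨k, hA⟩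
        (fun k' hk' => hcomp (mI k'.1) (hdep _ hk')) h0).le

theorem blk_cover [WellFoundedLT J] (hidx : Function.Injective idx) (hb : ∀ j : J, b.1 ≤ j)
    (hb0 : idx b = 0) (hc : Code idx cd) (hf : InjOn f A) (z : W (alph J)) (i : Ix J)
    (hi : i ∈ A) (l n : ℕ) : ∃ j, n ≤ j ∧ ∃ c, Blk A f idx cd b j c ∧ c.Mem z ∧
      l ≤ (c.val i).length := by
  classical
  obtain ⟨m, hm0, hml, hmn, hmf, hmi⟩ : ∃ m, 0 < m ∧ l ≤ m ∧ n ≤ m ∧ f i < m ∧
      ∀ h : mI (ofLex i).1 ∈ A, idx ⟨(ofLex i).1, h⟩ < m := by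
    by_cases h : mI (ofLex i).1 ∈ A
    · refine ⟨l + n + f i + idx ⟨(ofLex i).1, h⟩ + 1, ?_, ?_, ?_, ?_, fun _ => ?_⟩ <;> omega
    · refine ⟨l + n + f i + 1, ?_, ?_, ?_, ?_, fun h' => absurd h' h⟩ <;> omega
  obtain ⟨C, hg, hext, hlen, hne⟩ := good_exists (b := b) hidx (fun k => hb k.1) hb0 hc
    (fun ξ => (z (mI ξ.1) : ℕ → ℕ)) m hm0
  set j := enc (C b) with hj
  have hmj : m ≤ j := (hlen b hg.g0).trans (length_le_enc _)
  let len : Ix J → ℕ := fun i =>
    if i ∈ A then (if (ofLex i).2 = false then (if f i < j then j else 0)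
      else if h : mI (ofLex i).1 ∈ A then (C ⟨(ofLex i).1, h⟩).length else 0) else 0
  have len1 : ∀ i ∈ A, (ofLex i).2 = false → f i < j → len i = j := by
    intro i h1 h2 h3
    simp only [len, if_pos h1, if_pos h2, if_pos h3]
  have len2 : ∀ i ∈ A, (ofLex i).2 = false → ¬ f i < j → len i = 0 := by
    intro i h1 h2 h3
    simp only [len, if_pos h1, if_pos h2, if_neg h3]
  have len3 : ∀ ξ : {j : J // mI j ∈ A}, len (mI ξ.1) = (C ξ).length := by
    intro ξ
    have h2 : ¬ ((ofLex (mI ξ.1)).2 = false) := by simp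
    simp only [len, if_pos ξ.2, if_neg h2]
    exact dif_pos ξ.2
  have len4 : ∀ i ∉ A, len i = 0 := by
    intro i h1
    simp only [len, if_neg h1]
  have hpre0 : ∀ i, len i = 0 → pre (z i) (len i) = [] := by
    intro i h
    rw [h]
    rfl
  have hfin : {i | pre (z i) (len i) ≠ []}.Finite := by
    have h1 : {i | i ∈ A ∧ (ofLex i).2 = false ∧ f i < j}.Finite := by
      apply Set.Finite.of_injOn (f := f) (t := Iio j)
      · intro i hi
        exact hi.2.2
      · exact hf.mono fun i hi => hi.1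
      · exact finite_Iio _
    have h2 := hg.fin.image (fun ξ : {j : J // mI j ∈ A} => mI ξ.1)
    apply (h1.union h2).subset
    intro i h3
    by_cases hA : i ∈ A
    · rcases hv : (ofLex i).2 with _ | _
      · left
        refine ⟨hA, hv, ?_⟩
        by_contra h4
        exact h3 (hpre0 i (len2 i hA hv h4))
      · right
        obtain ⟨k, rfl⟩ : ∃ k, i = mI k := ⟨(ofLex i).1, by rw [mI, ← hv]; rfl⟩
        refine ⟨⟨k, hA⟩, ?_, rfl⟩
        intro h4
        apply h3
        apply hpre0
        rw [len3 ⟨k, hA⟩, h4]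
        rfl
    · exact absurd (hpre0 i (len4 i hA)) h3
  let c : Cell (alph J) := ⟨fun i => pre (z i) (len i), hfin⟩
  have hcv : ∀ ξ : {j : J // mI j ∈ A}, (c.val (mI ξ.1) : List ℕ) = C ξ := by
    intro ξ
    show pre (z (mI ξ.1) : ℕ → ℕ) (len (mI ξ.1)) = C ξ
    rw [len3 ξ]
    exact (hext ξ).eq_pre.symm
  refine ⟨j, hmn.trans hmj, c, ⟨?_, ?_, ?_, ?_, ?_⟩, fun i => ext_pre _, ?_⟩
  · intro i h1
    by_contra h2
    exact h1 (hpre0 i (len4 i h2))
  · intro i h1 h2 h3
    show (pre (z i) (len i)).length = j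
    rw [length_pre, len1 i h1 h2 h3]
  · intro i h1 h2 h3
    exact hpre0 i (len2 i h1 h2 h3)
  · have : (fun ξ : {j : J // mI j ∈ A} => (c.val (mI ξ.1) : List ℕ)) = C := funext hcv
    rw [this]
    exact hg
  · rw [hcv b]
  · show l ≤ (pre (z i) (len i)).length
    rw [length_pre]
    rcases hv : (ofLex i).2 with _ | _
    · rw [len1 i hi hv (hmf.trans_le hmj)]
      exact hml.trans hmj
    · obtain ⟨k, rfl⟩ : ∃ k, i = mI k := ⟨(ofLex i).1, by rw [mI, ← hv]; rfl⟩
      rw [len3 ⟨k, hi⟩]
      exact hml.trans (hlen _ (hne _ (hmi hi)))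

end blocks

end Scheme

/-- 2.2 -/
theorem scheme : SScheme := by
  classical
  intro J _ _ j0 hj0 A hA hmA
  obtain ⟨f, hf⟩ := countable_iff_exists_injOn.1 hA
  let b : {j : J // mI j ∈ A} := ⟨j0, hmA⟩
  let idx : {j : J // mI j ∈ A} → ℕ := fun ξ => if ξ = b then 0 else f (mI ξ.1) + 1
  have hb0 : idx b = 0 := if_pos rfl
  have hidx : Function.Injective idx := by
    intro ξ ξ' h
    by_cases h1 : ξ = b <;> by_cases h2 : ξ' = b
    · rw [h1, h2]
    · simp only [idx, if_pos h1, if_neg h2] at h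
      omega
    · simp only [idx, if_pos h2, if_neg h1] at h
      omega
    · simp only [idx, if_neg h2, if_neg h1] at h
      have h3 := hf ξ.2 ξ'.2 (by omega)
      apply Subtype.ext
      have h4 := congrArg (fun i => (ofLex i).1) h3
      exact h4
  have hc := Scheme.code_exists hidx
  set cd := fun (ξ : {j : J // mI j ∈ A}) (u : List ℕ) => Nat.pair (idx ξ) (Scheme.enc u) + 1
    with hcd
  have hfin : ∀ j, {c | Scheme.Blk A f idx cd b j c}.Finite := fun j => Scheme.blk_finite hc hf j
  refine ⟨fun j => (hfin j).toFinset.toList, ?_, ?_, ?_⟩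
  · intro j c h
    simp only [Finset.mem_toList, Finite.mem_toFinset, mem_ofPred_eq] at h
    exact h.supp
  · intro j j' hj c h c' h'
    simp only [Finset.mem_toList, Finite.mem_toFinset, mem_ofPred_eq] at h h'
    exact Scheme.blk_star hc hj0 hj h h'
  · intro z i hi l n
    obtain ⟨j, h1, c, h2, h3, h4⟩ := Scheme.blk_cover hidx hj0 hb0 hc hf z i hi l n
    refine ⟨j, h1, c, ?_, h3, h4⟩
    simp only [Finset.mem_toList, Finite.mem_toFinset, mem_ofPred_eq]
    exact h2

end Pool.Agent.H554
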