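import Pool.Agent.H554.FStmts
import Pool.Agent.H554.Basic

/-!
# The truth lemma (3.2)
-/

namespace Pool.Agent.H554

open Pool.Agent.Helper669.Forcing Set

section

variable {J : Type} [LinearOrder J]

/-- the condition `q` inside the cell `c` -/
def inC (q : Mo J) (c : Cell (alph J)) : Mo J := q.comp ⟨iota c, isMorC_iota c⟩

theorem inC_val (q : Mo J) (c : Cell (alph J)) : (inC q c).1 = q.1 ∘ iota c := rfl

theorem inC_le (q : Mo J) (c : Cell (alph J)) : inC q c ≤ q := Mo.comp_le _ _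

theorem inC_mul_le (q : Mo J) (c d : Cell (alph J)) : inC q (c * d) ≤ inC q c :=
  ⟨⟨iota d, isMorC_iota d⟩, by rw [inC_val, inC_val, iota_mul]; rfl⟩

instance : Nonempty (W (alph J)) := ⟨fun _ _ => default⟩

/-- 3.1: inside some cell around `z` the condition `q ∘ s` is below `q` inside the cell `c` -/
theorem inC_comp_le (q s : Mo J) (c : Cell (alph J)) (z : W (alph J)) (h : c.Mem (s.1 z)) :
    ∃ c' : Cell (alph J), c'.Mem z ∧ inC (q.comp s) c' ≤ inC q c := by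
  obtain ⟨c', hc', g, hg, hfg⟩ := IsMor.local_factor dep_trans s.2 c z h
  refine ⟨c', hc', ⟨g, hg⟩, ?_⟩
  show q.1 ∘ s.1 ∘ iota c' = (q.1 ∘ iota c) ∘ g
  rw [hfg]
  rfl

theorem mem_meets_of_dense {N : Set (Mo J)} {p : Mo J} (h : ∀ q ≤ p, ∃ r ≤ q, r ∈ meets N) :
    p ∈ meets N := by
  intro q hq
  obtain ⟨r, hr, hN⟩ := h q hq
  obtain ⟨r', hr', s, hs, hle⟩ := hN r le_rfl
  exact ⟨r', hr'.trans hr, s, hs, hle⟩

variable {X : Type} {q : Mo J} {C : X → Set (Mo J)} {G : W (alph J) → Set X}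

theorem Reads.pos (h : Reads q C G) {z : W (alph J)} {n : X} (hn : n ∈ G z) :
    ∃ c : Cell (alph J), c.Mem z ∧ inC q c ∈ meets (C n) := by
  obtain ⟨c, hc, h'⟩ := h z n
  exact ⟨c, hc, (h' (inC q c) rfl).1 hn⟩

theorem Reads.neg (h : Reads q C G) {z : W (alph J)} {n : X} (hn : n ∉ G z) :
    ∃ c : Cell (alph J), c.Mem z ∧ inC q c ∈ fnot (meets (C n)) := by
  obtain ⟨c, hc, h'⟩ := h z n
  exact ⟨c, hc, (h' (inC q c) rfl).2 hn⟩

theorem not_both {c d : Cell (alph J)} {z : W (alph J)} (hc : c.Mem z) (hd : d.Mem z) {n : X}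
    (h : inC q c ∈ meets (C n)) (h' : inC q d ∈ fnot (meets (C n))) : False := by
  obtain ⟨e, -, ⟨c', rfl⟩, ⟨d', hd'⟩, -⟩ := exists_cell_le c d z hc hd
  have h1 := down_meets _ _ h _ (inC_mul_le q c c')
  rw [hd'] at h1
  exact down_fnot _ _ h' _ (inC_mul_le q d d') _ le_rfl h1

theorem Reads.contS (h : Reads q C G) : ContS G := by
  intro n
  refine ⟨?_, ?_⟩
  · rw [← isOpen_compl_iff, isOpen_iff_mem_nhds]
    intro z hz
    obtain ⟨c, hc, h'⟩ := h.neg (z := z) (n := n) hz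
    filter_upwards [(isClopen_cell c).isOpen.mem_nhds (show z ∈ {z | c.Mem z} from hc)]
      with w hw hw'
    obtain ⟨d, hd, h''⟩ := h.pos (z := w) (n := n) hw'
    exact not_both hd hw h'' h'
  · rw [isOpen_iff_mem_nhds]
    intro z hz
    obtain ⟨c, hc, h'⟩ := h.pos (z := z) (n := n) hz
    filter_upwards [(isClopen_cell c).isOpen.mem_nhds (show z ∈ {z | c.Mem z} from hc)]
      with w hw
    by_contra hw'
    obtain ⟨d, hd, h''⟩ := h.neg (z := w) (n := n) hw'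
    exact not_both hw hd h' h''

theorem Reads.comp (h : Reads q C G) (s : Mo J) : Reads (q.comp s) C (fun z => G (s.1 z)) := by
  intro z n
  by_cases hn : n ∈ G (s.1 z)
  · obtain ⟨c, hc, h'⟩ := h.pos hn
    obtain ⟨c', hc', hle⟩ := inC_comp_le q s c z hc
    refine ⟨c', hc', fun r hr => ⟨fun _ => ?_, fun h1 => absurd hn h1⟩⟩
    have : r = inC (q.comp s) c' := Subtype.ext hr
    rw [this]
    exact down_meets _ _ h' _ hle
  · obtain ⟨c, hc, h'⟩ := h.neg hn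
    obtain ⟨c', hc', hle⟩ := inC_comp_le q s c z hc
    refine ⟨c', hc', fun r hr => ⟨fun h1 => absurd h1 hn, fun _ => ?_⟩⟩
    have : r = inC (q.comp s) c' := Subtype.ext hr
    rw [this]
    exact down_fnot _ _ h' _ hle

theorem le_iff_comp {p q : Mo J} : p ≤ q ↔ ∃ s : Mo J, p = q.comp s :=
  ⟨fun ⟨s, hs⟩ => ⟨s, Subtype.ext hs⟩, fun ⟨s, hs⟩ => ⟨s, by rw [hs]; rfl⟩⟩

theorem Mo.comp_assoc (p q r : Mo J) : (p.comp q).comp r = p.comp (q.comp r) := rfl

theorem Reads.meets_iff (h : Reads q C G) (s : Mo J) (n : X) :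
    q.comp s ∈ meets (C n) ↔ ∀ z, n ∈ G (s.1 z) := by
  constructor
  · intro h1 z
    by_contra hn
    obtain ⟨c, -, h'⟩ := (h.comp s).neg (z := z) (n := n) hn
    exact h' _ le_rfl (down_meets _ _ h1 _ (inC_le _ _))
  · intro h1
    refine mem_meets_of_dense fun p hp => ?_
    obtain ⟨t, rfl⟩ := le_iff_comp.1 hp
    obtain ⟨z⟩ : Nonempty (W (alph J)) := inferInstance
    obtain ⟨c, -, h'⟩ := (h.comp (s.comp t)).pos (z := z) (n := n) (h1 (t.1 z))
    exact ⟨_, inC_le _ _, h'⟩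

theorem Reads.fnot_iff (h : Reads q C G) (s : Mo J) (n : X) :
    q.comp s ∈ fnot (meets (C n)) ↔ ∀ z, n ∉ G (s.1 z) := by
  constructor
  · intro h1 z hn
    obtain ⟨c, -, h'⟩ := (h.comp s).pos (z := z) (n := n) hn
    exact h1 _ (inC_le _ _) h'
  · intro h1 p hp hm
    obtain ⟨t, rfl⟩ := le_iff_comp.1 hp
    obtain ⟨z⟩ : Nonempty (W (alph J)) := inferInstance
    exact h1 _ ((h.meets_iff (s.comp t) n).1 hm z)

end

/-- 3.2 -/
theorem truth : STruth := by
  intro J _ _ X q C G h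
  exact ⟨h.contS, fun s => ⟨h.comp s, fun n => ⟨h.meets_iff s n, h.fnot_iff s n⟩⟩⟩

end Pool.Agent.H554
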