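import Pool.Agent.H554.Stmts

/-!
# The ultrafilter system (section 4)
-/

namespace Pool.Agent.H554.USys

open Filter Set Pool.Agent.H554
open scoped Classical

attribute [local instance] Ultrafilter.mul Ultrafilter.semigroup

set_option linter.unusedSectionVars false

variable {A : Type} [LinearOrder A]

/-! ### strings -/

theorem mem_fs {κ : Str A} {a : A} : a ∈ κ.fs ↔ κ.val a ≠ [] := by
  unfold Str.fs; simp

theorem fs_mul (κ κ' : Str A) : (κ * κ').fs = κ.fs ∪ κ'.fs := by
  ext a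
  rw [Finset.mem_union, mem_fs, mem_fs, mem_fs, Cell.mul_val]
  simp only [ne_eq, List.append_eq_nil_iff]
  tauto

theorem fs_one : (1 : Str A).fs = ∅ := by
  ext a
  rw [mem_fs, Cell.one_val]
  simp

theorem tr_val (ξ : WithTop A) (κ : Str A) (a : A) :
    (tr ξ κ).val a = if (a : WithTop A) < ξ then κ.val a else [] := rfl

theorem tr_mul (ξ : WithTop A) (κ κ' : Str A) : tr ξ (κ * κ') = tr ξ κ * tr ξ κ' := by
  ext a : 2
  rw [Cell.mul_val, tr_val, tr_val, tr_val, Cell.mul_val]
  split_ifs <;> simp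

theorem tr_one (ξ : WithTop A) : tr ξ (1 : Str A) = 1 := by
  ext a : 2
  rw [tr_val, Cell.one_val]
  simp

theorem tr_id {ξ : WithTop A} {κ : Str A} (h : ∀ a : A, a ∈ κ.fs → (a : WithTop A) < ξ) :
    tr ξ κ = κ := by
  ext a : 2
  rw [tr_val]
  split_ifs with ha
  · rfl
  · by_contra h'
    exact ha (h a (mem_fs.2 (Ne.symm h')))

theorem mem_fs_tr {ξ : WithTop A} {κ : Str A} {a : A} :
    a ∈ (tr ξ κ).fs ↔ a ∈ κ.fs ∧ (a : WithTop A) < ξ := by
  rw [mem_fs, mem_fs, tr_val]
  split_ifs with h <;> simp [h]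

/-- the elements below `η` -/
noncomputable def cut (η : WithTop A) (P : Finset A) : Finset A :=
  P.filter fun a => (a : WithTop A) < η

theorem mem_cut {η : WithTop A} {P : Finset A} {a : A} :
    a ∈ cut η P ↔ a ∈ P ∧ (a : WithTop A) < η := by
  unfold cut; rw [Finset.mem_filter]

theorem fs_tr (ξ : WithTop A) (κ : Str A) : (tr ξ κ).fs = cut ξ κ.fs := by
  ext a; rw [mem_fs_tr, mem_cut]

/-- the string with the single letter `k` at `ζ` -/
noncomputable def sg (ζ : A) (k : ℕ) : Str A :=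
  ⟨fun a => if a = ζ then [k] else [], (Set.finite_singleton ζ).subset fun a ha => by
    simp only [mem_ofPred_eq] at ha
    by_contra h
    exact ha (if_neg h)⟩

theorem sg_val (ζ : A) (k : ℕ) (a : A) : (sg ζ k).val a = if a = ζ then [k] else [] := rfl

theorem fs_sg (ζ : A) (k : ℕ) : (sg ζ k).fs = {ζ} := by
  ext a
  rw [mem_fs, sg_val, Finset.mem_singleton]
  split_ifs with h <;> simp [h]

theorem tr_sg {ξ : WithTop A} {ζ : A} (h : ξ ≤ ζ) (k : ℕ) : tr ξ (sg ζ k) = 1 := by
  ext a : 2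
  rw [tr_val, sg_val, Cell.one_val]
  split_ifs with h1 h2
  · subst h2; exact absurd h1 (not_lt.2 h)
  · rfl
  · rfl

/-! ### ultrafilters on strings -/

/-- ultrafilters -/
abbrev UF (A : Type) : Type := Ultrafilter (Str A)

theorem uf_ext {U V : UF A} (h : ∀ p : Str A → Prop, (∀ᶠ x in (U : Filter (Str A)), p x) →
    ∀ᶠ x in (V : Filter (Str A)), p x) : U = V := by
  symm
  apply Ultrafilter.eq_of_le
  intro s hs
  exact h (fun x => x ∈ s) hs

theorem ev_mul {U V : UF A} {p : Str A → Prop} :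
    (∀ᶠ x in ((U * V : UF A) : Filter (Str A)), p x) ↔
      ∀ᶠ x in (U : Filter (Str A)), ∀ᶠ y in (V : Filter (Str A)), p (x * y) := Iff.rfl

/-- the principal ultrafilter -/
def pr (x : Str A) : UF A := (pure x : Ultrafilter (Str A))

theorem ev_pr {x : Str A} {p : Str A → Prop} :
    (∀ᶠ y in ((pr x : UF A) : Filter (Str A)), p y) ↔ p x := Iff.rfl

theorem ev_map {U : UF A} {f : Str A → Str A} {p : Str A → Prop} :
    (∀ᶠ y in ((U.map f : UF A) : Filter (Str A)), p y) ↔
      ∀ᶠ x in (U : Filter (Str A)), p (f x) := Iff.rfl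

theorem pr_one_mul (U : UF A) : pr 1 * U = U := by
  apply uf_ext
  intro p h
  rw [ev_mul, ev_pr] at h
  simpa using h

theorem mul_pr_one (U : UF A) : U * pr 1 = U := by
  apply uf_ext
  intro p h
  rw [ev_mul] at h
  simpa [ev_pr] using h

theorem map_tr_pr (ξ : WithTop A) : (pr 1 : UF A).map (tr ξ) = pr 1 := by
  apply uf_ext
  intro p h
  rw [ev_map, ev_pr, tr_one] at h
  exact h

theorem map_mul_tr (ξ : WithTop A) (U V : UF A) :
    (U * V).map (tr ξ) = U.map (tr ξ) * V.map (tr ξ) := by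
  apply uf_ext
  intro p h
  rw [ev_map, ev_mul] at h
  rw [ev_mul, ev_map]
  simp only [ev_map, ← tr_mul]
  exact h

/-- the ultrafilter of the products `κ κ'` with `κ` from `U` and `κ'` from `f κ` -/
def bl (U : UF A) (f : Str A → UF A) : UF A := Ultrafilter.bind U fun κ => pr κ * f κ

theorem ev_bl {U : UF A} {f : Str A → UF A} {p : Str A → Prop} :
    (∀ᶠ x in ((bl U f : UF A) : Filter (Str A)), p x) ↔
      ∀ᶠ x in (U : Filter (Str A)), ∀ᶠ y in (f x : Filter (Str A)), p (x * y) := Iff.rfl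

theorem bl_const (U V : UF A) : bl U (fun _ => V) = U * V := by
  apply uf_ext
  intro p h
  exact h

theorem bl_congr {U : UF A} {f g : Str A → UF A} (h : ∀ᶠ κ in (U : Filter (Str A)), f κ = g κ) :
    bl U f = bl U g := by
  apply uf_ext
  intro p hp
  rw [ev_bl] at hp ⊢
  filter_upwards [hp, h] with κ h1 h2
  rwa [h2] at h1

theorem bl_mul (U V : UF A) (f : Str A → UF A) : bl U f * V = bl U fun κ => f κ * V := by
  apply uf_ext
  intro p hp
  rw [ev_mul, ev_bl] at hp
  rw [ev_bl]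
  simpa only [ev_mul, mul_assoc] using hp

theorem bl_bl (U : UF A) (f g : Str A → UF A) :
    bl (bl U f) g = bl U fun κ => bl (f κ) fun κ' => g (κ * κ') := by
  apply uf_ext
  intro p hp
  rw [ev_bl, ev_bl] at hp
  rw [ev_bl]
  simpa only [ev_bl, mul_assoc] using hp

theorem mul_bl (U V : UF A) (g : Str A → UF A) :
    bl (U * V) g = bl U fun κ => bl V fun κ' => g (κ * κ') := by
  rw [← bl_const, bl_bl]

/-! ### products -/

/-- the product of the `M a`, `a ∈ P`, in increasing order -/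
noncomputable def GG (M : WithTop A → UF A) (P : Finset A) : UF A :=
  (P.sort (· ≤ ·)).foldl (fun U (a : A) => U * M (a : WithTop A)) (pr 1)

variable {M : WithTop A → UF A}

theorem GG_empty : GG M ∅ = pr 1 := by
  unfold GG; simp

theorem sort_insert_max {P : Finset A} {a : A} (h : ∀ b ∈ P, b < a) :
    (insert a P).sort (· ≤ ·) = P.sort (· ≤ ·) ++ [a] := by
  have ha : a ∉ P := fun h' => lt_irrefl _ (h a h')
  apply List.Perm.eq_of_pairwise' (r := (· ≤ ·))
  · exact Finset.pairwise_sort _ _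
  · rw [List.pairwise_append]
    refine ⟨Finset.pairwise_sort _ _, List.pairwise_singleton _ _, ?_⟩
    intro x hx y hy
    rw [List.mem_singleton] at hy
    subst hy
    exact (h x ((Finset.mem_sort _).1 hx)).le
  · rw [List.perm_ext_iff_of_nodup (Finset.sort_nodup _ _)]
    · intro x
      rw [Finset.mem_sort, List.mem_append, Finset.mem_sort, List.mem_singleton,
        Finset.mem_insert, or_comm]
    · rw [List.nodup_append]
      refine ⟨Finset.sort_nodup _ _, List.nodup_singleton _, ?_⟩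
      intro x hx y hy hxy
      rw [List.mem_singleton] at hy
      subst hy
      subst hxy
      exact ha ((Finset.mem_sort _).1 hx)

theorem GG_insert {P : Finset A} {a : A} (h : ∀ b ∈ P, b < a) :
    GG M (insert a P) = GG M P * M (a : WithTop A) := by
  unfold GG
  rw [sort_insert_max h, List.foldl_append, List.foldl_cons, List.foldl_nil]

theorem GG_union {P Q : Finset A} (h : ∀ a ∈ P, ∀ b ∈ Q, a < b) :
    GG M (P ∪ Q) = GG M P * GG M Q := by
  induction Q using Finset.induction_on_max with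
  | empty => rw [Finset.union_empty, GG_empty, mul_pr_one]
  | insert b Q hb ih =>
    have h1 : P ∪ insert b Q = insert b (P ∪ Q) := Finset.union_insert b P Q
    rw [h1, GG_insert, GG_insert hb, ih, mul_assoc]
    · intro a ha c hc
      exact h a ha c (Finset.mem_insert_of_mem hc)
    · intro c hc
      rcases Finset.mem_union.1 hc with hc | hc
      · exact h c hc b (Finset.mem_insert_self _ _)
      · exact hb c hc

theorem GG_single (a : A) : GG M {a} = M (a : WithTop A) := by
  have := GG_insert (M := M) (P := ∅) (a := a) (by simp)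
  rw [GG_empty, pr_one_mul] at this
  exact this

theorem GG_congr {M' : WithTop A → UF A} {P : Finset A} (h : ∀ a : A, a ∈ P → M (a : WithTop A) = M' (a : WithTop A)) :
    GG M P = GG M' P := by
  induction P using Finset.induction_on_max with
  | empty => rw [GG_empty, GG_empty]
  | insert b Q hb ih =>
    rw [GG_insert hb, GG_insert hb, ih fun a ha => h a (Finset.mem_insert_of_mem ha),
      h b (Finset.mem_insert_self _ _)]

/-! ### the properties of the sequence -/

/-- `ρ(N) = N` and the other properties of `M η`, relative to the sequence `M` below `η`. -/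
structure Pre (M : WithTop A → UF A) (η : WithTop A) (N : UF A) : Prop where
  conc : ∀ᶠ κ in (N : Filter (Str A)), ∀ a : A, a ∈ κ.fs → (a : WithTop A) < η
  trunc : ∀ ξ, ξ < η → N.map (tr ξ) = M ξ
  first : ∀ (ζ : A) (k : ℕ), (ζ : WithTop A) < η →
    ∀ᶠ κ in (N : Filter (Str A)), ∃ a l, κ.val ζ = a :: l ∧ k < a
  rho : bl N (fun κ => GG M κ.fs) = N

/-- the properties of `M η` -/
structure Good (M : WithTop A → UF A) (η : WithTop A) (N : UF A) : Prop extends Pre M η N where
  idem : N * N = N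

/-- first letters are kept when something is appended -/
theorem first_mul {κ κ' : Str A} {ζ : A} {k : ℕ} (h : ∃ a l, κ.val ζ = a :: l ∧ k < a) :
    ∃ a l, (κ * κ').val ζ = a :: l ∧ k < a := by
  obtain ⟨a, l, h1, h2⟩ := h
  exact ⟨a, l ++ κ'.val ζ, by rw [Cell.mul_val, h1]; rfl, h2⟩

theorem first_mul' {κ κ' : Str A} {ζ : A} {k : ℕ} (h0 : κ.val ζ = [] ∨ ∃ a l, κ.val ζ = a :: l ∧ k < a)
    (h : ∃ a l, κ'.val ζ = a :: l ∧ k < a) :
    ∃ a l, (κ * κ').val ζ = a :: l ∧ k < a := by
  rcases h0 with h0 | h0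
  · obtain ⟨a, l, h1, h2⟩ := h
    exact ⟨a, l, by rw [Cell.mul_val, h0, h1]; rfl, h2⟩
  · exact first_mul h0

/-- almost surely the support contains a given finite set -/
theorem Pre.supp {η : WithTop A} {N : UF A} (h : Pre M η N) (P : Finset A)
    (hP : ∀ a : A, a ∈ P → (a : WithTop A) < η) : ∀ᶠ κ in (N : Filter (Str A)), P ⊆ κ.fs := by
  have h1 : ∀ᶠ κ in (N : Filter (Str A)), ∀ a ∈ P, a ∈ κ.fs := by
    rw [Filter.eventually_all_finset]
    intro a ha
    filter_upwards [h.first a 0 (hP a ha)] with κ hκ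
    obtain ⟨b, l, h2, _⟩ := hκ
    rw [mem_fs, h2]
    exact List.cons_ne_nil _ _
  exact h1

theorem Pre.tr_le {η : WithTop A} {N : UF A} (h : Pre M η N) (hN : M η = N) {ξ : WithTop A}
    (hξ : ξ ≤ η) : N.map (tr ξ) = M ξ := by
  rcases hξ.lt_or_eq with h1 | h1
  · exact h.trunc ξ h1
  · subst h1
    rw [hN]
    apply uf_ext
    intro p hp
    rw [ev_map] at hp
    filter_upwards [hp, h.conc] with κ h1 h2
    rwa [tr_id h2] at h1

/-- (A1) -/
theorem A1 [WellFoundedLT A] {η : WithTop A} (hM : ∀ ζ, ζ ≤ η → Good M ζ (M ζ)) {ξ : WithTop A}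
    (hξ : ξ ≤ η) : M η * M ξ = M η := by
  induction η using WellFoundedLT.induction with
  | ind η ih =>
    rcases hξ.lt_or_eq with h1 | h1
    · have h0 := (hM η le_rfl).rho
      conv_lhs => rw [← h0]
      rw [bl_mul]
      refine Eq.trans (bl_congr ?_) h0
      lift ξ to A using (lt_top_of_lt h1).ne
      filter_upwards [(hM η le_rfl).conc, (hM η le_rfl).toPre.supp {ξ} (by simpa using h1)]
        with κ h3 h4
      have hne : κ.fs.Nonempty := ⟨ξ, h4 (Finset.mem_singleton_self ξ)⟩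
      set z := κ.fs.max' hne with hz
      have hins : κ.fs = insert z (κ.fs.erase z) :=
        (Finset.insert_erase (Finset.max'_mem _ _)).symm
      have hlt : ∀ b ∈ κ.fs.erase z, b < z := fun b hb =>
        lt_of_le_of_ne (Finset.le_max' _ _ (Finset.mem_of_mem_erase hb)) (Finset.ne_of_mem_erase hb)
      rw [hins, GG_insert hlt, mul_assoc, ih z (h3 z (Finset.max'_mem _ _))
        (fun ζ hζ => hM ζ (hζ.trans (h3 z (Finset.max'_mem _ _)).le))]
      exact WithTop.coe_le_coe.2 (Finset.le_max' _ _ (h4 (Finset.mem_singleton_self ξ)))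
    · rw [h1]; exact (hM η le_rfl).idem

/-! ### properties of the products -/

theorem conc_GG {P : Finset A} (hM : ∀ z : A, z ∈ P → Good M z (M z)) :
    ∀ᶠ κ in (GG M P : Filter (Str A)), ∀ a : A, a ∈ κ.fs → ∃ z ∈ P, a < z := by
  induction P using Finset.induction_on_max with
  | empty =>
    rw [GG_empty, ev_pr, fs_one]
    simp
  | insert b Q hb ih =>
    rw [GG_insert hb, ev_mul]
    filter_upwards [ih fun z hz => hM z (Finset.mem_insert_of_mem hz)] with κ h1
    filter_upwards [(hM b (Finset.mem_insert_self _ _)).conc] with κ' h2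
    intro a ha
    rw [fs_mul, Finset.mem_union] at ha
    rcases ha with ha | ha
    · obtain ⟨z, hz, h3⟩ := h1 a ha
      exact ⟨z, Finset.mem_insert_of_mem hz, h3⟩
    · exact ⟨b, Finset.mem_insert_self _ _, WithTop.coe_lt_coe.1 (h2 a ha)⟩

theorem first_GG {P : Finset A} (hM : ∀ z : A, z ∈ P → Good M z (M z)) (ζ : A) (k : ℕ) :
    ∀ᶠ κ in (GG M P : Filter (Str A)), κ.val ζ = [] ∨ ∃ a l, κ.val ζ = a :: l ∧ k < a := by
  induction P using Finset.induction_on_max with
  | empty =>
    rw [GG_empty, ev_pr]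
    exact Or.inl rfl
  | insert b Q hb ih =>
    rw [GG_insert hb, ev_mul]
    filter_upwards [ih fun z hz => hM z (Finset.mem_insert_of_mem hz)] with κ h1
    by_cases hζ : ζ < b
    · filter_upwards [(hM b (Finset.mem_insert_self _ _)).first ζ k (WithTop.coe_lt_coe.2 hζ)]
        with κ' h2
      exact Or.inr (first_mul' h1 h2)
    · filter_upwards [(hM b (Finset.mem_insert_self _ _)).conc] with κ' h2
      have h3 : κ'.val ζ = [] := by
        by_contra h
        exact hζ (WithTop.coe_lt_coe.1 (h2 ζ (mem_fs.2 h)))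
      rw [Cell.mul_val, h3, List.append_nil]
      exact h1

theorem tr_GG_id {P : Finset A} (hM : ∀ z : A, z ∈ P → Good M z (M z)) {ξ : WithTop A}
    (hP : ∀ z : A, z ∈ P → (z : WithTop A) ≤ ξ) : (GG M P).map (tr ξ) = GG M P := by
  apply uf_ext
  intro p hp
  rw [ev_map] at hp
  filter_upwards [hp, conc_GG hM] with κ h1 h2
  rwa [tr_id] at h1
  intro a ha
  obtain ⟨z, hz, h3⟩ := h2 a ha
  exact lt_of_lt_of_le (WithTop.coe_lt_coe.2 h3) (hP z hz)

theorem tr_GG {η : WithTop A} (hM : ∀ ζ, ζ < η → Good M ζ (M ζ)) {P : Finset A}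
    (hP : ∀ z : A, z ∈ P → (z : WithTop A) < η) (ξ : WithTop A) :
    (GG M P).map (tr ξ) * M ξ = GG M (cut ξ P) * M ξ := by
  induction P using Finset.induction_on_max with
  | empty =>
    have : cut ξ (∅ : Finset A) = ∅ := by ext a; simp [mem_cut]
    rw [this, GG_empty, map_tr_pr]
  | insert b Q hb ih =>
    by_cases h : (b : WithTop A) < ξ
    · have hall : ∀ z : A, z ∈ insert b Q → (z : WithTop A) < ξ := by
        intro z hz
        rcases Finset.mem_insert.1 hz with rfl | hz
        · exact h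
        · exact (WithTop.coe_lt_coe.2 (hb z hz)).trans h
      have h1 : cut ξ (insert b Q) = insert b Q := by
        ext a
        rw [mem_cut]
        exact ⟨fun h => h.1, fun h => ⟨h, hall a h⟩⟩
      rw [h1, tr_GG_id (fun (z : A) hz => hM z (hP z hz)) fun (z : A) hz => (hall z hz).le]
    · have hb' : (b : WithTop A) < η := hP b (Finset.mem_insert_self _ _)
      push Not at h
      have h1 : cut ξ (insert b Q) = cut ξ Q := by
        ext a
        rw [mem_cut, mem_cut, Finset.mem_insert]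
        constructor
        · rintro ⟨rfl | h2, h3⟩
          · exact absurd h3 (not_lt.2 h)
          · exact ⟨h2, h3⟩
        · rintro ⟨h2, h3⟩
          exact ⟨Or.inr h2, h3⟩
      rw [h1, GG_insert hb, map_mul_tr, (hM b hb').toPre.tr_le rfl h, mul_assoc,
        (hM ξ (lt_of_le_of_lt h hb')).idem]
      exact ih fun z hz => hP z (Finset.mem_insert_of_mem hz)

theorem tr_GG' {η : WithTop A} (hM : ∀ ζ, ζ < η → Good M ζ (M ζ)) {P : Finset A}
    (hP : ∀ z : A, z ∈ P → (z : WithTop A) < η) {ξ : WithTop A}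
    (hξ : ∃ z : A, z ∈ P ∧ ξ ≤ (z : WithTop A)) :
    (GG M P).map (tr ξ) = GG M (cut ξ P) * M ξ := by
  obtain ⟨w, hw, hξw⟩ := hξ
  have hne : P.Nonempty := ⟨w, hw⟩
  set z := P.max' hne with hz
  have hzP : z ∈ P := Finset.max'_mem _ _
  have hξz : ξ ≤ z := hξw.trans (WithTop.coe_le_coe.2 (Finset.le_max' _ _ hw))
  have hins : P = insert z (P.erase z) := (Finset.insert_erase hzP).symm
  have hlt : ∀ b ∈ P.erase z, b < z := fun b hb =>
    lt_of_le_of_ne (Finset.le_max' _ _ (Finset.mem_of_mem_erase hb)) (Finset.ne_of_mem_erase hb)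
  have h1 : GG M P = GG M (P.erase z) * M z := by
    conv_lhs => rw [hins]
    rw [GG_insert hlt]
  have h2 : (GG M P).map (tr ξ) * M ξ = (GG M P).map (tr ξ) := by
    rw [h1, map_mul_tr, (hM z (hP z hzP)).toPre.tr_le rfl hξz, mul_assoc,
      (hM ξ (lt_of_le_of_lt hξz (hP z hzP))).idem]
  rw [← h2]
  exact tr_GG hM hP ξ

/-- (4.2) -/
theorem G42 {η : WithTop A} (hM : ∀ ζ, ζ < η → Good M ζ (M ζ)) {P : Finset A}
    (hP : ∀ z : A, z ∈ P → (z : WithTop A) < η) :
    bl (GG M P) (fun κ => GG M (P ∪ κ.fs)) = GG M P := by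
  induction P using Finset.induction_on_max with
  | empty =>
    apply uf_ext
    intro p hp
    rw [ev_bl, GG_empty, ev_pr, fs_one, Finset.union_empty, GG_empty, ev_pr] at hp
    rw [GG_empty, ev_pr]
    simpa using hp
  | insert b Q hb ih =>
    have hbη : (b : WithTop A) < η := hP b (Finset.mem_insert_self _ _)
    have hQ : ∀ z : A, z ∈ Q → (z : WithTop A) < η := fun z hz =>
      hP z (Finset.mem_insert_of_mem hz)
    rw [GG_insert hb, mul_bl, ← bl_const]
    apply bl_congr
    filter_upwards [conc_GG fun z hz => hM z (hQ z hz)] with κ hκ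
    have h1 : bl (M b) (fun κ' => GG M (insert b Q ∪ (κ * κ').fs)) =
        bl (M b) (fun κ' => GG M κ'.fs * M b) := by
      apply bl_congr
      filter_upwards [(hM b hbη).conc, (hM b hbη).toPre.supp (Q ∪ κ.fs) (by
        intro a ha
        rcases Finset.mem_union.1 ha with ha | ha
        · exact WithTop.coe_lt_coe.2 (hb a ha)
        · obtain ⟨z, hz, h⟩ := hκ a ha
          exact WithTop.coe_lt_coe.2 (h.trans (hb z hz)))] with κ' h2 h3
      have h4 : insert b Q ∪ (κ * κ').fs = insert b κ'.fs := by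
        ext a
        rw [fs_mul]
        simp only [Finset.mem_union, Finset.mem_insert]
        constructor
        · rintro ((h | h) | (h | h))
          · exact Or.inl h
          · exact Or.inr (h3 (Finset.mem_union_left _ h))
          · exact Or.inr (h3 (Finset.mem_union_right _ h))
          · exact Or.inr h
        · rintro (h | h)
          · exact Or.inl (Or.inl h)
          · exact Or.inr (Or.inr h)
      rw [h4, GG_insert fun a ha => WithTop.coe_lt_coe.1 (h2 a ha)]
    rw [h1, ← bl_mul, (hM b hbη).rho, (hM b hbη).idem]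

/-! ### the step of the recursion -/

section step

variable {η : WithTop A}

theorem Pre.mul {N N' : UF A} (hid : ∀ ξ, ξ < η → M ξ * M ξ = M ξ) (h : Pre M η N)
    (h' : Pre M η N') : Pre M η (N * N') where
  conc := by
    rw [ev_mul]
    filter_upwards [h.conc] with κ h1
    filter_upwards [h'.conc] with κ' h2
    intro a ha
    rw [fs_mul, Finset.mem_union] at ha
    exact ha.elim (h1 a) (h2 a)
  trunc ξ hξ := by rw [map_mul_tr, h.trunc ξ hξ, h'.trunc ξ hξ, hid ξ hξ]
  first ζ k hζ := by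
    rw [ev_mul]
    filter_upwards [h.first ζ k hζ] with κ h1
    exact Filter.Eventually.of_forall fun κ' => first_mul h1
  rho := by
    rw [mul_bl, ← bl_const]
    apply bl_congr
    filter_upwards [h.conc] with κ h1
    have : bl N' (fun κ' => GG M (κ * κ').fs) = bl N' (fun κ' => GG M κ'.fs) := by
      apply bl_congr
      filter_upwards [h'.supp κ.fs h1] with κ' h2
      rw [fs_mul, Finset.union_eq_right.2 h2]
    rw [this, h'.rho]

theorem isClosed_ev (p : Str A → Prop) :
    IsClosed {N : UF A | ∀ᶠ κ in (N : Filter (Str A)), p κ} :=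
  ultrafilter_isClosed_basic {x | p x}

theorem isOpen_ev (p : Str A → Prop) :
    IsOpen {N : UF A | ∀ᶠ κ in (N : Filter (Str A)), p κ} :=
  ultrafilter_isOpen_basic {x | p x}

theorem isClosed_iff_ev (p q : Str A → Prop) :
    IsClosed {N : UF A | (∀ᶠ κ in (N : Filter (Str A)), p κ) → ∀ᶠ κ in (N : Filter (Str A)), q κ} := by
  have : {N : UF A | (∀ᶠ κ in (N : Filter (Str A)), p κ) → ∀ᶠ κ in (N : Filter (Str A)), q κ} =
      {N : UF A | ∀ᶠ κ in (N : Filter (Str A)), p κ}ᶜ ∪
        {N : UF A | ∀ᶠ κ in (N : Filter (Str A)), q κ} := by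
    ext N
    simp only [mem_ofPred_eq, mem_union, mem_compl_iff]
    tauto
  rw [this]
  exact (isOpen_ev p).isClosed_compl.union (isClosed_ev q)

theorem isClosed_Pre : IsClosed {N : UF A | Pre M η N} := by
  have : {N : UF A | Pre M η N} =
      {N : UF A | ∀ᶠ κ in (N : Filter (Str A)), ∀ a : A, a ∈ κ.fs → (a : WithTop A) < η} ∩
      (⋂ (ξ : WithTop A) (_ : ξ < η) (p : Str A → Prop) (_ : ∀ᶠ κ in (M ξ : Filter (Str A)), p κ),
        {N : UF A | ∀ᶠ κ in (N : Filter (Str A)), p (tr ξ κ)}) ∩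
      (⋂ (ζ : A) (k : ℕ) (_ : (ζ : WithTop A) < η),
        {N : UF A | ∀ᶠ κ in (N : Filter (Str A)), ∃ a l, κ.val ζ = a :: l ∧ k < a}) ∩
      (⋂ (p : Str A → Prop), {N : UF A |
        (∀ᶠ κ in (N : Filter (Str A)), ∀ᶠ κ' in (GG M κ.fs : Filter (Str A)), p (κ * κ')) →
          ∀ᶠ κ in (N : Filter (Str A)), p κ}) := by
    ext N
    simp only [mem_ofPred_eq, mem_inter_iff, mem_iInter]
    constructor
    · intro h
      refine ⟨⟨⟨h.conc, ?_⟩, fun ζ k hζ => h.first ζ k hζ⟩, ?_⟩
      · intro ξ hξ p hp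
        rw [← h.trunc ξ hξ] at hp
        exact hp
      · intro p hp
        rw [← h.rho]
        exact hp
    · rintro ⟨⟨⟨h1, h2⟩, h3⟩, h4⟩
      refine ⟨h1, ?_, h3, ?_⟩
      · intro ξ hξ
        symm
        apply uf_ext
        intro p hp
        exact h2 ξ hξ p hp
      · apply uf_ext
        intro p hp
        exact h4 p hp
  rw [this]
  refine (((isClosed_ev _).inter ?_).inter ?_).inter ?_
  · exact isClosed_iInter fun _ => isClosed_iInter fun _ => isClosed_iInter fun _ =>
      isClosed_iInter fun _ => isClosed_ev _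
  · exact isClosed_iInter fun _ => isClosed_iInter fun _ => isClosed_iInter fun _ => isClosed_ev _
  · exact isClosed_iInter fun _ => isClosed_iff_ev _ _

/-- the first approximation to `M η` -/
theorem exists_N0 (hM : ∀ ζ, ζ < η → Good M ζ (M ζ)) (hη : ∃ ζ : A, (ζ : WithTop A) < η) :
    ∃ N : UF A, (∀ᶠ κ in (N : Filter (Str A)), ∀ a : A, a ∈ κ.fs → (a : WithTop A) < η) ∧
      (∀ ξ, ξ < η → N.map (tr ξ) = M ξ) ∧
      (∀ (ζ : A) (k : ℕ), (ζ : WithTop A) < η →
        ∀ᶠ κ in (N : Filter (Str A)), ∃ a l, κ.val ζ = a :: l ∧ k < a) := by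
  obtain ⟨ζ0, hζ0⟩ := hη
  let B : Type := {ζ : A // (ζ : WithTop A) < η}
  have : Nonempty B := ⟨⟨ζ0, hζ0⟩⟩
  let W : Ultrafilter B := Ultrafilter.of (atTop : Filter B)
  have hW : (W : Filter B) ≤ atTop := Ultrafilter.of_le _
  let V : Ultrafilter ℕ := Filter.hyperfilter ℕ
  have hV : ∀ k : ℕ, ∀ᶠ a in (V : Filter ℕ), k < a := fun k => by
    have : (V : Filter ℕ) ≤ atTop := by
      rw [← Nat.cofinite_eq_atTop]
      exact Filter.hyperfilter_le_cofinite
    exact this (Filter.eventually_gt_atTop k)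
  let N0 : UF A := Ultrafilter.bind W fun ζ => Ultrafilter.bind (M ζ.1) fun κ =>
    V.map fun a => κ * sg ζ.1 a
  have ev0 : ∀ p : Str A → Prop, (∀ᶠ x in (N0 : Filter (Str A)), p x) ↔
      ∀ᶠ ζ in (W : Filter B), ∀ᶠ κ in (M ζ.1 : Filter (Str A)), ∀ᶠ a in (V : Filter ℕ),
        p (κ * sg ζ.1 a) := fun p => Iff.rfl
  refine ⟨N0, ?_, ?_, ?_⟩
  · rw [ev0]
    refine Filter.Eventually.of_forall fun ζ => ?_
    filter_upwards [(hM ζ.1 ζ.2).conc] with κ h1
    refine Filter.Eventually.of_forall fun a => ?_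
    intro b hb
    rw [fs_mul, Finset.mem_union, fs_sg, Finset.mem_singleton] at hb
    rcases hb with hb | rfl
    · exact (h1 b hb).trans ζ.2
    · exact ζ.2
  · intro ξ hξ
    symm
    apply uf_ext
    intro p hp
    rw [ev_map, ev0]
    lift ξ to A using (lt_top_of_lt hξ).ne
    filter_upwards [hW (Filter.eventually_ge_atTop (⟨ξ, hξ⟩ : B))] with ζ hζ
    have hζ' : ((ξ : A) : WithTop A) ≤ (ζ.1 : WithTop A) := WithTop.coe_le_coe.2 hζ
    have h1 := (hM ζ.1 ζ.2).toPre.tr_le rfl hζ'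
    rw [← h1, ev_map] at hp
    filter_upwards [hp] with κ h2
    refine Filter.Eventually.of_forall fun a => ?_
    rw [tr_mul, tr_sg hζ', mul_one]
    exact h2
  · intro ζ' k hζ'
    rw [ev0]
    filter_upwards [hW (Filter.eventually_ge_atTop (⟨ζ', hζ'⟩ : B))] with ζ hζ
    have hle : ζ' ≤ ζ.1 := hζ
    rcases hle.lt_or_eq with h1 | h1
    · filter_upwards [(hM ζ.1 ζ.2).first ζ' k (WithTop.coe_lt_coe.2 h1)] with κ h2
      exact Filter.Eventually.of_forall fun a => first_mul h2
    · filter_upwards [(hM ζ.1 ζ.2).conc] with κ h2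
      filter_upwards [hV k] with a ha
      refine ⟨a, [], ?_, ha⟩
      have h3 : κ.val ζ' = [] := by
        by_contra h
        have := h2 ζ' (mem_fs.2 h)
        rw [h1] at this
        exact lt_irrefl _ this
      rw [Cell.mul_val, h3, sg_val, if_pos h1]
      rfl

theorem exists_Pre (hM : ∀ ζ, ζ < η → Good M ζ (M ζ)) : ∃ N : UF A, Pre M η N := by
  by_cases hη : ∃ ζ : A, (ζ : WithTop A) < η
  · obtain ⟨N0, h1, h2, h3⟩ := exists_N0 hM hη
    refine ⟨bl N0 fun κ => GG M κ.fs, ?_, ?_, ?_, ?_⟩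
    · rw [ev_bl]
      filter_upwards [h1] with κ h4
      filter_upwards [conc_GG (M := M) (P := κ.fs) fun z hz => hM z (h4 z hz)] with κ' h5
      intro a ha
      rw [fs_mul, Finset.mem_union] at ha
      rcases ha with ha | ha
      · exact h4 a ha
      · obtain ⟨z, hz, h6⟩ := h5 a ha
        exact (WithTop.coe_lt_coe.2 h6).trans (h4 z hz)
    · intro ξ hξ
      have hξ' := hξ
      lift ξ to A using (lt_top_of_lt hξ).ne
      apply uf_ext
      intro p hp
      rw [ev_map, ev_bl] at hp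
      have h7 : bl (M ξ) (fun κ => GG M κ.fs * M ξ) = M ξ := by
        rw [← bl_mul, (hM ξ hξ).rho, (hM ξ hξ).idem]
      have h7' : bl (N0.map (tr ξ)) (fun κ => GG M κ.fs * M ξ) = M ξ := by rw [h2 ξ hξ, h7]
      rw [← h7', ev_bl, ev_map]
      filter_upwards [hp, h1, h3 ξ 0 hξ] with κ h8 h9 h10
      rw [fs_tr, ← tr_GG' (M := M) (η := η) hM h9, ev_map]
      · simpa only [tr_mul] using h8
      · obtain ⟨b, l, h11, _⟩ := h10
        exact ⟨ξ, mem_fs.2 (by rw [h11]; exact List.cons_ne_nil _ _), le_rfl⟩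
    · intro ζ k hζ
      rw [ev_bl]
      filter_upwards [h3 ζ k hζ] with κ h4
      exact Filter.Eventually.of_forall fun κ' => first_mul h4
    · rw [bl_bl]
      apply bl_congr
      filter_upwards [h1] with κ h4
      simp only [fs_mul]
      exact G42 hM h4
  · push Not at hη
    have hno : ∀ a : A, ¬ ((a : WithTop A) < η) := fun a => not_lt.2 (hη a)
    refine ⟨pr 1, ?_, ?_, ?_, ?_⟩
    · rw [ev_pr, fs_one]
      simp
    · intro ξ hξ
      have hξ' := hξ
      lift ξ to A using (lt_top_of_lt hξ).ne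
      exact absurd hξ' (hno ξ)
    · intro ζ k hζ
      exact absurd hζ (hno ζ)
    · apply uf_ext
      intro p hp
      rw [ev_bl, ev_pr, fs_one, GG_empty, ev_pr, mul_one] at hp
      exact hp

theorem exists_Good (hM : ∀ ζ, ζ < η → Good M ζ (M ζ)) : ∃ N : UF A, Good M η N := by
  obtain ⟨N, hN, hNN⟩ := exists_idempotent_in_compact_subsemigroup (M := UF A)
    Ultrafilter.continuous_mul_left {N : UF A | Pre M η N} (exists_Pre hM)
    isClosed_Pre.isCompact
    (fun N hN N' hN' => Pre.mul (fun ξ hξ => (hM ξ hξ).idem) hN hN')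
  exact ⟨N, ⟨hN, hNN⟩⟩

theorem Pre.congr {M' : WithTop A → UF A} (h : ∀ ζ, ζ < η → M ζ = M' ζ) {N : UF A}
    (hN : Pre M η N) : Pre M' η N where
  conc := hN.conc
  trunc ξ hξ := by rw [← h ξ hξ]; exact hN.trunc ξ hξ
  first := hN.first
  rho := by
    refine Eq.trans (bl_congr ?_) hN.rho
    filter_upwards [hN.conc] with κ h1
    exact (GG_congr fun (a : A) ha => h a (h1 a ha)).symm

theorem Good.congr {M' : WithTop A → UF A} (h : ∀ ζ, ζ < η → M ζ = M' ζ) {N : UF A}
    (hN : Good M η N) : Good M' η N := ⟨hN.toPre.congr h, hN.idem⟩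

end step

/-- The sequence. -/
theorem exists_M [WellFoundedLT A] : ∃ M : WithTop A → UF A, ∀ η, Good M η (M η) := by
  let ext : (η : WithTop A) → (∀ ζ, ζ < η → UF A) → WithTop A → UF A := fun η f ζ =>
    if h : ζ < η then f ζ h else pr 1
  let F : (η : WithTop A) → (∀ ζ, ζ < η → UF A) → UF A := fun η f =>
    if h : ∃ N : UF A, Good (ext η f) η N then h.choose else pr 1
  let M : WithTop A → UF A := (wellFounded_lt (α := WithTop A)).fix F
  have hMF : ∀ η, M η = F η fun ζ _ => M ζ := fun η => WellFounded.fix_eq _ _ _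
  refine ⟨M, fun η => ?_⟩
  induction η using WellFoundedLT.induction with
  | ind η ih =>
    have hext : ∀ ζ, ζ < η → M ζ = ext η (fun ζ _ => M ζ) ζ := fun ζ hζ => by
      simp only [ext]
      rw [dif_pos hζ]
    obtain ⟨N, hN⟩ := exists_Good ih
    have hex : ∃ N : UF A, Good (ext η fun ζ _ => M ζ) η N := ⟨N, hN.congr hext⟩
    have h1 : M η = hex.choose := by
      rw [hMF]
      simp only [F]
      rw [dif_pos hex]
    rw [h1]
    exact hex.choose_spec.congr fun ζ hζ => (hext ζ hζ).symm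

/-! ### the system -/

/-- the ultrafilters `H η P` -/
noncomputable def HH (M : WithTop A → UF A) (η : WithTop A) (P : Finset A) : UF A :=
  GG M (cut η P) * M η

section system

variable (hM : ∀ η, Good M η (M η))
include hM

theorem HH_conc (η : WithTop A) (P : Finset A) :
    ∀ᶠ κ in (HH M η P : Filter (Str A)), ∀ a : A, a ∈ κ.fs → (a : WithTop A) < η := by
  unfold HH
  rw [ev_mul]
  filter_upwards [conc_GG (M := M) (P := cut η P) fun z _ => hM z] with κ h1
  filter_upwards [(hM η).conc] with κ' h2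
  intro a ha
  rw [fs_mul, Finset.mem_union] at ha
  rcases ha with ha | ha
  · obtain ⟨z, hz, h3⟩ := h1 a ha
    exact (WithTop.coe_lt_coe.2 h3).trans (mem_cut.1 hz).2
  · exact h2 a ha

theorem HH_trunc {ξ η : WithTop A} (h : ξ ≤ η) (P : Finset A) :
    (HH M η P).map (tr ξ) = HH M ξ P := by
  unfold HH
  rw [map_mul_tr, (hM η).toPre.tr_le rfl h, tr_GG (M := M) (η := η) (fun ζ _ => hM ζ)
    (fun z hz => (mem_cut.1 hz).2)]
  congr 2
  ext a
  rw [mem_cut, mem_cut, mem_cut]
  exact ⟨fun h' => ⟨h'.1.1, h'.2⟩, fun h' => ⟨⟨h'.1, lt_of_lt_of_le h'.2 h⟩, h'.2⟩⟩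

theorem HH_first (η : WithTop A) (P : Finset A) (ζ : A) (k : ℕ) (hζ : (ζ : WithTop A) < η) :
    ∀ᶠ κ in (HH M η P : Filter (Str A)), ∃ a l, κ.val ζ = a :: l ∧ k < a := by
  unfold HH
  rw [ev_mul]
  filter_upwards [first_GG (M := M) (P := cut η P) (fun z _ => hM z) ζ k] with κ h1
  filter_upwards [(hM η).first ζ k hζ] with κ' h2
  exact first_mul' h1 h2

theorem lim_cut [WellFoundedLT A] {ξ η : WithTop A} (h : ξ ≤ η) :
    bl (M η) (fun κ => GG M (cut ξ κ.fs) * M ξ) = M η := by
  have h1 : M η * M ξ = M η := A1 (fun ζ _ => hM ζ) h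
  conv_lhs => rw [← h1]
  rw [mul_bl]
  conv_rhs => rw [← h1]
  rw [← bl_const]
  apply bl_congr
  refine Filter.Eventually.of_forall fun κ => ?_
  have h2 : bl (M ξ) (fun κ' => GG M (cut ξ (κ * κ').fs) * M ξ) =
      bl (M ξ) (fun κ' => GG M κ'.fs * M ξ) := by
    apply bl_congr
    filter_upwards [(hM ξ).conc, (hM ξ).toPre.supp (cut ξ κ.fs) fun a ha => (mem_cut.1 ha).2]
      with κ' h3 h4
    congr 2
    ext a
    rw [mem_cut, fs_mul, Finset.mem_union]
    constructor
    · rintro ⟨h5 | h5, h6⟩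
      · exact h4 (mem_cut.2 ⟨h5, h6⟩)
      · exact h5
    · intro h5
      exact ⟨Or.inr h5, h3 a h5⟩
  rw [h2, ← bl_mul, (hM ξ).rho, (hM ξ).idem]

/-- (H2) -/
theorem H2 [WellFoundedLT A] {ξ η : WithTop A} (h : ξ ≤ η) (P : Finset A) :
    bl (HH M η P) (fun κ => HH M ξ (P ∪ κ.fs)) = HH M η P := by
  unfold HH
  rw [mul_bl, ← bl_const (GG M (cut η P)) (M η)]
  apply bl_congr
  refine Filter.Eventually.of_forall fun κ => ?_
  have h1 : bl (M η) (fun κ' => GG M (cut ξ (P ∪ (κ * κ').fs)) * M ξ) =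
      bl (M η) (fun κ' => GG M (cut ξ κ'.fs) * M ξ) := by
    apply bl_congr
    filter_upwards [(hM η).toPre.supp (cut ξ (P ∪ κ.fs))
      fun a ha => lt_of_lt_of_le (mem_cut.1 ha).2 h] with κ' h2
    congr 2
    ext a
    rw [mem_cut, mem_cut, fs_mul, Finset.mem_union, Finset.mem_union]
    constructor
    · rintro ⟨h5 | h5 | h5, h6⟩
      · exact ⟨h2 (mem_cut.2 ⟨Finset.mem_union_left _ h5, h6⟩), h6⟩
      · exact ⟨h2 (mem_cut.2 ⟨Finset.mem_union_right _ h5, h6⟩), h6⟩
      · exact ⟨h5, h6⟩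
    · rintro ⟨h5, h6⟩
      exact ⟨Or.inr (Or.inr h5), h6⟩
  rw [h1, lim_cut hM h]

/-- splitting off the factors at and above `η` -/
theorem HH_split {η : A} {ξ : WithTop A} (h : (η : WithTop A) < ξ) (Q R : Finset A)
    (hQ : η ∈ Q) (hR : ∀ a : A, a ∈ R ↔ η < a ∧ a ∈ Q ∧ (a : WithTop A) < ξ) :
    HH M ξ Q = HH M η Q * (GG M R * M ξ) := by
  unfold HH
  have h1 : cut ξ Q = cut (η : WithTop A) Q ∪ ({η} ∪ R) := by
    ext a
    rw [mem_cut, Finset.mem_union, Finset.mem_union, mem_cut, Finset.mem_singleton, hR]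
    constructor
    · rintro ⟨h2, h3⟩
      rcases lt_trichotomy a η with h4 | h4 | h4
      · exact Or.inl ⟨h2, WithTop.coe_lt_coe.2 h4⟩
      · exact Or.inr (Or.inl h4)
      · exact Or.inr (Or.inr ⟨h4, h2, h3⟩)
    · rintro (⟨h2, h3⟩ | rfl | ⟨_, h2, h3⟩)
      · exact ⟨h2, h3.trans h⟩
      · exact ⟨hQ, h⟩
      · exact ⟨h2, h3⟩
  rw [h1, GG_union, GG_union, GG_single]
  · simp only [mul_assoc]
  · intro a ha b hb
    rw [Finset.mem_singleton] at ha
    rw [ha]
    exact ((hR b).1 hb).1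
  · intro a ha b hb
    have h2 := WithTop.coe_lt_coe.1 (mem_cut.1 ha).2
    rcases Finset.mem_union.1 hb with hb | hb
    · rw [Finset.mem_singleton] at hb
      rw [hb]; exact h2
    · exact h2.trans ((hR b).1 hb).1

/-- (H3) -/
theorem H3 [WellFoundedLT A] {η : A} {ξ : WithTop A} (h : (η : WithTop A) < ξ) (P : Finset A)
    (hP : η ∈ P) : bl (HH M η P) (fun κ => HH M ξ (P ∪ κ.fs)) = HH M ξ P := by
  set R : Finset A := P.filter fun a => η < a ∧ (a : WithTop A) < ξ with hR
  have hR' : ∀ a : A, a ∈ R ↔ η < a ∧ a ∈ P ∧ (a : WithTop A) < ξ := by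
    intro a
    rw [hR, Finset.mem_filter]
    tauto
  rw [HH_split hM h P R hP hR']
  have h1 : bl (HH M η P) (fun κ => HH M ξ (P ∪ κ.fs)) =
      bl (HH M η P) (fun κ => HH M η (P ∪ κ.fs) * (GG M R * M ξ)) := by
    apply bl_congr
    filter_upwards [HH_conc hM η P] with κ h2
    apply HH_split hM h _ _ (Finset.mem_union_left _ hP)
    intro a
    rw [hR', Finset.mem_union]
    constructor
    · rintro ⟨h3, h4, h5⟩
      exact ⟨h3, Or.inl h4, h5⟩
    · rintro ⟨h3, h4 | h4, h5⟩
      · exact ⟨h3, h4, h5⟩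
      · exact absurd (WithTop.coe_lt_coe.1 (h2 a h4)) (not_lt.2 h3.le)
  rw [h1, ← bl_mul, H2 hM le_rfl]

/-- (H4) -/
theorem H4 (η : WithTop A) (P : Finset A) :
    bl (HH M η P) (fun κ => GG M (cut η (P ∪ κ.fs))) = HH M η P := by
  unfold HH
  rw [mul_bl, ← bl_const (GG M (cut η P)) (M η)]
  apply bl_congr
  refine Filter.Eventually.of_forall fun κ => ?_
  have h1 : bl (M η) (fun κ' => GG M (cut η (P ∪ (κ * κ').fs))) =
      bl (M η) (fun κ' => GG M κ'.fs) := by
    apply bl_congr
    filter_upwards [(hM η).conc, (hM η).toPre.supp (cut η (P ∪ κ.fs))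
      fun a ha => (mem_cut.1 ha).2] with κ' h3 h2
    congr 1
    ext a
    rw [mem_cut, fs_mul, Finset.mem_union, Finset.mem_union]
    constructor
    · rintro ⟨h5 | h5 | h5, h6⟩
      · exact h2 (mem_cut.2 ⟨Finset.mem_union_left _ h5, h6⟩)
      · exact h2 (mem_cut.2 ⟨Finset.mem_union_right _ h5, h6⟩)
      · exact h5
    · intro h5
      exact ⟨Or.inr (Or.inr h5), h3 a h5⟩
  rw [h1, (hM η).rho]

/-- the conclusion predicate of (St) -/
def Psi (M : WithTop A → UF A) (η : WithTop A) (P : Finset A) (Φ : Str A → Prop) (κ : Str A) :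
    Prop :=
  ∀ ζ : A, ζ ∈ P ∪ κ.fs → (ζ : WithTop A) < η →
    ∀ᶠ κ' in (HH M ζ (P ∪ κ.fs) : Filter (Str A)), Φ (κ * κ')

/-- (St) -/
theorem St [WellFoundedLT A] (η : WithTop A) (P : Finset A) (Φ : Str A → Prop)
    (h : ∀ᶠ κ in (HH M η P : Filter (Str A)), Φ κ) :
    ∀ᶠ κ in (HH M η P : Filter (Str A)), Psi M η P Φ κ := by
  induction η using WellFoundedLT.induction generalizing P Φ with
  | ind η ih =>
    rw [← H4 hM, ev_bl] at h
    rw [← H4 hM, ev_bl]
    filter_upwards [h] with κ₁ h1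
    set Q := P ∪ κ₁.fs with hQ
    by_cases hne : (cut η Q).Nonempty
    · set ζ := (cut η Q).max' hne with hζ
      have hζQ : ζ ∈ cut η Q := Finset.max'_mem _ _
      have hζη : (ζ : WithTop A) < η := (mem_cut.1 hζQ).2
      have hcut : cut η Q = insert ζ (cut (ζ : WithTop A) Q) := by
        ext a
        rw [Finset.mem_insert]
        constructor
        · intro ha
          rcases (Finset.le_max' _ a ha).lt_or_eq with h2 | h2
          · exact Or.inr (mem_cut.2 ⟨(mem_cut.1 ha).1, WithTop.coe_lt_coe.2 h2⟩)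
          · exact Or.inl h2
        · rintro (rfl | ha)
          · exact hζQ
          · exact mem_cut.2 ⟨(mem_cut.1 ha).1, (mem_cut.1 ha).2.trans hζη⟩
      have hGG : GG M (cut η Q) = HH M ζ Q := by
        rw [hcut, GG_insert fun b hb => WithTop.coe_lt_coe.1 (mem_cut.1 hb).2]
        rfl
      rw [hGG] at h1 ⊢
      have h2 := ih ζ hζη Q (fun κ₂ => Φ (κ₁ * κ₂)) h1
      have h3 : ∀ᶠ κ₂ in (HH M ζ Q : Filter (Str A)),
          ∀ᶠ κ' in (HH M ζ (Q ∪ κ₂.fs) : Filter (Str A)), Φ (κ₁ * (κ₂ * κ')) := by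
        have h4 := h1
        rw [← H2 hM le_rfl, ev_bl] at h4
        exact h4
      filter_upwards [h2, h3, HH_conc hM ζ Q] with κ₂ h5 h6 h7
      intro ζ' hζ' _
      have hU : P ∪ (κ₁ * κ₂).fs = Q ∪ κ₂.fs := by
        rw [fs_mul, hQ, Finset.union_assoc]
      rw [hU] at hζ' ⊢
      simp only [mul_assoc]
      have hle : ζ' ≤ ζ := by
        rcases Finset.mem_union.1 hζ' with h8 | h8
        · exact Finset.le_max' _ _ (mem_cut.2 ⟨h8, by assumption⟩)
        · exact (WithTop.coe_lt_coe.1 (h7 ζ' h8)).le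
      rcases hle.lt_or_eq with h8 | h8
      · exact h5 ζ' hζ' (WithTop.coe_lt_coe.2 h8)
      · rw [h8]; exact h6
    · rw [Finset.not_nonempty_iff_eq_empty] at hne
      rw [hne, GG_empty, ev_pr, mul_one]
      intro ζ hζ hζη
      have : ζ ∈ cut η Q := mem_cut.2 ⟨hζ, hζη⟩
      rw [hne] at this
      exact absurd this (Finset.notMem_empty _)

end system

theorem usystem : SUSystem := by
  intro A _ _
  obtain ⟨M, hM⟩ := exists_M (A := A)
  refine ⟨HH M, ?_, ?_, ?_, ?_, ?_, ?_, ?_⟩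
  · exact HH_conc hM
  · intro η P P' h
    have : cut η P = cut η P' := by
      ext a
      rw [mem_cut, mem_cut]
      constructor
      · rintro ⟨h1, h2⟩; exact ⟨(h a h2).1 h1, h2⟩
      · rintro ⟨h1, h2⟩; exact ⟨(h a h2).2 h1, h2⟩
    unfold HH
    rw [this]
  · intro ξ η P h
    exact HH_trunc hM h P
  · exact HH_first hM
  · intro ξ η P h Φ
    have h1 := H2 hM h P
    conv_lhs => rw [← h1]
    exact Iff.rfl
  · intro η ξ P h hP Φ
    have h1 := H3 hM h P hP
    conv_lhs => rw [← h1]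
    exact Iff.rfl
  · intro η P Φ h
    exact St hM η P Φ h

end Pool.Agent.H554.USys
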