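import Pool.Agent.H554.Tri
import Pool.Agent.H554.Meng
import Pool.Agent.H554.Truth
import Pool.Agent.H554.Conv
import Pool.Agent.H554.Fusion
import Pool.Agent.H554.Read
import Pool.Agent.H554.SF
import Pool.Agent.H554.Scheme
import Pool.Agent.H554.USys
import Pool.Agent.H554.Clock
import Pool.Agent.H554.HMor
import Pool.Agent.H554.KMor
import Pool.Agent.H554.HomC
import Pool.Agent.H554.P2
import Pool.Agent.H554.P3d
import Pool.Agent.H554.P4ab
import Pool.Agent.H554.Restr
import Pool.Agent.H554.Count
import Pool.Agent.H554.P4c

/-!
# Assembly
-/

namespace Pool.Agent.H554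

theorem main_zfc : MainZfc := fun R J _ par B h =>
  ⟨trichotomy R J _ par B h, mengerPair R J _ par B h⟩

theorem fusion : SFusion := fusion_proof conv_proof

theorem read : SRead := read_proof fusion scheme

theorem homog : SHom := hom USys.usystem clock posInit posCol posUf posStem posDouble hmor kMor

theorem main_forced : MainForced :=
  mainForced_of ground (p1_of count1 refl) (p2_proof read truth homog)
    (p3_of read truth restr count1 count2 refl p4a) p4a (p4b read truth)
    (p4c_proof read truth (sf fusion scheme) refl restr count1 count2)

end Pool.Agent.H554
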