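import Pool.Agent.Helper914_Men.Main

/-!
Hurewicz' theorem on the Menger game, in the form of a lemma: if each position `σ` has a cover of a
Menger set by an increasing sequence of open sets, then some play catches every point.
-/

namespace Pool.Agent.H554.Gm

open Set Filter Cardinal Topology Pool.Agent.Helper914M

/-- The first `n` moves of a play. -/
def play (z : ℕ → ℕ) (n : ℕ) : List ℕ := (List.range n).map z

theorem play_zero (z : ℕ → ℕ) : play z 0 = [] := rfl

theorem play_succ (z : ℕ → ℕ) (n : ℕ) : play z (n + 1) = play z n ++ [z n] := by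
  simp [play, List.range_succ]

theorem length_play (z : ℕ → ℕ) (n : ℕ) : (play z n).length = n := by simp [play]

variable {α : Type} [TopologicalSpace α]

/-- The point is not caught up to the position `σ`. -/
def Esc (V : List ℕ → ℕ → Set α) (x : α) (σ : List ℕ) : Prop :=
  ∀ τ m, τ ++ [m] <+: σ → x ∉ V τ m

omit [TopologicalSpace α] in
theorem esc_nil (V : List ℕ → ℕ → Set α) (x : α) : Esc V x [] := by
  intro τ m h
  have := List.prefix_nil.1 h
  simp at this

omit [TopologicalSpace α] in
theorem esc_concat (V : List ℕ → ℕ → Set α) (x : α) (σ : List ℕ) (k : ℕ) :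
    Esc V x (σ ++ [k]) ↔ Esc V x σ ∧ x ∉ V σ k := by
  constructor
  · intro h
    exact ⟨fun τ m hτ => h τ m (hτ.trans (List.prefix_append _ _)), h σ k (List.prefix_refl _)⟩
  · rintro ⟨h1, h2⟩ τ m h
    rcases List.prefix_concat_iff.1 h with h | h
    · obtain ⟨h3, h4⟩ := List.append_inj' h rfl
      have h5 : m = k := by simpa using h4
      rw [h3, h5]
      exact h2
    · exact h1 τ m h

omit [TopologicalSpace α] in
theorem Esc.init {V : List ℕ → ℕ → Set α} {x : α} {σ τ : List ℕ} (h : Esc V x σ)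
    (hτ : τ <+: σ) : Esc V x τ := fun ρ m hρ => h ρ m (hρ.trans hτ)

theorem isClosed_esc {V : List ℕ → ℕ → Set α} (hV : ∀ σ m, IsOpen (V σ m)) (σ : List ℕ) :
    IsClosed {x | Esc V x σ} := by
  induction σ using List.reverseRecOn with
  | nil =>
    have : {x | Esc V x []} = Set.univ := eq_univ_of_forall fun x => esc_nil V x
    rw [this]
    exact isClosed_univ
  | append_singleton σ k ih =>
    have : {x | Esc V x (σ ++ [k])} = {x | Esc V x σ} ∩ (V σ k)ᶜ := by
      ext x
      exact esc_concat V x σ k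
    rw [this]
    exact ih.inter (hV σ k).isClosed_compl

theorem finite_lists (n b : ℕ) : {τ : List ℕ | τ.length ≤ n ∧ ∀ m ∈ τ, m < b}.Finite := by
  have h : {l : List (Fin b) | l.length ≤ n}.Finite := List.finite_length_le (Fin b) n
  refine (h.image (List.map Fin.val)).subset ?_
  rintro τ ⟨h1, h2⟩
  refine ⟨τ.attach.map (fun m => ⟨m.1, h2 m.1 m.2⟩), by simpa using h1, ?_⟩
  rw [List.map_map]
  have : (Fin.val ∘ fun m : {m // m ∈ τ} => (⟨m.1, h2 m.1 m.2⟩ : Fin b)) = Subtype.val := by
    funext m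
    rfl
  rw [this, List.attach_map_subtype_val]

omit [TopologicalSpace α] in
theorem exists_bound {V : List ℕ → ℕ → Set α} (hm : ∀ σ, Monotone (V σ)) {x : α}
    (hc : ∀ σ, ∃ m, x ∈ V σ m) (n : ℕ) :
    ∃ b, ∀ σ, Esc V x σ → σ.length ≤ n → ∀ k ∈ σ, k < b := by
  classical
  induction n with
  | zero =>
    refine ⟨0, fun σ _ h => ?_⟩
    have : σ = [] := List.length_eq_zero_iff.1 (Nat.le_zero.1 h)
    rw [this]
    simp
  | succ n ih =>
    obtain ⟨b, hb⟩ := ih
    choose c hcx using hc
    refine ⟨max b ((finite_lists n b).toFinset.sup c), fun σ hσ hn => ?_⟩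
    rcases List.eq_nil_or_concat' σ with rfl | ⟨τ, k, rfl⟩
    · simp
    · have hτ : Esc V x τ := hσ.init (List.prefix_append _ _)
      have hl : τ.length ≤ n := by
        have : τ.length + 1 ≤ n + 1 := by simpa using hn
        omega
      intro j hj
      rcases List.mem_append.1 hj with hj | hj
      · exact (hb τ hτ hl j hj).trans_le (le_max_left _ _)
      · have hjk : j = k := by simpa using hj
        rw [hjk]
        have h1 : x ∉ V τ k := ((esc_concat V x τ k).1 hσ).2
        have h2 : k < c τ := by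
          by_contra hcon
          exact h1 (hm τ (not_lt.1 hcon) (hcx τ))
        have h3 : c τ ≤ (finite_lists n b).toFinset.sup c :=
          Finset.le_sup (f := c) ((finite_lists n b).mem_toFinset.2 ⟨hl, hb τ hτ hl⟩)
        exact h2.trans_le (h3.trans (le_max_right _ _))

/-- The points all whose escaping positions of length at most `n` have entries below `m`. -/
def W (V : List ℕ → ℕ → Set α) (n m : ℕ) : Set α :=
  {x | ∀ σ, Esc V x σ → σ.length ≤ n → ∀ k ∈ σ, k < m}

theorem exists_first (m : ℕ) (σ : List ℕ) (h : ∃ k ∈ σ, m ≤ k) :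
    ∃ τ k, τ ++ [k] <+: σ ∧ m ≤ k ∧ ∀ j ∈ τ, j < m := by
  induction σ using List.reverseRecOn with
  | nil => obtain ⟨k, hk, _⟩ := h; simp at hk
  | append_singleton σ a ih =>
    by_cases h' : ∃ k ∈ σ, m ≤ k
    · obtain ⟨τ, k, h1, h2⟩ := ih h'
      exact ⟨τ, k, h1.trans (List.prefix_append _ _), h2⟩
    · push Not at h'
      obtain ⟨k, hk, hmk⟩ := h
      rcases List.mem_append.1 hk with hk | hk
      · exact absurd (h' k hk) (by omega)
      · have : k = a := by simpa using hk
        exact ⟨σ, a, List.prefix_refl _, this ▸ hmk, h'⟩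

theorem isOpen_W {V : List ℕ → ℕ → Set α} (hV : ∀ σ m, IsOpen (V σ m))
    (hm : ∀ σ, Monotone (V σ)) (n m : ℕ) : IsOpen (W V n m) := by
  have : (W V n m)ᶜ = ⋃ τ ∈ {τ : List ℕ | τ.length ≤ n ∧ ∀ k ∈ τ, k < m},
      {x | Esc V x (τ ++ [m]) ∧ (τ ++ [m]).length ≤ n} := by
    ext x
    constructor
    · intro hx
      have hx' : ∃ σ, Esc V x σ ∧ σ.length ≤ n ∧ ∃ k ∈ σ, m ≤ k := by
        by_contra hcon
        push Not at hcon
        exact hx fun σ h1 h2 k hk => hcon σ h1 h2 k hk
      obtain ⟨σ, h1, h2, h3⟩ := hx'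
      obtain ⟨τ, k, h4, h5, h6⟩ := exists_first m σ h3
      have h7 : (τ ++ [k]).length ≤ n := h4.length_le.trans h2
      have h8 := (esc_concat V x τ k).1 (h1.init h4)
      have h9 : (τ ++ [m]).length ≤ n := by simpa using h7
      refine mem_iUnion₂.2 ⟨τ, ⟨?_, h6⟩, (esc_concat V x τ m).2 ⟨h8.1, fun hxm => h8.2
        (hm τ h5 hxm)⟩, h9⟩
      have : τ.length + 1 ≤ n := by simpa using h9
      omega
    · intro hx
      obtain ⟨τ, _, h1, h2⟩ := mem_iUnion₂.1 hx
      intro hW
      have := hW (τ ++ [m]) h1 h2 m (by simp)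
      omega
  rw [← isClosed_compl_iff, this]
  refine (finite_lists n m).isClosed_biUnion fun τ _ => ?_
  by_cases h : (τ ++ [m]).length ≤ n
  · have h' : {x | Esc V x (τ ++ [m]) ∧ (τ ++ [m]).length ≤ n} = {x | Esc V x (τ ++ [m])} := by
      ext x
      exact ⟨fun hx => hx.1, fun hx => ⟨hx, h⟩⟩
    rw [h']
    exact isClosed_esc hV (τ ++ [m])
  · have h' : {x | Esc V x (τ ++ [m]) ∧ (τ ++ [m]).length ≤ n} = ∅ := by
      exact eq_empty_of_forall_notMem fun x hx => h hx.2
    rw [h']
    exact isClosed_empty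

/-- **Hurewicz' theorem** on the Menger game. -/
theorem exists_play {X : Set α} (hX : Mg X) (V : List ℕ → ℕ → Set α)
    (hV : ∀ σ m, IsOpen (V σ m)) (hm : ∀ σ, Monotone (V σ))
    (hc : ∀ σ, ∀ x ∈ X, ∃ m, x ∈ V σ m) :
    ∃ z : ℕ → ℕ, ∀ x ∈ X, ∃ n, x ∈ V (play z n) (z n) := by
  obtain ⟨g, hg⟩ := hX (fun n m => W V (n + 1) m) (fun n m => isOpen_W hV hm _ _)
    (fun n a b hab x hx σ h1 h2 k hk => (hx σ h1 h2 k hk).trans_le hab)
    (fun n x hx => exists_bound hm (fun σ => hc σ x hx) (n + 1))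
  refine ⟨g, fun x hx => ?_⟩
  obtain ⟨n, hn⟩ := hg x hx
  have h1 : ¬ Esc V x (play g (n + 1)) := by
    intro h
    have := hn _ h (length_play g (n + 1)).le (g n) (by rw [play_succ]; simp)
    exact lt_irrefl _ this
  have key : ∀ N, ¬ Esc V x (play g N) → ∃ n, x ∈ V (play g n) (g n) := by
    intro N
    induction N with
    | zero => intro h; exact absurd (esc_nil V x) h
    | succ N ih =>
      intro h
      rw [play_succ, esc_concat] at h
      by_cases h' : Esc V x (play g N)
      · by_contra hcon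
        push Not at hcon
        exact h ⟨h', hcon N⟩
      · exact ih h'
  exact key _ h1

end Pool.Agent.H554.Gm
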