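import Pool.Agent.H554.Basic
import Pool.Agent.H554.Stmts

/-!
# Section 7.1 - 7.3: moves and decisions at a fixed point of the x-part
-/

namespace Pool.Agent.H554

namespace HomP

open Set Filter

section str

variable {A : Type} [LinearOrder A]

theorem mem_fs {κ : Str A} {a : A} : a ∈ κ.fs ↔ κ.val a ≠ [] := by
  simp [Str.fs]

theorem fs_mul (q κ : Str A) : (q * κ).fs = q.fs ∪ κ.fs := by
  ext a
  simp only [mem_fs, Finset.mem_union, Cell.mul_val]
  constructor
  · intro h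
    by_contra h'
    push Not at h'
    exact h (by simp [h'.1, h'.2])
  · rintro (h | h) h'
    · exact h (List.append_eq_nil_iff.1 h').1
    · exact h (List.append_eq_nil_iff.1 h').2

theorem fs_one : (1 : Str A).fs = ∅ := by
  ext a
  simp [mem_fs, Cell.one_val]

variable (H : WithTop A → Finset A → Ultrafilter (Str A))

/-- almost surely after an `η`-move -/
def Ev (η : WithTop A) (q : Str A) (Φ : Str A → Prop) : Prop :=
  ∀ᶠ κ in (H η q.fs : Filter (Str A)), Φ (q * κ)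

variable {H}

theorem Ev.mono {η : WithTop A} {q : Str A} {Φ Ψ : Str A → Prop} (h : Ev H η q Φ)
    (h' : ∀ κ, Φ κ → Ψ κ) : Ev H η q Ψ := Filter.Eventually.mono h fun _ hκ => h' _ hκ

theorem Ev.and {η : WithTop A} {q : Str A} {Φ Ψ : Str A → Prop} (h : Ev H η q Φ)
    (h' : Ev H η q Ψ) : Ev H η q (fun q' => Φ q' ∧ Ψ q') := Filter.Eventually.and h h'

theorem L1 (hH : USystem A H) {ξ η : WithTop A} (h : ξ ≤ η) (q : Str A) (Φ : Str A → Prop) :
    Ev H η q Φ ↔ Ev H η q (fun q' => Ev H ξ q' Φ) := by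
  unfold Ev
  rw [hH.move1 ξ η q.fs h (fun κ => Φ (q * κ))]
  simp only [fs_mul, mul_assoc]

theorem L2 (hH : USystem A H) {η : A} {ξ : WithTop A} (h : (η : WithTop A) < ξ) (q : Str A)
    (hq : η ∈ q.fs) (Φ : Str A → Prop) :
    Ev H ξ q Φ ↔ Ev H η q (fun q' => Ev H ξ q' Φ) := by
  unfold Ev
  rw [hH.move2 η ξ q.fs h hq (fun κ => Φ (q * κ))]
  simp only [fs_mul, mul_assoc]

theorem St (hH : USystem A H) {η : WithTop A} {q : Str A} {Φ : Str A → Prop} (h : Ev H η q Φ) :
    Ev H η q (fun q' => ∀ ζ : A, ζ ∈ q'.fs → (ζ : WithTop A) < η → Ev H ζ q' Φ) := by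
  have := hH.stable η q.fs (fun κ => Φ (q * κ)) h
  unfold Ev
  refine this.mono fun κ hκ ζ hζ hlt => ?_
  rw [fs_mul] at hζ ⊢
  have := hκ ζ hζ hlt
  simpa only [mul_assoc] using this

/-- almost surely after an `η`-move: only coordinates below `η` are new -/
theorem Ev.conc (hH : USystem A H) (η : WithTop A) (q : Str A) :
    Ev H η q (fun q' => ∀ a : A, a ∈ q'.fs → a ∈ q.fs ∨ (a : WithTop A) < η) := by
  refine (hH.conc η q.fs).mono fun κ hκ a ha => ?_
  rw [fs_mul, Finset.mem_union] at ha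
  rcases ha with h | h
  · exact Or.inl h
  · exact Or.inr (hκ a h)

theorem Ev.or_of {η : WithTop A} {q : Str A} {Φ Ψ : Str A → Prop}
    (h : Ev H η q (fun q' => Φ q' ∨ Ψ q')) : Ev H η q Φ ∨ Ev H η q Ψ :=
  Ultrafilter.eventually_or.1 h

theorem Ev.finset {η : WithTop A} {q : Str A} {ι : Type} (S : Finset ι)
    {Φ : ι → Str A → Prop} (h : ∀ i ∈ S, Ev H η q (Φ i)) :
    Ev H η q (fun q' => ∀ i ∈ S, Φ i q') := by
  unfold Ev at *
  exact (Filter.eventually_all_finset S).2 h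

end str

/-- limit of an increasing sequence of strings -/
theorem exists_limit {β : Type} (s : ℕ → List β) (hs : ∀ n, s n <+: s (n + 1))
    (hl : ∀ l, ∃ n, l ≤ (s n).length) : ∃ z : ℕ → β, ∀ n, Ext (s n) z := by
  have hmono : ∀ m n, m ≤ n → s m <+: s n := by
    intro m n h
    induction h with
    | refl => exact List.prefix_rfl
    | step _ ih => exact ih.trans (hs _)
  choose f hf using fun l => hl (l + 1)
  refine ⟨fun k => (s (f k))[k]'(hf k), fun n k hk => ?_⟩
  rcases le_total n (f k) with h | h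
  · exact ((hmono _ _ h).getElem hk).symm
  · exact ((hmono _ _ h).getElem (hf k))

section dec

variable {Ax Am : Type} (D : ℕ → Set (KW Ax × (Am → ℕ → ℕ)))

/-- the box `c × [q]` is decided for `b` -/
def decC (c : Cell (fun _ : Ax => Bool)) (ε : Bool) (b : ℕ) (q : Str Am) : Prop :=
  ∀ x y, c.Mem x → q.Mem y → ((x, y) ∈ D b ↔ ε = true)

/-- some neighbourhood of `x` times `[q]` is decided for `b` -/
def dec (x : KW Ax) (ε : Bool) (b : ℕ) (q : Str Am) : Prop :=
  ∃ c : Cell (fun _ : Ax => Bool), c.Mem x ∧ decC D c ε b q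

end dec

section fixed

variable {Ax Am : Type} [LinearOrder Am] (D : ℕ → Set (KW Ax × (Am → ℕ → ℕ)))
  (H : WithTop Am → Finset Am → Ultrafilter (Str Am))

/-- (7.1) every box is decided almost surely after a full move -/
theorem dec_ev [Countable Am] (a0 : Am) (hD : ∀ b, IsClopen (D b)) (hH : USystem Am H) (x : KW Ax)
    (b : ℕ) (q : Str Am) : Ev H ⊤ q (fun q' => dec D x false b q' ∨ dec D x true b q') := by
  by_contra hcon
  set Ψ : Str Am → Prop := fun q' => ¬ (dec D x false b q' ∨ dec D x true b q') with hΨ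
  have h0 : Ev H ⊤ q Ψ := Ultrafilter.eventually_not.2 hcon
  have : Nonempty Am := ⟨a0⟩
  obtain ⟨e, he⟩ := exists_surjective_nat Am
  have hstep : ∀ (n : ℕ) (q' : Str Am), Ev H ⊤ q' Ψ → ∃ q'' : Str Am, Ev H ⊤ q'' Ψ ∧
      (Ψ q'' ∧ ∃ κ : Str Am, q'' = q' * κ ∧ κ.val (e n.unpair.1) ≠ []) := by
    intro n q' hq'
    have h1 := (L1 hH (le_refl (⊤ : WithTop Am)) q' Ψ).1 hq'
    have h2 := hH.nondeg ⊤ q'.fs (e n.unpair.1) 0 (WithTop.coe_lt_top _)
    obtain ⟨κ, hκ1, hκ2, hκ3⟩ := (Filter.Eventually.and hq' (Filter.Eventually.and h1 h2)).exists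
    obtain ⟨a, l, hal, -⟩ := hκ3
    exact ⟨q' * κ, hκ2, hκ1, κ, rfl, by rw [hal]; simp⟩
  choose! nx hnx1 hnx2 using hstep
  let s : ℕ → Str Am := fun n => Nat.rec q (fun n q' => nx n q') n
  have hs : ∀ n, Ev H ⊤ (s n) Ψ := by
    intro n
    induction n with
    | zero => exact h0
    | succ n ih => exact hnx1 n _ ih
  have hs2 : ∀ n, Ψ (s (n + 1)) ∧ ∃ κ : Str Am, s (n + 1) = s n * κ ∧
      κ.val (e n.unpair.1) ≠ [] := fun n => hnx2 n _ (hs n)
  have hpre : ∀ a n, (s n).val a <+: (s (n + 1)).val a := by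
    intro a n
    obtain ⟨κ, hκ, -⟩ := (hs2 n).2
    rw [hκ]
    exact List.prefix_append _ _
  have hpre' : ∀ a m n, m ≤ n → (s m).val a <+: (s n).val a := by
    intro a m n h
    induction h with
    | refl => exact List.prefix_rfl
    | step _ ih => exact ih.trans (hpre _ _)
  have hlen : ∀ a l, ∃ n, l ≤ ((s n).val a).length := by
    intro a l
    induction l with
    | zero => exact ⟨0, Nat.zero_le _⟩
    | succ l ih =>
      obtain ⟨n, hn⟩ := ih
      obtain ⟨j, hj⟩ := he a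
      obtain ⟨κ, hκ, hκ'⟩ := (hs2 (Nat.pair j n)).2
      refine ⟨Nat.pair j n + 1, ?_⟩
      rw [hκ, Cell.mul_val, List.length_append]
      have h1 := (hpre' a n (Nat.pair j n) (Nat.right_le_pair j n)).length_le
      rw [Nat.unpair_pair, hj] at hκ'
      have h2 := List.length_pos_iff.2 hκ'
      omega
  choose y hy using fun a => exists_limit (fun n => (s n).val a) (hpre a) (hlen a)
  have key : ∀ ε : Bool, ∀ O : Set (KW Ax × (Am → ℕ → ℕ)), IsOpen O → (x, y) ∈ O →
      (∀ p ∈ O, (p ∈ D b ↔ ε = true)) → False := by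
    intro ε O hO hxy hOD
    obtain ⟨O1, O2, hO1, hO2, hx, hy', hsub⟩ := isOpen_prod_iff.1 hO x y hxy
    obtain ⟨c, hc, hc'⟩ := exists_cell (α := fun _ : Ax => Bool) hO1 hx
    obtain ⟨d, hd, hd'⟩ := exists_cell (α := fun _ : Am => ℕ) hO2 hy'
    have hfin : ∃ n, 0 < n ∧ ∀ a ∈ d.supp, (d.val a).length ≤ ((s n).val a).length := by
      have : ∀ S : Finset Am, ∃ n, 0 < n ∧ ∀ a ∈ S, (d.val a).length ≤ ((s n).val a).length := by
        intro S
        induction S using Finset.induction_on with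
        | empty => exact ⟨1, one_pos, by simp⟩
        | insert a S _ ih =>
          obtain ⟨n, hn0, hn⟩ := ih
          obtain ⟨m, hm⟩ := hlen a (d.val a).length
          refine ⟨max n m, lt_max_of_lt_left hn0, fun a' ha' => ?_⟩
          rcases Finset.mem_insert.1 ha' with rfl | ha'
          · exact hm.trans (hpre' _ _ _ (le_max_right _ _)).length_le
          · exact (hn a' ha').trans (hpre' _ _ _ (le_max_left _ _)).length_le
      obtain ⟨n, hn0, hn⟩ := this d.fin.toFinset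
      exact ⟨n, hn0, fun a ha => hn a (d.fin.mem_toFinset.2 ha)⟩
    obtain ⟨n, hn0, hn⟩ := hfin
    have hext : ∀ a, d.val a <+: (s n).val a := by
      intro a
      by_cases ha : a ∈ d.supp
      · exact ((hd a).le_iff (hy a n)).2 (hn a ha)
      · have : d.val a = [] := not_not.1 ha
        rw [this]
        exact List.nil_prefix
    have hdec : dec D x ε b (s n) := by
      refine ⟨c, hc, fun x' y' hx' hy' => ?_⟩
      apply hOD
      exact hsub ⟨hc' _ hx', hd' _ fun a => (hy' a).mono (hext a)⟩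
    obtain ⟨m, rfl⟩ := Nat.exists_eq_succ_of_ne_zero hn0.ne'
    apply (hs2 m).1
    cases ε
    · exact Or.inl hdec
    · exact Or.inr hdec
  by_cases hb : (x, y) ∈ D b
  · exact key true (D b) (hD b).isOpen hb fun p hp => by simp [hp]
  · exact key false (D b)ᶜ (hD b).compl.isOpen hb fun p hp => by simpa using hp

/-- the eventual value along the bits -/
def Val (x : KW Ax) (ε : Bool) (q : Str Am) : Prop :=
  ∀ᶠ b in (Filter.hyperfilter ℕ : Filter ℕ), Ev H ⊤ q (dec D x ε b)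

variable {D H}

theorem val_or [Countable Am] (a0 : Am) (hD : ∀ b, IsClopen (D b)) (hH : USystem Am H) (x : KW Ax)
    (q : Str Am) : Val D H x false q ∨ Val D H x true q := by
  unfold Val
  rw [← Ultrafilter.eventually_or]
  exact Filter.Eventually.of_forall fun b => (dec_ev D H a0 hD hH x b q).or_of

/-- the invariant -/
def Inv (D : ℕ → Set (KW Ax × (Am → ℕ → ℕ))) (H : WithTop Am → Finset Am → Ultrafilter (Str Am))
    (x : KW Ax) (ε : Bool) (q : Str Am) : Prop :=
  Val D H x ε q ∧ Ev H ⊤ q (Val D H x ε) ∧ ∀ ξ : Am, ξ ∈ q.fs → Ev H ξ q (Val D H x ε)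

/-- (7.2) -/
theorem start [Countable Am] (a0 : Am) (hD : ∀ b, IsClopen (D b)) (hH : USystem Am H) (x : KW Ax) :
    ∃ ε, ∀ᶠ κ in (H ⊤ ∅ : Filter (Str Am)), Inv D H x ε κ := by
  have h1 : Ev H ⊤ (1 : Str Am) (fun q => Val D H x false q ∨ Val D H x true q) :=
    Filter.Eventually.of_forall fun κ => val_or a0 hD hH x _
  have h2 : ∃ ε, Ev H ⊤ (1 : Str Am) (Val D H x ε) := by
    rcases h1.or_of with h | h
    · exact ⟨false, h⟩
    · exact ⟨true, h⟩
  obtain ⟨ε, hε⟩ := h2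
  refine ⟨ε, ?_⟩
  have h3 := (L1 hH le_rfl _ _).1 hε
  have h4 := St hH hε
  have h5 := (hε.and (h3.and h4))
  unfold Ev at h5
  rw [fs_one] at h5
  refine h5.mono fun κ hκ => ?_
  rw [one_mul] at hκ
  exact ⟨hκ.1, hκ.2.1, fun ξ hξ => hκ.2.2 ξ hξ (WithTop.coe_lt_top _)⟩

/-- (7.3) -/
theorem Inv.move (hH : USystem Am H) {x : KW Ax} {ε : Bool} {q : Str Am} (h : Inv D H x ε q)
    {τ : WithTop Am} (hτ : τ = ⊤ ∨ ∃ a : Am, τ = a ∧ a ∈ q.fs) :
    Ev H τ q (Inv D H x ε) := by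
  have hΦ : Ev H τ q (Val D H x ε) := by
    rcases hτ with rfl | ⟨a, rfl, ha⟩
    · exact h.2.1
    · exact h.2.2 a ha
  have htop : Ev H τ q (fun q' => Ev H ⊤ q' (Val D H x ε)) := by
    rcases hτ with rfl | ⟨a, rfl, ha⟩
    · exact (L1 hH le_rfl _ _).1 h.2.1
    · exact (L2 hH (WithTop.coe_lt_top _) q ha _).1 h.2.1
  have hlow := St hH hΦ
  have hup : Ev H τ q (fun q' => ∀ ξ ∈ q.fs, τ ≤ (ξ : WithTop Am) →
      Ev H ξ q' (Val D H x ε)) := by
    apply Ev.finset
    intro ξ hξ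
    by_cases hle : τ ≤ (ξ : WithTop Am)
    · have : Ev H τ q (fun q' => Ev H ξ q' (Val D H x ε)) := by
        rcases hle.eq_or_lt with heq | hlt
        · rw [heq]
          exact (L1 hH le_rfl _ _).1 (h.2.2 ξ hξ)
        · rcases hτ with rfl | ⟨a, rfl, ha⟩
          · exact absurd hlt not_top_lt
          · exact (L2 hH hlt q ha _).1 (h.2.2 ξ hξ)
      exact this.mono fun κ hκ _ => hκ
    · exact Filter.Eventually.of_forall fun κ h' => absurd h' hle
  refine (hΦ.and (htop.and (hlow.and (hup.and (Ev.conc hH τ q))))).mono ?_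
  rintro q' ⟨h1, h2, h3, h4, h5⟩
  refine ⟨h1, h2, fun ξ hξ => ?_⟩
  by_cases hlt : (ξ : WithTop Am) < τ
  · exact h3 ξ hξ hlt
  · rcases h5 ξ hξ with h | h
    · exact h4 ξ h (not_lt.1 hlt)
    · exact absurd h hlt

/-- decided bits stay decided -/
theorem dec_move (hH : USystem Am H) {q : Str Am} {Φ : Str Am → Prop} (h : Ev H ⊤ q Φ)
    {τ : WithTop Am} (hτ : τ = ⊤ ∨ ∃ a : Am, τ = a ∧ a ∈ q.fs) :
    Ev H τ q (fun q' => Ev H ⊤ q' Φ) := by
  rcases hτ with rfl | ⟨a, rfl, ha⟩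
  · exact (L1 hH le_rfl _ _).1 h
  · exact (L2 hH (WithTop.coe_lt_top _) q ha _).1 h

end fixed

end HomP

end Pool.Agent.H554
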