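import Pool.Agent.H554.HomA

/-!
# Section 7.4: the recursion
-/

namespace Pool.Agent.H554

namespace HomP

open Set Filter

/-- dependent choice along `ℕ` -/
theorem exists_seq {S : Type} (P : ℕ → S → Prop) (R : ℕ → S → S → Prop) (h0 : ∃ s, P 0 s)
    (hs : ∀ n s, P n s → ∃ s', P (n + 1) s' ∧ R n s s') :
    ∃ f : ℕ → S, (∀ n, P n (f n)) ∧ ∀ n, R n (f n) (f (n + 1)) := by
  obtain ⟨s0, hs0⟩ := h0
  choose! nx hnx1 hnx2 using hs
  let f : ℕ → S := fun n => Nat.rec s0 (fun n s => nx n s) n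
  have hf : ∀ n, P n (f n) := by
    intro n
    induction n with
    | zero => exact hs0
    | succ n ih => exact hnx1 n _ ih
  exact ⟨f, hf, fun n => hnx2 n _ (hf n)⟩

theorem enc_lt_append (u : List ℕ) (a : ℕ) (v : List ℕ) :
    Encodable.encode u < Encodable.encode (u ++ a :: v) := by
  induction u with
  | nil => simp
  | cons b u ih =>
    rw [List.cons_append, Encodable.encode_list_cons, Encodable.encode_list_cons]
    exact Nat.succ_lt_succ (Nat.pair_lt_pair_right _ ih)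

theorem enc_lt {u v : List ℕ} (h : u <+: v) (hne : u ≠ v) :
    Encodable.encode u < Encodable.encode v := by
  obtain ⟨t, rfl⟩ := h
  cases t with
  | nil => simp at hne
  | cons a t => exact enc_lt_append u a t

theorem enc_pre_lt {z : ℕ → ℕ} {i n : ℕ} (h : i < n) :
    Encodable.encode (pre z i) < Encodable.encode (pre z n) := by
  apply enc_lt (pre_prefix h.le)
  intro he
  have := congrArg List.length he
  rw [length_pre, length_pre] at this
  omega

theorem le_enc_pre (z : ℕ → ℕ) (n : ℕ) : n ≤ Encodable.encode (pre z n) := by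
  induction n with
  | zero => exact Nat.zero_le _
  | succ n ih => exact lt_of_le_of_lt ih (enc_pre_lt (Nat.lt_succ_self n))

section clocks

variable {Am : Type} [LinearOrder Am] {a0 : Am} {τ : ℕ → (Am → ℕ → ℕ) → WithTop Am}
  {q0 : Str Am} {κ κ' : List ℕ → Str Am}

theorem Qs_congr {n : ℕ} {y : Am → ℕ → ℕ}
    (h : ∀ i < n, κ (pre (y a0) i) = κ' (pre (y a0) i)) :
    Qs a0 τ q0 κ n y = Qs a0 τ q0 κ' n y := by
  induction n with
  | zero => rfl
  | succ n ih =>
    rw [Qs, Qs, ih fun i hi => h i (by omega), h n (by omega)]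

theorem Qs_le {m n : ℕ} (h : m ≤ n) (y : Am → ℕ → ℕ) (a : Am) :
    (Qs a0 τ q0 κ m y).val a <+: (Qs a0 τ q0 κ n y).val a := by
  induction h with
  | refl => exact List.prefix_rfl
  | step _ ih => exact ih.trans (List.prefix_append _ _)

theorem tr_val_of_lt {ξ : WithTop Am} {a : Am} (h : (a : WithTop Am) < ξ) (c : Str Am) :
    (tr ξ c).val a = c.val a := by simp [tr, h]

theorem tr_val_of_not_lt {ξ : WithTop Am} {a : Am} (h : ¬ (a : WithTop Am) < ξ) (c : Str Am) :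
    (tr ξ c).val a = [] := by simp [tr, h]

theorem mem_fs_Qs {i n : ℕ} (hi : i < n) {y : Am → ℕ → ℕ} {ξ : Am}
    (h1 : (ξ : WithTop Am) < τ i y) (h2 : (κ (pre (y a0) i)).val ξ ≠ []) :
    ξ ∈ (Qs a0 τ q0 κ n y).fs := by
  rw [mem_fs]
  intro h
  have h3 := Qs_le (a0 := a0) (τ := τ) (q0 := q0) (κ := κ) (show i + 1 ≤ n by omega) y ξ
  rw [h, List.prefix_nil, Qs, Cell.mul_val, List.append_eq_nil_iff, tr_val_of_lt h1] at h3
  exact h2 h3.2

theorem Qs_coh {N : Am → ℕ → (Am → ℕ → ℕ) → ℕ} {Req : List ℕ → Finset Am}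
    (hC : Clock Am a0 τ N Req) {n : ℕ} {y y' : Am → ℕ → ℕ} (hy : pre (y a0) n = pre (y' a0) n)
    {ζ : Am} (h : (ζ : WithTop Am) < τ n y) (h' : (ζ : WithTop Am) < τ n y') :
    (Qs a0 τ q0 κ n y).val ζ = (Qs a0 τ q0 κ n y').val ζ := by
  have key : ∀ m, m ≤ n → (Qs a0 τ q0 κ m y).val ζ = (Qs a0 τ q0 κ m y').val ζ := by
    intro m
    induction m with
    | zero => intro _; rfl
    | succ m ih =>
      intro hm
      have hpre : pre (y a0) m = pre (y' a0) m := by
        rw [pre_eq_iff] at hy ⊢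
        exact fun k hk => hy k (by omega)
      rw [Qs, Qs, Cell.mul_val, Cell.mul_val, ih (by omega), hpre]
      have := hC.coh n y y' ζ hy h h' m (by omega)
      by_cases hlt : (ζ : WithTop Am) < τ m y
      · rw [tr_val_of_lt hlt, tr_val_of_lt (this.1 hlt)]
      · rw [tr_val_of_not_lt hlt, tr_val_of_not_lt (fun h => hlt (this.2 h))]
  exact key n le_rfl

/-- all words `y_0 | i`, `i < n`, are treated before stage `j`, the word `y_0 | n` is not -/
def Done (a0 : Am) (j n : ℕ) (y : Am → ℕ → ℕ) : Prop :=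
  (∀ i < n, Encodable.encode (pre (y a0) i) < j) ∧ j ≤ Encodable.encode (pre (y a0) n)

theorem done_of_word {j : ℕ} {y : Am → ℕ → ℕ} {n : ℕ}
    (h : Encodable.encode (pre (y a0) n) = j) : Done a0 j n y :=
  ⟨fun i hi => by rw [← h]; exact enc_pre_lt hi, h.ge⟩

theorem done_succ {j : ℕ} {y : Am → ℕ → ℕ} {n : ℕ} (h : Done a0 (j + 1) n y) :
    (∃ m, n = m + 1 ∧ Encodable.encode (pre (y a0) m) = j) ∨
    (Done a0 j n y ∧ ∀ i < n, Encodable.encode (pre (y a0) i) ≠ j) := by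
  by_cases hex : ∃ i < n, Encodable.encode (pre (y a0) i) = j
  · obtain ⟨i, hi, he⟩ := hex
    refine Or.inl ⟨i, ?_, he⟩
    by_contra hne
    have h1 : i + 1 < n := by omega
    have h2 := h.1 (i + 1) h1
    have h3 := enc_pre_lt (z := y a0) (show i < i + 1 by omega)
    omega
  · push Not at hex
    refine Or.inr ⟨⟨fun i hi => ?_, by have := h.2; omega⟩, hex⟩
    have := h.1 i hi
    have := hex i hi
    omega

theorem exists_done (j : ℕ) (y : Am → ℕ → ℕ) : ∃ n, Done a0 j n y := by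
  classical
  have hex : ∃ n, j ≤ Encodable.encode (pre (y a0) n) := ⟨j, le_enc_pre _ _⟩
  exact ⟨Nat.find hex, fun i hi => not_le.1 (Nat.find_min hex hi), Nat.find_spec hex⟩

end clocks

/-- common refinement of finitely many requirements on cells around a point -/
theorem exists_cell_all {Ax : Type} {ι : Type} (T : Set ι) (hT : T.Finite) (x : KW Ax)
    (Q : ι → Cell (fun _ : Ax => Bool) → Prop)
    (hmono : ∀ i c c', (∀ a, c.val a <+: c'.val a) → Q i c → Q i c')
    (h : ∀ i ∈ T, ∃ c : Cell (fun _ : Ax => Bool), c.Mem x ∧ Q i c) :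
    ∃ c : Cell (fun _ : Ax => Bool), c.Mem x ∧ ∀ i ∈ T, Q i c := by
  induction T, hT using Set.Finite.induction_on with
  | empty => exact ⟨1, mem_one _, by simp⟩
  | insert _ _ ih =>
    rename_i i T' _ _
    obtain ⟨c, hc, hc'⟩ := ih fun i' hi' => h i' (mem_insert_of_mem _ hi')
    obtain ⟨d, hd, hd'⟩ := h i (mem_insert _ _)
    obtain ⟨e, he, ⟨c', rfl⟩, ⟨d', he2⟩, -⟩ := exists_cell_le c d x hc hd
    refine ⟨_, he, ?_⟩
    rintro i' (rfl | hi')
    · rw [he2]
      exact hmono _ _ _ (fun a => List.prefix_append _ _) hd'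
    · exact hmono _ _ _ (fun a => List.prefix_append _ _) (hc' i' hi')

section recursion

variable {Ax Am : Type} [LinearOrder Ax] [LinearOrder Am]

/-- states of the recursion -/
structure Stt (Ax Am : Type) where
  /-- the chosen strings -/
  κ : List ℕ → Str Am
  /-- the chosen bits -/
  b : ℕ → ℕ
  /-- the shape -/
  d : Ax → ℕ
  /-- the stems -/
  s : Stem Ax
  /-- the positive set -/
  Y : Set (KW Ax)

variable (D : ℕ → Set (KW Ax × (Am → ℕ → ℕ))) (H : WithTop Am → Finset Am → Ultrafilter (Str Am))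
  (a0 : Am) (τ : ℕ → (Am → ℕ → ℕ) → WithTop Am) (Req : List ℕ → Finset Am) (q0 : Str Am)
  (ε : Bool) (β : ℕ → Ax)

/-- the induction hypothesis at stage `j` -/
structure PP (j : ℕ) (σ : Stt Ax Am) : Prop where
  dfin : {a | σ.d a ≠ 0}.Finite
  shape : OfShape σ.d (fun x => (σ.s x).val)
  pos : Pos σ.d σ.s σ.Y
  rfin : {q | ∃ y n, Done a0 j n y ∧ q = Qs a0 τ q0 σ.κ n y}.Finite
  inv : ∀ y n, Done a0 j n y → ∀ x ∈ σ.Y, Inv D H x ε (Qs a0 τ q0 σ.κ n y)
  past : ∀ y n, Done a0 j n y → ∀ x ∈ σ.Y, ∀ i < j,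
    Ev H ⊤ (Qs a0 τ q0 σ.κ n y) (dec D x ε (σ.b i))
  req : ∀ w, Encodable.encode w < j → ∀ ξ ∈ Req w, (σ.κ w).val ξ ≠ []
  heads : ∀ w w' ξ, Encodable.encode w < j → Encodable.encode w' < j → w ≠ w' → ξ ∈ Req w →
    ξ ∈ Req w' → ((σ.κ w).val ξ).head? ≠ ((σ.κ w').val ξ).head?
  bmono : ∀ i i', i < i' → i' < j → σ.b i < σ.b i'

/-- the relation between stage `j` and stage `j + 1` -/
structure RR' (j : ℕ) (σ σ' : Stt Ax Am) : Prop where
  κ : ∀ w, Encodable.encode w < j → σ'.κ w = σ.κ w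
  b : ∀ i < j, σ'.b i = σ.b i
  d : σ'.d = Function.update σ.d (β j) (σ.d (β j) + 1)
  s : StemLe σ.s σ'.s
  sep : ∀ x x', (∀ γ, γ < β j → pre (x γ) (σ.d γ) = pre (x' γ) (σ.d γ)) →
      pre (x (β j)) (σ.d (β j)) = pre (x' (β j)) (σ.d (β j)) →
      x (β j) (σ.d (β j)) ≠ x' (β j) (σ.d (β j)) →
      ¬ Compat ((σ'.s x).val (β j)) ((σ'.s x').val (β j))
  decd : ∀ y n, Encodable.encode (pre (y a0) n) = j → τ n y = ⊤ → ∀ i < j, ∀ x,
    decC D (σ'.s x) ε (σ.b i) (Qs a0 τ q0 σ'.κ (n + 1) y)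

variable {D H a0 τ Req q0 ε β}

theorem tau_mem {N : Am → ℕ → (Am → ℕ → ℕ) → ℕ} (hC : Clock Am a0 τ N Req) {j : ℕ}
    {σ : Stt Ax Am} (hσ : PP D H a0 τ Req q0 ε j σ) {y : Am → ℕ → ℕ} {n : ℕ}
    (hy : Done a0 j n y) : τ n y = ⊤ ∨ ∃ a : Am, τ n y = a ∧ a ∈ (Qs a0 τ q0 σ.κ n y).fs := by
  rcases hτ : τ n y with _ | ξ
  · exact Or.inl rfl
  · right
    obtain ⟨i, hi, hr, hlt⟩ := hC.opened n y ξ hτ
    exact ⟨ξ, rfl, mem_fs_Qs hi hlt (hσ.req _ (hy.1 i hi) ξ hr)⟩

theorem step [WellFoundedLT Am] [Countable Am] [Countable Ax]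
    (hUf : SPosUf) (hStem : SPosStem) (hDouble : SPosDouble)
    {N : Am → ℕ → (Am → ℕ → ℕ) → ℕ} (hC : Clock Am a0 τ N Req) (hH : USystem Am H)
    (j : ℕ) (σ : Stt Ax Am) (hσ : PP D H a0 τ Req q0 ε j σ) :
    ∃ σ', PP D H a0 τ Req q0 ε (j + 1) σ' ∧ RR' D a0 τ q0 ε β j σ σ' := by
  classical
  set w : List ℕ := Denumerable.ofNat (List ℕ) j with hw
  have hwj : Encodable.encode w = j := Denumerable.encode_ofNat j
  set pairs : Set (Str Am × WithTop Am) :=
    {p | ∃ y n, Encodable.encode (pre (y a0) n) = j ∧ p = (Qs a0 τ q0 σ.κ n y, τ n y)} with hpairs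
  have hpfin : pairs.Finite := by
    refine ((hσ.rfin.biUnion (t := fun q => ({q} : Set (Str Am)) ×ˢ
      (insert ⊤ ((fun a : Am => (a : WithTop Am)) '' (q.fs : Set Am)))) ?_)).subset ?_
    · intro q _
      exact (finite_singleton q).prod ((q.fs.finite_toSet.image _).insert _)
    · rintro p ⟨y, n, hy, rfl⟩
      have hdone := done_of_word hy
      simp only [mem_iUnion]
      refine ⟨_, ⟨y, n, hdone, rfl⟩, rfl, ?_⟩
      rcases tau_mem hC hσ hdone with h | ⟨a, h, ha⟩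
      · exact Or.inl h
      · exact Or.inr ⟨a, ha, h.symm⟩
  have hpne : pairs.Nonempty := by
    refine ⟨_, fun _ => app w (fun _ => 0), w.length, ?_, rfl⟩
    rw [← (ext_app (s := w) (z := fun _ => 0)).eq_pre, hwj]
  obtain ⟨pf, hpf, hmax⟩ := Set.exists_max_image pairs (fun p => p.2) hpfin hpne
  obtain ⟨yf, nf, hyf, hpf2⟩ := hpf
  -- all words with code j are equal
  have hword : ∀ (y : Am → ℕ → ℕ) n, Encodable.encode (pre (y a0) n) = j →
      pre (y a0) n = w := fun y n h => Encodable.encode_injective (h.trans hwj.symm)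
  have hlen : ∀ (y : Am → ℕ → ℕ) n, Encodable.encode (pre (y a0) n) = j → n = w.length := by
    intro y n h
    rw [← hword y n h, length_pre]
  set P : Finset Am := (Qs a0 τ q0 σ.κ nf yf).fs.filter (fun a => (a : WithTop Am) < τ nf yf)
    with hP
  -- the law of the truncations
  have hlaw : ∀ p ∈ pairs, ∀ Φ : Str Am → Prop, Ev H p.2 p.1 Φ →
      ∀ᶠ κ in (H ⊤ P : Filter (Str Am)), Φ (p.1 * tr p.2 κ) := by
    rintro p ⟨y, n, hy, rfl⟩ Φ hΦ
    have hle : τ n y ≤ τ nf yf := by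
      have := hmax _ ⟨y, n, hy, rfl⟩
      rw [hpf2] at this
      exact this
    have h1 : (H ⊤ P).map (tr (τ n y)) = H (τ n y) (Qs a0 τ q0 σ.κ n y).fs := by
      rw [hH.trunc _ _ _ le_top]
      apply hH.loc
      intro a ha
      have hnn : n = nf := (hlen y n hy).trans (hlen yf nf hyf).symm
      subst hnn
      have hcoh := Qs_coh (q0 := q0) (κ := σ.κ) hC
        ((hword y n hy).trans (hword yf n hyf).symm) ha (lt_of_lt_of_le ha hle)
      rw [hP, Finset.mem_filter, mem_fs, mem_fs, hcoh]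
      exact ⟨fun h => h.1, fun h => ⟨h, lt_of_lt_of_le ha hle⟩⟩
    have h2 : ∀ᶠ κ in ((H ⊤ P).map (tr (τ n y)) : Filter (Str Am)),
        Φ (Qs a0 τ q0 σ.κ n y * κ) := by
      rw [h1]; exact hΦ
    exact h2
  -- requirements on heads
  obtain ⟨M, hM⟩ : ∃ M : ℕ, ∀ w', Encodable.encode w' < j → ∀ ξ ∈ Req w', ∀ a,
      ((σ.κ w').val ξ).head? = some a → a ≤ M := by
    refine ⟨(Finset.range j).sup fun i => (Req (Denumerable.ofNat (List ℕ) i)).sup fun ξ =>
      ((σ.κ (Denumerable.ofNat (List ℕ) i)).val ξ).headD 0, fun w' hw' ξ hξ a ha => ?_⟩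
    have h1 : Denumerable.ofNat (List ℕ) (Encodable.encode w') = w' := Denumerable.ofNat_encode w'
    have h2 : a = ((σ.κ (Denumerable.ofNat (List ℕ) (Encodable.encode w'))).val ξ).headD 0 := by
      rw [h1, List.headD_eq_head?_getD, ha]; rfl
    rw [h2]
    refine le_trans ?_ (Finset.le_sup (f := fun i => (Req (Denumerable.ofNat (List ℕ) i)).sup
      fun ξ => ((σ.κ (Denumerable.ofNat (List ℕ) i)).val ξ).headD 0) (Finset.mem_range.2 hw'))
    exact Finset.le_sup (f := fun ξ => ((σ.κ (Denumerable.ofNat (List ℕ)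
      (Encodable.encode w'))).val ξ).headD 0) (by rw [h1]; exact hξ)
  set G : KW Ax → Set (Str Am) := fun x => {κ | ∀ p ∈ pairs, Inv D H x ε (p.1 * tr p.2 κ) ∧
    (∀ i ∈ Finset.range j, Ev H ⊤ (p.1 * tr p.2 κ) (dec D x ε (σ.b i))) ∧
    (p.2 = ⊤ → ∀ i ∈ Finset.range j, dec D x ε (σ.b i) (p.1 * tr p.2 κ))} with hG
  have hGmem : ∀ x ∈ σ.Y, G x ∈ H ⊤ P := by
    intro x hx
    have : ∀ᶠ κ in (H ⊤ P : Filter (Str Am)), ∀ p ∈ pairs, Inv D H x ε (p.1 * tr p.2 κ) ∧
      (∀ i ∈ Finset.range j, Ev H ⊤ (p.1 * tr p.2 κ) (dec D x ε (σ.b i))) ∧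
      (p.2 = ⊤ → ∀ i ∈ Finset.range j, dec D x ε (σ.b i) (p.1 * tr p.2 κ)) := by
      rw [Filter.eventually_all_finite hpfin]
      intro p hp
      have hp' := hp
      obtain ⟨y, n, hy, rfl⟩ := hp'
      have hdone := done_of_word hy
      have hτm := tau_mem hC hσ hdone
      have h1 := hlaw _ hp _ ((hσ.inv y n hdone x hx).move hH hτm)
      have h2 := hlaw _ hp _ (Ev.finset (Finset.range j)
        (fun i hi => dec_move hH (hσ.past y n hdone x hx i (Finset.mem_range.1 hi)) hτm))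
      have h3 : ∀ᶠ κ in (H ⊤ P : Filter (Str Am)), (τ n y = ⊤ → ∀ i ∈ Finset.range j,
          dec D x ε (σ.b i) (Qs a0 τ q0 σ.κ n y * tr (τ n y) κ)) := by
        by_cases ht : τ n y = ⊤
        · have := hlaw _ hp (fun q => ∀ i ∈ Finset.range j, dec D x ε (σ.b i) q)
            (Ev.finset (Finset.range j) (fun i hi => by
              simp only [ht]
              exact hσ.past y n hdone x hx i (Finset.mem_range.1 hi)))
          exact this.mono fun κ hκ _ => hκ
        · exact Filter.Eventually.of_forall fun κ h => absurd h ht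
      exact h1.and (h2.and h3)
    exact this
  have hE : {κ : Str Am | ∀ ξ ∈ Req w, ∃ a l, κ.val ξ = a :: l ∧ M < a} ∈ H ⊤ P := by
    have : ∀ᶠ κ in (H ⊤ P : Filter (Str Am)), ∀ ξ ∈ Req w, ∃ a l, κ.val ξ = a :: l ∧ M < a := by
      rw [Filter.eventually_all_finset]
      exact fun ξ _ => hH.nondeg ⊤ P ξ M (WithTop.coe_lt_top _)
    exact this
  have hcount : Countable (Str Am) := by
    have := countable_cells (α := fun _ : Am => ℕ) (univ : Set Am) (countable_univ)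
    have h2 : {c : Cell (fun _ : Am => ℕ) | c.supp ⊆ univ} = univ := by ext; simp
    rw [h2] at this
    exact countable_univ_iff.1 this
  obtain ⟨κw, hκE, hpos1⟩ := hUf Ax _ σ.d σ.s σ.Y (Str Am) hcount (H ⊤ P) G hσ.dfin hσ.pos hGmem _ hE
  set κ' : List ℕ → Str Am := Function.update σ.κ w κw with hκ'
  have hκ'w : κ' w = κw := Function.update_self _ _ _
  have hκ'ne : ∀ w', w' ≠ w → κ' w' = σ.κ w' := fun w' h => Function.update_of_ne h _ _
  have hQold : ∀ (y : Am → ℕ → ℕ) n, (∀ i < n, Encodable.encode (pre (y a0) i) ≠ j) →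
      Qs a0 τ q0 κ' n y = Qs a0 τ q0 σ.κ n y := by
    intro y n h
    apply Qs_congr
    intro i hi
    apply hκ'ne
    intro he
    exact h i hi (by rw [he, hwj])
  have hQnew : ∀ (y : Am → ℕ → ℕ) n, Encodable.encode (pre (y a0) n) = j →
      Qs a0 τ q0 κ' (n + 1) y = Qs a0 τ q0 σ.κ n y * tr (τ n y) κw := by
    intro y n h
    rw [Qs, hQold y n fun i hi he => ?_, hword y n h, hκ'w]
    have := enc_pre_lt (z := y a0) hi
    omega
  set R' : Set (Str Am) := {q | ∃ y n, Done a0 (j + 1) n y ∧ q = Qs a0 τ q0 κ' n y} with hR'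
  have hR'cases : ∀ q ∈ R', (∃ p ∈ pairs, q = p.1 * tr p.2 κw) ∨
      (∃ y n, Done a0 j n y ∧ q = Qs a0 τ q0 σ.κ n y) := by
    rintro q ⟨y, n, hy, rfl⟩
    rcases done_succ hy with ⟨m, rfl, hm⟩ | ⟨h1, h2⟩
    · exact Or.inl ⟨_, ⟨y, m, hm, rfl⟩, hQnew y m hm⟩
    · exact Or.inr ⟨y, n, h1, hQold y n h2⟩
  have hR'fin : R'.Finite := by
    refine ((hpfin.image fun p => p.1 * tr p.2 κw).union hσ.rfin).subset fun q hq => ?_
    rcases hR'cases q hq with ⟨p, hp, rfl⟩ | h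
    · exact Or.inl ⟨p, hp, rfl⟩
    · exact Or.inr h
  have hR'inv : ∀ x, x ∈ σ.Y → κw ∈ G x → ∀ q ∈ R', Inv D H x ε q ∧
      ∀ i < j, Ev H ⊤ q (dec D x ε (σ.b i)) := by
    intro x hx hκx q hq
    rcases hR'cases q hq with ⟨p, hp, rfl⟩ | ⟨y, n, hy, rfl⟩
    · exact ⟨(hκx p hp).1, fun i hi => (hκx p hp).2.1 i (Finset.mem_range.2 hi)⟩
    · exact ⟨hσ.inv y n hy x hx, hσ.past y n hy x hx⟩
  -- next bit
  obtain ⟨bj, hbE, hpos2⟩ := hUf Ax _ σ.d σ.s {x | x ∈ σ.Y ∧ κw ∈ G x} ℕ inferInstance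
    (Filter.hyperfilter ℕ) (fun x => {b | ∀ q ∈ R', Ev H ⊤ q (dec D x ε b)}) hσ.dfin hpos1
    (fun x hx => by
      have : ∀ᶠ b in (Filter.hyperfilter ℕ : Filter ℕ), ∀ q ∈ R', Ev H ⊤ q (dec D x ε b) := by
        rw [Filter.eventually_all_finite hR'fin]
        exact fun q hq => (hR'inv x hx.1 hx.2 q hq).1.1
      exact this) {b | ∀ i ∈ Finset.range j, σ.b i < b} (by
      have : ∀ᶠ b in (Filter.hyperfilter ℕ : Filter ℕ), ∀ i ∈ Finset.range j, σ.b i < b := by
        rw [Filter.eventually_all_finset]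
        intro i _
        apply Filter.Eventually.filter_mono (Filter.hyperfilter_le_cofinite)
        rw [Nat.cofinite_eq_atTop]
        exact Filter.eventually_gt_atTop _
      exact this)
  set Y2 : Set (KW Ax) := {x | x ∈ {x | x ∈ σ.Y ∧ κw ∈ G x} ∧
    bj ∈ {b | ∀ q ∈ R', Ev H ⊤ q (dec D x ε b)}} with hY2
  -- stems
  obtain ⟨s1, hs1shape, hs1le, hs1Pr, hpos3⟩ := hStem Ax _ inferInstance σ.d σ.s Y2
    (fun c => ∀ y n, Encodable.encode (pre (y a0) n) = j → τ n y = ⊤ → ∀ i < j,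
      decC D c ε (σ.b i) (Qs a0 τ q0 κ' (n + 1) y)) hσ.dfin hσ.shape
    (fun c c' hcc h y n hy ht i hi x' y' hx' hy' => h y n hy ht i hi x' y'
      (fun a => (hx' a).mono (hcc a)) hy')
    (fun x hx => by
      obtain ⟨c, hc, hc'⟩ := exists_cell_all (pairs ×ˢ (Finset.range j : Set ℕ))
        (hpfin.prod (Finset.finite_toSet _)) x
        (fun t c => t.1.2 = ⊤ → decC D c ε (σ.b t.2) (t.1.1 * tr t.1.2 κw))
        (fun t c c' hcc h ht x' y' hx' hy' => h ht x' y' (fun a => (hx' a).mono (hcc a)) hy')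
        (fun t ht => by
          by_cases htop : t.1.2 = ⊤
          · obtain ⟨c, hc, hc'⟩ := (hx.1.2 t.1 ht.1).2.2 htop t.2 (Finset.mem_coe.1 ht.2)
            exact ⟨c, hc, fun _ => hc'⟩
          · exact ⟨1, mem_one _, fun h => absurd h htop⟩)
      refine ⟨c, hc, fun y n hy ht i hi => ?_⟩
      rw [hQnew y n hy]
      exact hc' ((Qs a0 τ q0 σ.κ n y, τ n y), i)
        ⟨⟨y, n, hy, rfl⟩, Finset.mem_coe.2 (Finset.mem_range.2 hi)⟩ ht) hpos2
  obtain ⟨s2, hs2shape, hs2le, hpos4, hsep⟩ := hDouble Ax _ inferInstance σ.d s1 Y2 (β j) hσ.dfin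
    hs1shape hpos3
  refine ⟨⟨κ', Function.update σ.b j bj, Function.update σ.d (β j) (σ.d (β j) + 1), s2, Y2⟩,
    ⟨?_, hs2shape, hpos4, hR'fin, ?_, ?_, ?_, ?_, ?_⟩, ⟨?_, ?_, rfl, ?_, hsep, ?_⟩⟩
  · refine (hσ.dfin.insert (β j)).subset fun a ha => ?_
    by_cases h : a = β j
    · exact Or.inl h
    · right
      simp only [mem_ofPred_eq] at ha ⊢
      rwa [Function.update_of_ne h] at ha
  · intro y n hy x hx
    exact (hR'inv x hx.1.1 hx.1.2 _ ⟨y, n, hy, rfl⟩).1
  · intro y n hy x hx i hi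
    by_cases h : i = j
    · subst h
      simp only [Function.update_self]
      exact hx.2 _ ⟨y, n, hy, rfl⟩
    · simp only [Function.update_of_ne h]
      exact (hR'inv x hx.1.1 hx.1.2 _ ⟨y, n, hy, rfl⟩).2 i (by omega)
  · intro w' hw' ξ hξ
    by_cases h : w' = w
    · subst h
      obtain ⟨a, l, hal, -⟩ := hκE ξ hξ
      simp only [hκ'w, hal]
      simp
    · simp only [hκ'ne w' h]
      refine hσ.req w' ?_ ξ hξ
      have : Encodable.encode w' ≠ j := fun he => h (Encodable.encode_injective (he.trans hwj.symm))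
      omega
  · intro w1 w2 ξ h1 h2 hne hξ1 hξ2
    have hlt : ∀ w', w' ≠ w → Encodable.encode w' < j + 1 → Encodable.encode w' < j := by
      intro w' h h'
      have : Encodable.encode w' ≠ j := fun he => h (Encodable.encode_injective (he.trans hwj.symm))
      omega
    have hold : ∀ w', w' ≠ w → Encodable.encode w' < j + 1 → ξ ∈ Req w' →
        ∀ a l, κw.val ξ = a :: l → M < a → ((κ' w').val ξ).head? ≠ some a := by
      intro w' hw' he hξ a l _ hMa hh
      rw [hκ'ne w' hw'] at hh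
      have := hM w' (hlt w' hw' he) ξ hξ a hh
      omega
    by_cases hw1 : w1 = w
    · have hw2 : w2 ≠ w := fun h => hne (hw1.trans h.symm)
      rw [hw1] at hξ1
      obtain ⟨a, l, hal, hMa⟩ := hκE ξ hξ1
      simp only [hw1, hκ'w, hal]
      exact fun h => hold w2 hw2 h2 hξ2 a l hal hMa h.symm
    · by_cases hw2 : w2 = w
      · rw [hw2] at hξ2
        obtain ⟨a, l, hal, hMa⟩ := hκE ξ hξ2
        simp only [hw2, hκ'w, hal]
        exact fun h => hold w1 hw1 h1 hξ1 a l hal hMa h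
      · simp only [hκ'ne w1 hw1, hκ'ne w2 hw2]
        exact hσ.heads w1 w2 ξ (hlt w1 hw1 h1) (hlt w2 hw2 h2) hne hξ1 hξ2
  · intro i i' hii hi'
    by_cases h : i' = j
    · subst h
      simp only [Function.update_self, Function.update_of_ne hii.ne]
      exact hbE i (Finset.mem_range.2 hii)
    · have h' : i ≠ j := by omega
      simp only [Function.update_of_ne h, Function.update_of_ne h']
      exact hσ.bmono i i' hii (by omega)
  · intro w' hw'
    apply hκ'ne
    rintro rfl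
    omega
  · intro i hi
    exact Function.update_of_ne (by omega) _ _
  · exact fun x a => (hs1le x a).trans (hs2le x a)
  · intro y n hy ht i hi x x' y' hx' hy'
    exact hs1Pr x y n hy ht i hi x' y' (fun a => (hx' a).mono (hs2le x a)) hy'

end recursion

end HomP

end Pool.Agent.H554
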