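import Pool.Agent.H554.Basic
import Pool.Agent.H554.FStmts

/-!
# Section 10, first part: canonical names, the choice of a member of a groupwise dense family
-/

namespace Pool.Agent.H554

namespace P3P

open Set Pool.Agent.Helper669.Forcing

section generic

variable {I : Type} {α : I → Type} [∀ i, TopologicalSpace (α i)] {dep : I → Set I}
  {A : Set I} {f : W α → W α}

/-- two different sequences have a common initial segment followed by different letters -/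
theorem exists_diff {β : Type} {z z' : ℕ → β} (h : z ≠ z') :
    ∃ l, pre z l = pre z' l ∧ z l ≠ z' l := by
  classical
  have hex : ∃ l, z l ≠ z' l := by
    by_contra h'
    push Not at h'
    exact h (funext h')
  refine ⟨Nat.find hex, ?_, Nat.find_spec hex⟩
  rw [pre_eq_iff]
  exact fun k hk => not_not.1 (Nat.find_min hex hk)

theorem IsMor.inj_on [LinearOrder I] [WellFoundedLT I] (hlt : ∀ i, ∀ i' ∈ dep i, i' < i)
    (hf : IsMor dep A f) (L : Set I) (hL : ∀ i ∈ L, ∀ i' ∈ dep i, i' ∈ L) {z z' : W α}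
    (h : ∀ i ∈ L, f z i = f z' i) : ∀ i ∈ L, z i = z' i := by
  intro i
  induction i using WellFoundedLT.induction with
  | ind i ih =>
    intro hi
    by_contra hne
    obtain ⟨l, hl1, hl2⟩ := exists_diff hne
    obtain ⟨t, φ, hφ, ht⟩ := hf.emb i z (pre (z i) l)
    have h1 := ht (z i l) z (fun _ _ => rfl) (by rw [← pre_succ]; exact ext_pre _)
    have h2 := ht (z' i l) z' (fun i' hi' => (ih i' (hlt i i' hi') (hL i hi i' hi')).symm)
      (by rw [hl1, ← pre_succ]; exact ext_pre _)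
    rw [ext_concat] at h1 h2
    rw [h i hi] at h1
    exact hl2 (hφ (h1.2.symm.trans h2.2))

end generic

variable {J : Type} [LinearOrder J]

theorem Mo.comp_assoc (p q r : Mo J) : (p.comp q).comp r = p.comp (q.comp r) := rfl

theorem Mo.inj [WellFoundedLT J] (p : Mo J) : Function.Injective p.1 := by
  obtain ⟨A, _, hA⟩ := p.2
  exact hA.injective dep_lt

theorem Mo.eq_comp {p q : Mo J} (h : q ≤ p) : ∃ s : Mo J, q = p.comp s := by
  obtain ⟨s, hs⟩ := h
  exact ⟨s, Subtype.ext hs⟩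

/-- the condition of a cell -/
def Mo.io (c : Cell (alph J)) : Mo J := ⟨iota c, isMorC_iota c⟩

/-- the canonical name, relative to `q`, of the set valued function `F` -/
def nameOf (q : Mo J) (F : W (alph J) → Set ℕ) (n : ℕ) : Set (Mo J) :=
  {r | ∃ s : Mo J, r = q.comp s ∧ ∀ z, n ∈ F (s.1 z)}

theorem reads_nameOf [WellFoundedLT J] (q : Mo J) (F : W (alph J) → Set ℕ) (hF : ContS F) :
    Reads q (nameOf q F) F := by
  intro z n
  by_cases hn : n ∈ F z
  · obtain ⟨c, hc, hc'⟩ := exists_cell (hF n).isOpen (z := z) hn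
    refine ⟨c, hc, fun r hr => ⟨fun _ => ?_, fun h => absurd hn h⟩⟩
    apply meets_of_mem
    refine ⟨Mo.io c, Subtype.ext hr, fun z' => hc' _ (mem_iota c z')⟩
  · obtain ⟨c, hc, hc'⟩ := exists_cell (hF n).compl.isOpen (z := z) hn
    refine ⟨c, hc, fun r hr => ⟨fun h => absurd h hn, fun _ => ?_⟩⟩
    intro r1 hr1 hmeet
    obtain ⟨r2, hr2, h, ⟨s, hs, hs'⟩, hr2h⟩ := hmeet r1 le_rfl
    obtain ⟨u, hu⟩ := Mo.eq_comp hr2h
    obtain ⟨v, hv⟩ := Mo.eq_comp (hr2.trans hr1)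
    have h1 : ∀ z, q.1 (s.1 (u.1 z)) = q.1 (iota c (v.1 z)) := by
      intro z
      have e1 : r2.1 z = q.1 (s.1 (u.1 z)) := by rw [hu, hs]; rfl
      have e2 : r2.1 z = q.1 (iota c (v.1 z)) := by
        rw [hv]
        show r.1 (v.1 z) = _
        rw [hr]
        rfl
      rw [← e1, e2]
    have h2 := Mo.inj q (h1 z)
    have h3 := hs' (u.1 z)
    rw [h2] at h3
    exact hc' _ (mem_iota c (v.1 z)) h3

theorem down_forr (φ ψ : Set (Mo J)) : Down (forr φ ψ) := down_fnot _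

theorem down_FMem (C : ℕ → Set (Mo J)) (G : (ℕ → Set (Mo J)) → Set (Mo J)) : Down (FMem C G) :=
  down_fex _

theorem down_FUnb (C : ℕ → Set (Mo J)) : Down (FUnb C) := down_fall fun _ => down_fex _

theorem down_FGwDense (G : (ℕ → Set (Mo J)) → Set (Mo J)) : Down (FGwDense G) :=
  down_fand (down_fall fun _ => down_fall fun _ => down_fimp _ _) (down_fall fun _ => down_fimp _ _)

/-- reading a name below a condition, with sets dense below it -/
theorem read_below (hRead : SRead) [WellFoundedLT J] (j0 : J) (hj0 : ∀ j, j0 ≤ j) {X : Type}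
    [Countable X] (C : X → Set (Mo J)) (p : Mo J) (O : ℕ → Set (Mo J)) (hO : ∀ n, Down (O n))
    (hO2 : ∀ n, ∀ q ≤ p, ∃ r ≤ q, r ∈ O n) :
    ∃ q ≤ p, ∃ (A : Set (Ix J)) (G : W (alph J) → Set X), A.Countable ∧ IsMor (dep J) A q.1 ∧
    DepOn A G ∧ Reads q C G ∧
    ∀ z n, ∃ c : Cell (alph J), c.supp ⊆ A ∧ c.Mem z ∧ q.comp (Mo.io c) ∈ O n := by
  obtain ⟨q, hq, A, G, hA, hqA, hGA, hR, h⟩ := hRead J inferInstance inferInstance j0 hj0 X
    inferInstance C (fun n => O n ∪ {r | ∀ r' ≤ r, ¬ r' ≤ p}) (fun n r hr r' hr' => by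
      rcases hr with hr | hr
      · exact Or.inl (hO n r hr r' hr')
      · exact Or.inr fun r'' h => hr r'' (h.trans hr')) (fun n r => by
      by_cases h : ∃ r' ≤ r, r' ≤ p
      · obtain ⟨r', hr', hp⟩ := h
        obtain ⟨r'', h1, h2⟩ := hO2 n r' hp
        exact ⟨r'', h1.trans hr', Or.inl h2⟩
      · push Not at h
        exact ⟨r, le_rfl, Or.inr h⟩) p
  refine ⟨q, hq, A, G, hA, hqA, hGA, hR, fun z n => ?_⟩
  obtain ⟨c, hc1, hc2, hc3⟩ := h z n
  refine ⟨c, hc1, hc2, ?_⟩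
  rcases hc3 (q.comp (Mo.io c)) rfl with h | h
  · exact h
  · exact absurd ((Mo.comp_le _ _).trans hq) (h _ le_rfl)

/-- the choice of a member of a groupwise dense family containing many blocks of a given
partition -/
theorem choose_member (hRead : SRead) (hTruth : STruth) [WellFoundedLT J] (j0 : J)
    (hj0 : ∀ j, j0 ≤ j) {Gi : (ℕ → Set (Mo J)) → Set (Mo J)} {q : Mo J} (hq : q ∈ FGwDense Gi)
    (F : W (alph J) → Set ℕ) (hF : ContS F) (hFu : ∀ z, Unb (F z)) :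
    ∃ (s : Mo J) (A' : Set (Ix J)) (C : ℕ → Set (Mo J)) (G' : W (alph J) → Set ℕ),
      A'.Countable ∧ IsMor (dep J) A' (q.comp s).1 ∧ DepOn A' G' ∧ q.comp s ∈ FMem C Gi ∧
      Reads (q.comp s) C G' ∧ ∀ z N, ∃ a a', N ≤ a ∧ a < a' ∧ a ∈ F (s.1 z) ∧ a' ∈ F (s.1 z) ∧
        ∀ k, a ≤ k → k < a' → k ∈ G' z := by
  have hH := reads_nameOf q F hF
  have hT := hTruth J inferInstance inferInstance ℕ q (nameOf q F) F hH
  have hunb : q ∈ FUnb (nameOf q F) := by
    intro N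
    rw [mem_fex]
    intro r hr
    obtain ⟨s, rfl⟩ := Mo.eq_comp hr
    obtain ⟨n, hn, hn'⟩ := hFu (s.1 (fun _ _ => default)) N
    have hR := (hT.2 s).1 (fun _ _ => default) n
    obtain ⟨c, hc, hc'⟩ := hR
    refine ⟨(q.comp s).comp (Mo.io c), Mo.comp_le _ _, n, hn, (hc' _ rfl).1 hn'⟩
  obtain ⟨r, hr, hr'⟩ := mem_fimp.1 (hq.2 (nameOf q F)) q le_rfl hunb
  obtain ⟨q1, hq1, C, hC1, hC2⟩ := mem_fex.1 hr' r le_rfl
  have hq1q : q1 ≤ q := hq1.trans hr
  let O : ℕ → Set (Mo J) := fun N => {r | ∃ a a' : ℕ, N ≤ a ∧ a < a' ∧ r ∈ meets (nameOf q F a) ∧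
    r ∈ meets (nameOf q F a') ∧ ∀ k, a ≤ k → k < a' → r ∈ meets (C k)}
  have hO : ∀ n, Down (O n) := by
    rintro n r ⟨a, a', h1, h2, h3, h4, h5⟩ r' hr'
    exact ⟨a, a', h1, h2, down_meets _ _ h3 _ hr', down_meets _ _ h4 _ hr',
      fun k hk hk' => down_meets _ _ (h5 k hk hk') _ hr'⟩
  have hdense : ∀ (φ : Set (Mo J)) (r : Mo J), (∀ r' ≤ r, ∃ r'' ≤ r', r'' ∈ meets φ) →
      r ∈ meets φ := by
    intro φ r h r1 hr1
    obtain ⟨r2, hr2, hr3⟩ := h r1 hr1
    obtain ⟨r4, hr4, hr5⟩ := hr3 r2 le_rfl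
    exact ⟨r4, hr4.trans hr2, hr5⟩
  have hO2 : ∀ n, ∀ r ≤ q1, ∃ r' ≤ r, r' ∈ O n := by
    intro N r hr
    obtain ⟨r1, hr1, a, h1⟩ := mem_fex.1 (hC2 N) r hr
    obtain ⟨r2, hr2, a', h2⟩ := mem_fex.1 h1 r1 le_rfl
    obtain ⟨⟨h3, h4⟩, h5, h6, h7⟩ := h2
    refine ⟨r2, hr2.trans hr1, a, a', h3, h4, h5, h6, fun k hk hk' => ?_⟩
    apply hdense
    intro r3 hr3
    exact mem_fimp.1 (h7 k) r3 hr3 ⟨hk, hk'⟩
  obtain ⟨q', hq', A, G', hA, hqA, hGA, hR, hblock⟩ := read_below hRead j0 hj0 C q1 O hO hO2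
  obtain ⟨s, rfl⟩ := Mo.eq_comp (hq'.trans hq1q)
  refine ⟨s, A, C, G', hA, hqA, hGA, down_FMem _ _ _ hC1 _ hq', hR, fun z N => ?_⟩
  obtain ⟨c, -, hc, a, a', h1, h2, h3, h4, h5⟩ := hblock z N
  have hzc : iota c (stripc c z) = z := iota_stripc hc
  have hT2 := hTruth J inferInstance inferInstance ℕ (q.comp s) C G' hR
  refine ⟨a, a', h1, h2, ?_, ?_, fun k hk hk' => ?_⟩
  · have := ((hT.2 (s.comp (Mo.io c))).2 a).1.1 h3 (stripc c z)
    have h : (s.comp (Mo.io c)).1 (stripc c z) = s.1 z := by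
      show s.1 (iota c (stripc c z)) = _
      rw [hzc]
    rwa [h] at this
  · have := ((hT.2 (s.comp (Mo.io c))).2 a').1.1 h4 (stripc c z)
    have h : (s.comp (Mo.io c)).1 (stripc c z) = s.1 z := by
      show s.1 (iota c (stripc c z)) = _
      rw [hzc]
    rwa [h] at this
  · have := ((hT2.2 (Mo.io c)).2 k).1.1 (h5 k hk hk') (stripc c z)
    have h : (Mo.io c).1 (stripc c z) = z := hzc
    rwa [h] at this

end P3P

end Pool.Agent.H554
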