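import Pool.Agent.H554.P3a

/-!
# Section 10, second part: the partition into blocks
-/

namespace Pool.Agent.H554

namespace P3P

open Set Filter Topology Pool.Agent.Helper669.Forcing

/-- locally constant functions -/
def LC {X Y : Type} [TopologicalSpace X] (f : X → Y) : Prop := ∀ x, ∀ᶠ x' in 𝓝 x, f x' = f x

theorem isClopen_of_eventually {X : Type} [TopologicalSpace X] {P : X → Prop}
    (h : ∀ x, ∀ᶠ x' in 𝓝 x, (P x' ↔ P x)) : IsClopen {x | P x} := by
  constructor
  · rw [← isOpen_compl_iff, isOpen_iff_mem_nhds]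
    intro x hx
    filter_upwards [h x] with x' hx'
    exact fun h' => hx (hx'.1 h')
  · rw [isOpen_iff_mem_nhds]
    intro x hx
    filter_upwards [h x] with x' hx'
    exact hx'.2 hx

theorem eventually_of_isClopen {X : Type} [TopologicalSpace X] {P : X → Prop}
    (h : IsClopen {x | P x}) (x : X) : ∀ᶠ x' in 𝓝 x, (P x' ↔ P x) := by
  by_cases hx : P x
  · filter_upwards [h.isOpen.mem_nhds hx] with x' hx'
    exact ⟨fun _ => hx, fun _ => hx'⟩
  · filter_upwards [h.compl.isOpen.mem_nhds hx] with x' hx'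
    exact ⟨fun h' => absurd h' hx', fun h' => absurd h' hx⟩

theorem clopen_forall {X K : Type} [TopologicalSpace X] [TopologicalSpace K] [CompactSpace K]
    {S : Set (X × K)} (hS : IsClopen S) : IsClopen {x | ∀ k, (x, k) ∈ S} := by
  have h : {x | ∀ k, (x, k) ∈ S}ᶜ = Prod.fst '' Sᶜ := by
    ext x
    simp
  constructor
  · rw [← isOpen_compl_iff, h]
    exact isOpenMap_fst _ hS.compl.isOpen
  · rw [← isClosed_compl_iff, h]
    exact isClosedMap_fst_of_compactSpace _ hS.compl.isClosed

variable {J : Type} [LinearOrder J]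

/-- change the `x`-coordinate `β` -/
def upd (β : J) (z : W (alph J)) (x : ℕ → Bool) : W (alph J) := Function.update z (xI β) x

theorem continuous_upd (β : J) : Continuous fun p : W (alph J) × (ℕ → Bool) => upd β p.1 p.2 :=
  continuous_fst.update (xI β) continuous_snd

theorem upd_self (β : J) (z : W (alph J)) : upd β z (z (xI β)) = z :=
  Function.update_eq_self _ _

/-- the data of the stems of a morphism at the coordinate `mI β` -/
structure SD (β : J) (A : Set (Ix J)) (t : W (alph J) → List ℕ → List ℕ)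
    (φ : W (alph J) → List ℕ → ℕ → ℕ) : Prop where
  inj : ∀ z u, Function.Injective (φ z u)
  step : ∀ z u a, t z u ++ [φ z u a] <+: t z (u ++ [a])
  len : ∀ z u, u.length ≤ (t z u).length
  loc : ∀ z z' u, (∀ i ∈ A, i ∈ dep J (mI β) → z i = z' i) → t z u = t z' u ∧ φ z u = φ z' u
  lct : ∀ u, LC fun z => t z u
  lcφ : ∀ u a, LC fun z => φ z u a

section blocks

variable {β : J} {A : Set (Ix J)} {t : W (alph J) → List ℕ → List ℕ}
  {φ : W (alph J) → List ℕ → ℕ → ℕ}

/-- the code of a string -/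
abbrev en (u : List ℕ) : ℕ := Encodable.encode u

theorem en_append_lt (u : List ℕ) (a : ℕ) (v : List ℕ) : en u < en (u ++ a :: v) := by
  induction u with
  | nil => simp [en]
  | cons b u ih =>
    rw [List.cons_append, en, en, Encodable.encode_list_cons, Encodable.encode_list_cons]
    exact Nat.succ_lt_succ (Nat.pair_lt_pair_right _ ih)

theorem en_le {u v : List ℕ} (h : u <+: v) : en u ≤ en v := by
  obtain ⟨s, rfl⟩ := h
  cases s with
  | nil => simp
  | cons a s => exact (en_append_lt u a s).le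

theorem en_inj {u v : List ℕ} (h : en u = en v) : u = v := Encodable.encode_injective h

theorem lt_of_en_lt {u v : List ℕ} (h : en u < en v) (hc : Compat u v) : u.length < v.length := by
  rcases hc with hc | hc
  · rcases hc.length_le.lt_or_eq with h1 | h1
    · exact h1
    · rw [hc.eq_of_length h1] at h
      exact absurd h (lt_irrefl _)
  · exact absurd h (not_lt.2 (en_le hc))

/-- the condition defining the bound `Mx` -/
def Cnd (β : J) (t : W (alph J) → List ℕ → List ℕ) (φ : W (alph J) → List ℕ → ℕ → ℕ)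
    (z : W (alph J)) (u : List ℕ) (K M : ℕ) : Prop :=
  ∀ x : ℕ → Bool, ∃ a, a < M ∧ K ≤ en (t (upd β z x) u ++ [φ (upd β z x) u a]) ∧
    en (t (upd β z x) (u ++ [a])) < M

theorem exists_letter (h : SD β A t φ) (z : W (alph J)) (u : List ℕ) (K : ℕ) :
    ∃ a, K ≤ en (t z u ++ [φ z u a]) := by
  by_contra hcon
  push Not at hcon
  have hinj : Function.Injective fun a => en (t z u ++ [φ z u a]) := by
    intro a b hab
    have := en_inj hab
    simp only [List.append_cancel_left_eq, List.cons.injEq, and_true] at this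
    exact h.inj z u this
  exact Set.infinite_range_of_injective hinj ((Set.finite_lt_nat K).subset (by
    rintro _ ⟨a, rfl⟩; exact hcon a))

theorem lc_comp {X Y Z : Type} [TopologicalSpace X] [TopologicalSpace Y] {f : Y → Z} (hf : LC f)
    {g : X → Y} (hg : Continuous g) : LC fun x => f (g x) :=
  fun x => hg.continuousAt.eventually (hf (g x))

theorem exists_Cnd (h : SD β A t φ) (z : W (alph J)) (u : List ℕ) (K : ℕ) :
    ∃ M, Cnd β t φ z u K M := by
  have hcont : Continuous fun x : ℕ → Bool => upd β z x :=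
    (continuous_upd β).comp (continuous_const.prodMk continuous_id)
  choose a ha using fun x : ℕ → Bool => exists_letter h (upd β z x) u K
  let V : (ℕ → Bool) → Set (ℕ → Bool) := fun x => {x' | t (upd β z x') u = t (upd β z x) u ∧
    φ (upd β z x') u (a x) = φ (upd β z x) u (a x) ∧
    t (upd β z x') (u ++ [a x]) = t (upd β z x) (u ++ [a x])}
  have hV : ∀ x ∈ (univ : Set (ℕ → Bool)), V x ∈ 𝓝 x := by
    intro x _
    filter_upwards [lc_comp (h.lct u) hcont x, lc_comp (h.lcφ u (a x)) hcont x,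
      lc_comp (h.lct (u ++ [a x])) hcont x] with x' h1 h2 h3
    exact ⟨h1, h2, h3⟩
  obtain ⟨T, -, hT⟩ := isCompact_univ.elim_nhds_subcover V hV
  refine ⟨T.sup fun x => max (a x + 1) (en (t (upd β z x) (u ++ [a x])) + 1), fun x => ?_⟩
  obtain ⟨x0, hx0, hx⟩ := mem_iUnion₂.1 (hT (mem_univ x))
  have hle := Finset.le_sup (f := fun x => max (a x + 1) (en (t (upd β z x) (u ++ [a x])) + 1)) hx0
  have h1 := le_max_left (a x0 + 1) (en (t (upd β z x0) (u ++ [a x0])) + 1)
  have h2 := le_max_right (a x0 + 1) (en (t (upd β z x0) (u ++ [a x0])) + 1)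
  refine ⟨a x0, by omega, ?_, ?_⟩
  · rw [hx.1, hx.2.1]
    exact ha x0
  · rw [hx.2.2]
    omega

theorem clopen_Cnd (h : SD β A t φ) (u : List ℕ) (K M : ℕ) :
    IsClopen {z | Cnd β t φ z u K M} := by
  apply clopen_forall (S := {p : W (alph J) × (ℕ → Bool) | ∃ a, a < M ∧
    K ≤ en (t (upd β p.1 p.2) u ++ [φ (upd β p.1 p.2) u a]) ∧
    en (t (upd β p.1 p.2) (u ++ [a])) < M})
  apply isClopen_of_eventually
  intro p
  have hc := continuous_upd (J := J) β
  have h1 : ∀ a ∈ Finset.range M, ∀ᶠ p' in 𝓝 p, φ (upd β p'.1 p'.2) u a = φ (upd β p.1 p.2) u a ∧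
      t (upd β p'.1 p'.2) (u ++ [a]) = t (upd β p.1 p.2) (u ++ [a]) :=
    fun a _ => (lc_comp (h.lcφ u a) hc p).and (lc_comp (h.lct (u ++ [a])) hc p)
  rw [← Filter.eventually_all_finset] at h1
  filter_upwards [h1, lc_comp (h.lct u) hc p] with p' h2 h3
  constructor
  · rintro ⟨a, ha, h4, h5⟩
    have h6 := h2 a (Finset.mem_range.2 ha)
    rw [h3, h6.1] at h4
    rw [h6.2] at h5
    exact ⟨a, ha, h4, h5⟩
  · rintro ⟨a, ha, h4, h5⟩
    have h6 := h2 a (Finset.mem_range.2 ha)
    rw [← h3, ← h6.1] at h4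
    rw [← h6.2] at h5
    exact ⟨a, ha, h4, h5⟩

open Classical in
/-- the bound `Mx` -/
noncomputable def Mx (β : J) (t : W (alph J) → List ℕ → List ℕ)
    (φ : W (alph J) → List ℕ → ℕ → ℕ) (z : W (alph J)) (u : List ℕ) (K : ℕ) : ℕ :=
  if h : ∃ M, Cnd β t φ z u K M then Nat.find h else 0

theorem Mx_spec (h : SD β A t φ) (z : W (alph J)) (u : List ℕ) (K : ℕ) :
    Cnd β t φ z u K (Mx β t φ z u K) := by
  classical
  rw [Mx, dif_pos (exists_Cnd h z u K)]
  exact Nat.find_spec (exists_Cnd h z u K)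

theorem Mx_min (h : SD β A t φ) (z : W (alph J)) (u : List ℕ) (K : ℕ) {M : ℕ}
    (hM : M < Mx β t φ z u K) : ¬ Cnd β t φ z u K M := by
  classical
  rw [Mx, dif_pos (exists_Cnd h z u K)] at hM
  exact Nat.find_min (exists_Cnd h z u K) hM

theorem Mx_eq (h : SD β A t φ) {z z' : W (alph J)} {u : List ℕ} {K : ℕ}
    (hzz : ∀ M, M ≤ Mx β t φ z u K → (Cnd β t φ z' u K M ↔ Cnd β t φ z u K M)) :
    Mx β t φ z' u K = Mx β t φ z u K := by
  apply le_antisymm
  · by_contra hlt
    exact Mx_min h z' u K (not_le.1 hlt) ((hzz _ le_rfl).2 (Mx_spec h z u K))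
  · by_contra hlt
    exact Mx_min h z u K (not_le.1 hlt) ((hzz _ (not_le.1 hlt).le).1 (Mx_spec h z' u K))

theorem lc_Mx (h : SD β A t φ) (u : List ℕ) (K : ℕ) : LC fun z => Mx β t φ z u K := by
  intro z
  have h1 : ∀ M ∈ Finset.range (Mx β t φ z u K + 1), ∀ᶠ z' in 𝓝 z,
      (Cnd β t φ z' u K M ↔ Cnd β t φ z u K M) :=
    fun M _ => eventually_of_isClopen (clopen_Cnd h u K M) z
  rw [← Filter.eventually_all_finset] at h1
  filter_upwards [h1] with z' hz'
  exact Mx_eq h fun M hM => hz' M (Finset.mem_range.2 (by omega))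

theorem dep_mI {i : Ix J} (hi : i ∈ dep J (mI β)) : i = xI β ∨ i ∈ below β := by
  obtain ⟨h1, -⟩ := hi
  induction i using Lex.rec with
  | h p =>
  obtain ⟨j, b⟩ := p
  rcases Prod.Lex.toLex_lt_toLex.1 h1 with h | ⟨h, h'⟩
  · exact Or.inr h
  · left
    simp only at h h'
    subst h
    cases b
    · rfl
    · exact absurd h' (lt_irrefl _)

theorem Mx_loc (h : SD β A t φ) {z z' : W (alph J)} (hz : ∀ i ∈ A, i ∈ below β → z i = z' i)
    (u : List ℕ) (K : ℕ) : Mx β t φ z' u K = Mx β t φ z u K := by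
  apply Mx_eq h
  intro M _
  have h1 : ∀ x u, t (upd β z x) u = t (upd β z' x) u ∧ φ (upd β z x) u = φ (upd β z' x) u := by
    intro x u
    apply h.loc
    intro i hi hi'
    rcases dep_mI hi' with rfl | hb
    · simp [upd]
    · have hne : i ≠ xI β := by
        rintro rfl
        exact lt_irrefl β hb
      simp only [upd, Function.update_of_ne hne]
      exact hz i hi hb
  unfold Cnd
  simp only [(h1 _ _).1, (h1 _ _).2]

/-- the boundaries of the blocks -/
noncomputable def bd (β : J) (t : W (alph J) → List ℕ → List ℕ)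
    (φ : W (alph J) → List ℕ → ℕ → ℕ) (z : W (alph J)) : ℕ → ℕ
  | 0 => 0
  | n + 1 => max (bd β t φ z n + 1) ((Finset.range (n + 1)).sup fun c =>
      Mx β t φ z (Denumerable.ofNat (List ℕ) c) (bd β t φ z n))

theorem bd_strictMono (z : W (alph J)) : StrictMono (bd β t φ z) :=
  strictMono_nat_of_lt_succ fun n => by
    rw [bd]
    exact lt_of_lt_of_le (Nat.lt_succ_self _) (le_max_left _ _)

theorem lc_bd (h : SD β A t φ) (n : ℕ) : LC fun z => bd β t φ z n := by
  induction n with
  | zero => exact fun z => Filter.Eventually.of_forall fun _ => rfl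
  | succ n ih =>
    intro z
    have h1 : ∀ c ∈ Finset.range (n + 1), ∀ᶠ z' in 𝓝 z,
        Mx β t φ z' (Denumerable.ofNat (List ℕ) c) (bd β t φ z n) =
        Mx β t φ z (Denumerable.ofNat (List ℕ) c) (bd β t φ z n) := fun c _ => lc_Mx h _ _ z
    rw [← Filter.eventually_all_finset] at h1
    filter_upwards [h1, ih z] with z' h2 h3
    simp only [bd, h3]
    congr 1
    exact Finset.sup_congr rfl h2

theorem bd_loc (h : SD β A t φ) {z z' : W (alph J)} (hz : ∀ i ∈ A, i ∈ below β → z i = z' i)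
    (n : ℕ) : bd β t φ z' n = bd β t φ z n := by
  induction n with
  | zero => rfl
  | succ n ih =>
    simp only [bd, ih]
    congr 1
    exact Finset.sup_congr rfl fun c _ => Mx_loc h hz _ _

/-- each block can hold the codes above each node with a small code -/
theorem bd_spec (h : SD β A t φ) (z : W (alph J)) {u : List ℕ} {n : ℕ} (hu : en u ≤ n) :
    ∃ a, bd β t φ z n ≤ en (t z u ++ [φ z u a]) ∧ en (t z (u ++ [a])) < bd β t φ z (n + 1) := by
  obtain ⟨a, -, h2, h3⟩ := Mx_spec h z u (bd β t φ z n) (z (xI β))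
  rw [upd_self] at h2 h3
  refine ⟨a, h2, lt_of_lt_of_le h3 ?_⟩
  rw [bd]
  refine le_trans ?_ (le_max_right _ _)
  have := Finset.le_sup (f := fun c => Mx β t φ z (Denumerable.ofNat (List ℕ) c) (bd β t φ z n))
    (Finset.mem_range.2 (Nat.lt_succ_of_le hu))
  simp only [en, Denumerable.ofNat_encode] at this
  exact this

/-- the set of the boundaries -/
def Fb (β : J) (t : W (alph J) → List ℕ → List ℕ)
    (φ : W (alph J) → List ℕ → ℕ → ℕ) (z : W (alph J)) : Set ℕ := range (bd β t φ z)

theorem contS_Fb (h : SD β A t φ) : ContS (Fb β t φ) := by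
  intro v
  apply isClopen_of_eventually
  intro z
  have h1 : ∀ n ∈ Finset.range (v + 1), ∀ᶠ z' in 𝓝 z, bd β t φ z' n = bd β t φ z n :=
    fun n _ => lc_bd h n z
  rw [← Filter.eventually_all_finset] at h1
  filter_upwards [h1] with z' hz'
  have key : ∀ z : W (alph J), v ∈ Fb β t φ z ↔ ∃ n, n < v + 1 ∧ bd β t φ z n = v := by
    intro z
    constructor
    · rintro ⟨n, hn⟩
      have := (bd_strictMono (β := β) (t := t) (φ := φ) z).id_le n
      exact ⟨n, by simp only [id] at this; omega, hn⟩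
    · rintro ⟨n, -, hn⟩
      exact ⟨n, hn⟩
  rw [key, key]
  constructor
  · rintro ⟨n, hn, hn'⟩
    exact ⟨n, hn, by rw [← hz' n (Finset.mem_range.2 hn)]; exact hn'⟩
  · rintro ⟨n, hn, hn'⟩
    exact ⟨n, hn, by rw [hz' n (Finset.mem_range.2 hn)]; exact hn'⟩

theorem depOn_Fb (h : SD β A t φ) : DepOn (A ∩ below β) (Fb β t φ) := by
  intro z z' hz
  unfold Fb
  congr 1
  funext n
  exact (bd_loc h (fun i hi hi' => hz i ⟨hi, hi'⟩) n).symm

theorem unb_Fb (z : W (alph J)) : Unb (Fb β t φ z) := fun N =>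
  ⟨bd β t φ z N, (bd_strictMono z).id_le N, N, rfl⟩

end blocks

end P3P

end Pool.Agent.H554
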