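import Pool.Agent.H554.P3b

/-!
# Section 10, third part: thinning out the coordinate `mI β`
-/

namespace Pool.Agent.H554

namespace P3P

open Set Filter Topology Pool.Agent.Helper669.Forcing

/-- least element of a set of natural numbers with a bound, by search -/
theorem lc_find {X : Type} [TopologicalSpace X] (p : X → ℕ → Prop)
    (hp : ∀ n x, ∀ᶠ x' in 𝓝 x, (p x' n ↔ p x n)) (f : X → ℕ) (x : X)
    (hf : ∀ᶠ x' in 𝓝 x, p x' (f x') ∧ ∀ m < f x', ¬ p x' m) : ∀ᶠ x' in 𝓝 x, f x' = f x := by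
  have h1 : ∀ m ∈ Finset.range (f x + 1), ∀ᶠ x' in 𝓝 x, (p x' m ↔ p x m) := fun m _ => hp m x
  rw [← Filter.eventually_all_finset] at h1
  have h0 := hf.self_of_nhds
  filter_upwards [h1, hf] with x' h2 h3
  have h4 : ∀ m, m ≤ f x → (p x' m ↔ p x m) := fun m hm => h2 m (Finset.mem_range.2 (by omega))
  rcases lt_trichotomy (f x') (f x) with h | h | h
  · exact absurd ((h4 _ h.le).1 h3.1) (h0.2 _ h)
  · exact h
  · exact absurd ((h4 _ le_rfl).2 h0.1) (h3.2 _ h)

section thin

variable {J : Type} [LinearOrder J] {β : J} {A : Set (Ix J)} {t : W (alph J) → List ℕ → List ℕ}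
  {φ : W (alph J) → List ℕ → ℕ → ℕ}

/-- the parameters of the thinning -/
structure TD (β : J) (A : Set (Ix J)) (t : W (alph J) → List ℕ → List ℕ)
    (φ : W (alph J) → List ℕ → ℕ → ℕ) (s : W (alph J) → W (alph J)) (As A' : Set (Ix J))
    (G : W (alph J) → Set ℕ) : Prop where
  sd : SD β A t φ
  cA : A.Countable
  cAs : As.Countable
  cA' : A'.Countable
  mor : IsMor (dep J) As s
  asb : As ⊆ below β
  a'b : A' ⊆ below β
  cG : ContS G
  dG : DepOn A' G
  block : ∀ z N, ∃ a a', N ≤ a ∧ a < a' ∧ a ∈ Fb β t φ (s z) ∧ a' ∈ Fb β t φ (s z) ∧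
    ∀ k, a ≤ k → k < a' → k ∈ G z

variable {s : W (alph J) → W (alph J)} {As A' : Set (Ix J)} {G : W (alph J) → Set ℕ}

/-- the good blocks -/
def Dn (β : J) (t : W (alph J) → List ℕ → List ℕ) (φ : W (alph J) → List ℕ → ℕ → ℕ)
    (s : W (alph J) → W (alph J)) (G : W (alph J) → Set ℕ) (z : W (alph J)) (n : ℕ) : Prop :=
  ∀ k, bd β t φ (s z) n ≤ k → k < bd β t φ (s z) (n + 1) → k ∈ G z

theorem Dn_ev (h : TD β A t φ s As A' G) (n : ℕ) (z : W (alph J)) :
    ∀ᶠ z' in 𝓝 z, (Dn β t φ s G z' n ↔ Dn β t φ s G z n) := by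
  have h1 := lc_comp (lc_bd h.sd n) h.mor.cont z
  have h2 := lc_comp (lc_bd h.sd (n + 1)) h.mor.cont z
  have h3 : ∀ k ∈ Finset.range (bd β t φ (s z) (n + 1)), ∀ᶠ z' in 𝓝 z, (k ∈ G z' ↔ k ∈ G z) :=
    fun k _ => eventually_of_isClopen (h.cG k) z
  rw [← Filter.eventually_all_finset] at h3
  filter_upwards [h1, h2, h3] with z' h4 h5 h6
  unfold Dn
  rw [h4, h5]
  exact ⟨fun h k hk hk' => (h6 k (Finset.mem_range.2 hk')).1 (h k hk hk'),
    fun h k hk hk' => (h6 k (Finset.mem_range.2 hk')).2 (h k hk hk')⟩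

theorem Dn_inf (h : TD β A t φ s As A' G) (z : W (alph J)) (N : ℕ) :
    ∃ n, N ≤ n ∧ Dn β t φ s G z n := by
  obtain ⟨a, a', h1, h2, ⟨n, rfl⟩, ⟨m, rfl⟩, h3⟩ := h.block z (bd β t φ (s z) N)
  have hm := bd_strictMono (β := β) (t := t) (φ := φ) (s z)
  refine ⟨n, hm.le_iff_le.1 h1, fun k hk hk' => h3 k hk (lt_of_lt_of_le hk' ?_)⟩
  exact hm.monotone (Nat.succ_le_of_lt (hm.lt_iff_lt.1 h2))

open Classical in
/-- next good block -/
noncomputable def nxt (β : J) (t : W (alph J) → List ℕ → List ℕ)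
    (φ : W (alph J) → List ℕ → ℕ → ℕ) (s : W (alph J) → W (alph J)) (G : W (alph J) → Set ℕ)
    (z : W (alph J)) (N : ℕ) : ℕ :=
  if h : ∃ n, N ≤ n ∧ Dn β t φ s G z n then Nat.find h else 0

theorem nxt_spec (h : TD β A t φ s As A' G) (z : W (alph J)) (N : ℕ) :
    (N ≤ nxt β t φ s G z N ∧ Dn β t φ s G z (nxt β t φ s G z N)) ∧
      ∀ m < nxt β t φ s G z N, ¬ (N ≤ m ∧ Dn β t φ s G z m) := by
  classical
  rw [nxt, dif_pos (Dn_inf h z N)]
  exact ⟨Nat.find_spec (Dn_inf h z N), fun m hm => Nat.find_min (Dn_inf h z N) hm⟩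

theorem lc_nxt (h : TD β A t φ s As A' G) (N : ℕ) : LC fun z => nxt β t φ s G z N := by
  intro z
  refine lc_find (fun z n => N ≤ n ∧ Dn β t φ s G z n) (fun n z => ?_) _ z
    (Filter.Eventually.of_forall fun z' => nxt_spec h z' N)
  filter_upwards [Dn_ev h n z] with z' hz'
  rw [hz']

/-- the `b`-th good block with index at least `N` -/
noncomputable def sel (β : J) (t : W (alph J) → List ℕ → List ℕ)
    (φ : W (alph J) → List ℕ → ℕ → ℕ) (s : W (alph J) → W (alph J)) (G : W (alph J) → Set ℕ)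
    (z : W (alph J)) (N : ℕ) : ℕ → ℕ
  | 0 => nxt β t φ s G z N
  | b + 1 => nxt β t φ s G z (sel β t φ s G z N b + 1)

theorem sel_strictMono (h : TD β A t φ s As A' G) (z : W (alph J)) (N : ℕ) :
    StrictMono (sel β t φ s G z N) := strictMono_nat_of_lt_succ fun b => by
  rw [sel]
  exact (nxt_spec h z _).1.1

theorem le_sel (h : TD β A t φ s As A' G) (z : W (alph J)) (N b : ℕ) :
    N ≤ sel β t φ s G z N b := by
  refine le_trans ?_ ((sel_strictMono h z N).monotone (Nat.zero_le b))
  exact (nxt_spec h z N).1.1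

theorem sel_Dn (h : TD β A t φ s As A' G) (z : W (alph J)) (N b : ℕ) :
    Dn β t φ s G z (sel β t φ s G z N b) := by
  cases b with
  | zero => exact (nxt_spec h z N).1.2
  | succ b => exact (nxt_spec h z _).1.2

theorem lc_sel (h : TD β A t φ s As A' G) (N b : ℕ) : LC fun z => sel β t φ s G z N b := by
  induction b with
  | zero => exact lc_nxt h N
  | succ b ih =>
    intro z
    filter_upwards [ih z, lc_nxt h (sel β t φ s G z N b + 1) z] with z' h1 h2
    simp only [sel, h1]
    exact h2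

/-- the letter `a` at the node `v` has all codes inside block `n` -/
def Lt (β : J) (t : W (alph J) → List ℕ → List ℕ)
    (φ : W (alph J) → List ℕ → ℕ → ℕ) (s : W (alph J) → W (alph J)) (z : W (alph J))
    (v : List ℕ) (n a : ℕ) : Prop :=
  bd β t φ (s z) n ≤ en (t (s z) v ++ [φ (s z) v a]) ∧
    en (t (s z) (v ++ [a])) < bd β t φ (s z) (n + 1)

theorem Lt_ev (h : TD β A t φ s As A' G) (v : List ℕ) (n a : ℕ) (z : W (alph J)) :
    ∀ᶠ z' in 𝓝 z, (Lt β t φ s z' v n a ↔ Lt β t φ s z v n a) := by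
  filter_upwards [lc_comp (lc_bd h.sd n) h.mor.cont z, lc_comp (lc_bd h.sd (n + 1)) h.mor.cont z,
    lc_comp (h.sd.lct v) h.mor.cont z, lc_comp (h.sd.lcφ v a) h.mor.cont z,
    lc_comp (h.sd.lct (v ++ [a])) h.mor.cont z] with z' h1 h2 h3 h4 h5
  unfold Lt
  rw [h1, h2, h3, h4, h5]

open Classical in
/-- the chosen letter -/
noncomputable def ac (β : J) (t : W (alph J) → List ℕ → List ℕ)
    (φ : W (alph J) → List ℕ → ℕ → ℕ) (s : W (alph J) → W (alph J)) (z : W (alph J))
    (v : List ℕ) (n : ℕ) : ℕ :=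
  if h : ∃ a, Lt β t φ s z v n a then Nat.find h else 0

theorem ac_spec (h : TD β A t φ s As A' G) (z : W (alph J)) {v : List ℕ} {n : ℕ}
    (hv : en v ≤ n) : Lt β t φ s z v n (ac β t φ s z v n) ∧
      ∀ m < ac β t φ s z v n, ¬ Lt β t φ s z v n m := by
  classical
  have hex : ∃ a, Lt β t φ s z v n a := bd_spec h.sd (s z) hv
  rw [ac, dif_pos hex]
  exact ⟨Nat.find_spec hex, fun m hm => Nat.find_min hex hm⟩

theorem lc_ac (h : TD β A t φ s As A' G) {v : List ℕ} {n : ℕ} (hv : en v ≤ n) :
    LC fun z => ac β t φ s z v n := fun z =>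
  lc_find (fun z a => Lt β t φ s z v n a) (fun a z => Lt_ev h v n a z) _ z
    (Filter.Eventually.of_forall fun z' => ac_spec h z' hv)

/-- the letter chosen at the node `v` for the letter `b` -/
noncomputable def lett (β : J) (t : W (alph J) → List ℕ → List ℕ)
    (φ : W (alph J) → List ℕ → ℕ → ℕ) (s : W (alph J) → W (alph J)) (G : W (alph J) → Set ℕ)
    (z : W (alph J)) (v : List ℕ) (b : ℕ) : ℕ :=
  ac β t φ s z v (sel β t φ s G z (en v) b)

theorem lc_lett (h : TD β A t φ s As A' G) (v : List ℕ) (b : ℕ) :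
    LC fun z => lett β t φ s G z v b := by
  intro z
  filter_upwards [lc_sel h (en v) b z, lc_ac h (le_sel h z (en v) b) z] with z' h1 h2
  unfold lett
  rw [h1, h2]

theorem lett_injective (h : TD β A t φ s As A' G) (z : W (alph J)) (v : List ℕ) :
    Function.Injective (lett β t φ s G z v) := by
  have key : ∀ b b', b < b' → lett β t φ s G z v b ≠ lett β t φ s G z v b' := by
    intro b b' hb he
    have h1 := (ac_spec h z (le_sel h z (en v) b)).1.2
    have h2 := (ac_spec h z (le_sel h z (en v) b')).1.1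
    have h3 := sel_strictMono h z (en v) hb
    have h4 := (bd_strictMono (β := β) (t := t) (φ := φ) (s z)).monotone (Nat.succ_le_of_lt h3)
    have h5 := en_le (h.sd.step (s z) v (lett β t φ s G z v b'))
    simp only [lett] at he h5
    rw [he] at h1
    simp only [Nat.succ_eq_add_one] at h4
    omega
  intro b b' he
  rcases lt_trichotomy b b' with hlt | heq | hlt
  · exact absurd he (key b b' hlt)
  · exact heq
  · exact absurd he.symm (key b' b hlt)

/-- the words chosen along `y` -/
noncomputable def Wd (β : J) (t : W (alph J) → List ℕ → List ℕ)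
    (φ : W (alph J) → List ℕ → ℕ → ℕ) (s : W (alph J) → W (alph J)) (G : W (alph J) → Set ℕ)
    (z : W (alph J)) (y : ℕ → ℕ) : ℕ → List ℕ
  | 0 => []
  | l + 1 => Wd β t φ s G z y l ++ [lett β t φ s G z (Wd β t φ s G z y l) (y l)]

/-- the thinned sequence -/
noncomputable def thinY (β : J) (t : W (alph J) → List ℕ → List ℕ)
    (φ : W (alph J) → List ℕ → ℕ → ℕ) (s : W (alph J) → W (alph J)) (G : W (alph J) → Set ℕ)
    (z : W (alph J)) (y : ℕ → ℕ) (l : ℕ) : ℕ :=
  lett β t φ s G z (Wd β t φ s G z y l) (y l)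

theorem length_Wd (z : W (alph J)) (y : ℕ → ℕ) (l : ℕ) : (Wd β t φ s G z y l).length = l := by
  induction l with
  | zero => rfl
  | succ l ih => simp [Wd, ih]

theorem ext_Wd (z : W (alph J)) (y : ℕ → ℕ) (l : ℕ) :
    Ext (Wd β t φ s G z y l) (thinY β t φ s G z y) := by
  induction l with
  | zero => exact ext_nil
  | succ l ih =>
    rw [Wd, ext_concat]
    refine ⟨ih, ?_⟩
    rw [length_Wd]
    rfl

theorem Wd_congr {z z' : W (alph J)} {y y' : ℕ → ℕ} {l : ℕ}
    (hl : ∀ v b, lett β t φ s G z v b = lett β t φ s G z' v b) (hy : pre y l = pre y' l) :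
    Wd β t φ s G z y l = Wd β t φ s G z' y' l := by
  induction l with
  | zero => rfl
  | succ l ih =>
    rw [pre_eq_iff] at hy
    have h1 := ih (pre_eq_iff.2 fun k hk => hy k (by omega))
    simp only [Wd, h1, hl, hy l (by omega)]

theorem lett_loc (h : TD β A t φ s As A' G) {z z' : W (alph J)}
    (hz : ∀ i ∈ A ∪ As ∪ A' ∪ {mI β}, i ∈ dep J (mI β) → z i = z' i) (v : List ℕ) (b : ℕ) :
    lett β t φ s G z v b = lett β t φ s G z' v b := by
  have hbelow : ∀ i ∈ below β, i ∈ dep J (mI β) := by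
    intro i hi
    refine ⟨?_, fun h => absurd h (by simp)⟩
    induction i using Lex.rec with
    | h p =>
    obtain ⟨j, c⟩ := p
    exact Prod.Lex.toLex_lt_toLex.2 (Or.inl hi)
  have hs : ∀ i ∈ A, i ∈ dep J (mI β) → s z i = s z' i := by
    intro i hi hd
    by_cases hAs : i ∈ As
    · apply h.mor.tri i hAs
      rintro i' hi' (hd' | rfl)
      · exact hz i' (Or.inl (Or.inl (Or.inr hi'))) (dep_trans _ _ hd _ hd')
      · exact hz _ (Or.inl (Or.inl (Or.inr hi'))) hd
    · rw [h.mor.off _ _ hAs, h.mor.off _ _ hAs]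
      exact hz i (Or.inl (Or.inl (Or.inl hi))) hd
  have ht : ∀ u, t (s z) u = t (s z') u ∧ φ (s z) u = φ (s z') u := fun u =>
    h.sd.loc _ _ u hs
  have hbd : ∀ n, bd β t φ (s z) n = bd β t φ (s z') n := fun n =>
    (bd_loc h.sd (fun i hi hb => hs i hi (hbelow i hb)) n).symm
  have hG : G z = G z' := h.dG z z' fun i hi =>
    hz i (Or.inl (Or.inr hi)) (hbelow i (h.a'b hi))
  have hDn : ∀ n, Dn β t φ s G z n ↔ Dn β t φ s G z' n := by
    intro n
    unfold Dn
    rw [hbd, hbd, hG]
  have hnx : ∀ N, nxt β t φ s G z N = nxt β t φ s G z' N := by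
    intro N
    have h1 := nxt_spec h z N
    have h2 := nxt_spec h z' N
    rcases lt_trichotomy (nxt β t φ s G z N) (nxt β t φ s G z' N) with hlt | heq | hlt
    · exact absurd ⟨h1.1.1, (hDn _).1 h1.1.2⟩ (h2.2 _ hlt)
    · exact heq
    · exact absurd ⟨h2.1.1, (hDn _).2 h2.1.2⟩ (h1.2 _ hlt)
  have hsel : ∀ N b, sel β t φ s G z N b = sel β t φ s G z' N b := by
    intro N b
    induction b with
    | zero => exact hnx N
    | succ b ih => simp only [sel, ih, hnx]
  have hLt : ∀ v n a, Lt β t φ s z v n a ↔ Lt β t φ s z' v n a := by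
    intro v n a
    unfold Lt
    rw [hbd, hbd, (ht v).1, (ht v).2, (ht (v ++ [a])).1]
  unfold lett
  rw [hsel]
  have h1 := ac_spec h z (v := v) (le_sel h z' (en v) b)
  have h2 := ac_spec h z' (v := v) (le_sel h z' (en v) b)
  rcases lt_trichotomy (ac β t φ s z v (sel β t φ s G z' (en v) b))
    (ac β t φ s z' v (sel β t φ s G z' (en v) b)) with hlt | heq | hlt
  · exact absurd ((hLt _ _ _).1 h1.1) (h2.2 _ hlt)
  · exact heq
  · exact absurd ((hLt _ _ _).2 h2.1) (h1.2 _ hlt)

theorem lc_Wd (h : TD β A t φ s As A' G) (l : ℕ) :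
    LC fun z : W (alph J) => Wd β t φ s G z (z (mI β)) l := by
  induction l with
  | zero => exact fun z => Filter.Eventually.of_forall fun _ => rfl
  | succ l ih =>
    intro z
    have hl : ∀ᶠ z' in 𝓝 z, (z' (mI β) : ℕ → ℕ) l = (z (mI β) : ℕ → ℕ) l := by
      have hc : Continuous fun z' : W (alph J) => z' (mI β) l :=
        (continuous_apply l).comp (continuous_apply (mI β))
      have := hc.continuousAt (x := z) |>.eventually
        (IsOpen.mem_nhds (isOpen_discrete {z (mI β) l}) rfl)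
      exact this
    filter_upwards [ih z, hl, lc_lett h (Wd β t φ s G z (z (mI β)) l) (z (mI β) l) z]
      with z' h1 h2 h3
    simp only [Wd, h1]
    rw [h2, h3]

/-- the thinning as a map -/
noncomputable def thinF (β : J) (t : W (alph J) → List ℕ → List ℕ)
    (φ : W (alph J) → List ℕ → ℕ → ℕ) (s : W (alph J) → W (alph J)) (G : W (alph J) → Set ℕ)
    (z : W (alph J)) : W (alph J) :=
  Function.update z (mI β) (thinY β t φ s G z (z (mI β)))

theorem isMor_thinF (h : TD β A t φ s As A' G) :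
    IsMor (dep J) (A ∪ As ∪ A' ∪ {mI β}) (thinF β t φ s G) where
  off z i hi := by
    have : i ≠ mI β := fun he => hi (Or.inr he)
    exact Function.update_of_ne this _ _
  tri i hi z z' hz := by
    by_cases he : i = mI β
    · subst he
      simp only [thinF, Function.update_self]
      funext l
      have h1 : ∀ v b, lett β t φ s G z v b = lett β t φ s G z' v b := fun v b =>
        lett_loc h (fun i hi hd => hz i hi (Or.inl hd)) v b
      have h2 : z (mI β) = z' (mI β) := hz _ (Or.inr rfl) (Or.inr rfl)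
      simp only [thinY]
      rw [h2, Wd_congr h1 rfl, h1]
    · simp only [thinF, Function.update_of_ne he]
      exact hz i hi (Or.inr rfl)
  cont := by
    apply continuous_pi
    intro i
    by_cases he : i = mI β
    · subst he
      simp only [thinF, Function.update_self]
      apply continuous_pi
      intro l
      rw [continuous_iff_continuousAt]
      intro z
      have h1 := lc_Wd h (l + 1) z
      have h2 : ∀ᶠ z' in 𝓝 z, thinY β t φ s G z' (z' (mI β)) l =
          thinY β t φ s G z (z (mI β)) l := by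
        filter_upwards [h1] with z' hz'
        simp only [Wd] at hz'
        exact (List.cons.inj (List.append_inj_right hz'
          (by rw [length_Wd, length_Wd]))).1
      exact (continuousAt_const (y := thinY β t φ s G z (z (mI β)) l)).congr
        (h2.mono fun z' hz' => hz'.symm)
    · simp only [thinF, Function.update_of_ne he]
      exact continuous_apply i
  emb i z u := by
    by_cases he : i = mI β
    · subst he
      refine ⟨Wd β t φ s G z (app (u : List ℕ) (fun _ => 0)) (u : List ℕ).length,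
        lett β t φ s G z (Wd β t φ s G z (app (u : List ℕ) (fun _ => 0)) (u : List ℕ).length),
        lett_injective h z _, fun a z' hz' hext => ?_⟩
      have h1 : ∀ v b, lett β t φ s G z' v b = lett β t φ s G z v b := fun v b =>
        lett_loc h (fun i _ hd => hz' i hd) v b
      have h2 : Wd β t φ s G z' (z' (mI β)) (u : List ℕ).length =
          Wd β t φ s G z (app (u : List ℕ) (fun _ => 0)) (u : List ℕ).length := by
        apply Wd_congr h1
        have e1 : pre (z' (mI β) : ℕ → ℕ) (u : List ℕ).length = (u : List ℕ) :=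
          ((ext_concat.1 hext).1).eq_pre.symm
        have e2 : ∀ u : List ℕ, pre (app u (fun _ => (0 : ℕ))) u.length = u := fun u =>
          (ext_app (s := u) (z := fun _ => 0)).eq_pre.symm
        exact e1.trans (e2 u).symm
      have h3 := ext_Wd (β := β) (t := t) (φ := φ) (s := s) (G := G) z' (z' (mI β))
        ((u : List ℕ).length + 1)
      rw [Wd, h2, h1] at h3
      have h4 : (z' (mI β) : ℕ → ℕ) (u : List ℕ).length = a := (ext_concat.1 hext).2
      rw [h4] at h3
      simp only [thinF, Function.update_self]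
      exact h3
    · refine ⟨u, id, Function.injective_id, fun a z' _ hext => ?_⟩
      simp only [thinF, Function.update_of_ne he]
      exact hext

/-- the properties of the thinning -/
theorem exists_thin (h : TD β A t φ s As A' G) : ∃ T : Mo J, (∀ z i, i ≠ mI β → T.1 z i = z i) ∧
    ∀ z, ∃ U : ℕ → List ℕ, U 0 = [] ∧ (∀ l, Ext (U l) (T.1 z (mI β) : ℕ → ℕ)) ∧
      (∀ l, (U l).length = l) ∧
      ∀ l, ∃ a, U (l + 1) = U l ++ [a] ∧
        ∀ k, en (t (s z) (U l) ++ [φ (s z) (U l) a]) ≤ k → k ≤ en (t (s z) (U (l + 1))) →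
          k ∈ G z := by
  refine ⟨⟨thinF β t φ s G, _, ((h.cA.union h.cAs).union h.cA').union (countable_singleton _),
    isMor_thinF h⟩, fun z i hi => Function.update_of_ne hi _ _, fun z =>
    ⟨Wd β t φ s G z (z (mI β)), rfl, fun l => ?_, length_Wd _ _, fun l => ⟨_, rfl, ?_⟩⟩⟩
  · simp only [thinF, Function.update_self]
    exact ext_Wd _ _ _
  · intro k hk hk'
    have h1 := (ac_spec h z (le_sel h z (en (Wd β t φ s G z (z (mI β)) l)) (z (mI β) l))).1
    have h2 := sel_Dn h z (en (Wd β t φ s G z (z (mI β)) l)) (z (mI β) l)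
    exact h2 k (h1.1.trans hk) (lt_of_le_of_lt hk' h1.2)

end thin

end P3P

end Pool.Agent.H554
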