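import Mathlib
import Pool.Agent.Helper669.Forcing

/-!
# Menger spaces, the semifilter trichotomy, and a combinatorial hypothesis

The hypothesis `Phi R J par B` speaks about ground model objects `R`, `J`, `par`, `B` and about
subsets of countable sets. `ForcedPhi P R J par B` is the same statement in the extension by `P`.
-/

namespace Pool.Agent.H554

open Pool.Agent.Helper669.Forcing

/-! ### The topological side -/

/-- A subset of a topological space is Menger: for every sequence of covers by open sets there are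
finite subfamilies which together cover the set. -/
def Menger {α : Type} [TopologicalSpace α] (X : Set α) : Prop :=
  ∀ U : ℕ → Set (Set α), (∀ n, (∀ u ∈ U n, IsOpen u) ∧ X ⊆ ⋃₀ (U n)) →
    ∃ F : ℕ → Set (Set α), (∀ n, F n ⊆ U n ∧ (F n).Finite) ∧ X ⊆ ⋃ n, ⋃₀ (F n)

/-- Semifilters: nonempty families of infinite sets of natural numbers closed under almost
supersets. -/
def IsSemifilter (S : Set (Set ℕ)) : Prop :=
  S.Nonempty ∧ (∀ A ∈ S, A.Infinite) ∧ ∀ A ∈ S, ∀ B : Set ℕ, B.Infinite → (A \ B).Finite → B ∈ S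

/-- The union of the intervals `[h n, h (n+1))` with `n` in `A`. -/
def blk (h : ℕ → ℕ) (A : Set ℕ) : Set ℕ := {m | ∃ n ∈ A, h n ≤ m ∧ m < h (n + 1)}

/-- The semifilter trichotomy: for every semifilter `S` there is a strictly increasing `h` such
that the quotient `S / h` is the filter of the cofinite sets, an ultrafilter, or the family of all
infinite sets. -/
def SemifilterTrichotomy : Prop :=
  ∀ S : Set (Set ℕ), IsSemifilter S → ∃ h : ℕ → ℕ, StrictMono h ∧
    ({A | blk h A ∈ S} = {A | Aᶜ.Finite} ∨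
      (∃ V : Ultrafilter ℕ, {A | blk h A ∈ S} = {A | A ∈ V}) ∨
      {A | blk h A ∈ S} = {A | A.Infinite})

/-! ### The combinatorial hypothesis -/

/-- Unbounded sets of natural numbers. -/
def Unb (C : Set ℕ) : Prop := ∀ N : ℕ, ∃ n : ℕ, N ≤ n ∧ n ∈ C

/-- Groupwise dense families (of sets of natural numbers). -/
def GwDense (G : Set (Set ℕ)) : Prop :=
  (∀ C C' : Set ℕ, C ∈ G → Unb C' → (∃ N : ℕ, ∀ n : ℕ, N ≤ n → n ∈ C' → n ∈ C) → C' ∈ G) ∧
  (∀ H : Set ℕ, Unb H → ∃ C : Set ℕ, C ∈ G ∧ ∀ N : ℕ, ∃ a a' : ℕ, N ≤ a ∧ a < a' ∧ a ∈ H ∧ a' ∈ H ∧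
    ∀ k : ℕ, a ≤ k → k < a' → k ∈ C)

/-- The string `s` is an initial segment of (the characteristic function of) `x`. -/
def Seg (s : List Bool) (x : Set ℕ) : Prop := ∀ k (h : k < s.length), s[k] = true ↔ k ∈ x

/-- The ground model part of the hypothesis. -/
structure Ground (R J : Type) [LinearOrder J] (par : J → Bool) (B : R → Set ℕ) : Prop where
  cover : ∀ α : J, ∃ s : R → J, ∀ γ < α, ∃ i, s i = γ
  pair : ∃ s : R → R × R, Function.Surjective s
  nat : ∃ s : R → ℕ, Function.Surjective s
  unb : ∀ (α : J) (v : Bool), ∃ β, α < β ∧ par β = v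
  inf : ∀ i, (B i).Infinite

section

variable (R J : Type) [LinearOrder J] (par : J → Bool) (B : R → Set ℕ)

/-- Families of witnesses indexed by `R` are bounded in `J`. -/
def Phi1 : Prop := ∀ T : R → J → Prop, (∀ i, ∃ γ, T i γ) → ∃ α : J, ∀ i, ∃ γ, γ < α ∧ T i γ

/-- Every set of natural numbers is constant on some `B i`. -/
def Phi2 : Prop := ∀ A : Set ℕ, ∃ (i : R) (v : Bool), ∀ n, n ∈ B i → (n ∈ A ↔ v = true)

/-- `R` many groupwise dense families have a common element. -/
def Phi3 : Prop := ∀ G : R → Set (Set ℕ), (∀ i, GwDense (G i)) → ∃ C : Set ℕ, Unb C ∧ ∀ i, C ∈ G i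

/-- For every unbounded `H`, all sets `A β` with large `β` avoid many intervals between elements of
`H`. -/
def Phi4Gap (A : J → Set ℕ) : Prop :=
  ∀ H : Set ℕ, Unb H → ∃ α : J, ∀ β, α ≤ β → ∀ N : ℕ, ∃ a a' : ℕ, N ≤ a ∧ a < a' ∧ a ∈ H ∧ a' ∈ H ∧
    ∀ k : ℕ, a ≤ k → k < a' → k ∉ A β

/-- For a sequence of sets `a n` of strings (coding open sets), either in both classes of `J` there
is some `x γ` outside of one of the open sets, or from some point on all `x β` lie in one of `R`
many closed sets (coded by the sets `b l` of strings) which are contained in all the open sets. -/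
def Phi4Cov (x : J → Set ℕ) : Prop :=
  ∀ a : ℕ → Set (List Bool),
    (∀ v : Bool, ∃ γ, par γ = v ∧ ∃ n, ∀ s, s ∈ a n → ¬ Seg s (x γ)) ∨
    (∃ (α : J) (b : R → Set (List Bool)), ∀ β, α ≤ β → ∃ l : R, (∀ s, s ∈ b l → ¬ Seg s (x β)) ∧
      ∀ n, ∃ N : ℕ, ∀ t : List Bool, t.length = N → ∃ s, s <+: t ∧ (s ∈ a n ∨ s ∈ b l))

/-- The requirements on the sets `x γ` and `A γ`. -/
def Phi4 (x A : J → Set ℕ) : Prop :=
  (∀ β, Unb (A β)) ∧
  (∀ γ β, γ ≠ β → ∀ N : ℕ, ∃ n, N ≤ n ∧ ¬ (n ∈ x γ ↔ n ∈ x β)) ∧
  (∀ γ β, ∀ N : ℕ, ∃ n, N ≤ n ∧ ¬ ((n ∈ x γ ↔ n ∈ x β) ↔ n ∉ A β)) ∧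
  Phi4Gap J A ∧ Phi4Cov R J par x

/-- The combinatorial hypothesis. -/
def Phi : Prop :=
  Ground R J par B ∧ Phi1 R J ∧ Phi2 R B ∧ Phi3 R ∧ ∃ x A : J → Set ℕ, Phi4 R J par x A

end

/-! ### The hypothesis in the extension by a set `P` of conditions

A name for a subset of `X` is a map `C : X → Set P`; `meets (C n)` says that `n` belongs to the
named set. A name for a family of subsets of `ℕ` is a map `G : (ℕ → Set P) → Set P`. -/

section

variable {P : Type} [Preorder P]

/-- `φ or ψ` -/
def forr (φ ψ : Set P) : Set P := fnot (fand (fnot φ) (fnot ψ))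

/-- `φ iff ψ` -/
def fiff (φ ψ : Set P) : Set P := fand (fimp φ ψ) (fimp ψ φ)

/-- The named set is unbounded. -/
def FUnb (C : ℕ → Set P) : Set P :=
  fall fun N : ℕ => fex fun n : ℕ => fand (fground (N ≤ n)) (meets (C n))

/-- The named sets are equal. -/
def FSame (C C' : ℕ → Set P) : Set P := fall fun n => fiff (meets (C n)) (meets (C' n))

/-- The named set `C` belongs to the named family `G`. -/
def FMem (C : ℕ → Set P) (G : (ℕ → Set P) → Set P) : Set P :=
  fex fun C' : ℕ → Set P => fand (meets (G C')) (FSame C' C)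

/-- The named family is groupwise dense. -/
def FGwDense (G : (ℕ → Set P) → Set P) : Set P :=
  fand
    (fall fun C : ℕ → Set P => fall fun C' : ℕ → Set P =>
      fimp (fand (FMem C G) (fand (FUnb C')
        (fex fun N : ℕ => fall fun n : ℕ => fimp (fand (fground (N ≤ n)) (meets (C' n)))
          (meets (C n))))) (FMem C' G))
    (fall fun H : ℕ → Set P => fimp (FUnb H)
      (fex fun C : ℕ → Set P => fand (FMem C G) (fall fun N : ℕ => fex fun a : ℕ => fex fun a' : ℕ =>
        fand (fground (N ≤ a ∧ a < a')) (fand (meets (H a)) (fand (meets (H a'))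
          (fall fun k : ℕ => fimp (fground (a ≤ k ∧ k < a')) (meets (C k))))))))

/-- The string `s` is an initial segment of the named set `x`. -/
def FSeg (s : List Bool) (x : ℕ → Set P) : Set P :=
  fall fun k : ℕ => fall fun h : k < s.length => fiff (fground (s[k] = true)) (meets (x k))

variable (P) (R J : Type) [LinearOrder J] (par : J → Bool) (B : R → Set ℕ)

/-- `Phi1` in the extension. -/
def FPhi1 : Set P := fall fun T : R → J → Set P =>
  fimp (fall fun i => fex fun γ => meets (T i γ))
    (fex fun α : J => fall fun i => fex fun γ => fand (fground (γ < α)) (meets (T i γ)))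

/-- `Phi2` in the extension. -/
def FPhi2 : Set P := fall fun A : ℕ → Set P => fex fun i : R => fex fun v : Bool => fall fun n : ℕ =>
  fimp (fground (n ∈ B i)) (fiff (meets (A n)) (fground (v = true)))

/-- `Phi3` in the extension. -/
def FPhi3 : Set P := fall fun G : R → (ℕ → Set P) → Set P =>
  fimp (fall fun i => FGwDense (G i))
    (fex fun C : ℕ → Set P => fand (FUnb C) (fall fun i => FMem C (G i)))

/-- All named sets `A β` are unbounded. -/
def FPhi4Unb (A : J → ℕ → Set P) : Set P := fall fun β => FUnb (A β)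

/-- The named sets `x γ` differ infinitely often. -/
def FPhi4Diff (x : J → ℕ → Set P) : Set P :=
  fall fun γ => fall fun β => fimp (fground (γ ≠ β)) (fall fun N : ℕ => fex fun n : ℕ =>
      fand (fground (N ≤ n)) (fnot (fiff (meets (x γ n)) (meets (x β n)))))

/-- The symmetric differences of `x γ`, `x β` and `A β` are unbounded. -/
def FPhi4Diff3 (x A : J → ℕ → Set P) : Set P :=
  fall fun γ => fall fun β => fall fun N : ℕ => fex fun n : ℕ =>
      fand (fground (N ≤ n)) (fnot (fiff (fiff (meets (x γ n)) (meets (x β n)))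
        (fnot (meets (A β n)))))

/-- `Phi4Gap` in the extension. -/
def FPhi4Gap (A : J → ℕ → Set P) : Set P :=
  fall fun H : ℕ → Set P => fimp (FUnb H) (fex fun α : J => fall fun β : J =>
      fimp (fground (α ≤ β)) (fall fun N : ℕ => fex fun a : ℕ => fex fun a' : ℕ =>
        fand (fground (N ≤ a ∧ a < a')) (fand (meets (H a)) (fand (meets (H a'))
          (fall fun k : ℕ => fimp (fground (a ≤ k ∧ k < a')) (fnot (meets (A β k))))))))

/-- `Phi4Cov` in the extension. -/
def FPhi4Cov (x : J → ℕ → Set P) : Set P :=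
  fall fun a : ℕ → List Bool → Set P => forr
    (fall fun v : Bool => fex fun γ : J => fand (fground (par γ = v)) (fex fun n : ℕ =>
      fall fun s : List Bool => fimp (meets (a n s)) (fnot (FSeg s (x γ)))))
    (fex fun α : J => fex fun b : R → List Bool → Set P => fall fun β : J =>
      fimp (fground (α ≤ β)) (fex fun l : R => fand
        (fall fun s : List Bool => fimp (meets (b l s)) (fnot (FSeg s (x β))))
        (fall fun n : ℕ => fex fun N : ℕ => fall fun t : List Bool => fimp (fground (t.length = N))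
          (fex fun s : List Bool => fand (fground (s <+: t))
            (forr (meets (a n s)) (meets (b l s)))))))

/-- `Phi4` in the extension. -/
def FPhi4 (x A : J → ℕ → Set P) : Set P :=
  fand (FPhi4Unb P J A) (fand (FPhi4Diff P J x) (fand (FPhi4Diff3 P J x A)
    (fand (FPhi4Gap P J A) (FPhi4Cov P R J par x))))

/-- The hypothesis in the extension. -/
def ForcedPhi : Set P :=
  fand (fground (Ground R J par B)) (fand (FPhi1 P R J) (fand (FPhi2 P R B) (fand (FPhi3 P R)
    (fex fun x : J → ℕ → Set P => fex fun A : J → ℕ → Set P => FPhi4 P R J par x A))))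

end

/-! ### The two halves of the main theorem -/

/-- The hypothesis implies the semifilter trichotomy and the failure of productivity. -/
def MainZfc : Prop :=
  ∀ (R J : Type) (_ : LinearOrder J) (par : J → Bool) (B : R → Set ℕ), Phi R J par B →
    SemifilterTrichotomy ∧ ∃ X Y : Set (ℕ → Bool), Menger X ∧ Menger Y ∧ ¬ Menger (X ×ˢ Y)

/-- Some forcing notion forces the hypothesis. -/
def MainForced : Prop :=
  ∃ (R J : Type) (_ : LinearOrder J) (par : J → Bool) (B : R → Set ℕ) (P : Type) (_ : Preorder P),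
    Nonempty P ∧ ∀ p : P, p ∈ ForcedPhi P R J par B

end Pool.Agent.H554
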