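import Pool.Agent.H554.Stmts

/-!
# The x-part (section 6)
-/

namespace Pool.Agent.H554

namespace XP

open Set Filter

section strings

variable {β : Type} {s t : List β} {z y : ℕ → β}

theorem len_pre (z : ℕ → β) (l : ℕ) : (pre z l).length = l := by simp [pre]

theorem pre_eq {l : ℕ} : pre z l = pre y l ↔ ∀ k < l, z k = y k := by
  simp [pre, List.map_inj_left]

theorem ext_pre' (l : ℕ) : Ext (pre z l) z := fun k h => by simp [pre]

theorem ext_eq_pre (h : Ext s z) : s = pre z s.length := by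
  apply List.ext_getElem
  · simp [pre]
  · intro n h1 h2
    simp [pre, h n h1]

theorem pre_le {l m : ℕ} (h : l ≤ m) : pre z l <+: pre z m := by
  obtain ⟨k, rfl⟩ := Nat.exists_eq_add_of_le h
  refine ⟨(List.range k).map (fun i => z (l + i)), ?_⟩
  simp [pre, List.range_add]

theorem ext_le_pre (h : Ext s z) {l : ℕ} (hl : s.length ≤ l) : s <+: pre z l := by
  rw [ext_eq_pre h]
  exact pre_le hl

theorem pre_mono_eq {l m : ℕ} (h : l ≤ m) (he : pre z m = pre y m) : pre z l = pre y l := by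
  rw [pre_eq] at he ⊢
  exact fun k hk => he k (hk.trans_le h)

end strings

section colour

variable {A : Type} [LinearOrder A]

theorem colour_rel {C : Type} (T : Set C) (hT : T.Countable) (R : (KW A → KW A) → C → Prop)
    (h : ∀ φ, IsStrat φ → ∃ F, ∃ t ∈ T, R F t ∧ ∀ x (β : A), F x β ∉ φ β (F x)) :
    ∃ t ∈ T, ∀ φ, IsStrat φ → ∃ F, R F t ∧ ∀ x (β : A), F x β ∉ φ β (F x) := by
  by_contra hne
  push Not at hne
  choose ψ hψ hψ' using hne
  obtain ⟨F, t, ht, hR, hav⟩ := h (fun β x => ⋃ t, ⋃ (ht : t ∈ T), ψ t ht β x) ⟨fun β x =>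
    hT.biUnion fun t ht => (hψ t ht).1 β x, fun β x x' hx => by
      apply iUnion_congr
      intro t
      apply iUnion_congr
      intro ht
      exact (hψ t ht).2 β x x' hx⟩
  obtain ⟨x, β, hx⟩ := hψ' t ht F hR
  apply hav x β
  simp only [mem_iUnion]
  exact ⟨t, ht, hx⟩

theorem isStrat_empty : IsStrat (A := A) (fun _ _ => ∅) :=
  ⟨fun _ _ => countable_empty, fun _ _ _ _ => rfl⟩

/-- cut off at `d` -/
def cut (d : A → ℕ) (x : KW A) : KW A := fun γ n => if n < d γ then x γ n else false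

omit [LinearOrder A] in
theorem pre_cut (d : A → ℕ) (x : KW A) (γ : A) : pre (x γ) (d γ) = pre (cut d x γ) (d γ) := by
  rw [pre_eq]
  intro k hk
  simp [cut, hk]

omit [LinearOrder A] in
theorem finite_cut {d : A → ℕ} (hd : {a | d a ≠ 0}.Finite) : (range (cut d)).Finite := by
  classical
  have hT : {p : A × ℕ | p.2 < d p.1}.Finite := by
    have : {p : A × ℕ | p.2 < d p.1} ⊆ ⋃ a ∈ {a | d a ≠ 0}, (fun n => (a, n)) '' Iio (d a) := by
      rintro ⟨a, n⟩ h
      simp only [mem_ofPred_eq] at h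
      simp only [mem_iUnion, mem_image, mem_Iio]
      exact ⟨a, by simp only [mem_ofPred_eq]; omega, n, h, rfl⟩
    exact (hd.biUnion fun a _ => (finite_Iio _).image _).subset this
  have := hT.to_subtype
  apply (finite_range (fun (f : {p : A × ℕ | p.2 < d p.1} → Bool) (a : A) (n : ℕ) =>
    if h : (a, n) ∈ {p : A × ℕ | p.2 < d p.1} then f ⟨(a, n), h⟩ else false)).subset
  rintro _ ⟨x, rfl⟩
  refine ⟨fun p => x p.1.1 p.1.2, ?_⟩
  funext a n
  simp [cut]

theorem OfShape.cut_eq {C : A → Type} {d : A → ℕ} {F : KW A → ∀ a, C a} (hF : OfShape d F)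
    (x : KW A) : F (cut d x) = F x := by
  funext β
  exact (hF β x (cut d x) fun γ _ => pre_cut d x γ).symm

theorem OfShape.stem_eq {d : A → ℕ} {s : Stem A} (hs : OfShape d (fun x => (s x).val))
    (x : KW A) : s (cut d x) = s x := by
  apply Cell.ext
  exact OfShape.cut_eq hs x

theorem OfShape.finite {d : A → ℕ} (hd : {a | d a ≠ 0}.Finite) {C : A → Type}
    {F : KW A → ∀ a, C a} (hF : OfShape d F) : (range F).Finite := by
  have : range F = F '' range (cut d) := by
    ext y
    constructor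
    · rintro ⟨x, rfl⟩
      exact ⟨_, ⟨x, rfl⟩, OfShape.cut_eq hF x⟩
    · rintro ⟨_, _, rfl⟩
      exact ⟨_, rfl⟩
  rw [this]
  exact (finite_cut hd).image F

theorem OfShape.mono {C : A → Type} {d d' : A → ℕ} (h : ∀ a, d a ≤ d' a) {F : KW A → ∀ a, C a}
    (hF : OfShape d F) : OfShape d' F :=
  fun β x x' hx => hF β x x' fun γ hγ => pre_mono_eq (h γ) (hx γ hγ)

omit [LinearOrder A] in
theorem countable_cell [Countable A] : Countable (Cell (fun _ : A => Bool)) := by
  classical
  have hinj : Function.Injective (fun c : Cell (fun _ : A => Bool) =>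
      (c.fin.toFinset.image fun a => (a, c.val a) : Finset (A × List Bool))) := by
    have key : ∀ c : Cell (fun _ : A => Bool), ∀ a l, l ≠ [] →
        ((a, l) ∈ (c.fin.toFinset.image fun a => (a, c.val a) : Finset (A × List Bool)) ↔
          c.val a = l) := by
      intro c a l hl
      simp only [Finset.mem_image, Set.Finite.mem_toFinset, mem_ofPred_eq, Prod.mk.injEq]
      constructor
      · rintro ⟨b, _, rfl, h⟩
        exact h
      · intro h
        exact ⟨a, by rw [h]; exact hl, rfl, h⟩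
    intro c c' h
    simp only at h
    apply Cell.ext
    funext a
    by_cases h1 : c.val a = []
    · by_cases h2 : c'.val a = []
      · rw [h1, h2]
      · have := (key c' a _ h2).2 rfl
        rw [← h, key c a _ h2] at this
        exact this
    · have := (key c a _ h1).2 rfl
      rw [h, key c' a _ h1] at this
      exact this.symm
  exact hinj.countable

theorem countable_stems [Countable A] {d : A → ℕ} (hd : {a | d a ≠ 0}.Finite) :
    {t : Stem A | OfShape d (fun x => (t x).val)}.Countable := by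
  have := countable_cell (A := A)
  have := (finite_cut hd).to_subtype
  have : Function.Injective (fun (t : {t : Stem A | OfShape d (fun x => (t x).val)})
      (x : range (cut d)) => t.1 x.1) := by
    rintro ⟨t, ht⟩ ⟨t', ht'⟩ h
    apply Subtype.ext
    funext x
    have := congrFun h ⟨cut d x, x, rfl⟩
    simp only at this
    rwa [OfShape.stem_eq ht, OfShape.stem_eq ht'] at this
  exact Set.countable_coe_iff.1 this.countable

end colour

section mk

variable {A : Type} [LinearOrder A]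

open Classical in
/-- the cell of the first `l` bits on the coordinates in `B` -/
noncomputable def mk (p : Finset A × ℕ) (y : KW A) : Cell (fun _ : A => Bool) :=
  ⟨fun a => if a ∈ p.1 then pre (y a) p.2 else [], p.1.finite_toSet.subset fun a ha => by
    simp only [mem_ofPred_eq] at ha
    by_contra h
    exact ha (if_neg h)⟩

theorem mk_mem (p : Finset A × ℕ) (y : KW A) : (mk p y).Mem y := by
  intro a
  unfold mk
  simp only
  split_ifs
  · exact ext_pre' _
  · intro k h
    simp at h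

theorem mk_shape {d : A → ℕ} {F : KW A → KW A} (hF : OfShape d F) (p : Finset A × ℕ) :
    OfShape d (fun x => (mk p (F x)).val) := by
  intro β x x' h
  simp only [mk, hF β x x' h]

theorem mk_ge (c : Cell (fun _ : A => Bool)) (y : KW A) (h : c.Mem y) :
    ∀ᶠ p in (atTop : Filter (Finset A × ℕ)), ∀ a, c.val a <+: (mk p y).val a := by
  filter_upwards [eventually_ge_atTop (c.fin.toFinset,
    c.fin.toFinset.sup fun a => (c.val a).length)] with p hp a
  by_cases ha : c.val a = []
  · rw [ha]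
    exact ⟨_, rfl⟩
  · have ha' : a ∈ c.fin.toFinset := by
      rw [Set.Finite.mem_toFinset]
      exact ha
    have h1 : a ∈ p.1 := hp.1 ha'
    have h2 : (c.val a).length ≤ p.2 :=
      (Finset.le_sup (f := fun a => (c.val a).length) ha').trans hp.2
    simp only [mk, if_pos h1]
    exact ext_le_pre (h a) h2

theorem mk_sep (y y' : KW A) (β : A) (h : y β ≠ y' β) :
    ∀ᶠ p in (atTop : Filter (Finset A × ℕ)), ¬ Compat ((mk p y).val β) ((mk p y').val β) := by
  obtain ⟨n, hn⟩ := Function.ne_iff.1 h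
  filter_upwards [eventually_ge_atTop ({β}, n + 1)] with p hp hc
  have h1 : β ∈ p.1 := hp.1 (Finset.mem_singleton_self β)
  have h2 : n < p.2 := hp.2
  simp only [mk, if_pos h1] at hc
  have : pre (y β) p.2 = pre (y' β) p.2 := by
    rcases hc with hc | hc
    · exact hc.eq_of_length (by rw [len_pre, len_pre])
    · exact (hc.eq_of_length (by rw [len_pre, len_pre])).symm
  exact hn (pre_eq.1 this n h2)

end mk

section doubling

variable {A : Type} [LinearOrder A]

/-- agreement below `β` up to `d` -/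
def eqlt (d : A → ℕ) (β : A) (x x' : KW A) : Prop := ∀ γ, γ < β → pre (x γ) (d γ) = pre (x' γ) (d γ)

/-- good families for `(x, y)` -/
structure Good (φ : A → KW A → Set (ℕ → Bool)) (d : A → ℕ) (s : Stem A) (Y : Set (KW A)) (β : A)
    (x y : KW A) (g : KW A → KW A) : Prop where
  bel : ∀ x', eqlt d β x x' → ∀ γ, γ < β → g x' γ = y γ
  memY : ∀ x', eqlt d β x x' → g x' ∈ Y
  memS : ∀ x', eqlt d β x x' → (s x').Mem (g x')
  av : ∀ x', eqlt d β x x' → ∀ γ, g x' γ ∉ φ γ (g x')
  shape : ∀ x' x'' γ, eqlt d β x x' → eqlt d β x x'' →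
    (∀ δ, δ ≤ γ → pre (x' δ) (d δ) = pre (x'' δ) (d δ)) → g x' γ = g x'' γ

variable {φ : A → KW A → Set (ℕ → Bool)} {d : A → ℕ} {s : Stem A} {Y : Set (KW A)} {β : A}

theorem Good.congr {x x1 y y1 : KW A} (hx : eqlt d β x x1) (hy : ∀ γ, γ < β → y γ = y1 γ)
    {g : KW A → KW A} (hg : Good φ d s Y β x y g) : Good φ d s Y β x1 y1 g := by
  have key : ∀ x', eqlt d β x1 x' → eqlt d β x x' := fun x' h γ hγ => (hx γ hγ).trans (h γ hγ)
  exact ⟨fun x' h γ hγ => (hg.bel x' (key x' h) γ hγ).trans (hy γ hγ),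
    fun x' h => hg.memY x' (key x' h), fun x' h => hg.memS x' (key x' h),
    fun x' h => hg.av x' (key x' h), fun x' x'' γ h h' => hg.shape x' x'' γ (key x' h) (key x'' h')⟩

theorem good_eq {x x1 y y1 : KW A} (hx : eqlt d β x x1) (hy : ∀ γ, γ < β → y γ = y1 γ) :
    Good φ d s Y β x y = Good φ d s Y β x1 y1 := by
  funext g
  exact propext ⟨Good.congr hx hy, Good.congr (fun γ hγ => (hx γ hγ).symm)
    (fun γ hγ => (hy γ hγ).symm)⟩

theorem doubling (hd : {a | d a ≠ 0}.Finite) (hP : Pos d s Y) (β : A)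
    (φ : A → KW A → Set (ℕ → Bool)) (hφ : IsStrat φ) :
    ∃ F : KW A → KW A, (∀ x x' γ, γ < β → (∀ δ, δ ≤ γ → pre (x δ) (d δ) = pre (x' δ) (d δ)) →
        F x γ = F x' γ) ∧
      (∀ x x' γ, β ≤ γ → (∀ δ, δ ≤ γ → pre (x δ) (d δ) = pre (x' δ) (d δ)) →
        x β (d β) = x' β (d β) → F x γ = F x' γ) ∧
      (∀ x, F x ∈ Y ∧ (s x).Mem (F x) ∧ ∀ γ, F x γ ∉ φ γ (F x)) ∧
      ∀ x x', eqlt d β x x' → x β (d β) ≠ x' β (d β) → F x β ≠ F x' β := by
  classical
  set gg : KW A → KW A → KW A → KW A := fun x y => Classical.epsilon (Good φ d s Y β x y) with hgg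
  have gg_eq : ∀ x x1 y y1, eqlt d β x x1 → (∀ γ, γ < β → y γ = y1 γ) → gg x y = gg x1 y1 := by
    intro x x1 y y1 hx hy
    simp only [hgg]
    rw [good_eq hx hy]
  set ex : KW A → Set (ℕ → Bool) := fun y => {v | ∃ x x', Good φ d s Y β x y (gg x y) ∧
    eqlt d β x x' ∧ v = gg x y x' β} with hex
  have ex_countable : ∀ y, (ex y).Countable := by
    intro y
    have hfin := finite_cut hd
    have hsub : ex y ⊆ (fun p : KW A × KW A => gg p.1 y p.2 β) ''
        (range (cut d) ×ˢ range (cut d)) := by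
      rintro v ⟨x, x', hg, hxx', rfl⟩
      refine ⟨(cut d x, cut d x'), ⟨⟨x, rfl⟩, ⟨x', rfl⟩⟩, ?_⟩
      have h1 : eqlt d β x (cut d x) := fun γ _ => pre_cut d x γ
      have h2 : gg x y = gg (cut d x) y := gg_eq _ _ _ _ h1 fun _ _ => rfl
      simp only
      rw [← h2]
      apply hg.shape
      · intro γ hγ
        exact (hxx' γ hγ).trans (pre_cut d x' γ)
      · exact hxx'
      · intro δ _
        exact (pre_cut d x' δ).symm
    exact ((hfin.prod hfin).image _).countable.mono hsub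
  have ex_eq : ∀ y y1 : KW A, (∀ γ, γ < β → y γ = y1 γ) → ex y = ex y1 := by
    have key : ∀ y y1 : KW A, (∀ γ, γ < β → y γ = y1 γ) → ex y ⊆ ex y1 := by
      rintro y y1 hy v ⟨x, x', hg, hxx', rfl⟩
      have h : gg x y = gg x y1 := gg_eq _ _ _ _ (fun _ _ => rfl) hy
      rw [h] at hg ⊢
      exact ⟨x, x', hg.congr (fun _ _ => rfl) hy, hxx', rfl⟩
    intro y y1 hy
    exact Subset.antisymm (key y y1 hy) (key y1 y fun γ hγ => (hy γ hγ).symm)
  obtain ⟨F, hF, hFx⟩ := hP (fun γ y => φ γ y ∪ if γ = β then ex y else ∅) ⟨fun γ y => by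
    refine (hφ.1 γ y).union ?_
    split_ifs
    · exact ex_countable y
    · exact countable_empty, fun γ y y' hy => by
    simp only
    rw [hφ.2 γ y y' hy]
    split_ifs with h
    · rw [ex_eq y y' (by rw [← h]; exact hy)]
    · rfl⟩
  have hFg : ∀ x, Good φ d s Y β x (F x) F := by
    intro x
    refine ⟨fun x' h γ hγ => ?_, fun x' _ => (hFx x').1, fun x' _ => (hFx x').2.1,
      fun x' _ γ h => (hFx x').2.2 γ (Or.inl h), fun x' x'' γ _ _ h => hF γ x' x'' h⟩
    exact (hF γ x x' fun δ hδ => h δ (hδ.trans_lt hγ)).symm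
  have hgood : ∀ x, Good φ d s Y β x (F x) (gg x (F x)) := fun x =>
    Classical.epsilon_spec (p := Good φ d s Y β x (F x)) ⟨F, hFg x⟩
  have hrefl : ∀ x, eqlt d β x x := fun x γ _ => rfl
  refine ⟨fun x => if x β (d β) = false then F x else gg x (F x) x, ?_, ?_, ?_, ?_⟩
  · intro x x' γ hγ h
    have key : ∀ x, (if x β (d β) = false then F x else gg x (F x) x) γ = F x γ := by
      intro x
      split_ifs
      · rfl
      · exact (hgood x).bel x (hrefl x) γ hγ
    simp only
    rw [key, key]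
    exact hF γ x x' h
  · intro x x' γ hγ h hb
    simp only
    rw [← hb]
    split_ifs
    · exact hF γ x x' h
    · have h1 : eqlt d β x x' := fun δ hδ => h δ (hδ.le.trans hγ)
      have h2 : gg x (F x) = gg x' (F x') := gg_eq _ _ _ _ h1 fun δ hδ =>
        hF δ x x' fun δ' hδ' => h δ' ((hδ'.trans hδ.le).trans hγ)
      rw [← h2]
      exact (hgood x).shape x x' γ (hrefl x) h1 h
  · intro x
    simp only
    split_ifs
    · exact ⟨(hFx x).1, (hFx x).2.1, fun γ h => (hFx x).2.2 γ (Or.inl h)⟩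
    · exact ⟨(hgood x).memY x (hrefl x), (hgood x).memS x (hrefl x), (hgood x).av x (hrefl x)⟩
  · have key : ∀ x x', eqlt d β x x' → x β (d β) = false → x' β (d β) = true →
        F x β ≠ gg x' (F x') x' β := by
      intro x x' hx _ _ he
      apply (hFx x).2.2 β
      refine Or.inr ?_
      rw [if_pos rfl]
      have h2 : gg x (F x) = gg x' (F x') := gg_eq _ _ _ _ hx fun δ hδ =>
        hF δ x x' fun δ' hδ' => hx δ' (hδ'.trans_lt hδ)
      exact ⟨x, x', hgood x, hx, by rw [h2]; exact he⟩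
    intro x x' hx hb
    simp only
    cases h1 : x β (d β) <;> cases h2 : x' β (d β)
    · exact absurd (h1.trans h2.symm) hb
    · simp only [if_true, Bool.true_eq_false, if_false]
      exact key x x' hx h1 h2
    · simp only [if_true, Bool.true_eq_false, if_false]
      exact (key x' x (fun γ hγ => (hx γ hγ).symm) h2 h1).symm
    · exact absurd (h1.trans h2.symm) hb

end doubling

end XP

open XP Set Filter

theorem posInit : SPosInit := by
  intro A _ _ φ hφ
  classical
  have hex : ∀ (β : A) (y : KW A), ∃ z : ℕ → Bool, z ∉ φ β y := by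
    intro β y
    by_contra h
    push Not at h
    have h1 : (univ : Set (ℕ → Bool)).Countable :=
      (hφ.1 β y).mono fun z _ => h z
    have h2 : Countable (ℕ → Bool) := Set.countable_univ_iff.1 h1
    obtain ⟨f, hf⟩ := exists_surjective_nat (ℕ → Bool)
    obtain ⟨m, hm⟩ := hf fun n => !(f n n)
    have h3 := congrFun hm m
    simp at h3
  choose w hw using hex
  obtain ⟨p, hp⟩ : ∃ p : A → ℕ → Bool, ∀ β, p β = w β fun γ => if γ < β then p γ else
      fun _ => false := by
    refine ⟨WellFoundedLT.fix (motive := fun _ : A => ℕ → Bool) (fun β ih =>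
      w β fun γ => if h : γ < β then ih γ h else fun _ => false), fun β => ?_⟩
    rw [WellFoundedLT.fix_eq]
    rfl
  refine ⟨fun _ => p, fun _ _ _ _ => rfl, fun x => ⟨mem_univ _, ?_, fun β => ?_⟩⟩
  · intro a k hk
    simp [Cell.one_val] at hk
  · have h1 : φ β p = φ β (fun γ => if γ < β then p γ else fun _ => false) := by
      apply hφ.2
      intro γ hγ
      rw [if_pos hγ]
    simp only
    rw [h1]
    have h2 := hw β (fun γ => if γ < β then p γ else fun _ => false)
    rwa [← hp β] at h2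

theorem posCol : SPosCol := by
  intro A _ d s Y C col hc hP
  obtain ⟨t, _, h⟩ := colour_rel (col '' {F | OfShape d F}) hc
    (fun F t => OfShape d F ∧ (∀ x, F x ∈ Y ∧ (s x).Mem (F x)) ∧ col F = t) (by
      intro φ hφ
      obtain ⟨F, hF, hFx⟩ := hP φ hφ
      exact ⟨F, col F, ⟨F, hF, rfl⟩, ⟨hF, fun x => ⟨(hFx x).1, (hFx x).2.1⟩, rfl⟩,
        fun x => (hFx x).2.2⟩)
  refine ⟨t, fun φ hφ => ?_⟩
  obtain ⟨F, ⟨hF, hFx, ht⟩, hav⟩ := h φ hφ
  exact ⟨F, hF, fun x => ⟨(hFx x).1, (hFx x).2, hav x⟩, ht⟩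

theorem posUf : SPosUf := by
  intro A _ d s Y S _ U G hd hP hG E hE
  obtain ⟨κ, hκ, h⟩ := colour_rel E (to_countable E)
    (fun F κ => OfShape d F ∧ (∀ x, F x ∈ Y ∧ κ ∈ G (F x)) ∧ ∀ x, (s x).Mem (F x)) (by
      intro φ hφ
      obtain ⟨F, hF, hFx⟩ := hP φ hφ
      have h1 : (⋂ y ∈ range F, G y) ∈ U := by
        rw [← Ultrafilter.mem_coe, Filter.biInter_mem (OfShape.finite hd hF)]
        rintro _ ⟨x, rfl⟩
        exact hG _ (hFx x).1
      obtain ⟨κ, hκ1, hκ2⟩ := U.nonempty_of_mem (Filter.inter_mem h1 hE)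
      refine ⟨F, κ, hκ2, ⟨hF, fun x => ⟨(hFx x).1, ?_⟩, fun x => (hFx x).2.1⟩,
        fun x => (hFx x).2.2⟩
      exact mem_iInter₂.1 hκ1 _ ⟨x, rfl⟩)
  refine ⟨κ, hκ, fun φ hφ => ?_⟩
  obtain ⟨F, ⟨hF, hFx, hs⟩, hav⟩ := h φ hφ
  exact ⟨F, hF, fun x => ⟨hFx x, hs x, hav x⟩⟩

theorem posStem : SPosStem := by
  intro A _ _ d s Y Pr hd hs hmono hPr hP
  obtain ⟨t, ⟨ht1, ht2, ht3⟩, h⟩ := colour_rel
    {t : Stem A | OfShape d (fun x => (t x).val) ∧ StemLe s t ∧ ∀ x, Pr (t x)}
    ((countable_stems hd).mono fun t ht => ht.1)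
    (fun F t => OfShape d F ∧ ∀ x, F x ∈ Y ∧ (t x).Mem (F x)) (by
      intro φ hφ
      obtain ⟨F, hF, hFx⟩ := hP φ hφ
      have h1 : ∀ᶠ p in (atTop : Filter (Finset A × ℕ)), ∀ x ∈ range (cut d),
          (∀ a, (s x).val a <+: (mk p (F x)).val a) ∧ Pr (mk p (F x)) := by
        rw [Filter.eventually_all_finite (finite_cut hd)]
        intro x _
        obtain ⟨c, hc1, hc2⟩ := hPr (F x) (hFx x).1
        filter_upwards [mk_ge (s x) (F x) (hFx x).2.1, mk_ge c (F x) hc1] with p hp1 hp2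
        exact ⟨hp1, hmono c _ hp2 hc2⟩
      obtain ⟨p, hp⟩ := h1.exists
      have h2 : ∀ x, (∀ a, (s x).val a <+: (mk p (F x)).val a) ∧ Pr (mk p (F x)) := by
        intro x
        have := hp (cut d x) ⟨x, rfl⟩
        rwa [OfShape.cut_eq hF, OfShape.stem_eq hs] at this
      exact ⟨F, fun x => mk p (F x), ⟨mk_shape hF p, fun x a => (h2 x).1 a, fun x => (h2 x).2⟩,
        ⟨hF, fun x => ⟨(hFx x).1, mk_mem p _⟩⟩, fun x => (hFx x).2.2⟩)
  refine ⟨t, ht1, ht2, ht3, fun φ hφ => ?_⟩
  obtain ⟨F, ⟨hF, hFx⟩, hav⟩ := h φ hφ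
  exact ⟨F, hF, fun x => ⟨(hFx x).1, (hFx x).2, hav x⟩⟩

theorem posDouble : SPosDouble := by
  intro A _ _ d s Y β hd hs hP
  classical
  set d' : A → ℕ := Function.update d β (d β + 1) with hd'
  have hdd' : ∀ a, d a ≤ d' a := by
    intro a
    by_cases h : a = β
    · subst h
      simp [hd']
    · simp [hd', h]
  have hd'fin : {a | d' a ≠ 0}.Finite := by
    apply (hd.union (finite_singleton β)).subset
    intro a ha
    by_cases h : a = β
    · exact Or.inr h
    · left
      simpa [hd', h] using ha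
  have hs' : OfShape d' (fun x => (s x).val) := OfShape.mono hdd' hs
  obtain ⟨t, ⟨ht1, ht2, ht3⟩, h⟩ := colour_rel
    {t : Stem A | OfShape d' (fun x => (t x).val) ∧ StemLe s t ∧
      ∀ x x', (∀ γ, γ < β → pre (x γ) (d γ) = pre (x' γ) (d γ)) →
      pre (x β) (d β) = pre (x' β) (d β) → x β (d β) ≠ x' β (d β) →
      ¬ Compat ((t x).val β) ((t x').val β)}
    ((countable_stems hd'fin).mono fun t ht => ht.1)
    (fun F t => OfShape d' F ∧ ∀ x, F x ∈ Y ∧ (t x).Mem (F x)) (by
      intro φ hφ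
      obtain ⟨F, hF1, hF2, hFx, hsep⟩ := doubling hd hP β φ hφ
      have hF : OfShape d' F := by
        intro γ x x' hx
        have hx' : ∀ δ, δ ≤ γ → pre (x δ) (d δ) = pre (x' δ) (d δ) :=
          fun δ hδ => pre_mono_eq (hdd' δ) (hx δ hδ)
        rcases lt_or_ge γ β with h | h
        · exact hF1 x x' γ h hx'
        · apply hF2 x x' γ h hx'
          have := hx β h
          rw [hd', Function.update_self, pre_eq] at this
          exact this _ (Nat.lt_succ_self _)
      have h1 : ∀ᶠ p in (atTop : Filter (Finset A × ℕ)), ∀ x ∈ range (cut d'),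
          (∀ a, (s x).val a <+: (mk p (F x)).val a) ∧ ∀ x' ∈ range (cut d'), F x β ≠ F x' β →
            ¬ Compat ((mk p (F x)).val β) ((mk p (F x')).val β) := by
        rw [Filter.eventually_all_finite (finite_cut hd'fin)]
        intro x _
        refine (mk_ge (s x) (F x) (hFx x).2.1).and ?_
        rw [Filter.eventually_all_finite (finite_cut hd'fin)]
        intro x' _
        by_cases hne : F x β ≠ F x' β
        · filter_upwards [mk_sep (F x) (F x') β hne] with p hp _
          exact hp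
        · exact Filter.Eventually.of_forall fun p h => absurd h hne
      obtain ⟨p, hp⟩ := h1.exists
      refine ⟨F, fun x => mk p (F x), ⟨mk_shape hF p, fun x a => ?_, ?_⟩,
        ⟨hF, fun x => ⟨(hFx x).1, mk_mem p _⟩⟩, fun x => (hFx x).2.2⟩
      · have := (hp (cut d' x) ⟨x, rfl⟩).1 a
        rwa [OfShape.cut_eq hF, OfShape.stem_eq hs'] at this
      · intro x x' h1 _ h3
        have := (hp (cut d' x) ⟨x, rfl⟩).2 (cut d' x') ⟨x', rfl⟩
        rw [OfShape.cut_eq hF, OfShape.cut_eq hF] at this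
        exact this (hsep x x' h1 h3))
  refine ⟨t, ht1, ht2, fun φ hφ => ?_, ht3⟩
  obtain ⟨F, ⟨hF, hFx⟩, hav⟩ := h φ hφ
  exact ⟨F, hF, fun x => ⟨(hFx x).1, (hFx x).2, hav x⟩⟩

end Pool.Agent.H554
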